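import Mathlib

section

namespace Pool.Agent.MP_295da9_pr

/-- lowest set bit -/
def lb (u : ℕ) : ℕ := if u % 2 = 1 then 1 else if _h : u = 0 then 0 else 2 * lb (u / 2)
termination_by u
decreasing_by omega

lemma lb_odd (u : ℕ) : lb (2 * u + 1) = 1 := by
  rw [lb, if_pos (by omega)]

lemma lb_zero : lb 0 = 0 := by
  rw [lb]; simp

lemma lb_even (u : ℕ) : lb (2 * u) = 2 * lb u := by
  rcases Nat.eq_zero_or_pos u with rfl | h
  · simp [lb_zero]
  · rw [lb, if_neg (by omega), dif_neg (by omega)]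
    congr 2; omega

lemma lb_le (u : ℕ) : lb u ≤ u := by
  induction u using Nat.strong_induction_on with
  | _ u ih =>
    rcases Nat.even_or_odd' u with ⟨k, rfl | rfl⟩
    · rcases Nat.eq_zero_or_pos k with rfl | h
      · simp [lb_zero]
      · rw [lb_even]; have := ih k (by omega); omega
    · rw [lb_odd]; omega

lemma lb_cases (u : ℕ) : lb u = 0 ∨ ∃ i, lb u = 2 ^ i := by
  induction u using Nat.strong_induction_on with
  | _ u ih =>
    rcases Nat.even_or_odd' u with ⟨k, rfl | rfl⟩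
    · rcases Nat.eq_zero_or_pos k with rfl | h
      · simp [lb_zero]
      · rw [lb_even]
        rcases ih k (by omega) with h | ⟨i, h⟩
        · left; omega
        · right; exact ⟨i + 1, by rw [h, pow_succ]; ring⟩
    · rw [lb_odd]; exact Or.inr ⟨0, rfl⟩

lemma lb_mod (i : ℕ) : ∀ u, u % 2 ^ i ≠ 0 → lb u = lb (u % 2 ^ i) := by
  induction i with
  | zero => intro u h; simp [Nat.mod_one] at h
  | succ i ih =>
    intro u h
    rcases Nat.even_or_odd' u with ⟨k, rfl | rfl⟩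
    · rw [pow_succ', Nat.mul_mod_mul_left] at h ⊢
      rw [lb_even, lb_even, ih k (by omega)]
    · have h1 : (2 * k + 1) % 2 ^ (i + 1) = 2 * (k % 2 ^ i) + 1 := by
        have h2 : 0 < 2 ^ i := by positivity
        have h3 := Nat.div_add_mod k (2 ^ i)
        have h4 := Nat.mod_lt k h2
        have h5 : 2 * k + 1 = (2 * (k % 2 ^ i) + 1) + 2 ^ (i + 1) * (k / 2 ^ i) := by
          rw [pow_succ]; nlinarith
        rw [h5, Nat.add_mul_mod_self_left, Nat.mod_eq_of_lt]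
        rw [pow_succ]; omega
      rw [h1, lb_odd, lb_odd]

lemma lb_pow_mul (i q : ℕ) : lb (2 ^ i * (2 * q + 1)) = 2 ^ i := by
  induction i with
  | zero => simp [lb_odd]
  | succ i ih => rw [pow_succ', mul_assoc, lb_even, ih]

/-- length of the side branches at a node with remaining length `t` -/
def side (t : ℕ) : ℕ := if t % 4 = 0 then 0 else 4 * lb (t / 4)

lemma side_le (t : ℕ) : side t ≤ t - 1 := by
  unfold side
  split_ifs with h
  · omega
  · have := lb_le (t / 4); omega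

lemma side_side (t : ℕ) : side (side t) = 0 := by
  have : side t % 4 = 0 := by
    unfold side; split_ifs <;> omega
  rw [side, if_pos this]

lemma side_cases (t : ℕ) : side t = 0 ∨ ∃ i, side t = 4 * 2 ^ i := by
  unfold side
  split_ifs
  · exact Or.inl rfl
  · rcases lb_cases (t / 4) with h | ⟨i, h⟩
    · left; omega
    · right; exact ⟨i, by rw [h]⟩

lemma side_mod (i s : ℕ) (h : 4 ≤ s % (4 * 2 ^ i)) : side s = side (s % (4 * 2 ^ i)) := by
  have h1 : s % (4 * 2 ^ i) / 4 = s / 4 % 2 ^ i := Nat.mod_mul_right_div_self s 4 (2 ^ i)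
  have h2 : s % (4 * 2 ^ i) % 4 = s % 4 := Nat.mod_mul_right_mod s 4 (2 ^ i)
  unfold side
  rw [h1, h2, ← lb_mod i (s / 4) (by omega)]

lemma side_small {s : ℕ} (h : s < 4) : side s = 0 := by
  unfold side
  have : s / 4 = 0 := by omega
  simp [this, lb_zero]

lemma side_big (i q r : ℕ) (hr : 0 < r) (hr' : r < 4) :
    side (4 * (2 ^ i * (2 * q + 1)) + r) = 4 * 2 ^ i := by
  unfold side
  rw [if_neg (by omega)]
  have : (4 * (2 ^ i * (2 * q + 1)) + r) / 4 = 2 ^ i * (2 * q + 1) := by omega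
  rw [this, lb_pow_mul]

/-- number of descendants at depth `< m` of a node with remaining length `t` -/
def D : ℕ → ℕ → ℕ
  | _, 0 => 0
  | t, m + 1 => if t = 0 then 0 else 1 + D (t - 1) m + 2 * D (side t) m

lemma D_zero (m : ℕ) : D 0 m = 0 := by cases m <;> simp [D]

lemma D_succ (t m : ℕ) : D (t + 1) (m + 1) = 1 + D t m + 2 * D (side (t + 1)) m := by
  simp [D]

lemma D_le_succ (m : ℕ) : ∀ t, D t m ≤ D t (m + 1) := by
  induction m with
  | zero => intro t; simp [D]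
  | succ m ih =>
    intro t
    cases t with
    | zero => simp [D_zero]
    | succ t =>
      rw [D_succ, D_succ]
      have := ih t
      have := ih (side (t + 1))
      omega

lemma D_mono (t : ℕ) {m m' : ℕ} (h : m ≤ m') : D t m ≤ D t m' :=
  monotone_nat_of_le_succ (fun m => D_le_succ m t) h

/-- total size -/
def S (t : ℕ) : ℕ := D t t

lemma D_stab (t : ℕ) : ∀ m, t ≤ m → D t m = S t := by
  induction t using Nat.strong_induction_on with
  | _ t ih =>
    intro m hm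
    cases t with
    | zero => simp [S, D_zero]
    | succ t =>
      obtain ⟨m, rfl⟩ : ∃ k, m = k + 1 := ⟨m - 1, by omega⟩
      have hs := side_le (t + 1)
      unfold S
      rw [D_succ, D_succ, ih t (by omega) m (by omega), ih t (by omega) t le_rfl,
        ih _ (by omega) m (by omega), ih _ (by omega) t (by omega)]

lemma D_le_S (t m : ℕ) : D t m ≤ S t := by
  rw [← D_stab t (max t m) (le_max_left _ _)]
  exact D_mono t (le_max_right _ _)

lemma S_zero : S 0 = 0 := rfl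

lemma S_succ (t : ℕ) : S (t + 1) = 1 + S t + 2 * S (side (t + 1)) := by
  have hs := side_le (t + 1)
  rw [S, D_succ, D_stab t t le_rfl, D_stab _ t (by omega)]

lemma S_mono {t t' : ℕ} (h : t ≤ t') : S t ≤ S t' :=
  monotone_nat_of_le_succ (fun t => by rw [S_succ]; omega) h

lemma S_eq_sum (t : ℕ) : S t = ∑ x ∈ Finset.range t, (1 + 2 * S (side (x + 1))) := by
  induction t with
  | zero => simp [S_zero]
  | succ t ih => rw [S_succ, Finset.sum_range_succ, ← ih]; ring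

lemma S_add (i : ℕ) (x : ℕ) (hx : 3 ≤ x) (hx' : x ≤ 4 * 2 ^ i) :
    S (4 * 2 ^ i + x) = 7 * S (4 * 2 ^ i) + S x := by
  have hb : ∀ r, 0 < r → r < 4 → side (4 * 2 ^ i + r) = 4 * 2 ^ i := by
    intro r h1 h2
    have := side_big i 0 r h1 h2
    simpa using this
  have hpos : 0 < 2 ^ i := by positivity
  induction x, hx using Nat.le_induction with
  | base =>
    have e1 := S_succ (4 * 2 ^ i)
    have e2 := S_succ (4 * 2 ^ i + 1)
    have e3 := S_succ (4 * 2 ^ i + 2)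
    rw [hb 1 (by norm_num) (by norm_num)] at e1
    rw [add_assoc (4 * 2 ^ i), hb (1 + 1) (by norm_num) (by norm_num)] at e2
    rw [add_assoc (4 * 2 ^ i), hb (2 + 1) (by norm_num) (by norm_num)] at e3
    have e4 : S 3 = 3 := by
      rw [S_succ, S_succ, S_succ, side_small (by norm_num), side_small (by norm_num),
        side_small (by norm_num), S_zero]
    norm_num at e1 e2 e3
    omega
  | succ x hx ih =>
    rw [← add_assoc, S_succ, ih (by omega), S_succ]
    have : side (4 * 2 ^ i + x + 1) = side (x + 1) := by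
      by_cases h : x + 1 = 4 * 2 ^ i
      · unfold side
        rw [if_pos (by omega), if_pos (by omega)]
      · have h1 : (4 * 2 ^ i + x + 1) % (4 * 2 ^ i) = x + 1 := by
          rw [add_assoc, Nat.add_mod_left, Nat.mod_eq_of_lt (by omega)]
        rw [side_mod i _ (by omega), h1]
    rw [this]; ring

lemma S_pow (i : ℕ) : S (4 * 2 ^ i) = 4 * 8 ^ i := by
  induction i with
  | zero =>
    have : S 4 = 4 := by
      rw [S_succ, S_succ, S_succ, S_succ, side_small (s := 1) (by norm_num),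
        side_small (s := 1 + 1) (by norm_num), side_small (s := 2 + 1) (by norm_num), S_zero]
      have : side (3 + 1) = 0 := by simp [side]
      rw [this, S_zero]
    simpa using this
  | succ i ih =>
    have hpos : 0 < 2 ^ i := by positivity
    have : 4 * 2 ^ (i + 1) = 4 * 2 ^ i + 4 * 2 ^ i := by ring
    rw [this, S_add i _ (by omega) le_rfl, ih]; ring

lemma D_shift (k : ℕ) : ∀ t m, D t m ≤ D (t + k) (m + k) := by
  induction k with
  | zero => intro t m; rfl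
  | succ k ih =>
    intro t m
    rw [← add_assoc, ← add_assoc, D_succ]
    have := ih t m
    omega

lemma D_lower_pow (i t m : ℕ) (hm : 12 * 2 ^ i ≤ m) (ht : 12 * 2 ^ i + 1 ≤ t) :
    4 * 8 ^ i ≤ D t m := by
  have hpos : 0 < 2 ^ i := by positivity
  set a := t - (4 * 2 ^ i + 1) with ha
  set q := a / (8 * 2 ^ i) with hq
  set k := a % (8 * 2 ^ i) with hk
  have hk1 : k < 8 * 2 ^ i := Nat.mod_lt _ (by omega)
  have hdm : 8 * 2 ^ i * q + k = a := Nat.div_add_mod _ _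
  have h1 : t = (4 * (2 ^ i * (2 * q + 1)) + 1) + k := by
    have : 4 * (2 ^ i * (2 * q + 1)) = 8 * 2 ^ i * q + 4 * 2 ^ i := by ring
    omega
  obtain ⟨m', rfl⟩ : ∃ m', m = m' + 1 + k := ⟨m - k - 1, by omega⟩
  have h2 := D_shift k (4 * (2 ^ i * (2 * q + 1)) + 1) (m' + 1)
  rw [← h1, D_succ, side_big i q 1 (by norm_num) (by norm_num),
    D_stab (4 * 2 ^ i) m' (by omega), S_pow] at h2
  omega

lemma D_pos (t m : ℕ) (ht : 0 < t) (hm : 0 < m) : 0 < D t m := by
  obtain ⟨t, rfl⟩ : ∃ k, t = k + 1 := ⟨t - 1, by omega⟩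
  obtain ⟨m, rfl⟩ : ∃ k, m = k + 1 := ⟨m - 1, by omega⟩
  rw [D_succ]; omega

lemma exists_scale (c m : ℕ) (hc : 0 < c) (hm : c ≤ m) : ∃ i, c * 2 ^ i ≤ m ∧ m < c * 2 ^ (i + 1) := by
  have h0 : m / c ≠ 0 := by
    have := Nat.div_pos hm hc; omega
  refine ⟨Nat.log 2 (m / c), ?_, ?_⟩
  · have := Nat.pow_log_le_self 2 h0
    calc c * 2 ^ Nat.log 2 (m / c) ≤ c * (m / c) := Nat.mul_le_mul_left _ this
      _ ≤ m := Nat.mul_div_le _ _
  · have h1 := Nat.lt_pow_succ_log_self (b := 2) (by norm_num) (m / c)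
    have h2 := Nat.lt_mul_div_succ m hc
    calc m < c * (m / c + 1) := h2
      _ ≤ c * 2 ^ (Nat.log 2 (m / c) + 1) := Nat.mul_le_mul_left _ h1

/-- lower bound -/
lemma D_lower (t m : ℕ) (hm : 0 < m) (ht : m + 1 ≤ t) : m ^ 3 ≤ 3456 * D t m := by
  by_cases h : m < 12
  · have h1 := D_pos t m (by omega) hm
    have h2 : m ^ 3 ≤ 12 ^ 3 := Nat.pow_le_pow_left (by omega) 3
    omega
  · obtain ⟨i, h1, h2⟩ := exists_scale 12 m (by norm_num) (by omega)
    have h3 := D_lower_pow i t m h1 (by omega)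
    have h4 : m ^ 3 ≤ (12 * 2 ^ (i + 1)) ^ 3 := Nat.pow_le_pow_left h2.le 3
    have h5 : (12 * 2 ^ (i + 1)) ^ 3 = 3456 * (4 * 8 ^ i) := by
      have : (8 : ℕ) ^ i = (2 ^ i) ^ 3 := by rw [← pow_mul, mul_comm, pow_mul]; norm_num
      rw [this]; ring
    nlinarith

lemma D_le_sum (m : ℕ) : ∀ t, D t m ≤
    ∑ k ∈ Finset.range (min m t), (1 + 2 * D (side (t - k)) m) := by
  induction m with
  | zero => intro t; simp [D]
  | succ m ih =>
    intro t
    cases t with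
    | zero => simp [D_zero]
    | succ t =>
      rw [D_succ, Nat.succ_min_succ, Finset.sum_range_succ']
      have h1 := ih t
      have h2 : ∑ k ∈ Finset.range (min m t), (1 + 2 * D (side (t - k)) m) ≤
          ∑ k ∈ Finset.range (min m t), (1 + 2 * D (side (t + 1 - (k + 1))) (m + 1)) := by
        refine Finset.sum_le_sum fun k _ => ?_
        rw [Nat.add_sub_add_right]
        have := D_le_succ m (side (t - k))
        omega
      have h3 := D_le_succ m (side (t + 1))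
      simp only [Nat.sub_zero]
      omega

lemma window_sum_le (N m t : ℕ) (hN : 0 < N) (hm : m ≤ N) (p : ℕ → ℕ) :
    ∑ k ∈ Finset.range (min m t), p ((t - k) % N) ≤ ∑ x ∈ Finset.range N, p x := by
  rw [← Finset.sum_image (s := Finset.range (min m t)) (g := fun k => (t - k) % N) (f := p)]
  · refine Finset.sum_le_sum_of_subset ?_
    intro x hx
    obtain ⟨k, -, rfl⟩ := Finset.mem_image.mp hx
    exact Finset.mem_range.mpr (Nat.mod_lt _ hN)
  · intro a ha b hb hab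
    simp only [Finset.coe_range, Set.mem_Iio, lt_min_iff] at ha hb
    have h1 : (t - a) ≡ (t - b) [MOD N] := hab
    rcases le_total a b with h | h
    · have h2 := (Nat.modEq_iff_dvd' (by omega : t - b ≤ t - a)).mp h1.symm
      have h3 := Nat.eq_zero_of_dvd_of_lt h2 (by omega)
      omega
    · have h2 := (Nat.modEq_iff_dvd' (by omega : t - a ≤ t - b)).mp h1
      have h3 := Nat.eq_zero_of_dvd_of_lt h2 (by omega)
      omega

lemma sum_period (i : ℕ) :
    ∑ x ∈ Finset.range (4 * 2 ^ i), (1 + 2 * S (side x)) = S (4 * 2 ^ i) := by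
  have hpos : 0 < 2 ^ i := by positivity
  have h1 := Finset.sum_range_succ (fun x => 1 + 2 * S (side x)) (4 * 2 ^ i)
  have h2 := Finset.sum_range_succ' (fun x => 1 + 2 * S (side x)) (4 * 2 ^ i)
  have h3 : side (4 * 2 ^ i) = 0 := by unfold side; rw [if_pos (by omega)]
  have h4 : side 0 = 0 := side_small (by norm_num)
  rw [← S_eq_sum] at h2
  rw [h3] at h1
  rw [h4] at h2
  omega

lemma D_bush_le (i j m : ℕ) (hm : m + 4 ≤ 4 * 2 ^ i) : D (4 * 2 ^ j) m ≤ S (4 * 2 ^ i) := by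
  have hpos : 0 < 2 ^ i := by positivity
  by_cases hj : j ≤ i
  · exact (D_le_S _ _).trans (S_mono (Nat.mul_le_mul_left _ (Nat.pow_le_pow_right (by norm_num) hj)))
  · refine (D_le_sum m _).trans ?_
    rw [← sum_period i]
    refine le_trans (Finset.sum_le_sum fun k hk => ?_)
      (window_sum_le (4 * 2 ^ i) m (4 * 2 ^ j) (by omega) (by omega) (fun x => 1 + 2 * S (side x)))
    simp only [Finset.mem_range, lt_min_iff] at hk
    rcases Nat.eq_zero_or_pos k with rfl | hk0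
    · have h3 : side (4 * 2 ^ j - 0) = 0 := by unfold side; rw [if_pos (by omega)]
      rw [h3, D_zero]; omega
    · obtain ⟨d, rfl⟩ : ∃ d, j = i + d := ⟨j - i, by omega⟩
      have hd : 0 < 2 ^ d := by positivity
      have h1 : (4 * 2 ^ (i + d) - k) % (4 * 2 ^ i) = 4 * 2 ^ i - k := by
        have h2 : 4 * 2 ^ (i + d) = 4 * 2 ^ i + 4 * 2 ^ i * (2 ^ d - 1) := by
          obtain ⟨e, he⟩ : ∃ e, 2 ^ d = e + 1 := ⟨2 ^ d - 1, by omega⟩
          rw [pow_add, he]; simp; ring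
        have h3 : 4 * 2 ^ (i + d) - k = (4 * 2 ^ i - k) + 4 * 2 ^ i * (2 ^ d - 1) := by omega
        rw [h3, Nat.add_mul_mod_self_left, Nat.mod_eq_of_lt (by omega)]
      rw [← side_mod i _ (by omega)]
      have := D_le_S (side (4 * 2 ^ (i + d) - k)) m
      omega

lemma D_upper_pow (i t m : ℕ) (hm : m + 4 ≤ 4 * 2 ^ i) : D t m ≤ 36 * 8 ^ i := by
  have hpos : 0 < 2 ^ i := by positivity
  refine (D_le_sum m _).trans ?_
  refine le_trans (Finset.sum_le_sum fun k hk => ?_)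
    ((window_sum_le (4 * 2 ^ i) m t (by omega) (by omega)
      (fun x => (1 + 2 * S (side x)) + if x < 4 then 2 * S (4 * 2 ^ i) else 0)).trans ?_)
  · split_ifs with h
    · rcases side_cases (t - k) with h1 | ⟨j, h1⟩
      · rw [h1, D_zero]; omega
      · rw [h1]
        have := D_bush_le i j m hm
        omega
    · rw [← side_mod i _ (by omega)]
      have := D_le_S (side (t - k)) m
      omega
  · rw [Finset.sum_add_distrib, sum_period, ← Finset.sum_filter, Finset.sum_const, S_pow]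
    have : (Finset.filter (fun x => x < 4) (Finset.range (4 * 2 ^ i))).card ≤ 4 := by
      refine (Finset.card_le_card (t := Finset.range 4) ?_).trans (by simp)
      intro x hx
      exact Finset.mem_range.mpr (Finset.mem_filter.mp hx).2
    simp only [smul_eq_mul]
    nlinarith [Nat.zero_le (8 ^ i)]

/-- upper bound -/
lemma D_upper (t m : ℕ) : D t m ≤ 5 * (m + 4) ^ 3 := by
  obtain ⟨i, h1, h2⟩ := exists_scale 2 (m + 4) (by norm_num) (by omega)
  have h3 := D_upper_pow i t m (by rw [pow_succ] at h2; omega)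
  have h4 : (2 * 2 ^ i) ^ 3 ≤ (m + 4) ^ 3 := Nat.pow_le_pow_left h1 3
  have h5 : (2 * 2 ^ i) ^ 3 = 8 * 8 ^ i := by
    have : (8 : ℕ) ^ i = (2 ^ i) ^ 3 := by rw [← pow_mul, mul_comm, pow_mul]; norm_num
    rw [this]; ring
  omega

end Pool.Agent.MP_295da9_pr

end

section

namespace Pool.Agent.MP_295da9_pr

/-- slots of the ternary tree rooted at infinity -/
abbrev Slot := ℤ × ℕ

def par (σ : Slot) : Slot := (σ.1 + 1, σ.2 / 3)

def child (i : Fin 3) (σ : Slot) : Slot := (σ.1 - 1, 3 * σ.2 + i)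

def lab (σ : Slot) : Fin 3 := ⟨σ.2 % 3, Nat.mod_lt _ (by norm_num)⟩

@[simp] lemma par_child (i : Fin 3) (σ : Slot) : par (child i σ) = σ := by
  have := i.2
  ext
  · simp [par, child]
  · simp only [par, child]; omega

@[simp] lemma lab_child (i : Fin 3) (σ : Slot) : lab (child i σ) = i := by
  have := i.2
  ext
  simp only [lab, child]; omega

lemma child_lab_par (σ : Slot) : child (lab σ) (par σ) = σ := by
  ext
  · simp [par, child]
  · simp only [par, child, lab]; omega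

lemma child_zero_spine (l : ℤ) : child 0 (l, 0) = (l - 1, 0) := by simp [child]

lemma slot_induction {p : Slot → Prop} (h0 : ∀ l : ℤ, p (l, 0))
    (h1 : ∀ σ i, p σ → p (child i σ)) (σ : Slot) : p σ := by
  obtain ⟨l, N⟩ := σ
  induction N using Nat.strong_induction_on generalizing l with
  | _ N ih =>
    rcases Nat.eq_zero_or_pos N with rfl | h
    · exact h0 l
    · rw [← child_lab_par (l, N)]
      exact h1 _ _ (ih (N / 3) (by omega) (l + 1))

/-- top-down recursion on slots -/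
def slotRec {α : Type*} (base : ℤ → α) (step : Fin 3 → Slot → α → α) (l : ℤ) (N : ℕ) : α :=
  if _h : N = 0 then base l
  else step (lab (l, N)) (par (l, N)) (slotRec base step (l + 1) (N / 3))
termination_by N
decreasing_by omega

lemma slotRec_spine {α : Type*} (base : ℤ → α) (step : Fin 3 → Slot → α → α) (l : ℤ) :
    slotRec base step l 0 = base l := by
  rw [slotRec]; simp

lemma slotRec_child {α : Type*} (base : ℤ → α) (step : Fin 3 → Slot → α → α)
    (hb : ∀ l, base (l - 1) = step 0 (l, 0) (base l)) (i : Fin 3) (σ : Slot) :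
    slotRec base step (child i σ).1 (child i σ).2 = step i σ (slotRec base step σ.1 σ.2) := by
  by_cases h : (child i σ).2 = 0
  · obtain ⟨l, N⟩ := σ
    simp only [child] at h
    have hN : N = 0 := by omega
    have hi : i = 0 := by ext; simp; omega
    subst hN hi
    simp only [child_zero_spine, slotRec_spine, hb]
  · rw [slotRec, dif_neg h]
    have h1 : ((child i σ).1, (child i σ).2) = child i σ := rfl
    rw [h1, lab_child, par_child]
    have h2 := par_child i σ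
    have h3 : (child i σ).1 + 1 = σ.1 := congrArg Prod.fst h2
    have h4 : (child i σ).2 / 3 = σ.2 := congrArg Prod.snd h2
    rw [h3, h4]

def nxt (i : Fin 3) (t : ℕ) : ℕ := if i = 0 then t - 1 else side t

/-- remaining length -/
def st (σ : Slot) : ℕ := slotRec Int.toNat (fun i _ t => nxt i t) σ.1 σ.2

lemma st_spine (l : ℤ) : st (l, 0) = l.toNat := slotRec_spine _ _ _

lemma st_child (i : Fin 3) (σ : Slot) : st (child i σ) = nxt i (st σ) :=
  slotRec_child _ _ (fun l => by simp [nxt]) i σ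

lemma nxt_le (i : Fin 3) (t : ℕ) : nxt i t ≤ t - 1 := by
  unfold nxt; split_ifs
  · rfl
  · exact side_le t

lemma st_le_par (σ : Slot) : st σ ≤ st (par σ) - 1 := by
  conv_lhs => rw [← child_lab_par σ, st_child]
  exact nxt_le _ _

/-- drop vertex `i` and append `w` -/
def upd {α : Type*} (i : Fin 3) (T : Fin 3 → α) (w : α) : Fin 3 → α :=
  ![T (if i = 0 then 1 else 0), T (if i = 2 then 1 else 2), w]

/-- the ordered triangle of a slot -/
def tri (σ : Slot) : Fin 3 → Slot :=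
  slotRec (fun l => ![(l + 3, 0), (l + 2, 0), (l + 1, 0)]) (fun i σ T => upd i T σ) σ.1 σ.2

lemma tri_spine (l : ℤ) : tri (l, 0) = ![(l + 3, 0), (l + 2, 0), (l + 1, 0)] :=
  slotRec_spine _ _ _

lemma tri_child (i : Fin 3) (σ : Slot) : tri (child i σ) = upd i (tri σ) σ :=
  slotRec_child _ _ (fun l => by
    ext j : 1
    fin_cases j <;> simp [upd] <;> ring) i σ

/-- ancestors -/
def anc (k : ℕ) (σ : Slot) : Slot := par^[k] σ

@[simp] lemma anc_zero (σ : Slot) : anc 0 σ = σ := rfl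

lemma anc_succ (k : ℕ) (σ : Slot) : anc (k + 1) σ = anc k (par σ) := rfl

lemma anc_succ' (k : ℕ) (σ : Slot) : anc (k + 1) σ = par (anc k σ) :=
  Function.iterate_succ_apply' _ _ _

lemma anc_add (a b : ℕ) (σ : Slot) : anc (a + b) σ = anc a (anc b σ) :=
  Function.iterate_add_apply _ _ _ _

lemma anc_succ_child (k : ℕ) (i : Fin 3) (σ : Slot) : anc (k + 1) (child i σ) = anc k σ := by
  rw [anc_succ, par_child]

lemma anc_fst (k : ℕ) (σ : Slot) : (anc k σ).1 = σ.1 + k := by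
  induction k with
  | zero => simp
  | succ k ih => rw [anc_succ', par, ih]; push_cast; ring

lemma anc_snd (k : ℕ) (σ : Slot) : (anc k σ).2 = σ.2 / 3 ^ k := by
  induction k with
  | zero => simp
  | succ k ih => rw [anc_succ', par, ih, pow_succ, Nat.div_div_eq_div_mul]

lemma anc_spine (k : ℕ) (l : ℤ) : anc k (l, 0) = (l + k, 0) := by
  ext
  · rw [anc_fst]
  · rw [anc_snd]; simp

lemma anc_inj {a b : ℕ} {σ : Slot} (h : anc a σ = anc b σ) : a = b := by
  have := congrArg Prod.fst h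
  rw [anc_fst, anc_fst] at this
  omega

lemma st_anc (k : ℕ) (σ : Slot) (h : st σ ≠ 0) : st σ + k ≤ st (anc k σ) := by
  induction k with
  | zero => simp
  | succ k ih =>
    rw [anc_succ']
    have := st_le_par (anc k σ)
    omega

lemma exists_spine_anc (σ : Slot) : ∃ l0 : ℤ, ∀ l, l0 ≤ l → ∃ k, anc k σ = (l, 0) := by
  refine ⟨σ.1 + σ.2, fun l hl => ⟨(l - σ.1).toNat, ?_⟩⟩
  ext
  · rw [anc_fst]; simp; omega
  · rw [anc_snd]
    apply Nat.div_eq_of_lt
    have h1 : σ.2 ≤ (l - σ.1).toNat := by omega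
    calc σ.2 < 3 ^ σ.2 := Nat.lt_pow_self (by norm_num)
      _ ≤ _ := Nat.pow_le_pow_right (by norm_num) h1

lemma tri_anc (σ : Slot) : ∃ k0 k1 : ℕ, tri σ 0 = anc k0 σ ∧ tri σ 1 = anc k1 σ ∧
    tri σ 2 = anc 1 σ ∧ 1 < k1 ∧ k1 < k0 ∧
    (st σ ≠ 0 → k0 ≤ 5 ∧ k1 ≤ 3 ∧ (side (st σ) ≠ 0 → k0 ≤ 4 ∧ k1 = 2)) := by
  induction σ using slot_induction with
  | h0 l =>
    refine ⟨3, 2, ?_, ?_, ?_, by norm_num, by norm_num, by simp⟩ <;>
      simp [tri_spine, anc_spine]
  | h1 σ i ih =>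
    obtain ⟨k0, k1, h0, h1, h2, h3, h4, h5⟩ := ih
    have hle := nxt_le i (st σ)
    rw [tri_child, st_child]
    fin_cases i
    · refine ⟨k1 + 1, 2, ?_, ?_, ?_, by norm_num, by omega, fun h => ?_⟩
      · simp [upd, anc_succ_child, h1]
      · simp [upd, anc_succ_child, h2]
      · simp [upd, anc_succ_child]
      · have := h5 (by intro h'; rw [h'] at hle h; omega)
        omega
    · refine ⟨k0 + 1, 2, ?_, ?_, ?_, by norm_num, by omega, fun h => ?_⟩
      · simp [upd, anc_succ_child, h0]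
      · simp [upd, anc_succ_child, h2]
      · simp [upd, anc_succ_child]
      · have h6 := h5 (by intro h'; rw [h'] at hle h; omega)
        simp only [nxt] at h ⊢
        simp at h ⊢
        have := h6.2.2 h
        simp [side_side]; omega
    · refine ⟨k0 + 1, k1 + 1, ?_, ?_, ?_, by omega, by omega, fun h => ?_⟩
      · simp [upd, anc_succ_child, h0]
      · simp [upd, anc_succ_child, h1]
      · simp [upd, anc_succ_child]
      · have h6 := h5 (by intro h'; rw [h'] at hle h; omega)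
        simp only [nxt] at h ⊢
        simp at h ⊢
        have := h6.2.2 h
        simp [side_side]; omega

lemma tri_two (σ : Slot) : tri σ 2 = par σ := by
  obtain ⟨k0, k1, h0, h1, h2, -⟩ := tri_anc σ
  exact h2

lemma tri_eq_anc (σ : Slot) (j : Fin 3) :
    ∃ k, 1 ≤ k ∧ tri σ j = anc k σ ∧ (st σ ≠ 0 → k ≤ 5) := by
  obtain ⟨k0, k1, h0, h1, h2, h3, h4, h5⟩ := tri_anc σ
  fin_cases j
  · exact ⟨k0, by omega, h0, fun h => (h5 h).1⟩
  · exact ⟨k1, by omega, h1, fun h => by have := h5 h; omega⟩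
  · exact ⟨1, le_rfl, h2, fun _ => by norm_num⟩

lemma tri_injective (σ : Slot) : Function.Injective (tri σ) := by
  obtain ⟨k0, k1, h0, h1, h2, h3, h4, -⟩ := tri_anc σ
  intro a b hab
  fin_cases a <;> fin_cases b <;> simp only [Fin.zero_eta, Fin.mk_one, Fin.reduceFinMk] at hab ⊢ <;>
    first
    | rfl
    | (simp only [h0, h1, h2] at hab; have := anc_inj hab; omega)

lemma tri_ne_self (σ : Slot) (j : Fin 3) : tri σ j ≠ σ := by
  obtain ⟨k, hk, h, -⟩ := tri_eq_anc σ j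
  rw [h]
  intro h'
  have := anc_inj (h'.trans (anc_zero σ).symm)
  omega

lemma st_tri_ne (σ : Slot) (h : st (par σ) ≠ 0) (j : Fin 3) : st (tri σ j) ≠ 0 := by
  obtain ⟨k, hk, h1, -⟩ := tri_eq_anc σ j
  obtain ⟨k, rfl⟩ : ∃ k', k = k' + 1 := ⟨k - 1, by omega⟩
  rw [h1, anc_succ]
  have := st_anc k _ h
  omega

lemma st_par_ne {σ : Slot} (h : st σ ≠ 0) : st (par σ) ≠ 0 := by
  have := st_le_par σ; omega

lemma upd_mem {α : Type*} (i : Fin 3) (T : Fin 3 → α) (w : α) (j : Fin 3) :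
    upd i T w j = w ∨ ∃ a, a ≠ i ∧ upd i T w j = T a := by
  fin_cases j
  · right; refine ⟨if i = 0 then 1 else 0, ?_, rfl⟩; fin_cases i <;> simp
  · right; refine ⟨if i = 2 then 1 else 2, ?_, rfl⟩; fin_cases i <;> simp
  · left; rfl

lemma mem_upd {α : Type*} (i : Fin 3) (T : Fin 3 → α) (w : α) (a : Fin 3) (ha : a ≠ i) :
    ∃ j, upd i T w j = T a := by
  fin_cases i <;> fin_cases a <;> simp at ha <;>
    first
    | exact ⟨0, rfl⟩
    | exact ⟨1, rfl⟩

/-- two vertices of a triangle are related -/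
lemma tri_rel (σ : Slot) : ∀ a b : Fin 3, a ≠ b →
    (∃ j, tri (tri σ a) j = tri σ b) ∨ (∃ j, tri (tri σ b) j = tri σ a) := by
  induction σ using slot_induction with
  | h0 l =>
    intro a b hab
    have e1 : tri (l + 1, 0) 1 = (l + 3, 0) := by simp [tri_spine]; ring
    have e2 : tri (l + 1, 0) 2 = (l + 2, 0) := by simp [tri_spine]; ring
    have e3 : tri (l + 2, 0) 2 = (l + 3, 0) := by simp [tri_spine]; ring
    rw [tri_spine]
    fin_cases a <;> fin_cases b <;> simp at hab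
    · exact Or.inr ⟨2, e3⟩
    · exact Or.inr ⟨1, e1⟩
    · exact Or.inl ⟨2, e3⟩
    · exact Or.inr ⟨2, e2⟩
    · exact Or.inl ⟨1, e1⟩
    · exact Or.inl ⟨2, e2⟩
  | h1 σ i ih =>
    intro a b hab
    have hinj := (tri_injective (child i σ)).ne hab
    rw [tri_child] at hinj ⊢
    rcases upd_mem i (tri σ) σ a with ha | ⟨a', -, ha⟩
    · rcases upd_mem i (tri σ) σ b with hb | ⟨b', -, hb⟩
      · exact absurd (ha.trans hb.symm) hinj
      · rw [ha, hb]; exact Or.inl ⟨b', rfl⟩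
    · rcases upd_mem i (tri σ) σ b with hb | ⟨b', -, hb⟩
      · rw [ha, hb]; exact Or.inr ⟨a', rfl⟩
      · rw [ha, hb] at hinj ⊢
        exact ih a' b' (fun h => hinj (by rw [h]))

/-- leaf slots are the faces -/
def IsLeaf (τ : Slot) : Prop := st τ = 0 ∧ st (par τ) ≠ 0

lemma exists_leaf (σ : Slot) (h : st (par σ) ≠ 0) (a b : Fin 3) :
    ∃ τ, IsLeaf τ ∧ (∃ j, tri τ j = tri σ a) ∧ ∃ j, tri τ j = tri σ b := by
  induction hn : st σ using Nat.strong_induction_on generalizing σ a b with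
  | _ n ih =>
    by_cases h0 : st σ = 0
    · exact ⟨σ, ⟨h0, h⟩, ⟨a, rfl⟩, ⟨b, rfl⟩⟩
    · obtain ⟨i, hia, hib⟩ : ∃ i : Fin 3, a ≠ i ∧ b ≠ i := by
        revert a b; decide
      obtain ⟨a', ha'⟩ := mem_upd i (tri σ) σ a hia
      obtain ⟨b', hb'⟩ := mem_upd i (tri σ) σ b hib
      have hle := nxt_le i (st σ)
      obtain ⟨τ, h1, h2, h3⟩ := ih (st (child i σ)) (by rw [st_child]; omega) (child i σ)
        (by rwa [par_child]) a' b' rfl
      rw [tri_child, ha'] at h2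
      rw [tri_child, hb'] at h3
      exact ⟨τ, h1, h2, h3⟩

lemma tri_desc (σ : Slot) (k : ℕ) : ∀ u, anc k u = σ → ∀ j,
    (∃ k', anc k' (tri u j) = σ) ∨ ∃ j', tri u j = tri σ j' := by
  induction k with
  | zero => rintro u rfl j; exact Or.inr ⟨j, rfl⟩
  | succ k ih =>
    intro u hu j
    rw [anc_succ] at hu
    rw [← child_lab_par u, tri_child]
    rcases upd_mem (lab u) (tri (par u)) (par u) j with h | ⟨a, -, h⟩
    · rw [h]; exact Or.inl ⟨k, hu⟩
    · rw [h]; exact ih _ hu a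

/-- descendants in the tree at depth `< m` -/
def DF : Slot → ℕ → Finset Slot
  | _, 0 => ∅
  | σ, m + 1 => if st σ = 0 then ∅ else
      insert σ (Finset.univ.biUnion fun i : Fin 3 => DF (child i σ) m)

lemma mem_DF (m : ℕ) : ∀ σ τ, τ ∈ DF σ m ↔ st τ ≠ 0 ∧ ∃ k < m, anc k τ = σ := by
  induction m with
  | zero => intro σ τ; simp [DF]
  | succ m ih =>
    intro σ τ
    rw [DF]
    split_ifs with h
    · simp only [Finset.notMem_empty, false_iff, not_and, not_exists]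
      rintro h1 k - rfl
      have := st_anc k τ h1
      omega
    · simp only [Finset.mem_insert, Finset.mem_biUnion, Finset.mem_univ, true_and, ih]
      constructor
      · rintro (rfl | ⟨i, h1, k, hk, h2⟩)
        · exact ⟨h, 0, by omega, rfl⟩
        · exact ⟨h1, k + 1, by omega, by rw [anc_succ', h2, par_child]⟩
      · rintro ⟨h1, k, hk, h2⟩
        cases k with
        | zero => exact Or.inl h2
        | succ k =>
          right
          refine ⟨lab (anc k τ), h1, k, by omega, ?_⟩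
          rw [← h2, anc_succ', child_lab_par]

lemma card_DF (m : ℕ) : ∀ σ, (DF σ m).card = D (st σ) m := by
  induction m with
  | zero => intro σ; simp [DF, D]
  | succ m ih =>
    intro σ
    rw [DF, D]
    split_ifs with h
    · simp
    · rw [Finset.card_insert_of_notMem, Finset.card_biUnion]
      · simp only [ih, st_child, Fin.sum_univ_three, nxt]
        simp; ring
      · intro i _ j _ hij
        rw [Function.onFun, Finset.disjoint_left]
        intro τ h1 h2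
        rw [mem_DF] at h1 h2
        obtain ⟨-, k, -, h1⟩ := h1
        obtain ⟨-, k', -, h2⟩ := h2
        have h3 := congrArg Prod.fst h1
        have h4 := congrArg Prod.fst h2
        rw [anc_fst] at h3 h4
        simp only [child] at h3 h4
        have : k = k' := by omega
        subst this
        have h5 := congrArg lab (h1.symm.trans h2)
        simp at h5
        exact hij h5
      · simp only [Finset.mem_biUnion, Finset.mem_univ, true_and, not_exists, mem_DF]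
        rintro i ⟨-, k, -, h1⟩
        have h3 := congrArg Prod.fst h1
        rw [anc_fst] at h3
        simp only [child] at h3
        omega

lemma finite_desc (σ : Slot) : {τ | st τ ≠ 0 ∧ ∃ k, anc k τ = σ}.Finite := by
  refine (DF σ (st σ)).finite_toSet.subset ?_
  rintro τ ⟨h1, k, rfl⟩
  rw [Finset.mem_coe, mem_DF]
  have := st_anc k τ h1
  exact ⟨h1, k, by omega, rfl⟩

end Pool.Agent.MP_295da9_pr

end

section

namespace Pool.Agent.MP_295da9_pr

variable {E : Type*} [AddCommGroup E] [Module ℝ E]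

/-- barycentric coordinates -/
def IsBC (T : Fin 3 → E) (x : E) (b : Fin 3 → ℝ) : Prop :=
  b 0 + b 1 + b 2 = 1 ∧ b 0 • T 0 + b 1 • T 1 + b 2 • T 2 = x

def Good (T : Fin 3 → E) : Prop := ∀ x, ∃! b, IsBC T x b

noncomputable def ctr (T : Fin 3 → E) : E := (1 / 3 : ℝ) • (T 0 + T 1 + T 2)

def updB (i : Fin 3) (b : Fin 3 → ℝ) : Fin 3 → ℝ :=
  ![b (if i = 0 then 1 else 0) - b i, b (if i = 2 then 1 else 2) - b i, 3 * b i]

lemma isBC_upd_iff (i : Fin 3) (T : Fin 3 → E) (x : E) (b : Fin 3 → ℝ) :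
    IsBC (upd i T (ctr T)) x (updB i b) ↔ IsBC T x b := by
  unfold IsBC
  have h1 : updB i b 0 + updB i b 1 + updB i b 2 = b 0 + b 1 + b 2 := by
    fin_cases i <;> simp [updB] <;> ring
  have h2 : updB i b 0 • upd i T (ctr T) 0 + updB i b 1 • upd i T (ctr T) 1 +
      updB i b 2 • upd i T (ctr T) 2 = b 0 • T 0 + b 1 • T 1 + b 2 • T 2 := by
    fin_cases i <;> simp [updB, upd, ctr] <;> module
  rw [h1, h2]

lemma updB_surj (i : Fin 3) (b' : Fin 3 → ℝ) : ∃ b, updB i b = b' := by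
  fin_cases i
  · exact ⟨![b' 2 / 3, b' 0 + b' 2 / 3, b' 1 + b' 2 / 3], by
      ext j; fin_cases j <;> simp [updB] <;> ring⟩
  · exact ⟨![b' 0 + b' 2 / 3, b' 2 / 3, b' 1 + b' 2 / 3], by
      ext j; fin_cases j <;> simp [updB] <;> ring⟩
  · exact ⟨![b' 0 + b' 2 / 3, b' 1 + b' 2 / 3, b' 2 / 3], by
      ext j; fin_cases j <;> simp [updB] <;> ring⟩

lemma Good.upd {T : Fin 3 → E} (h : Good T) (i : Fin 3) : Good (upd i T (ctr T)) := by
  intro x
  obtain ⟨b, hb, hu⟩ := h x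
  refine ⟨updB i b, (isBC_upd_iff i T x b).mpr hb, fun b' hb' => ?_⟩
  obtain ⟨c, rfl⟩ := updB_surj i b'
  rw [hu c ((isBC_upd_iff i T x c).mp hb')]

lemma updB_nonneg_iff (i : Fin 3) (b : Fin 3 → ℝ) :
    (∀ j, 0 ≤ updB i b j) ↔ 0 ≤ b i ∧ ∀ j, b i ≤ b j := by
  simp only [Fin.forall_fin_succ, IsEmpty.forall_iff, and_true]
  fin_cases i <;> simp [updB] <;> tauto

open Classical in
/-- weights on vertices -/
noncomputable def wt {α : Type*} (T : Fin 3 → α) (b : Fin 3 → ℝ) (v : α) : ℝ :=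
  ∑ j, if T j = v then b j else 0

lemma wt_upd_zero {α : Type*} (i : Fin 3) (T : Fin 3 → α) (w : α) (b : Fin 3 → ℝ) (h : b i = 0) :
    wt (upd i T w) (updB i b) = wt T b := by
  funext v
  unfold wt
  simp only [Fin.sum_univ_three]
  fin_cases i <;> simp [updB, upd] at h ⊢ <;> simp [h] <;> rfl

lemma wt_upd_upd {α : Type*} (i i' : Fin 3) (hi : i ≠ i') (T : Fin 3 → α) (w : α)
    (b : Fin 3 → ℝ) (h : b i = b i') :
    wt (upd i T w) (updB i b) = wt (upd i' T w) (updB i' b) ∧ ∃ j, updB i b j = 0 := by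
  constructor
  · funext v
    unfold wt
    simp only [Fin.sum_univ_three]
    fin_cases i <;> fin_cases i' <;> simp [updB, upd] at h hi ⊢ <;> simp [h] <;> rfl
  · fin_cases i <;> fin_cases i' <;> simp [updB] at h hi ⊢ <;>
      first
      | (refine ⟨0, ?_⟩; simp [h]; done)
      | (refine ⟨1, ?_⟩; simp [h]; done)

lemma wt_apply {α : Type*} {T : Fin 3 → α} (hT : Function.Injective T) (b : Fin 3 → ℝ)
    (j : Fin 3) : wt T b (T j) = b j := by
  unfold wt
  simp [hT.eq_iff]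

lemma exists_of_wt_ne {α : Type*} {T : Fin 3 → α} {b : Fin 3 → ℝ} {v : α} (h : wt T b v ≠ 0) :
    ∃ j, T j = v ∧ b j ≠ 0 := by
  unfold wt at h
  obtain ⟨j, -, hj⟩ := Finset.exists_ne_zero_of_sum_ne_zero h
  split_ifs at hj with h1
  · exact ⟨j, h1, hj⟩
  · exact absurd rfl hj

lemma isBC_vertex (T : Fin 3 → E) (j : Fin 3) : IsBC T (T j) (Pi.single j 1) := by
  fin_cases j <;> simp [IsBC]

lemma Good.affineIndependent {T : Fin 3 → E} (h : Good T) : AffineIndependent ℝ T := by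
  rw [affineIndependent_iff_of_fintype]
  intro w hw hs
  rw [Finset.weightedVSub_eq_linear_combination _ hw] at hs
  simp only [Fin.sum_univ_three] at hw hs
  have h1 := isBC_vertex T 0
  have h2 : IsBC T (T 0) (Pi.single 0 1 + w) := by
    constructor
    · simp; linarith
    · simp only [Pi.add_apply, add_smul]
      have := h1.2
      linear_combination (norm := module) this + hs
  have h3 := (h (T 0)).unique h1 h2
  intro i
  have := congrFun h3 i
  simpa using this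

lemma Good.of_mem_convexHull {T : Fin 3 → E} (h : Good T) {s : Set E} (hs : s ⊆ Set.range T)
    {x : E} (hx : x ∈ convexHull ℝ s) {b : Fin 3 → ℝ} (hb : IsBC T x b) :
    (∀ j, 0 ≤ b j) ∧ ∀ j, T j ∉ s → b j = 0 := by
  have h1 : convexHull ℝ s ⊆ {x | ∃ b, IsBC T x b ∧ (∀ j, 0 ≤ b j) ∧ ∀ j, T j ∉ s → b j = 0} := by
    apply convexHull_min
    · intro y hy
      obtain ⟨j, rfl⟩ := hs hy
      refine ⟨_, isBC_vertex T j, fun k => ?_, fun k hk => ?_⟩
      · rw [Pi.single_apply]; split_ifs <;> norm_num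
      · rw [Pi.single_apply, if_neg]; rintro rfl; exact hk hy
    · rintro y ⟨c, hc1, hc2, hc3⟩ z ⟨d, hd1, hd2, hd3⟩ α β hα hβ hαβ
      refine ⟨α • c + β • d, ⟨?_, ?_⟩, fun j => ?_, fun j hj => ?_⟩
      · simp only [Pi.add_apply, Pi.smul_apply, smul_eq_mul]
        linear_combination α * hc1.1 + β * hd1.1 + hαβ
      · rw [← hc1.2, ← hd1.2]
        simp only [Pi.add_apply, Pi.smul_apply, smul_eq_mul]
        module
      · have := hc2 j
        have := hd2 j
        simp only [Pi.add_apply, Pi.smul_apply, smul_eq_mul]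
        positivity
      · simp [hc3 j hj, hd3 j hj]
  obtain ⟨c, hc1, hc2⟩ := h1 hx
  rw [(h x).unique hb hc1]
  exact hc2

lemma IsBC.mem_convexHull {T : Fin 3 → E} {x : E} {b : Fin 3 → ℝ} (hb : IsBC T x b)
    (h0 : ∀ j, 0 ≤ b j) {A : Set E} (hA : ∀ j, b j ≠ 0 → T j ∈ A) : x ∈ convexHull ℝ A := by
  classical
  have h1 := (convex_convexHull ℝ A).sum_mem (t := Finset.univ.filter fun j => b j ≠ 0)
    (w := b) (z := T) (fun j _ => h0 j)
    (by rw [Finset.sum_filter_ne_zero, Fin.sum_univ_three]; exact hb.1)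
    (fun j hj => subset_convexHull ℝ A (hA j (Finset.mem_filter.mp hj).2))
  have h2 : ∑ j ∈ Finset.univ.filter (fun j => b j ≠ 0), b j • T j = ∑ j, b j • T j :=
    Finset.sum_filter_of_ne (fun j _ hj h => hj (by simp [h]))
  rw [h2, Fin.sum_univ_three, hb.2] at h1
  exact h1

/-- spine triangles -/
def spT (P : ℤ → E) (l : ℤ) : Fin 3 → E := ![P (l + 3), P (l + 2), P (l + 1)]

/-- hypotheses on the spine positions -/
structure Spine (P : ℤ → E) : Prop where
  ctr_eq : ∀ l, ctr (spT P l) = P l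
  good : ∀ l, Good (spT P l)

/-- positions of the triangle of a slot -/
noncomputable def Tp (P : ℤ → E) (σ : Slot) : Fin 3 → E :=
  slotRec (spT P) (fun i _ T => upd i T (ctr T)) σ.1 σ.2

noncomputable def pos (P : ℤ → E) (σ : Slot) : E := ctr (Tp P σ)

variable {P : ℤ → E}

lemma Tp_spine (l : ℤ) : Tp P (l, 0) = spT P l := slotRec_spine _ _ _

lemma Tp_child (hP : Spine P) (i : Fin 3) (σ : Slot) :
    Tp P (child i σ) = upd i (Tp P σ) (ctr (Tp P σ)) :=
  slotRec_child _ _ (fun l => by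
    rw [hP.ctr_eq]
    ext j : 1
    fin_cases j <;> simp [upd, spT] <;> ring_nf) i σ

lemma Tp_eq (hP : Spine P) (σ : Slot) : ∀ j, Tp P σ j = pos P (tri σ j) := by
  induction σ using slot_induction with
  | h0 l =>
    intro j
    rw [Tp_spine, tri_spine]
    fin_cases j <;> simp [pos, Tp_spine, spT]
    all_goals exact (hP.ctr_eq _).symm
  | h1 σ i ih =>
    intro j
    rw [Tp_child hP, tri_child]
    fin_cases j <;> simp [upd, ih, pos]

lemma good_Tp (hP : Spine P) (σ : Slot) : Good (Tp P σ) := by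
  induction σ using slot_induction with
  | h0 l => rw [Tp_spine]; exact hP.good l
  | h1 σ i ih => rw [Tp_child hP]; exact ih.upd i

/-- barycentric coordinates in the triangle of a slot -/
noncomputable def bc (hP : Spine P) (σ : Slot) (x : E) : Fin 3 → ℝ :=
  (good_Tp hP σ x).exists.choose

lemma isBC_bc (hP : Spine P) (σ : Slot) (x : E) : IsBC (Tp P σ) x (bc hP σ x) :=
  (good_Tp hP σ x).exists.choose_spec

lemma bc_eq (hP : Spine P) {σ : Slot} {x : E} {b : Fin 3 → ℝ} (h : IsBC (Tp P σ) x b) :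
    bc hP σ x = b := (good_Tp hP σ x).unique (isBC_bc hP σ x) h

lemma bc_child (hP : Spine P) (i : Fin 3) (σ : Slot) (x : E) :
    bc hP (child i σ) x = updB i (bc hP σ x) := by
  apply bc_eq
  rw [Tp_child hP, isBC_upd_iff]
  exact isBC_bc hP σ x

/-- closed triangle of a slot -/
def Reg (hP : Spine P) (σ : Slot) (x : E) : Prop := ∀ j, 0 ≤ bc hP σ x j

lemma reg_child_iff (hP : Spine P) (i : Fin 3) (σ : Slot) (x : E) :
    Reg hP (child i σ) x ↔ 0 ≤ bc hP σ x i ∧ ∀ j, bc hP σ x i ≤ bc hP σ x j := by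
  unfold Reg
  rw [bc_child, updB_nonneg_iff]

lemma Reg.par {hP : Spine P} {σ : Slot} {x : E} (h : Reg hP σ x) : Reg hP (par σ) x := by
  rw [← child_lab_par σ, reg_child_iff] at h
  exact fun j => h.1.trans (h.2 j)

lemma Reg.anc {hP : Spine P} {σ : Slot} {x : E} (h : Reg hP σ x) (k : ℕ) :
    Reg hP (anc k σ) x := by
  induction k with
  | zero => exact h
  | succ k ih => rw [anc_succ']; exact ih.par

lemma wt_anc (hP : Spine P) (x : E) (k : ℕ) : ∀ τ, Reg hP τ x → (∃ j, bc hP (anc k τ) x j = 0) →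
    wt (tri τ) (bc hP τ x) = wt (tri (anc k τ)) (bc hP (anc k τ) x) ∧ ∃ j, bc hP τ x j = 0 := by
  induction k with
  | zero => intro τ _ h; exact ⟨rfl, h⟩
  | succ k ih =>
    intro τ hτ h
    rw [anc_succ] at h ⊢
    obtain ⟨h1, j, h2⟩ := ih (par τ) hτ.par h
    rw [← h1]
    have h3 := hτ
    rw [← child_lab_par τ, reg_child_iff] at h3
    have h4 : bc hP (par τ) x (lab τ) = 0 := le_antisymm (h2 ▸ h3.2 j) h3.1
    constructor
    · conv_lhs => rw [← child_lab_par τ, tri_child, bc_child]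
      exact wt_upd_zero _ _ _ _ h4
    · refine ⟨2, ?_⟩
      rw [← child_lab_par τ, bc_child]
      simp [updB, h4]

lemma wt_compare (hP : Spine P) (x : E) {τ τ' : Slot} (h : Reg hP τ x) (h' : Reg hP τ' x)
    (a : ℕ) : ∀ b, anc a τ = anc b τ' → (∃ k, anc k τ = τ') ∨ (∃ k, anc k τ' = τ) ∨
      (wt (tri τ) (bc hP τ x) = wt (tri τ') (bc hP τ' x) ∧ ∃ j, bc hP τ' x j = 0) := by
  induction a with
  | zero => intro b hb; exact Or.inr (Or.inl ⟨b, hb.symm⟩)
  | succ a ih =>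
    intro b hb
    cases b with
    | zero => exact Or.inl ⟨a + 1, hb⟩
    | succ b =>
      rw [anc_succ', anc_succ'] at hb
      by_cases hl : lab (anc a τ) = lab (anc b τ')
      · refine ih b ?_
        rw [← child_lab_par (anc a τ), hl, hb, child_lab_par]
      · right; right
        set σ := par (anc b τ') with hσ
        have e1 : anc a τ = child (lab (anc a τ)) σ := by rw [← hb, child_lab_par]
        have e2 : anc b τ' = child (lab (anc b τ')) σ := by rw [hσ, child_lab_par]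
        generalize lab (anc a τ) = i at hl e1
        generalize lab (anc b τ') = i' at hl e2
        have h1 := h.anc a
        have h2 := h'.anc b
        rw [e1, reg_child_iff] at h1
        rw [e2, reg_child_iff] at h2
        have h3 : bc hP σ x i = bc hP σ x i' := le_antisymm (h1.2 _) (h2.2 _)
        obtain ⟨h4, h5⟩ := wt_upd_upd i i' hl (tri σ) σ _ h3
        obtain ⟨-, h6⟩ := wt_upd_upd i' i (Ne.symm hl) (tri σ) σ _ h3.symm
        obtain ⟨h7, -⟩ := wt_anc hP x a τ h (by rw [e1, bc_child]; exact h5)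
        obtain ⟨h8, h9⟩ := wt_anc hP x b τ' h' (by rw [e2, bc_child]; exact h6)
        refine ⟨?_, h9⟩
        rw [h7, h8, e1, e2, tri_child, tri_child, bc_child, bc_child, h4]

lemma leaf_eq_of_anc {τ τ' : Slot} (h : IsLeaf τ) (h' : IsLeaf τ') {k : ℕ} (hk : anc k τ = τ') :
    τ = τ' := by
  cases k with
  | zero => exact hk
  | succ k =>
    rw [anc_succ] at hk
    have h1 := st_anc k _ h.2
    rw [hk, h'.1] at h1
    have := h.2
    omega

lemma exists_common_anc' (σ τ : Slot) : ∃ a b, anc a σ = anc b τ := by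
  obtain ⟨l1, h1⟩ := exists_spine_anc σ
  obtain ⟨l2, h2⟩ := exists_spine_anc τ
  obtain ⟨a, ha⟩ := h1 _ (le_max_left l1 l2)
  obtain ⟨b, hb⟩ := h2 _ (le_max_right l1 l2)
  exact ⟨a, b, ha.trans hb.symm⟩

lemma wt_leaf_eq (hP : Spine P) (x : E) {τ τ' : Slot} (hτ : IsLeaf τ) (hτ' : IsLeaf τ')
    (h : Reg hP τ x) (h' : Reg hP τ' x) : wt (tri τ) (bc hP τ x) = wt (tri τ') (bc hP τ' x) := by
  obtain ⟨a, b, hab⟩ := exists_common_anc' τ τ'
  rcases wt_compare hP x h h' a b hab with ⟨k, hk⟩ | ⟨k, hk⟩ | h1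
  · rw [leaf_eq_of_anc hτ hτ' hk]
  · rw [leaf_eq_of_anc hτ' hτ hk]
  · exact h1.1

lemma leaf_desc (hP : Spine P) (x : E) {τ σ : Slot} (hτ : IsLeaf τ) (hσ : st σ ≠ 0)
    (h : Reg hP τ x) (h' : ∀ j, 0 < bc hP σ x j) : ∃ k, anc k (par τ) = σ := by
  obtain ⟨a, b, hab⟩ := exists_common_anc' τ σ
  rcases wt_compare hP x h (fun j => (h' j).le) a b hab with ⟨k, hk⟩ | ⟨k, hk⟩ | ⟨-, j, hj⟩
  · cases k with
    | zero => exact absurd (hk ▸ hτ.1) hσ
    | succ k => exact ⟨k, hk⟩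
  · have h1 := st_anc k σ hσ
    rw [hk, hτ.1] at h1
    omega
  · exact absurd hj (h' j).ne'

lemma exists_leaf_reg (hP : Spine P) (x : E) (σ : Slot) (h : st (par σ) ≠ 0) (hx : Reg hP σ x) :
    ∃ τ, IsLeaf τ ∧ Reg hP τ x := by
  induction hn : st σ using Nat.strong_induction_on generalizing σ with
  | _ n ih =>
    by_cases h0 : st σ = 0
    · exact ⟨σ, ⟨h0, h⟩, hx⟩
    · obtain ⟨i, hi⟩ := Finite.exists_min (bc hP σ x)
      have hle := nxt_le i (st σ)
      exact ih (st (child i σ)) (by rw [st_child]; omega) (child i σ)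
        (by rwa [par_child]) ((reg_child_iff hP i σ x).mpr ⟨hx i, hi⟩) rfl

end Pool.Agent.MP_295da9_pr

end

section

/-! Barycentric coordinates for the two subdivision templates: the stellar split of a triangle
at its centroid and the split into four at the midpoints of the sides. -/

namespace Pool.Agent.MP_295da9_pr.Th

variable {E : Type*} [AddCommGroup E] [Module ℝ E]

/-- indices of children -/
abbrev Ix := Fin 3 ⊕ Option (Fin 3)

/-- the four triangles of the midpoint split -/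
noncomputable def quadT : Option (Fin 3) → (Fin 3 → E) → Fin 3 → E
  | some j, T => fun m => (1 / 2 : ℝ) • (T j + T m)
  | none, T => fun m => (1 / 2 : ℝ) • (T 0 + T 1 + T 2 - T m)

/-- coordinates in the four triangles -/
def quadB : Option (Fin 3) → (Fin 3 → ℝ) → Fin 3 → ℝ
  | some j, b => fun m => 2 * b m - if m = j then 1 else 0
  | none, b => fun m => 1 - 2 * b m

/-- child triangle, `w` being the new point of a stellar split -/
noncomputable def chT : Ix → (Fin 3 → E) → E → Fin 3 → E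
  | .inl i, T, w => upd i T w
  | .inr k, T, _ => quadT k T

/-- child coordinates -/
def chB : Ix → (Fin 3 → ℝ) → Fin 3 → ℝ
  | .inl i, b => updB i b
  | .inr k, b => quadB k b

lemma isBC_quad_iff (k : Option (Fin 3)) (T : Fin 3 → E) (x : E) (b : Fin 3 → ℝ) :
    IsBC (quadT k T) x (quadB k b) ↔ IsBC T x b := by
  unfold IsBC
  have h1 : quadB k b 0 + quadB k b 1 + quadB k b 2 = 1 ↔ b 0 + b 1 + b 2 = 1 := by
    rcases k with _ | j
    · simp only [quadB]; constructor <;> intro h <;> linarith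
    · fin_cases j <;> simp [quadB] <;> constructor <;> intro h <;> linarith
  rw [h1]
  refine and_congr_right fun h => ?_
  have h0 : b 0 = 1 - b 1 - b 2 := by linarith
  have h2 : quadB k b 0 • quadT k T 0 + quadB k b 1 • quadT k T 1 + quadB k b 2 • quadT k T 2
      = b 0 • T 0 + b 1 • T 1 + b 2 • T 2 := by
    rcases k with _ | j
    · simp only [quadB, quadT, h0]; module
    · fin_cases j <;> simp [quadB, quadT, h0] <;> module
  rw [h2]

lemma quadB_surj (k : Option (Fin 3)) (b' : Fin 3 → ℝ) : ∃ b, quadB k b = b' := by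
  rcases k with _ | j
  · exact ⟨fun m => (1 - b' m) / 2, by ext m; simp only [quadB]; ring⟩
  · exact ⟨fun m => (b' m + if m = j then 1 else 0) / 2, by ext m; simp only [quadB]; ring⟩

lemma isBC_ch_iff (k : Ix) (T : Fin 3 → E) (x : E) (b : Fin 3 → ℝ) :
    IsBC (chT k T (ctr T)) x (chB k b) ↔ IsBC T x b := by
  rcases k with i | k
  · exact isBC_upd_iff i T x b
  · exact isBC_quad_iff k T x b

lemma chB_surj (k : Ix) (b' : Fin 3 → ℝ) : ∃ b, chB k b = b' := by
  rcases k with i | k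
  · exact updB_surj i b'
  · exact quadB_surj k b'

lemma good_ch {T : Fin 3 → E} (h : Good T) (k : Ix) : Good (chT k T (ctr T)) := by
  intro x
  obtain ⟨b, hb, hu⟩ := h x
  refine ⟨chB k b, (isBC_ch_iff k T x b).mpr hb, fun b' hb' => ?_⟩
  obtain ⟨c, rfl⟩ := chB_surj k b'
  rw [hu c ((isBC_ch_iff k T x c).mp hb')]

lemma chB_inj (k : Ix) {b c : Fin 3 → ℝ} (h : chB k b = chB k c) : b = c := by
  have h0 := congrFun h 0
  have h1 := congrFun h 1
  have h2 := congrFun h 2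
  rcases k with i | _ | j
  · ext m
    fin_cases i <;> fin_cases m <;> simp [chB, updB] at h0 h1 h2 ⊢ <;> linarith
  · ext m
    fin_cases m <;> simp [chB, quadB] at h0 h1 h2 ⊢ <;> linarith
  · ext m
    fin_cases m <;> simp [chB, quadB] at h0 h1 h2 ⊢ <;> linarith

lemma good_of_ch {T : Fin 3 → E} (k : Ix) (h : Good (chT k T (ctr T))) : Good T := by
  intro x
  obtain ⟨b', hb, hu⟩ := h x
  obtain ⟨b, rfl⟩ := chB_surj k b'
  refine ⟨b, (isBC_ch_iff k T x b).mp hb, fun c hc => ?_⟩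
  exact chB_inj k (hu _ ((isBC_ch_iff k T x c).mpr hc))

lemma chT_surj (k : Ix) (T' : Fin 3 → E) : ∃ T, chT k T (ctr T) = T' := by
  rcases k with i | _ | j
  · fin_cases i
    · refine ⟨![(3 : ℝ) • T' 2 - T' 0 - T' 1, T' 0, T' 1], ?_⟩
      ext m; fin_cases m <;> simp [chT, upd, ctr]; module
    · refine ⟨![T' 0, (3 : ℝ) • T' 2 - T' 0 - T' 1, T' 1], ?_⟩
      ext m; fin_cases m <;> simp [chT, upd, ctr]; module
    · refine ⟨![T' 0, T' 1, (3 : ℝ) • T' 2 - T' 0 - T' 1], ?_⟩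
      ext m; fin_cases m <;> simp [chT, upd, ctr]
  · refine ⟨fun m => T' 0 + T' 1 + T' 2 - (2 : ℝ) • T' m, ?_⟩
    ext m; simp only [chT, quadT]; module
  · refine ⟨fun m => (2 : ℝ) • T' m - T' j, ?_⟩
    ext m; simp only [chT, quadT]; module

open Classical in
/-- barycentric coordinates -/
noncomputable def bcf (T : Fin 3 → E) (x : E) : Fin 3 → ℝ :=
  if h : ∃ b, IsBC T x b then h.choose else 0

lemma isBC_bcf {T : Fin 3 → E} (h : Good T) (x : E) : IsBC T x (bcf T x) := by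
  unfold bcf
  rw [dif_pos (h x).exists]
  exact (h x).exists.choose_spec

lemma bcf_eq {T : Fin 3 → E} (h : Good T) {x : E} {b : Fin 3 → ℝ} (hb : IsBC T x b) :
    bcf T x = b := (h x).unique (isBC_bcf h x) hb

lemma bcf_sum {T : Fin 3 → E} (h : Good T) (x : E) : bcf T x 0 + bcf T x 1 + bcf T x 2 = 1 :=
  (isBC_bcf h x).1

lemma bcf_ch {T : Fin 3 → E} (h : Good T) (k : Ix) (x : E) :
    bcf (chT k T (ctr T)) x = chB k (bcf T x) :=
  bcf_eq (good_ch h k) ((isBC_ch_iff k T x _).mpr (isBC_bcf h x))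

lemma bcf_vertex {T : Fin 3 → E} (h : Good T) (j : Fin 3) : bcf T (T j) = Pi.single j 1 :=
  bcf_eq h (isBC_vertex T j)

lemma eq_of_bcf_eq {T : Fin 3 → E} (h : Good T) {x y : E} (hxy : bcf T x = bcf T y) : x = y := by
  rw [← (isBC_bcf h x).2, ← (isBC_bcf h y).2, hxy]

lemma eq_vertex_of_bcf {T : Fin 3 → E} (h : Good T) {x : E} {j : Fin 3}
    (hx : bcf T x = Pi.single j 1) : x = T j :=
  eq_of_bcf_eq h (hx.trans (bcf_vertex h j).symm)

/-- nonnegative vector -/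
def NN (b : Fin 3 → ℝ) : Prop := ∀ j, 0 ≤ b j

/-- positive vector -/
def PP (b : Fin 3 → ℝ) : Prop := ∀ j, 0 < b j

lemma PP.nn {b : Fin 3 → ℝ} (h : PP b) : NN b := fun j => (h j).le

lemma nn_iff (b : Fin 3 → ℝ) : NN b ↔ 0 ≤ b 0 ∧ 0 ≤ b 1 ∧ 0 ≤ b 2 := by
  simp [NN, Fin.forall_fin_succ]

lemma pp_iff (b : Fin 3 → ℝ) : PP b ↔ 0 < b 0 ∧ 0 < b 1 ∧ 0 < b 2 := by
  simp [PP, Fin.forall_fin_succ]

lemma nn_single (j : Fin 3) : NN (Pi.single j 1) := by
  intro m; rw [Pi.single_apply]; split_ifs <;> norm_num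

lemma not_pp_single (j : Fin 3) : ¬ PP (Pi.single j 1) := by
  rw [pp_iff]; fin_cases j <;> simp

lemma nn_of_ch (k : Ix) {b : Fin 3 → ℝ} (hs : b 0 + b 1 + b 2 = 1) (h : NN (chB k b)) : NN b := by
  rw [nn_iff] at h ⊢
  rcases k with i | _ | j
  · fin_cases i <;> simp [chB, updB] at h <;> refine ⟨?_, ?_, ?_⟩ <;> linarith
  · simp [chB, quadB] at h; refine ⟨?_, ?_, ?_⟩ <;> linarith
  · fin_cases j <;> simp [chB, quadB] at h <;> refine ⟨?_, ?_, ?_⟩ <;> linarith

lemma pp_of_ch (k : Ix) {b : Fin 3 → ℝ} (hs : b 0 + b 1 + b 2 = 1) (h : PP (chB k b)) : PP b := by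
  rw [pp_iff] at h ⊢
  rcases k with i | _ | j
  · fin_cases i <;> simp [chB, updB] at h <;> refine ⟨?_, ?_, ?_⟩ <;> linarith
  · simp [chB, quadB] at h; refine ⟨?_, ?_, ?_⟩ <;> linarith
  · fin_cases j <;> simp [chB, quadB] at h <;> refine ⟨?_, ?_, ?_⟩ <;> linarith

lemma cover_tri {b : Fin 3 → ℝ} (h : NN b) : ∃ i, NN (chB (.inl i) b) := by
  obtain ⟨i, hi⟩ := Finite.exists_min b
  exact ⟨i, (updB_nonneg_iff i b).mpr ⟨h i, hi⟩⟩

lemma cover_quad {b : Fin 3 → ℝ} (h : NN b) : ∃ k, NN (chB (.inr k) b) := by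
  by_cases h1 : ∃ j, 1 ≤ 2 * b j
  · obtain ⟨j, hj⟩ := h1
    refine ⟨some j, fun m => ?_⟩
    have := h m
    simp only [chB, quadB]
    split_ifs with hm
    · subst hm; linarith
    · linarith
  · push Not at h1
    exact ⟨none, fun m => by simp only [chB, quadB]; linarith [h1 m]⟩

lemma sep_tri {i i' : Fin 3} (hi : i ≠ i') {b : Fin 3 → ℝ} (h : NN (chB (.inl i) b))
    (h' : NN (chB (.inl i') b)) : b i = b i' ∧ ¬ PP (chB (.inl i) b) := by
  have h1 := (updB_nonneg_iff i b).mp h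
  have h2 := (updB_nonneg_iff i' b).mp h'
  have h3 : b i = b i' := le_antisymm (h1.2 _) (h2.2 _)
  refine ⟨h3, fun hp => ?_⟩
  rw [pp_iff] at hp
  fin_cases i <;> fin_cases i' <;> simp [chB, updB] at hi hp h3 <;> linarith

lemma sep_quad {k k' : Option (Fin 3)} (hk : k ≠ k') {b : Fin 3 → ℝ} (hs : b 0 + b 1 + b 2 = 1)
    (h' : NN (chB (.inr k') b)) : ¬ PP (chB (.inr k) b) := by
  intro hp
  rw [pp_iff] at hp
  rw [nn_iff] at h'
  rcases k with _ | j <;> rcases k' with _ | j'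
  · exact hk rfl
  · fin_cases j' <;> simp [chB, quadB] at hp h' <;> linarith
  · fin_cases j <;> simp [chB, quadB] at hp h' <;> linarith
  · fin_cases j <;> fin_cases j' <;> simp [chB, quadB] at hk hp h' <;> linarith

/-- `c` is a point of the lattice of mesh `2 ^ (-e)` within `r` meshes of `b` -/
def Car (e : ℕ) (r : ℝ) (b c : Fin 3 → ℝ) : Prop :=
  ∀ j, ∃ k : ℤ, 2 ^ e * c j = k ∧ |2 ^ e * b j - k| ≤ r

lemma car_iff (e : ℕ) (r : ℝ) (b c : Fin 3 → ℝ) : Car e r b c ↔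
    (∃ k : ℤ, 2 ^ e * c 0 = k ∧ |2 ^ e * b 0 - k| ≤ r) ∧
    (∃ k : ℤ, 2 ^ e * c 1 = k ∧ |2 ^ e * b 1 - k| ≤ r) ∧
    (∃ k : ℤ, 2 ^ e * c 2 = k ∧ |2 ^ e * b 2 - k| ≤ r) := by
  simp [Car, Fin.forall_fin_succ]

lemma car_quad (k : Option (Fin 3)) (e : ℕ) (r : ℝ) (b c : Fin 3 → ℝ) :
    Car e r (quadB k b) (quadB k c) ↔ Car (e + 1) r b c := by
  refine forall_congr' fun j => ?_
  rcases k with _ | i
  · simp only [quadB]
    constructor
    · rintro ⟨k, h1, h2⟩
      refine ⟨2 ^ e - k, by push_cast; rw [pow_succ]; linarith, ?_⟩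
      rw [abs_sub_comm] at h2
      convert h2 using 2
      push_cast; rw [pow_succ]; ring
    · rintro ⟨k, h1, h2⟩
      refine ⟨2 ^ e - k, by push_cast; rw [pow_succ] at h1; linarith, ?_⟩
      rw [abs_sub_comm] at h2
      convert h2 using 2
      push_cast; rw [pow_succ]; ring
  · simp only [quadB]
    split_ifs
    · constructor
      · rintro ⟨k, h1, h2⟩
        refine ⟨k + 2 ^ e, by push_cast; rw [pow_succ]; linarith, ?_⟩
        convert h2 using 2
        push_cast; rw [pow_succ]; ring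
      · rintro ⟨k, h1, h2⟩
        refine ⟨k - 2 ^ e, by push_cast; rw [pow_succ] at h1; linarith, ?_⟩
        convert h2 using 2
        push_cast; rw [pow_succ]; ring
    · rw [pow_succ]
      simp only [sub_zero, mul_assoc]

lemma int_zero_of_abs {k : ℤ} {r : ℝ} (hr : r < 1) (h : |(k : ℝ)| ≤ r) : k = 0 := by
  have h1 : |(k : ℝ)| < 1 := h.trans_lt hr
  have h2 : |k| < 1 := by exact_mod_cast h1
  have := abs_lt.mp h2
  omega

lemma car_zero {e : ℕ} {r : ℝ} (hr : r < 1) {u v : ℝ} (hu : u = 0)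
    (h : ∃ k : ℤ, 2 ^ e * v = k ∧ |2 ^ e * u - k| ≤ r) : v = 0 := by
  obtain ⟨k, h1, h2⟩ := h
  rw [hu, mul_zero, zero_sub, abs_neg] at h2
  rw [int_zero_of_abs hr h2] at h1
  have : (0 : ℝ) < 2 ^ e := by positivity
  simpa [this.ne'] using h1

lemma car_tri (i : Fin 3) (e : ℕ) {r : ℝ} (hr : r < 1) {b : Fin 3 → ℝ} (c : Fin 3 → ℝ)
    (hb : b i = 0) : Car e r (updB i b) (updB i c) ↔ Car e r b c := by
  constructor
  · intro h
    have h2 : c i = 0 := by
      have := car_zero hr (u := updB i b 2) (v := updB i c 2) (by simp [updB, hb]) (h 2)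
      simpa [updB] using this
    rw [car_iff] at h ⊢
    fin_cases i <;> simp [updB] at hb h2 h ⊢ <;> simp [hb, h2] at h ⊢ <;> tauto
  · intro h
    have h2 : c i = 0 := car_zero hr hb (h i)
    rw [car_iff] at h ⊢
    fin_cases i <;> simp [updB] at hb h2 h ⊢ <;> simp [hb, h2] at h ⊢ <;> tauto

lemma car_sib {i i' : Fin 3} (hi : i ≠ i') (e : ℕ) {r : ℝ} (hr : r < 1) {b : Fin 3 → ℝ}
    (c : Fin 3 → ℝ) (hb : b i = b i') (h : Car e r (updB i b) (updB i c)) :
    Car e r (updB i' b) (updB i' c) := by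
  have h0 := fun h' => car_zero hr (u := updB i b 0) (v := updB i c 0) h' (h 0)
  have h1 := fun h' => car_zero hr (u := updB i b 1) (v := updB i c 1) h' (h 1)
  have h2 : c i = c i' := by
    fin_cases i <;> fin_cases i' <;> simp [updB] at hi hb h0 h1 ⊢ <;>
      first
      | linarith [h0 (by linarith)]
      | linarith [h1 (by linarith)]
  rw [car_iff] at h ⊢
  fin_cases i <;> fin_cases i' <;> simp [updB] at hi hb h2 h ⊢ <;> simp [hb, h2] at h ⊢ <;> tauto

lemma car_single {r : ℝ} {b : Fin 3 → ℝ} (hs : b 0 + b 1 + b 2 = 1) (hb : NN b) (j : Fin 3)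
    (h : 1 - b j ≤ r) : Car 0 r b (Pi.single j 1) := by
  rw [nn_iff] at hb
  intro m
  by_cases hm : m = j
  · subst hm
    refine ⟨1, by simp, ?_⟩
    simp only [pow_zero, one_mul, Int.cast_one]
    rw [abs_le]
    fin_cases m <;> simp at h ⊢ <;> constructor <;> linarith
  · refine ⟨0, by simp [hm], ?_⟩
    simp only [pow_zero, one_mul, Int.cast_zero, sub_zero]
    rw [abs_le]
    fin_cases m <;> fin_cases j <;> simp at h hm ⊢ <;> constructor <;> linarith

lemma single_of_car {r : ℝ} (hr : r < 1) {b c : Fin 3 → ℝ} (hs : b 0 + b 1 + b 2 = 1) (hb : NN b)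
    (hc : c 0 + c 1 + c 2 = 1) (h : Car 0 r b c) : ∃ j, c = Pi.single j 1 ∧ 1 - b j ≤ r := by
  rw [nn_iff] at hb
  rw [car_iff] at h
  obtain ⟨⟨k0, a0, b0⟩, ⟨k1, a1, b1⟩, ⟨k2, a2, b2⟩⟩ := h
  simp only [pow_zero, one_mul] at a0 a1 a2 b0 b1 b2
  rw [abs_le] at b0 b1 b2
  have e0 : (-1 : ℤ) < k0 := by
    have : ((-1 : ℤ) : ℝ) < k0 := by push_cast; linarith
    exact_mod_cast this
  have e1 : (-1 : ℤ) < k1 := by
    have : ((-1 : ℤ) : ℝ) < k1 := by push_cast; linarith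
    exact_mod_cast this
  have e2 : (-1 : ℤ) < k2 := by
    have : ((-1 : ℤ) : ℝ) < k2 := by push_cast; linarith
    exact_mod_cast this
  have e3 : k0 + k1 + k2 = 1 := by
    have : ((k0 + k1 + k2 : ℤ) : ℝ) = (1 : ℤ) := by push_cast; linarith
    exact_mod_cast this
  have e4 : (k0 = 1 ∧ k1 = 0 ∧ k2 = 0) ∨ (k0 = 0 ∧ k1 = 1 ∧ k2 = 0) ∨
      (k0 = 0 ∧ k1 = 0 ∧ k2 = 1) := by omega
  rcases e4 with ⟨rfl, rfl, rfl⟩ | ⟨rfl, rfl, rfl⟩ | ⟨rfl, rfl, rfl⟩
  · refine ⟨0, ?_, by push_cast at b0; linarith⟩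
    ext m; fin_cases m <;> simp [a0, a1, a2]
  · refine ⟨1, ?_, by push_cast at b1; linarith⟩
    ext m; fin_cases m <;> simp [a0, a1, a2]
  · refine ⟨2, ?_, by push_cast at b2; linarith⟩
    ext m; fin_cases m <;> simp [a0, a1, a2]

/-- value of the affine interpolation -/
def val (g b : Fin 3 → ℝ) : ℝ := b 0 * g 0 + b 1 * g 1 + b 2 * g 2

lemma val_single (g : Fin 3 → ℝ) (j : Fin 3) : val g (Pi.single j 1) = g j := by
  fin_cases j <;> simp [val]

lemma val_quad (k : Option (Fin 3)) (g : Fin 3 → ℝ) {b : Fin 3 → ℝ} (hs : b 0 + b 1 + b 2 = 1) :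
    val (quadT k g) (quadB k b) = val g b := by
  have h0 : b 0 = 1 - b 1 - b 2 := by linarith
  rcases k with _ | j
  · simp only [val, quadB, quadT, h0, smul_eq_mul]; ring
  · fin_cases j <;> simp [val, quadB, quadT, h0] <;> ring

lemma val_tri (i : Fin 3) (g : Fin 3 → ℝ) (w : ℝ) {b : Fin 3 → ℝ} (hb : b i = 0) :
    val (upd i g w) (updB i b) = val g b := by
  fin_cases i <;> simp [val, updB, upd] at hb ⊢ <;> simp [hb]

lemma val_sib {i i' : Fin 3} (hi : i ≠ i') (g : Fin 3 → ℝ) (w : ℝ) {b : Fin 3 → ℝ}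
    (hb : b i = b i') : val (upd i g w) (updB i b) = val (upd i' g w) (updB i' b) := by
  fin_cases i <;> fin_cases i' <;> simp [val, updB, upd] at hi hb ⊢ <;> simp [hb]

lemma zero_of_bdy_tri {i : Fin 3} {b : Fin 3 → ℝ} (h : NN (chB (.inl i) b)) (hb : ¬ PP b) :
    b i = 0 := by
  have h1 := (updB_nonneg_iff i b).mp h
  by_contra h2
  exact hb fun j => lt_of_lt_of_le (lt_of_le_of_ne h1.1 (Ne.symm h2)) (h1.2 j)

end Pool.Agent.MP_295da9_pr.Th

end

section

/-! Subdivision trees, placed and decorated nodes, cells of a given level. -/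

namespace Pool.Agent.MP_295da9_pr.Th

/-- subdivision trees -/
inductive Tr : Type
  | leaf : Tr
  | tri (c : Fin 3 → Tr) : Tr
  | quad (c : Option (Fin 3) → Tr) : Tr

/-- well levelled: the sides of a node of level `a` get cut into `2 ^ a` pieces -/
def WL : Tr → ℕ → Prop
  | .leaf, a => a = 0
  | .tri c, a => ∀ i, WL (c i) a
  | .quad c, a => 1 ≤ a ∧ ∀ k, WL (c k) (a - 1)

/-- indices of the children -/
def idx : Tr → Finset Ix
  | .leaf => ∅
  | .tri _ => Finset.univ.map Function.Embedding.inl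
  | .quad _ => Finset.univ.map Function.Embedding.inr

/-- subtree -/
def sub : Tr → Ix → Tr
  | .tri c, .inl i => c i
  | .quad c, .inr k => c k
  | _, _ => .leaf

/-- level of a child -/
def lvl (a : ℕ) : Ix → ℕ
  | .inl _ => a
  | .inr _ => a - 1

@[simp] lemma mem_idx_leaf (k : Ix) : k ∈ idx .leaf ↔ False := by simp [idx]

@[simp] lemma mem_idx_tri (c : Fin 3 → Tr) (k : Ix) : k ∈ idx (.tri c) ↔ ∃ i, .inl i = k := by
  simp [idx]

@[simp] lemma mem_idx_quad (c : Option (Fin 3) → Tr) (k : Ix) :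
    k ∈ idx (.quad c) ↔ ∃ i, .inr i = k := by
  simp only [idx, Finset.mem_map, Finset.mem_univ, true_and]; rfl

lemma sum_idx_tri {M : Type*} [AddCommMonoid M] (c : Fin 3 → Tr) (f : Ix → M) :
    ∑ k ∈ idx (.tri c), f k = ∑ i, f (.inl i) := by simp [idx]

lemma sum_idx_quad {M : Type*} [AddCommMonoid M] (c : Option (Fin 3) → Tr) (f : Ix → M) :
    ∑ k ∈ idx (.quad c), f k = ∑ i, f (.inr i) := by
  simp only [idx, Finset.sum_map]; rfl

lemma card_idx_le (t : Tr) : (idx t).card ≤ 4 := by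
  cases t <;> simp [idx]

lemma Tr.ind {P : Tr → Prop} (h : ∀ t, (∀ k ∈ idx t, P (sub t k)) → P t) (t : Tr) : P t := by
  induction t with
  | leaf => exact h _ (by simp)
  | tri c ih =>
    refine h _ fun k hk => ?_
    obtain ⟨i, rfl⟩ := (mem_idx_tri c k).1 hk
    exact ih i
  | quad c ih =>
    refine h _ fun k hk => ?_
    obtain ⟨i, rfl⟩ := (mem_idx_quad c k).1 hk
    exact ih i

lemma WL.sub {t : Tr} {a : ℕ} (h : WL t a) {k : Ix} (hk : k ∈ idx t) :
    WL (sub t k) (lvl a k) := by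
  cases t with
  | leaf => simp at hk
  | tri c => obtain ⟨i, rfl⟩ := (mem_idx_tri c k).1 hk; exact h i
  | quad c => obtain ⟨i, rfl⟩ := (mem_idx_quad c k).1 hk; exact h.2 i

lemma lvl_le (a : ℕ) (k : Ix) : lvl a k ≤ a := by cases k <;> simp [lvl]

lemma le_lvl (a : ℕ) (k : Ix) : a ≤ lvl a k + 1 := by cases k <;> simp [lvl]; omega

/-- placed and decorated node -/
structure Nd (E : Type*) where
  t : Tr
  a : ℕ
  T : Fin 3 → E
  g : Fin 3 → ℝ

/-- rules for the decoration of a new centroid -/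
abbrev Rule := ℕ → (Fin 3 → ℝ) → ℝ

variable {E : Type*} [AddCommGroup E] [Module ℝ E]

/-- child node -/
noncomputable def Nd.ch (ρ : Rule) (σ : Nd E) (k : Ix) : Nd E :=
  ⟨sub σ.t k, lvl σ.a k, chT k σ.T (ctr σ.T), chT k σ.g (ρ σ.a σ.g)⟩

lemma Nd.ind (ρ : Rule) {P : Nd E → Prop}
    (h : ∀ σ : Nd E, (∀ k ∈ idx σ.t, P (σ.ch ρ k)) → P σ) (σ : Nd E) : P σ := by
  obtain ⟨t, a, T, g⟩ := σ
  induction t using Tr.ind generalizing a T g with
  | _ t ih => exact h _ fun k hk => ih k hk _ _ _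

/-- a valid node -/
def OK (σ : Nd E) : Prop := Good σ.T ∧ WL σ.t σ.a

/-- closed triangle -/
def Reg (T : Fin 3 → E) (x : E) : Prop := NN (bcf T x)

/-- open triangle -/
def Int (T : Fin 3 → E) (x : E) : Prop := PP (bcf T x)

lemma Int.reg {T : Fin 3 → E} {x : E} (h : Int T x) : Reg T x := PP.nn h

lemma reg_vertex {T : Fin 3 → E} (h : Good T) (j : Fin 3) : Reg T (T j) := by
  unfold Reg; rw [bcf_vertex h]; exact nn_single j

lemma not_int_vertex {T : Fin 3 → E} (h : Good T) (j : Fin 3) : ¬ Int T (T j) := by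
  unfold Int; rw [bcf_vertex h]; exact not_pp_single j

variable {ρ : Rule}

lemma OK.ch {σ : Nd E} (h : OK σ) {k : Ix} (hk : k ∈ idx σ.t) : OK (σ.ch ρ k) :=
  ⟨good_ch h.1 k, h.2.sub hk⟩

lemma bcf_chN {σ : Nd E} (h : Good σ.T) (k : Ix) (x : E) :
    bcf (σ.ch ρ k).T x = chB k (bcf σ.T x) := bcf_ch h k x

lemma reg_of_chT {T : Fin 3 → E} (h : Good T) {k : Ix} {x : E} (hx : Reg (chT k T (ctr T)) x) :
    Reg T x := by
  unfold Reg at hx ⊢
  rw [bcf_ch h] at hx
  exact nn_of_ch k (bcf_sum h x) hx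

lemma int_of_chT {T : Fin 3 → E} (h : Good T) {k : Ix} {x : E} (hx : Int (chT k T (ctr T)) x) :
    Int T x := by
  unfold Int at hx ⊢
  rw [bcf_ch h] at hx
  exact pp_of_ch k (bcf_sum h x) hx

lemma reg_of_ch {σ : Nd E} (h : OK σ) {k : Ix} {x : E} (hx : Reg (σ.ch ρ k).T x) : Reg σ.T x :=
  reg_of_chT h.1 hx

lemma int_of_ch {σ : Nd E} (h : OK σ) {k : Ix} {x : E} (hx : Int (σ.ch ρ k).T x) : Int σ.T x :=
  int_of_chT h.1 hx

lemma cover_ch (ρ : Rule) {σ : Nd E} (h : OK σ) (ht : σ.t ≠ .leaf) {x : E} (hx : Reg σ.T x) :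
    ∃ k ∈ idx σ.t, Reg (σ.ch ρ k).T x := by
  obtain ⟨t, a, T, g⟩ := σ
  cases t with
  | leaf => exact absurd rfl ht
  | tri c =>
    obtain ⟨i, hi⟩ := cover_tri hx
    exact ⟨.inl i, by simp, by unfold Reg; rw [bcf_chN h.1]; exact hi⟩
  | quad c =>
    obtain ⟨i, hi⟩ := cover_quad hx
    exact ⟨.inr i, by simp, by unfold Reg; rw [bcf_chN h.1]; exact hi⟩

lemma sep_ch {σ : Nd E} (h : OK σ) {k k' : Ix} (hk : k ∈ idx σ.t) (hk' : k' ∈ idx σ.t)
    (hne : k ≠ k') {x : E} (hx' : Reg (σ.ch ρ k').T x) : ¬ Int (σ.ch ρ k).T x := by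
  intro hx
  have hx0 := hx.reg
  obtain ⟨t, a, T, g⟩ := σ
  unfold Reg at hx' hx0
  unfold Int at hx
  rw [bcf_chN h.1] at hx hx' hx0
  cases t with
  | leaf => simp at hk
  | tri c =>
    obtain ⟨i, rfl⟩ := (mem_idx_tri c k).1 hk
    obtain ⟨i', rfl⟩ := (mem_idx_tri c k').1 hk'
    exact (sep_tri (fun h => hne (by rw [h])) hx0 hx').2 hx
  | quad c =>
    obtain ⟨i, rfl⟩ := (mem_idx_quad c k).1 hk
    obtain ⟨i', rfl⟩ := (mem_idx_quad c k').1 hk'
    exact sep_quad (fun h => hne (by rw [h])) (bcf_sum h.1 x) hx' hx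

/-- auxiliary recursion for `cells` -/
noncomputable def cellsAux (ρ : Rule) (i : ℕ) :
    Tr → ℕ → (Fin 3 → E) → (Fin 3 → ℝ) → Multiset (Nd E)
  | .leaf, a, T, g => {⟨.leaf, a, T, g⟩}
  | .tri c, a, T, g => if a < i then {⟨.tri c, a, T, g⟩} else
      ∑ k, cellsAux ρ i (c k) a (upd k T (ctr T)) (upd k g (ρ a g))
  | .quad c, a, T, g => if a < i then {⟨.quad c, a, T, g⟩} else
      ∑ k, cellsAux ρ i (c k) (a - 1) (quadT k T) (quadT k g)

/-- the maximal descendants of level `< i`, or leaves -/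
noncomputable def cells (ρ : Rule) (i : ℕ) (σ : Nd E) : Multiset (Nd E) :=
  cellsAux ρ i σ.t σ.a σ.T σ.g

/-- where the descent stops -/
def Stop (i : ℕ) (σ : Nd E) : Prop := σ.t = .leaf ∨ σ.a < i

lemma cells_stop {i : ℕ} {σ : Nd E} (h : Stop i σ) : cells ρ i σ = {σ} := by
  obtain ⟨t, a, T, g⟩ := σ
  rcases h with h | h
  · obtain rfl : t = .leaf := h
    rfl
  · cases t <;> simp [cells, cellsAux, show a < i from h]

lemma cells_go {i : ℕ} {σ : Nd E} (h : ¬ Stop i σ) :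
    cells ρ i σ = ∑ k ∈ idx σ.t, cells ρ i (σ.ch ρ k) := by
  obtain ⟨t, a, T, g⟩ := σ
  have h1 : ¬ a < i := fun h' => h (Or.inr h')
  cases t with
  | leaf => exact absurd (Or.inl rfl) h
  | tri c => rw [sum_idx_tri]; simp only [cells, cellsAux, if_neg h1]; rfl
  | quad c => rw [sum_idx_quad]; simp only [cells, cellsAux, if_neg h1]; rfl

lemma mem_cells_stop {i : ℕ} {σ c : Nd E} (h : Stop i σ) : c ∈ cells ρ i σ ↔ c = σ := by
  rw [cells_stop h, Multiset.mem_singleton]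

lemma mem_cells_go {i : ℕ} {σ c : Nd E} (h : ¬ Stop i σ) :
    c ∈ cells ρ i σ ↔ ∃ k ∈ idx σ.t, c ∈ cells ρ i (σ.ch ρ k) := by
  rw [cells_go h, Multiset.mem_sum]

/-- properties inherited by children are inherited by cells -/
lemma cells_inherit {P : Nd E → Prop} {i : ℕ}
    (hP : ∀ σ, P σ → ¬ Stop i σ → ∀ k ∈ idx σ.t, P (σ.ch ρ k)) (σ : Nd E) :
    P σ → ∀ c ∈ cells ρ i σ, P c ∧ Stop i c := by
  induction σ using @Nd.ind E _ _ ρ with
  | _ σ ih =>
    intro h c hc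
    by_cases hs : Stop i σ
    · rw [mem_cells_stop hs] at hc
      subst hc
      exact ⟨h, hs⟩
    · obtain ⟨k, hk, hc⟩ := (mem_cells_go hs).1 hc
      exact ih k hk (hP σ h hs k hk) c hc

lemma OK.cells {i : ℕ} {σ c : Nd E} (h : OK σ) (hc : c ∈ cells ρ i σ) : OK c :=
  (cells_inherit (P := OK) (fun _ h _ _ hk => h.ch hk) σ h c hc).1

lemma stop_cells {i : ℕ} {σ c : Nd E} (hc : c ∈ cells ρ i σ) : Stop i c :=
  (cells_inherit (P := fun _ => True) (fun _ _ _ _ _ => trivial) σ trivial c hc).2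

lemma reg_of_cells {i : ℕ} {σ c : Nd E} (h : OK σ) (hc : c ∈ cells ρ i σ) {x : E}
    (hx : Reg c.T x) : Reg σ.T x :=
  (cells_inherit (P := fun c => OK c ∧ (Reg c.T x → Reg σ.T x))
    (fun _ h _ _ hk => ⟨h.1.ch hk, fun h' => h.2 (reg_of_ch h.1 h')⟩) σ ⟨h, id⟩ c hc).1.2 hx

lemma int_of_cells {i : ℕ} {σ c : Nd E} (h : OK σ) (hc : c ∈ cells ρ i σ) {x : E}
    (hx : Int c.T x) : Int σ.T x :=
  (cells_inherit (P := fun c => OK c ∧ (Int c.T x → Int σ.T x))
    (fun _ h _ _ hk => ⟨h.1.ch hk, fun h' => h.2 (int_of_ch h.1 h')⟩) σ ⟨h, id⟩ c hc).1.2 hx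

lemma level_cells {i : ℕ} {σ c : Nd E} (h : OK σ) (ha : i - 1 ≤ σ.a) (hc : c ∈ cells ρ i σ) :
    c.a = i - 1 := by
  obtain ⟨⟨h1, h2⟩, h3⟩ := cells_inherit (P := fun c => OK c ∧ i - 1 ≤ c.a)
    (fun τ h hs k hk => ⟨h.1.ch hk, by
      have h1 : ¬ τ.a < i := fun h' => hs (Or.inr h')
      have := le_lvl τ.a k
      change i - 1 ≤ lvl τ.a k
      omega⟩) σ ⟨h, ha⟩ c hc
  rcases h3 with h3 | h3
  · have h4 := h1.2
    rw [h3] at h4
    have h5 : c.a = 0 := h4
    omega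
  · omega

lemma leaf_of_cells_zero {σ c : Nd E} (hc : c ∈ cells ρ 0 σ) : c.t = .leaf :=
  (stop_cells hc).resolve_right (Nat.not_lt_zero _)

lemma exists_cell (ρ : Rule) (i : ℕ) (σ : Nd E) {x : E} :
    OK σ → Reg σ.T x → ∃ c ∈ cells ρ i σ, Reg c.T x := by
  induction σ using @Nd.ind E _ _ ρ with
  | _ σ ih =>
    intro h hx
    by_cases hs : Stop i σ
    · exact ⟨σ, (mem_cells_stop hs).2 rfl, hx⟩
    · obtain ⟨k, hk, hx'⟩ := cover_ch ρ h (fun h' => hs (Or.inl h')) hx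
      obtain ⟨c, hc, hx''⟩ := ih k hk (h.ch hk) hx'
      exact ⟨c, (mem_cells_go hs).2 ⟨k, hk, hc⟩, hx''⟩

section Inv

variable {α : Type*} {Φ : Nd E → α} {i : ℕ} {x : E}

lemma inv_bdy
    (h1 : ∀ σ, OK σ → ¬ Stop i σ → ∀ k ∈ idx σ.t, Reg (σ.ch ρ k).T x → ¬ Int σ.T x →
      Φ (σ.ch ρ k) = Φ σ) (σ : Nd E) :
    OK σ → ¬ Int σ.T x → ∀ c ∈ cells ρ i σ, Reg c.T x → Φ c = Φ σ := by
  induction σ using @Nd.ind E _ _ ρ with
  | _ σ ih =>
    intro h hx c hc hcx
    by_cases hs : Stop i σ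
    · rw [(mem_cells_stop hs).1 hc]
    · obtain ⟨k, hk, hc⟩ := (mem_cells_go hs).1 hc
      rw [ih k hk (h.ch hk) (fun h' => hx (int_of_ch h h')) c hc hcx]
      exact h1 σ h hs k hk (reg_of_cells (h.ch hk) hc hcx) hx

lemma inv_cmp
    (h1 : ∀ σ, OK σ → ¬ Stop i σ → ∀ k ∈ idx σ.t, Reg (σ.ch ρ k).T x → ¬ Int σ.T x →
      Φ (σ.ch ρ k) = Φ σ)
    (h2 : ∀ σ, OK σ → ¬ Stop i σ → ∀ k ∈ idx σ.t, ∀ k' ∈ idx σ.t, k ≠ k' →
      Reg (σ.ch ρ k).T x → Reg (σ.ch ρ k').T x → Φ (σ.ch ρ k) = Φ (σ.ch ρ k')) (σ : Nd E) :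
    OK σ → ∀ c ∈ cells ρ i σ, ∀ c' ∈ cells ρ i σ, Reg c.T x → Reg c'.T x →
      c = c' ∨ (¬ Int c.T x ∧ ¬ Int c'.T x ∧ Φ c = Φ c') := by
  induction σ using @Nd.ind E _ _ ρ with
  | _ σ ih =>
    intro h c hc c' hc' hx hx'
    by_cases hs : Stop i σ
    · left; rw [(mem_cells_stop hs).1 hc, (mem_cells_stop hs).1 hc']
    · obtain ⟨k, hk, hc⟩ := (mem_cells_go hs).1 hc
      obtain ⟨k', hk', hc'⟩ := (mem_cells_go hs).1 hc'
      by_cases hkk : k = k'
      · subst hkk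
        exact ih k hk (h.ch hk) c hc c' hc' hx hx'
      · right
        have r1 := reg_of_cells (h.ch hk) hc hx
        have r2 := reg_of_cells (h.ch hk') hc' hx'
        have n1 := sep_ch h hk hk' hkk r2
        have n2 := sep_ch h hk' hk (Ne.symm hkk) r1
        refine ⟨fun h' => n1 (int_of_cells (h.ch hk) hc h'),
          fun h' => n2 (int_of_cells (h.ch hk') hc' h'), ?_⟩
        rw [inv_bdy h1 _ (h.ch hk) n1 c hc hx, inv_bdy h1 _ (h.ch hk') n2 c' hc' hx']
        exact h2 σ h hs k hk k' hk' hkk r1 r2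

end Inv

/-- lattice points near `x` -/
def PhiC (i : ℕ) (x : E) (σ : Nd E) : Set (E × ℝ) :=
  {p | p.2 < 1 ∧ Car (σ.a - (i - 1)) p.2 (bcf σ.T x) (bcf σ.T p.1)}

/-- interpolated value -/
noncomputable def PhiV (x : E) (σ : Nd E) : ℝ := val σ.g (bcf σ.T x)

lemma phiC_quad {i : ℕ} (x : E) {c : Option (Fin 3) → Tr} {a : ℕ} {T : Fin 3 → E} {g : Fin 3 → ℝ}
    (h : OK (⟨.quad c, a, T, g⟩ : Nd E)) (hs : ¬ Stop i (⟨.quad c, a, T, g⟩ : Nd E))
    (k : Option (Fin 3)) :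
    PhiC i x (Nd.ch ρ ⟨.quad c, a, T, g⟩ (.inr k)) = PhiC i x ⟨.quad c, a, T, g⟩ := by
  have h1 : ¬ a < i := fun h' => hs (Or.inr h')
  have h2 : 1 ≤ a := h.2.1
  ext p
  simp only [PhiC, Set.mem_ofPred_eq, bcf_chN h.1]
  have h3 : a - (i - 1) = (a - 1 - (i - 1)) + 1 := by omega
  rw [h3, ← car_quad k]
  rfl

lemma phiC_bdy (i : ℕ) (x : E) (σ : Nd E) (h : OK σ) (hs : ¬ Stop i σ) (k : Ix)
    (hk : k ∈ idx σ.t) (hx : Reg (σ.ch ρ k).T x) (hn : ¬ Int σ.T x) :
    PhiC i x (σ.ch ρ k) = PhiC i x σ := by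
  obtain ⟨t, a, T, g⟩ := σ
  cases t with
  | leaf => simp at hk
  | tri c =>
    obtain ⟨j, rfl⟩ := (mem_idx_tri c k).1 hk
    unfold Reg at hx
    rw [bcf_chN h.1] at hx
    have h0 := zero_of_bdy_tri hx hn
    ext p
    simp only [PhiC, Set.mem_ofPred_eq, bcf_chN h.1]
    exact and_congr_right fun hp => car_tri j _ hp _ h0
  | quad c =>
    obtain ⟨j, rfl⟩ := (mem_idx_quad c k).1 hk
    exact phiC_quad x h hs j

lemma phiC_sib (i : ℕ) (x : E) (σ : Nd E) (h : OK σ) (hs : ¬ Stop i σ) (k : Ix)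
    (hk : k ∈ idx σ.t) (k' : Ix) (hk' : k' ∈ idx σ.t) (hne : k ≠ k') (hx : Reg (σ.ch ρ k).T x)
    (hx' : Reg (σ.ch ρ k').T x) : PhiC i x (σ.ch ρ k) = PhiC i x (σ.ch ρ k') := by
  obtain ⟨t, a, T, g⟩ := σ
  cases t with
  | leaf => simp at hk
  | tri c =>
    obtain ⟨j, rfl⟩ := (mem_idx_tri c k).1 hk
    obtain ⟨j', rfl⟩ := (mem_idx_tri c k').1 hk'
    have hj : j ≠ j' := fun h => hne (by rw [h])
    unfold Reg at hx hx'
    rw [bcf_chN h.1] at hx hx'
    have h0 := (sep_tri hj hx hx').1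
    ext p
    simp only [PhiC, Set.mem_ofPred_eq, bcf_chN h.1]
    exact and_congr_right fun hp =>
      ⟨car_sib hj _ hp _ h0, car_sib hj.symm _ hp _ h0.symm⟩
  | quad c =>
    obtain ⟨j, rfl⟩ := (mem_idx_quad c k).1 hk
    obtain ⟨j', rfl⟩ := (mem_idx_quad c k').1 hk'
    rw [phiC_quad x h hs j, phiC_quad x h hs j']

lemma phiV_bdy (i : ℕ) (x : E) (σ : Nd E) (h : OK σ) (_hs : ¬ Stop i σ) (k : Ix)
    (hk : k ∈ idx σ.t) (hx : Reg (σ.ch ρ k).T x) (hn : ¬ Int σ.T x) :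
    PhiV x (σ.ch ρ k) = PhiV x σ := by
  obtain ⟨t, a, T, g⟩ := σ
  unfold PhiV
  unfold Reg at hx
  rw [bcf_chN h.1] at hx ⊢
  cases t with
  | leaf => simp at hk
  | tri c =>
    obtain ⟨j, rfl⟩ := (mem_idx_tri c k).1 hk
    exact val_tri j g _ (zero_of_bdy_tri hx hn)
  | quad c =>
    obtain ⟨j, rfl⟩ := (mem_idx_quad c k).1 hk
    exact val_quad j g (bcf_sum h.1 x)

lemma phiV_sib (i : ℕ) (x : E) (σ : Nd E) (h : OK σ) (_hs : ¬ Stop i σ) (k : Ix)
    (hk : k ∈ idx σ.t) (k' : Ix) (hk' : k' ∈ idx σ.t) (hne : k ≠ k') (hx : Reg (σ.ch ρ k).T x)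
    (hx' : Reg (σ.ch ρ k').T x) : PhiV x (σ.ch ρ k) = PhiV x (σ.ch ρ k') := by
  obtain ⟨t, a, T, g⟩ := σ
  unfold PhiV
  unfold Reg at hx hx'
  rw [bcf_chN h.1] at hx hx' ⊢
  rw [bcf_chN h.1]
  cases t with
  | leaf => simp at hk
  | tri c =>
    obtain ⟨j, rfl⟩ := (mem_idx_tri c k).1 hk
    obtain ⟨j', rfl⟩ := (mem_idx_tri c k').1 hk'
    have hj : j ≠ j' := fun h => hne (by rw [h])
    exact val_sib hj g _ (sep_tri hj hx hx').1
  | quad c =>
    obtain ⟨j, rfl⟩ := (mem_idx_quad c k).1 hk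
    obtain ⟨j', rfl⟩ := (mem_idx_quad c k').1 hk'
    exact (val_quad j g (bcf_sum h.1 x)).trans (val_quad j' g (bcf_sum h.1 x)).symm

/-- two cells containing a point are equal, or the point is on the boundary of both -/
lemma cells_eq_or {i : ℕ} {σ c c' : Nd E} (h : OK σ) (hc : c ∈ cells ρ i σ)
    (hc' : c' ∈ cells ρ i σ) {x : E} (hx : Reg c.T x) (hx' : Reg c'.T x) :
    c = c' ∨ (¬ Int c.T x ∧ ¬ Int c'.T x) :=
  (inv_cmp (phiV_bdy i x) (phiV_sib i x) σ h c hc c' hc' hx hx').imp id fun h => ⟨h.1, h.2.1⟩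

/-- cells meet face to face -/
lemma cells_corner {i : ℕ} {σ c c' : Nd E} (h : OK σ) (ha : i - 1 ≤ σ.a) (hc : c ∈ cells ρ i σ)
    (hc' : c' ∈ cells ρ i σ) {x : E} (hx : Reg c.T x) (hx' : Reg c'.T x) {j : Fin 3}
    (hj : 0 < bcf c.T x j) : ∃ j', c'.T j' = c.T j ∧ bcf c.T x j ≤ bcf c'.T x j' := by
  rcases inv_cmp (phiC_bdy i x) (phiC_sib i x) σ h c hc c' hc' hx hx' with rfl | ⟨-, -, h1⟩
  · exact ⟨j, rfl, le_rfl⟩
  · have g1 := (h.cells hc).1
    have g2 := (h.cells hc').1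
    have h2 : (c.T j, 1 - bcf c.T x j) ∈ PhiC i x c := by
      refine ⟨by linarith, ?_⟩
      rw [level_cells h ha hc, Nat.sub_self, bcf_vertex g1]
      exact car_single (bcf_sum g1 x) hx j le_rfl
    rw [h1] at h2
    obtain ⟨h3, h4⟩ := h2
    rw [level_cells h ha hc', Nat.sub_self] at h4
    obtain ⟨j', h5, h6⟩ := single_of_car h3 (bcf_sum g2 x) hx' (bcf_sum g2 _) h4
    exact ⟨j', (eq_vertex_of_bcf g2 h5).symm, by linarith⟩

/-- vertices on the boundary of a node are lattice points -/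
lemma lattice_of_bdy {σ l : Nd E} (h : OK σ) (hl : l ∈ cells ρ 0 σ) (j : Fin 3)
    (hn : ¬ Int σ.T (l.T j)) (m : Fin 3) : ∃ k : ℤ, 2 ^ σ.a * bcf σ.T (l.T j) m = k := by
  have g1 := (h.cells hl).1
  have h1 := inv_bdy (phiC_bdy 0 (l.T j)) σ h hn l hl (reg_vertex g1 j)
  have h2 : (l.T j, (0 : ℝ)) ∈ PhiC 0 (l.T j) l := by
    refine ⟨by norm_num, ?_⟩
    rw [level_cells h (by simp) hl, bcf_vertex g1]
    exact car_single (by fin_cases j <;> simp) (nn_single j) j (by simp)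
  rw [h1] at h2
  obtain ⟨k, hk, -⟩ := h2.2 m
  exact ⟨k, by simpa using hk⟩

lemma value_bdy {σ l : Nd E} (h : OK σ) (hl : l ∈ cells ρ 0 σ) (j : Fin 3)
    (hn : ¬ Int σ.T (l.T j)) : l.g j = val σ.g (bcf σ.T (l.T j)) := by
  have g1 := (h.cells hl).1
  have h1 := inv_bdy (phiV_bdy 0 (l.T j)) σ h hn l hl (reg_vertex g1 j)
  unfold PhiV at h1
  rw [bcf_vertex g1, val_single] at h1
  exact h1

lemma value_unique {σ l l' : Nd E} (h : OK σ) (hl : l ∈ cells ρ 0 σ) (hl' : l' ∈ cells ρ 0 σ)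
    {j j' : Fin 3} (hj : l.T j = l'.T j') : l.g j = l'.g j' := by
  have g1 := (h.cells hl).1
  have g2 := (h.cells hl').1
  rcases inv_cmp (phiV_bdy 0 (l.T j)) (phiV_sib 0 (l.T j)) σ h l hl l' hl' (reg_vertex g1 j)
    (hj ▸ reg_vertex g2 j') with rfl | ⟨-, -, h1⟩
  · rw [g1.affineIndependent.injective hj]
  · unfold PhiV at h1
    rw [bcf_vertex g1, val_single, hj, bcf_vertex g2, val_single] at h1
    exact h1

end Pool.Agent.MP_295da9_pr.Th

end

section

/-! Systems of triangles, captured nodes, distances along sides. -/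

namespace Pool.Agent.MP_295da9_pr.Th

variable {E : Type*} [AddCommGroup E] [Module ℝ E] {ρ : Rule}

/-- `L` is a leaf triangle of the tree placed on `T` -/
def LeafOf : Tr → (Fin 3 → E) → (Fin 3 → E) → Prop
  | .leaf, T, L => L = T
  | .tri c, T, L => ∃ k, LeafOf (c k) (upd k T (ctr T)) L
  | .quad c, T, L => ∃ k, LeafOf (c k) (quadT k T) L

lemma leafOf_go (ρ : Rule) {σ : Nd E} (h : σ.t ≠ .leaf) (L : Fin 3 → E) :
    LeafOf σ.t σ.T L ↔ ∃ k ∈ idx σ.t, LeafOf (σ.ch ρ k).t (σ.ch ρ k).T L := by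
  obtain ⟨t, a, T, g⟩ := σ
  cases t with
  | leaf => exact absurd rfl h
  | tri c =>
    constructor
    · rintro ⟨k, hk⟩; exact ⟨.inl k, by simp, hk⟩
    · rintro ⟨k, hk, h⟩
      obtain ⟨i, rfl⟩ := (mem_idx_tri c k).1 hk
      exact ⟨i, h⟩
  | quad c =>
    constructor
    · rintro ⟨k, hk⟩; exact ⟨.inr k, by simp, hk⟩
    · rintro ⟨k, hk, h⟩
      obtain ⟨i, rfl⟩ := (mem_idx_quad c k).1 hk
      exact ⟨i, h⟩

lemma ne_leaf_of_mem {t : Tr} {k : Ix} (hk : k ∈ idx t) : t ≠ .leaf := by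
  rintro rfl; simp at hk

lemma leafOf_of_ch {σ : Nd E} {k : Ix} (hk : k ∈ idx σ.t) {L : Fin 3 → E}
    (h : LeafOf (σ.ch ρ k).t (σ.ch ρ k).T L) : LeafOf σ.t σ.T L :=
  (leafOf_go ρ (ne_leaf_of_mem hk) L).2 ⟨k, hk, h⟩

lemma leafOf_cells (ρ : Rule) (i : ℕ) (σ : Nd E) (L : Fin 3 → E) :
    LeafOf σ.t σ.T L ↔ ∃ c ∈ cells ρ i σ, LeafOf c.t c.T L := by
  induction σ using @Nd.ind E _ _ ρ with
  | _ σ ih =>
    by_cases hs : Stop i σ
    · simp [mem_cells_stop hs]
    · rw [leafOf_go ρ (fun h' => hs (Or.inl h'))]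
      constructor
      · rintro ⟨k, hk, h⟩
        obtain ⟨c, hc, h⟩ := (ih k hk).1 h
        exact ⟨c, (mem_cells_go hs).2 ⟨k, hk, hc⟩, h⟩
      · rintro ⟨c, hc, h⟩
        obtain ⟨k, hk, hc⟩ := (mem_cells_go hs).1 hc
        exact ⟨k, hk, (ih k hk).2 ⟨c, hc, h⟩⟩

lemma leafOf_zero (ρ : Rule) (σ : Nd E) (L : Fin 3 → E) :
    LeafOf σ.t σ.T L ↔ ∃ l ∈ cells ρ 0 σ, l.T = L := by
  rw [leafOf_cells ρ 0]
  refine exists_congr fun l => and_congr_right fun hl => ?_
  rw [leaf_of_cells_zero hl]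
  exact eq_comm

/-- the trivial rule -/
def rho0 : Rule := fun _ _ => 0

lemma OK.good_leaf {σ : Nd E} (h : OK σ) {L : Fin 3 → E} (hL : LeafOf σ.t σ.T L) : Good L := by
  obtain ⟨l, hl, rfl⟩ := (leafOf_zero rho0 σ L).1 hL
  exact (h.cells hl).1

lemma OK.reg_leaf {σ : Nd E} (h : OK σ) {L : Fin 3 → E} (hL : LeafOf σ.t σ.T L) {x : E}
    (hx : Reg L x) : Reg σ.T x := by
  obtain ⟨l, hl, rfl⟩ := (leafOf_zero rho0 σ L).1 hL
  exact reg_of_cells h hl hx

lemma OK.reg_leaf_vertex {σ : Nd E} (h : OK σ) {L : Fin 3 → E} (hL : LeafOf σ.t σ.T L)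
    (j : Fin 3) : Reg σ.T (L j) := h.reg_leaf hL (reg_vertex (h.good_leaf hL) j)

lemma OK.exists_leaf {σ : Nd E} (h : OK σ) {x : E} (hx : Reg σ.T x) :
    ∃ L, LeafOf σ.t σ.T L ∧ Reg L x := by
  obtain ⟨l, hl, hx⟩ := exists_cell rho0 0 σ h hx
  exact ⟨l.T, (leafOf_zero rho0 σ _).2 ⟨l, hl, rfl⟩, hx⟩

lemma OK.leaf_ff {σ : Nd E} (h : OK σ) {L L' : Fin 3 → E} (hL : LeafOf σ.t σ.T L)
    (hL' : LeafOf σ.t σ.T L') {x : E} (hx : Reg L x) (hx' : Reg L' x) {j : Fin 3}
    (hj : 0 < bcf L x j) : ∃ j', L' j' = L j := by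
  obtain ⟨l, hl, rfl⟩ := (leafOf_zero rho0 σ L).1 hL
  obtain ⟨l', hl', rfl⟩ := (leafOf_zero rho0 σ L').1 hL'
  obtain ⟨j', h1, -⟩ := cells_corner h (by simp) hl hl' hx hx' hj
  exact ⟨j', h1⟩

/-- a family of triangles meeting face to face -/
structure Sys (𝓛 : Set (Fin 3 → E)) : Prop where
  good : ∀ L ∈ 𝓛, Good L
  ff : ∀ L ∈ 𝓛, ∀ L' ∈ 𝓛, ∀ x, Reg L x → Reg L' x → ∀ j, 0 < bcf L x j → ∃ j', L' j' = L j

/-- the node carries exactly the triangles of the family that meet its interior -/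
structure Cap (𝓛 : Set (Fin 3 → E)) (σ : Nd E) : Prop where
  ok : OK σ
  mem : ∀ L, LeafOf σ.t σ.T L → L ∈ 𝓛
  cap : ∀ L ∈ 𝓛, ∀ x, Reg L x → Int σ.T x → LeafOf σ.t σ.T L

variable {𝓛 : Set (Fin 3 → E)}

lemma Cap.ch {σ : Nd E} (h : Cap 𝓛 σ) {k : Ix} (hk : k ∈ idx σ.t) : Cap 𝓛 (σ.ch ρ k) where
  ok := h.ok.ch hk
  mem _ hL := h.mem _ (leafOf_of_ch hk hL)
  cap L hL x hx hi := by
    have h1 := h.cap L hL x hx (int_of_ch h.ok hi)
    obtain ⟨k', hk', h2⟩ := (leafOf_go ρ (ne_leaf_of_mem hk) L).1 h1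
    by_cases hkk : k = k'
    · exact hkk ▸ h2
    · exact absurd hi (sep_ch h.ok hk hk' hkk ((h.ok.ch hk').reg_leaf h2 hx))

lemma Cap.cells {i : ℕ} {σ c : Nd E} (h : Cap 𝓛 σ) (hc : c ∈ cells ρ i σ) : Cap 𝓛 c :=
  (cells_inherit (P := Cap 𝓛) (fun _ h _ _ hk => h.ch hk) σ h c hc).1

lemma Cap.redec {σ : Nd E} (h : Cap 𝓛 σ) (g : Fin 3 → ℝ) : Cap 𝓛 ⟨σ.t, σ.a, σ.T, g⟩ :=
  ⟨h.ok, h.mem, h.cap⟩

/-- vertex of the family -/
def Vtx (𝓛 : Set (Fin 3 → E)) (x : E) : Prop := ∃ L ∈ 𝓛, ∃ j, L j = x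

/-- two vertices of one triangle -/
def Co (𝓛 : Set (Fin 3 → E)) (x y : E) : Prop := ∃ L ∈ 𝓛, (∃ j, L j = x) ∧ ∃ j, L j = y

omit [AddCommGroup E] [Module ℝ E] in
lemma Co.symm {x y : E} (h : Co 𝓛 x y) : Co 𝓛 y x := by
  obtain ⟨L, hL, h1, h2⟩ := h
  exact ⟨L, hL, h2, h1⟩

omit [AddCommGroup E] [Module ℝ E] in
lemma Co.left {x y : E} (h : Co 𝓛 x y) : Vtx 𝓛 x := by
  obtain ⟨L, hL, h1, -⟩ := h
  exact ⟨L, hL, h1⟩

omit [AddCommGroup E] [Module ℝ E] in
lemma Co.right {x y : E} (h : Co 𝓛 x y) : Vtx 𝓛 y := h.symm.left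

lemma Cap.vtx_leaf (hS : Sys 𝓛) {σ : Nd E} (h : Cap 𝓛 σ) {x : E} (hv : Vtx 𝓛 x)
    (hx : Reg σ.T x) : ∃ L, LeafOf σ.t σ.T L ∧ ∃ j, L j = x := by
  obtain ⟨L, hL, j, rfl⟩ := hv
  obtain ⟨L', hL', hx'⟩ := h.ok.exists_leaf hx
  have g1 := hS.good L hL
  exact ⟨L', hL', hS.ff L hL L' (h.mem _ hL') _ (reg_vertex g1 j) hx' j
    (by rw [bcf_vertex g1]; simp)⟩

lemma Cap.co_leaf (hS : Sys 𝓛) {σ : Nd E} (h : Cap 𝓛 σ) {x y : E} (hxy : Co 𝓛 x y)
    (hx : Int σ.T x) : ∃ L, LeafOf σ.t σ.T L ∧ (∃ j, L j = x) ∧ ∃ j, L j = y := by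
  obtain ⟨L, hL, ⟨j, rfl⟩, h2⟩ := hxy
  exact ⟨L, h.cap L hL _ (reg_vertex (hS.good L hL) j) hx, ⟨j, rfl⟩, h2⟩

lemma Cap.co_reg (hS : Sys 𝓛) {σ : Nd E} (h : Cap 𝓛 σ) {x y : E} (hxy : Co 𝓛 x y)
    (hx : Int σ.T x) : Reg σ.T y := by
  obtain ⟨L, hL, -, j, rfl⟩ := h.co_leaf hS hxy hx
  exact h.ok.reg_leaf_vertex hL j

/-- joined by at most `n` steps -/
inductive Near (𝓛 : Set (Fin 3 → E)) : ℕ → E → E → Prop
  | refl (n : ℕ) (x : E) : Near 𝓛 n x x
  | step {n : ℕ} {x y z : E} : Co 𝓛 x y → Near 𝓛 n y z → Near 𝓛 (n + 1) x z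

section near
omit [AddCommGroup E] [Module ℝ E]

lemma Near.mono {n m : ℕ} {x y : E} (h : Near 𝓛 n x y) (hm : n ≤ m) : Near 𝓛 m x y := by
  induction h generalizing m with
  | refl => exact .refl _ _
  | step h1 _ ih =>
    obtain ⟨m, rfl⟩ : ∃ m', m = m' + 1 := ⟨m - 1, by omega⟩
    exact .step h1 (ih (by omega))

lemma Near.trans {n m : ℕ} {x y z : E} (h : Near 𝓛 n x y) (h' : Near 𝓛 m y z) :
    Near 𝓛 (n + m) x z := by
  induction h with
  | refl => exact h'.mono (by omega)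
  | step h1 _ ih => rw [Nat.add_right_comm]; exact .step h1 (ih h')

lemma Co.near {x y : E} (h : Co 𝓛 x y) : Near 𝓛 1 x y := .step h (.refl 0 _)

lemma Near.symm {n : ℕ} {x y : E} (h : Near 𝓛 n x y) : Near 𝓛 n y x := by
  induction h with
  | refl => exact .refl _ _
  | step h1 _ ih => exact ih.trans h1.symm.near

lemma Near.vtx {n : ℕ} {x y : E} (h : Near 𝓛 n x y) (hx : Vtx 𝓛 x) : Vtx 𝓛 y := by
  induction h with
  | refl => exact hx
  | step h1 _ ih => exact ih h1.right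

lemma Near.induct {P : ℕ → E → Prop} {x : E} (h0 : ∀ n, P n x)
    (h1 : ∀ n y z, Near 𝓛 n x y → P n y → Co 𝓛 y z → P (n + 1) z) (n : ℕ) :
    ∀ y, Near 𝓛 n x y → P n y := by
  induction n with
  | zero => intro y h; cases h; exact h0 0
  | succ n ih =>
    intro y h
    have h' := h.symm
    cases h' with
    | refl => exact h0 _
    | step h2 h3 => exact h1 n _ _ h3.symm (ih _ h3.symm) h2.symm

end near

/-- the `m`-th subdivision point on the segment from `p` to `q` -/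
noncomputable def pt (a : ℕ) (p q : E) (m : ℕ) : E := p + ((m : ℝ) / 2 ^ a) • (q - p)

lemma pt_zero (a : ℕ) (p q : E) : pt a p q 0 = p := by simp [pt]

lemma pt_top (a : ℕ) (p q : E) : pt a p q (2 ^ a) = q := by
  have : (2 : ℝ) ^ a ≠ 0 := by positivity
  simp [pt, this]

lemma pt_lo (a : ℕ) (p q : E) (m : ℕ) : pt (a + 1) p q m = pt a p ((1 / 2 : ℝ) • (p + q)) m := by
  have : (2 : ℝ) ^ a ≠ 0 := by positivity
  unfold pt
  rw [pow_succ, ← div_div]
  module

lemma pt_hi (a : ℕ) (p q : E) (m : ℕ) :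
    pt (a + 1) p q (2 ^ a + m) = pt a ((1 / 2 : ℝ) • (q + p)) q m := by
  have h : (2 : ℝ) ^ a ≠ 0 := by positivity
  unfold pt
  have h1 : ((2 ^ a + m : ℕ) : ℝ) / 2 ^ (a + 1) = 1 / 2 + (m : ℝ) / 2 ^ a / 2 := by
    push_cast; rw [pow_succ]; field_simp
  rw [h1]
  module

lemma pt_rev (a : ℕ) (p q : E) {m m' : ℕ} (hm : m + m' = 2 ^ a) : pt a p q m = pt a q p m' := by
  have h : (2 : ℝ) ^ a ≠ 0 := by positivity
  unfold pt
  have h0 : (m : ℝ) + m' = 2 ^ a := by exact_mod_cast hm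
  have h1 : (m : ℝ) / 2 ^ a = 1 - (m' : ℝ) / 2 ^ a := by
    field_simp; linarith
  rw [h1]
  module

lemma half_self (p : E) : (1 / 2 : ℝ) • (p + p) = p := by module

lemma bcf_pt {T : Fin 3 → E} (h : Good T) (a : ℕ) (j j' : Fin 3) (m : ℕ) :
    bcf T (pt a (T j) (T j') m) =
      Pi.single j (1 - (m : ℝ) / 2 ^ a) + Pi.single j' ((m : ℝ) / 2 ^ a) := by
  apply bcf_eq h
  unfold pt
  generalize (m : ℝ) / 2 ^ a = s
  fin_cases j <;> fin_cases j' <;> simp [IsBC] <;> module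

lemma third (j j' : Fin 3) : ∃ k : Fin 3, k ≠ j ∧ k ≠ j' := by
  revert j j'; decide

lemma upd_pos (k j j' : Fin 3) (hj : k ≠ j) (hj' : k ≠ j') (hne : j ≠ j') :
    ∃ p p' : Fin 3, p ≠ p' ∧ p ≠ 2 ∧ p' ≠ 2 ∧ ∀ {α : Type _} (T : Fin 3 → α) (w : α),
      upd k T w p = T j ∧ upd k T w p' = T j' := by
  fin_cases k <;> fin_cases j <;> fin_cases j' <;> simp at hj hj' hne <;>
    first
    | exact ⟨0, 1, by decide, by decide, by decide, fun T w => ⟨rfl, rfl⟩⟩
    | exact ⟨1, 0, by decide, by decide, by decide, fun T w => ⟨rfl, rfl⟩⟩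

lemma side_path (t : Tr) : ∀ (a : ℕ) (T : Fin 3 → E), WL t a → ∀ j j' : Fin 3, j ≠ j' →
    ∀ m, m < 2 ^ a → ∃ L, LeafOf t T L ∧ (∃ i, L i = pt a (T j) (T j') m) ∧
      ∃ i, L i = pt a (T j) (T j') (m + 1) := by
  induction t with
  | leaf =>
    intro a T h j j' _ m hm
    obtain rfl : a = 0 := h
    obtain rfl : m = 0 := by simpa using hm
    exact ⟨T, rfl, ⟨j, (pt_zero _ _ _).symm⟩, ⟨j', (pt_top 0 _ _).symm⟩⟩
  | tri c ih =>
    intro a T h j j' hne m hm
    obtain ⟨k, hk, hk'⟩ := third j j'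
    obtain ⟨p, p', hp, -, -, e⟩ := upd_pos k j j' hk hk' hne
    obtain ⟨L, hL, h1⟩ := ih k a (upd k T (ctr T)) (h k) p p' hp m hm
    rw [(e T _).1, (e T _).2] at h1
    exact ⟨L, ⟨k, hL⟩, h1⟩
  | quad c ih =>
    intro a T h j j' hne m hm
    obtain ⟨a, rfl⟩ : ∃ b, a = b + 1 := ⟨a - 1, by have := h.1; omega⟩
    by_cases hm' : m < 2 ^ a
    · obtain ⟨L, hL, h1⟩ := ih (some j) a (quadT (some j) T) (h.2 _) j j' hne m hm'
      simp only [quadT, half_self, ← pt_lo] at h1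
      exact ⟨L, ⟨some j, hL⟩, h1⟩
    · obtain ⟨m, rfl⟩ : ∃ m', m = 2 ^ a + m' := ⟨m - 2 ^ a, by omega⟩
      obtain ⟨L, hL, h1⟩ := ih (some j') a (quadT (some j') T) (h.2 _) j j' hne m
        (by rw [pow_succ] at hm; omega)
      simp only [quadT, half_self, ← pt_hi] at h1
      exact ⟨L, ⟨some j', hL⟩, by rw [add_assoc]; exact h1⟩

lemma Cap.co_side {σ : Nd E} (h : Cap 𝓛 σ) {j j' : Fin 3} (hne : j ≠ j') {m : ℕ}
    (hm : m < 2 ^ σ.a) : Co 𝓛 (pt σ.a (σ.T j) (σ.T j') m) (pt σ.a (σ.T j) (σ.T j') (m + 1)) := by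
  obtain ⟨L, hL, h1⟩ := side_path σ.t σ.a σ.T h.ok.2 j j' hne m hm
  exact ⟨L, h.mem L hL, h1⟩

lemma Cap.near_side {σ : Nd E} (h : Cap 𝓛 σ) {j j' : Fin 3} (hne : j ≠ j') (m : ℕ)
    (hm : m ≤ 2 ^ σ.a) : Near 𝓛 m (σ.T j) (pt σ.a (σ.T j) (σ.T j') m) := by
  induction m with
  | zero => rw [pt_zero]; exact .refl _ _
  | succ m ih => exact (ih (by omega)).trans (h.co_side hne (by omega)).near

lemma Cap.near_corner {σ : Nd E} (h : Cap 𝓛 σ) (j j' : Fin 3) :
    Near 𝓛 (2 ^ σ.a) (σ.T j) (σ.T j') := by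
  by_cases hne : j = j'
  · rw [hne]; exact .refl _ _
  · have := h.near_side hne _ le_rfl
    rwa [pt_top] at this

lemma Cap.vtx_corner {σ : Nd E} (h : Cap 𝓛 σ) (j : Fin 3) : Vtx 𝓛 (σ.T j) := by
  obtain ⟨j', hj, -⟩ := third j j
  have := (h.co_side hj.symm (m := 0) (by positivity)).left
  rwa [pt_zero] at this

lemma Cap.near_ch {σ : Nd E} (h : Cap 𝓛 σ) {k : Ix} (hk : k ∈ idx σ.t) :
    Near 𝓛 (2 * 2 ^ σ.a) (σ.T 0) ((σ.ch ρ k).T 0) := by
  have hc := fun k hk => (h.ch (ρ := ρ) (k := k) hk).near_corner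
  have h0 := h.near_corner
  obtain ⟨t, a, T, g⟩ := σ
  have hp : 2 ^ (a - 1) ≤ 2 ^ a := Nat.pow_le_pow_right (by norm_num) (by omega)
  cases t with
  | leaf => simp at hk
  | tri c =>
    obtain ⟨j, rfl⟩ := (mem_idx_tri c k).1 hk
    exact (h0 0 (if j = 0 then 1 else 0)).mono (by dsimp only; omega)
  | quad c =>
    obtain ⟨j, rfl⟩ := (mem_idx_quad c k).1 hk
    rcases j with _ | j
    · have h1 := hc (.inr (some 1)) (by simp) 1 2
      have e1 : (Nd.ch ρ ⟨.quad c, a, T, g⟩ (.inr (some 1))).T 1 = T 1 := half_self _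
      have e2 : (Nd.ch ρ ⟨.quad c, a, T, g⟩ (.inr (some 1))).T 2 =
          (Nd.ch ρ ⟨.quad c, a, T, g⟩ (.inr none)).T 0 := by
        simp only [Nd.ch, chT, quadT]; module
      rw [e1, e2] at h1
      exact ((h0 0 1).trans h1).mono (by simp only [Nd.ch, lvl]; omega)
    · have h1 := hc (.inr (some j)) (by simp) j 0
      have e1 : (Nd.ch ρ ⟨.quad c, a, T, g⟩ (.inr (some j))).T j = T j := half_self _
      rw [e1] at h1
      exact ((h0 0 j).trans h1).mono (by simp only [Nd.ch, lvl]; omega)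

end Pool.Agent.MP_295da9_pr.Th

end

section

/-! Counting functions on subdivision trees and their geometric meaning. -/

namespace Pool.Agent.MP_295da9_pr.Th

/-- number of leaves -/
def size : Tr → ℕ
  | .leaf => 1
  | .tri c => ∑ k, size (c k)
  | .quad c => ∑ k, size (c k)

/-- weighted height -/
def hgt : Tr → ℕ → ℕ
  | .leaf, _ => 0
  | .tri c, a => 2 ^ a + Finset.univ.sup fun k => hgt (c k) a
  | .quad c, a => 2 ^ a + Finset.univ.sup fun k => hgt (c k) (a - 1)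

/-- number of leaves of weighted depth at most `L` -/
def reach : Tr → ℕ → ℕ → ℕ
  | .leaf, _, _ => 1
  | .tri c, a, L => if 2 ^ a ≤ L then ∑ k, reach (c k) a (L - 2 ^ a) else 0
  | .quad c, a, L => if 2 ^ a ≤ L then ∑ k, reach (c k) (a - 1) (L - 2 ^ a) else 0

/-- the depth rule -/
noncomputable def rho2 : Rule := fun a g => min (g 0) (min (g 1) (g 2)) + 2 ^ a

open Classical in
/-- number of leaves with a corner of depth `< R` -/
noncomputable def cnt (R : ℝ) : Tr → ℕ → (Fin 3 → ℝ) → ℕ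
  | .leaf, _, g => if ∃ j, g j < R then 1 else 0
  | .tri c, a, g => ∑ k, cnt R (c k) a (upd k g (rho2 a g))
  | .quad c, a, g => ∑ k, cnt R (c k) (a - 1) (quadT k g)

/-- number of leaves at a corner -/
def cp : Tr → Fin 3 → ℕ
  | .leaf, _ => 1
  | .tri c, j => ![cp (c 1) 0 + cp (c 2) 0, cp (c 0) 0 + cp (c 2) 1, cp (c 0) 1 + cp (c 1) 1] j
  | .quad c, j => cp (c (some j)) j

/-- all subtrees have the property -/
def All (P : Tr → ℕ → Prop) : Tr → ℕ → Prop
  | .leaf, a => P .leaf a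
  | .tri c, a => P (.tri c) a ∧ ∀ k, All P (c k) a
  | .quad c, a => P (.quad c) a ∧ ∀ k, All P (c k) (a - 1)

lemma All.root {P : Tr → ℕ → Prop} {t : Tr} {a : ℕ} (h : All P t a) : P t a := by
  cases t with
  | leaf => exact h
  | tri c => exact h.1
  | quad c => exact h.1

lemma All.sub {P : Tr → ℕ → Prop} {t : Tr} {a : ℕ} (h : All P t a) {k : Ix} (hk : k ∈ idx t) :
    All P (sub t k) (lvl a k) := by
  cases t with
  | leaf => simp at hk
  | tri c => obtain ⟨i, rfl⟩ := (mem_idx_tri c k).1 hk; exact h.2 i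
  | quad c => obtain ⟨i, rfl⟩ := (mem_idx_quad c k).1 hk; exact h.2 i

lemma all_of_inherit {P Q : Tr → ℕ → Prop} (h1 : ∀ t a, Q t a → P t a)
    (h2 : ∀ t a, Q t a → ∀ k ∈ idx t, Q (sub t k) (lvl a k)) (t : Tr) :
    ∀ a, Q t a → All P t a := by
  induction t with
  | leaf => exact fun a h => h1 _ _ h
  | tri c ih => exact fun a h => ⟨h1 _ _ h, fun k => ih k _ (h2 _ _ h (.inl k) (by simp))⟩
  | quad c ih => exact fun a h => ⟨h1 _ _ h, fun k => ih k _ (h2 _ _ h (.inr k) (by simp))⟩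

lemma one_le_cp (t : Tr) : ∀ j, 1 ≤ cp t j := by
  induction t with
  | leaf => intro j; exact le_rfl
  | tri c ih =>
    intro j
    have := ih 0 0
    have := ih 1 0
    have := ih 0 1
    fin_cases j <;> simp [cp] <;> omega
  | quad c ih => intro j; exact ih _ _

lemma hgt_sub {t : Tr} (a : ℕ) {k : Ix} (hk : k ∈ idx t) :
    2 ^ a + hgt (sub t k) (lvl a k) ≤ hgt t a := by
  cases t with
  | leaf => simp at hk
  | tri c =>
    obtain ⟨i, rfl⟩ := (mem_idx_tri c k).1 hk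
    exact Nat.add_le_add_left
      (Finset.le_sup (f := fun k => hgt (c k) a) (Finset.mem_univ i)) _
  | quad c =>
    obtain ⟨i, rfl⟩ := (mem_idx_quad c k).1 hk
    exact Nat.add_le_add_left
      (Finset.le_sup (f := fun k => hgt (c k) (a - 1)) (Finset.mem_univ i)) _

lemma reach_go {t : Tr} (ht : t ≠ .leaf) (a L : ℕ) : reach t a L =
    if 2 ^ a ≤ L then ∑ k ∈ idx t, reach (sub t k) (lvl a k) (L - 2 ^ a) else 0 := by
  cases t with
  | leaf => exact absurd rfl ht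
  | tri c => rw [sum_idx_tri]; rfl
  | quad c => rw [sum_idx_quad]; rfl

lemma size_go {t : Tr} (ht : t ≠ .leaf) : size t = ∑ k ∈ idx t, size (sub t k) := by
  cases t with
  | leaf => exact absurd rfl ht
  | tri c => rw [sum_idx_tri]; rfl
  | quad c => rw [sum_idx_quad]; rfl

lemma reach_eq_size (t : Tr) : ∀ a L, hgt t a ≤ L → reach t a L = size t := by
  induction t using Tr.ind with
  | _ t ih =>
    intro a L h
    by_cases ht : t = .leaf
    · subst ht; rfl
    · have h1 : 2 ^ a ≤ L := by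
        cases t with
        | leaf => exact absurd rfl ht
        | tri c => exact le_trans (Nat.le_add_right _ _) h
        | quad c => exact le_trans (Nat.le_add_right _ _) h
      rw [reach_go ht, if_pos h1, size_go ht]
      exact Finset.sum_congr rfl fun k hk => ih k hk _ _ (by have := hgt_sub a hk; omega)

lemma reach_mono (t : Tr) : ∀ a L L', L ≤ L' → reach t a L ≤ reach t a L' := by
  induction t using Tr.ind with
  | _ t ih =>
    intro a L L' h
    by_cases ht : t = .leaf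
    · subst ht; exact le_rfl
    · rw [reach_go ht, reach_go ht]
      split_ifs with h1 h2
      · exact Finset.sum_le_sum fun k hk => ih k hk _ _ _ (by omega)
      · omega
      · omega
      · omega

lemma reach_sub {t : Tr} (a L : ℕ) {k : Ix} (hk : k ∈ idx t) :
    reach (sub t k) (lvl a k) L ≤ reach t a (2 ^ a + L) := by
  rw [reach_go (ne_leaf_of_mem hk), if_pos (Nat.le_add_right _ _), Nat.add_sub_cancel_left]
  exact Finset.single_le_sum (f := fun k => reach (sub t k) (lvl a k) L)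
    (fun _ _ => Nat.zero_le _) hk

variable {E : Type*} [AddCommGroup E] [Module ℝ E] {ρ : Rule} {𝓛 : Set (Fin 3 → E)}

omit [AddCommGroup E] [Module ℝ E] in
lemma not_stop_zero {σ : Nd E} (h : σ.t ≠ .leaf) : ¬ Stop 0 σ :=
  fun h' => h'.elim h (Nat.not_lt_zero _)

open Classical in
lemma countP_cnt (R : ℝ) (σ : Nd E) :
    Multiset.countP (fun l : Nd E => ∃ j, l.g j < R) (cells rho2 0 σ) = cnt R σ.t σ.a σ.g := by
  induction σ using @Nd.ind E _ _ rho2 with
  | _ σ ih =>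
    by_cases ht : σ.t = .leaf
    · rw [cells_stop (Or.inl ht), ht, cnt, Multiset.countP_eq_card_filter, Multiset.filter_singleton]
      split_ifs <;> simp
    · rw [cells_go (not_stop_zero ht), ← Multiset.coe_countPAddMonoidHom, map_sum]
      simp only [Multiset.coe_countPAddMonoidHom]
      rw [Finset.sum_congr rfl ih]
      obtain ⟨t, a, T, g⟩ := σ
      cases t with
      | leaf => exact absurd rfl ht
      | tri c => rw [sum_idx_tri]; rfl
      | quad c => rw [sum_idx_quad]; rfl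

lemma Cap.near_leaf (σ : Nd E) : Cap 𝓛 σ → ∀ L, LeafOf σ.t σ.T L →
    Near 𝓛 (2 * hgt σ.t σ.a) (σ.T 0) (L 0) := by
  induction σ using @Nd.ind E _ _ rho0 with
  | _ σ ih =>
    intro h L hL
    by_cases ht : σ.t = .leaf
    · rw [ht] at hL
      obtain rfl : L = σ.T := hL
      exact .refl _ _
    · obtain ⟨k, hk, hL⟩ := (leafOf_go rho0 ht L).1 hL
      have h1 := hgt_sub σ.a hk
      exact ((h.near_ch hk).trans (ih k hk (h.ch hk) L hL)).mono (by simp only [Nd.ch]; omega)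

lemma Cap.near_vtx (hS : Sys 𝓛) {σ : Nd E} (h : Cap 𝓛 σ) {x : E} (hv : Vtx 𝓛 x)
    (hx : Reg σ.T x) : Near 𝓛 (2 * hgt σ.t σ.a + 1) (σ.T 0) x := by
  obtain ⟨L, hL, hj⟩ := h.vtx_leaf hS hv hx
  exact (h.near_leaf σ L hL).trans (Co.near ⟨L, h.mem L hL, ⟨0, rfl⟩, hj⟩)

lemma cap_exists_reach (σ : Nd E) : Cap 𝓛 σ → ∀ L, ∃ s ≤ cells ρ 0 σ,
    Multiset.card s = reach σ.t σ.a L ∧ ∀ l ∈ s, Near 𝓛 (2 * L) (σ.T 0) (l.T 0) := by
  induction σ using @Nd.ind E _ _ ρ with
  | _ σ ih =>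
    intro h L
    by_cases ht : σ.t = .leaf
    · refine ⟨{σ}, by rw [cells_stop (Or.inl ht)], by rw [ht]; rfl, fun l hl => ?_⟩
      rw [Multiset.mem_singleton.1 hl]
      exact .refl _ _
    · rw [reach_go ht]
      split_ifs with h1
      · have h2 : ∀ k, ∃ s, k ∈ idx σ.t → s ≤ cells ρ 0 (σ.ch ρ k) ∧
            Multiset.card s = reach (sub σ.t k) (lvl σ.a k) (L - 2 ^ σ.a) ∧
            ∀ l ∈ s, Near 𝓛 (2 * (L - 2 ^ σ.a)) ((σ.ch ρ k).T 0) (l.T 0) := by
          intro k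
          by_cases hk : k ∈ idx σ.t
          · obtain ⟨s, hs⟩ := ih k hk (h.ch hk) (L - 2 ^ σ.a)
            exact ⟨s, fun _ => hs⟩
          · exact ⟨0, fun h => absurd h hk⟩
        choose s hs using h2
        refine ⟨∑ k ∈ idx σ.t, s k, ?_, ?_, fun l hl => ?_⟩
        · rw [cells_go (not_stop_zero ht)]
          exact Finset.sum_le_sum fun k hk => (hs k hk).1
        · rw [Multiset.card_sum]
          exact Finset.sum_congr rfl fun k hk => (hs k hk).2.1
        · obtain ⟨k, hk, hl⟩ := Multiset.mem_sum.1 hl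
          exact ((h.near_ch hk).trans ((hs k hk).2.2 l hl)).mono (by omega)
      · exact ⟨0, Multiset.zero_le _, rfl, by simp⟩

open Classical in
/-- number of cells having `X` as a corner -/
noncomputable def cc (ρ : Rule) (i : ℕ) (X : E) (σ : Nd E) : ℕ :=
  Multiset.countP (fun c : Nd E => ∃ j, c.T j = X) (cells ρ i σ)

open Classical in
lemma cc_go {i : ℕ} {X : E} {σ : Nd E} (h : ¬ Stop i σ) :
    cc ρ i X σ = ∑ k ∈ idx σ.t, cc ρ i X (σ.ch ρ k) := by
  unfold cc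
  rw [cells_go h, ← Multiset.coe_countPAddMonoidHom, map_sum]

lemma not_nn_tri (j : Fin 3) : ¬ NN (chB (.inl j) (Pi.single j 1)) := by
  intro h
  have := h 0
  fin_cases j <;> simp [chB, updB] at this <;> linarith

lemma not_nn_quad (j : Fin 3) (k : Option (Fin 3)) (hk : k ≠ some j) :
    ¬ NN (chB (.inr k) (Pi.single j 1)) := by
  intro h
  rcases k with _ | k
  · have := h j
    simp [chB, quadB] at this
  · have := h k
    have hne : k ≠ j := fun h => hk (by rw [h])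
    simp [chB, quadB, hne] at this
    linarith

open Classical in
lemma cc_stop {i : ℕ} {X : E} {σ : Nd E} (h : Stop i σ) : cc ρ i X σ ≤ 1 := by
  unfold cc
  rw [cells_stop h]
  exact (Multiset.countP_le_card _ _).trans (by simp)

open Classical in
lemma cc_not_reg {i : ℕ} {X : E} {σ : Nd E} (h : OK σ) (hX : ¬ Reg σ.T X) : cc ρ i X σ = 0 := by
  unfold cc
  rw [Multiset.countP_eq_zero]
  rintro c hc ⟨j, rfl⟩
  exact hX (reg_of_cells h hc (reg_vertex (h.cells hc).1 j))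

lemma cc_corner (i : ℕ) (σ : Nd E) : OK σ → ∀ j, cc ρ i (σ.T j) σ ≤ cp σ.t j := by
  induction σ using @Nd.ind E _ _ ρ with
  | _ σ ih =>
    intro h j
    by_cases hs : Stop i σ
    · exact (cc_stop hs).trans (one_le_cp _ _)
    · rw [cc_go hs]
      have hz : ∀ k ∈ idx σ.t, ¬ NN (chB k (Pi.single j 1)) → cc ρ i (σ.T j) (σ.ch ρ k) = 0 :=
        fun k hk hn => cc_not_reg (h.ch hk) (by
          unfold Reg; rwa [bcf_chN h.1, bcf_vertex h.1])
      have ih' := fun k hk => ih k hk (h.ch hk)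
      obtain ⟨t, a, T, g⟩ := σ
      cases t with
      | leaf => exact absurd (Or.inl rfl) hs
      | tri c =>
        rw [sum_idx_tri, Fin.sum_univ_three]
        have h0 := hz (.inl j) (by simp) (not_nn_tri j)
        fin_cases j
        · exact (Nat.add_le_add (Nat.add_le_add h0.le (ih' (.inl 1) (by simp) 0))
            (ih' (.inl 2) (by simp) 0)).trans (by simp [cp, Nd.ch, sub])
        · exact (Nat.add_le_add (Nat.add_le_add (ih' (.inl 0) (by simp) 0) h0.le)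
            (ih' (.inl 2) (by simp) 1)).trans (by simp [cp, Nd.ch, sub])
        · exact (Nat.add_le_add (Nat.add_le_add (ih' (.inl 0) (by simp) 1)
            (ih' (.inl 1) (by simp) 1)) h0.le).trans (by simp [cp, Nd.ch, sub])
      | quad c =>
        rw [sum_idx_quad, Finset.sum_eq_single (some j)]
        · have h1 := ih' (.inr (some j)) (by simp) j
          have e1 : (Nd.ch ρ ⟨.quad c, a, T, g⟩ (.inr (some j))).T j = T j := half_self _
          rw [e1] at h1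
          exact h1
        · intro k _ hk
          exact hz (.inr k) (by simp) (not_nn_quad j k hk)
        · simp

lemma class_bdy_tri {b : Fin 3 → ℝ} (hs : b 0 + b 1 + b 2 = 1) (hb : NN b) (hn : ¬ PP b)
    (hc : ∀ j, b ≠ Pi.single j 1) : ∃ k0, ∀ k, NN (updB k b) → k = k0 := by
  obtain ⟨k0, hk0⟩ := cover_tri hb
  refine ⟨k0, fun k hk => ?_⟩
  by_contra hne
  have h1 := zero_of_bdy_tri hk0 hn
  have h2 := zero_of_bdy_tri (i := k) hk hn
  obtain ⟨j, hj, hj'⟩ := third k k0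
  apply hc j
  ext m
  fin_cases k <;> fin_cases k0 <;> fin_cases j <;> fin_cases m <;>
    simp at hne hj hj' h1 h2 ⊢ <;> linarith

lemma class_int_tri {b : Fin 3 → ℝ} (hs : b 0 + b 1 + b 2 = 1) :
    (∃ k0, ¬ NN (updB k0 b)) ∨ ∀ k, updB k b = Pi.single 2 1 := by
  by_cases h : ∃ k0, ¬ NN (updB k0 b)
  · exact Or.inl h
  · push Not at h
    right
    have h0 := ((updB_nonneg_iff 0 b).1 (h 0)).2
    have h1 := ((updB_nonneg_iff 1 b).1 (h 1)).2
    have h2 := ((updB_nonneg_iff 2 b).1 (h 2)).2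
    have := h0 1
    have := h0 2
    have := h1 0
    have := h2 0
    intro k
    ext m
    fin_cases k <;> fin_cases m <;> simp [updB] <;> linarith

lemma class_int_quad {b : Fin 3 → ℝ} (hs : b 0 + b 1 + b 2 = 1) (hb : PP b) :
    ∃ j, ∀ k, NN (quadB k b) → k = none ∨ k = some j := by
  rw [pp_iff] at hb
  by_cases h : ∃ j, NN (quadB (some j) b)
  · obtain ⟨j, hj⟩ := h
    refine ⟨j, fun k hk => ?_⟩
    rcases k with _ | k
    · exact Or.inl rfl
    · right
      rw [nn_iff] at hj hk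
      fin_cases j <;> fin_cases k <;> simp [quadB] at hj hk ⊢ <;> linarith
  · refine ⟨0, fun k hk => ?_⟩
    rcases k with _ | k
    · exact Or.inl rfl
    · exact absurd ⟨k, hk⟩ h

lemma class_bdy_quad {b : Fin 3 → ℝ} (hs : b 0 + b 1 + b 2 = 1) (hb : NN b) (hn : ¬ PP b) :
    (∃ k0, ∀ k, NN (quadB k b) → k = k0) ∨
    ∃ j0, ¬ NN (quadB (some j0) b) ∧ ∀ k, NN (quadB k b) → ∃ j, quadB k b = Pi.single j 1 := by
  obtain ⟨j0, hj0⟩ : ∃ j0, b j0 = 0 := by
    by_contra h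
    push Not at h
    exact hn fun j => lt_of_le_of_ne (hb j) (h j).symm
  by_cases h : NN (quadB none b)
  · right
    rw [nn_iff] at h
    simp only [quadB] at h
    refine ⟨j0, fun h' => by have := h' j0; simp [quadB, hj0] at this; linarith, fun k hk => ?_⟩
    rcases k with _ | k
    · refine ⟨j0, ?_⟩
      ext m
      fin_cases j0 <;> fin_cases m <;> simp [quadB] at hj0 ⊢ <;> linarith
    · have hk0 : k ≠ j0 := by
        rintro rfl
        have := hk k
        simp [quadB, hj0] at this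
        linarith
      obtain ⟨j, hj, hj'⟩ := third k j0
      refine ⟨j, ?_⟩
      ext m
      fin_cases j0 <;> fin_cases k <;> fin_cases j <;> fin_cases m <;>
        simp [quadB] at hj0 hk0 hj hj' ⊢ <;> linarith
  · left
    obtain ⟨k0, hk0⟩ := cover_quad hb
    refine ⟨k0, fun k hk => ?_⟩
    rcases k0 with _ | k0
    · exact absurd hk0 h
    · rcases k with _ | k
      · exact absurd hk h
      · by_contra hne
        apply h
        rw [nn_iff] at hk hk0 hb ⊢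
        fin_cases k <;> fin_cases k0 <;> simp [quadB, chB] at hne hk hk0 ⊢ <;>
          refine ⟨?_, ?_, ?_⟩ <;> linarith

open Classical in
lemma class_ch (σ : Nd E) (h : OK σ) {X : E} (hX : Reg σ.T X) (hc : ∀ j, σ.T j ≠ X) :
    ((idx σ.t).filter fun k => Reg (σ.ch ρ k).T X).card ≤ (if Int σ.T X then 2 else 1) ∨
    (((idx σ.t).filter fun k => Reg (σ.ch ρ k).T X).card ≤ 3 ∧
      ∀ k ∈ idx σ.t, Reg (σ.ch ρ k).T X → ∃ j, (σ.ch ρ k).T j = X) := by
  have hs := bcf_sum h.1 X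
  have hc' : ∀ j, bcf σ.T X ≠ Pi.single j 1 := fun j hj => hc j (eq_vertex_of_bcf h.1 hj).symm
  have hr : ∀ k, Reg (σ.ch ρ k).T X ↔ NN (chB k (bcf σ.T X)) := fun k => by
    unfold Reg; rw [bcf_chN h.1]
  have hv : ∀ k j, chB k (bcf σ.T X) = Pi.single j 1 → (σ.ch ρ k).T j = X := fun k j hj =>
    (eq_vertex_of_bcf (good_ch h.1 k) ((bcf_ch h.1 k X).trans hj)).symm
  simp only [hr]
  obtain ⟨t, a, T, g⟩ := σ
  cases t with
  | leaf => left; simp [idx]
  | tri c =>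
    have h3 : (idx (.tri c)).card = 3 := by simp [idx]
    split_ifs with hi
    · rcases class_int_tri hs with ⟨k0, hk0⟩ | h1
      · left
        refine (Finset.card_le_card (t := (idx (.tri c)).erase (.inl k0)) ?_).trans ?_
        · intro k hk
          rw [Finset.mem_filter] at hk
          exact Finset.mem_erase.2 ⟨fun h => hk0 (h ▸ hk.2 :), hk.1⟩
        · rw [Finset.card_erase_of_mem (by simp), h3]
      · right
        refine ⟨(Finset.card_filter_le _ _).trans h3.le, fun k hk _ => ?_⟩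
        obtain ⟨i, rfl⟩ := (mem_idx_tri c k).1 hk
        exact ⟨2, hv _ _ (h1 i)⟩
    · left
      obtain ⟨k0, hk0⟩ := class_bdy_tri hs hX hi hc'
      refine (Finset.card_le_card (t := {.inl k0}) ?_).trans (by simp)
      intro k hk
      rw [Finset.mem_filter] at hk
      obtain ⟨i, rfl⟩ := (mem_idx_tri c k).1 hk.1
      rw [hk0 i hk.2]; simp
  | quad c =>
    split_ifs with hi
    · left
      obtain ⟨j, hj⟩ := class_int_quad hs hi
      refine (Finset.card_le_card (t := {.inr none, .inr (some j)}) ?_).trans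
        Finset.card_le_two
      intro k hk
      rw [Finset.mem_filter] at hk
      obtain ⟨i, rfl⟩ := (mem_idx_quad c k).1 hk.1
      rcases hj i hk.2 with rfl | rfl <;> simp
    · rcases class_bdy_quad hs hX hi with ⟨k0, hk0⟩ | ⟨j0, h1, h2⟩
      · left
        refine (Finset.card_le_card (t := {.inr k0}) ?_).trans (by simp)
        intro k hk
        rw [Finset.mem_filter] at hk
        obtain ⟨i, rfl⟩ := (mem_idx_quad c k).1 hk.1
        rw [hk0 i hk.2]; simp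
      · right
        constructor
        · refine (Finset.card_le_card (t := (idx (.quad c)).erase (.inr (some j0))) ?_).trans ?_
          · intro k hk
            rw [Finset.mem_filter] at hk
            exact Finset.mem_erase.2 ⟨fun h => h1 (h ▸ hk.2 :), hk.1⟩
          · rw [Finset.card_erase_of_mem (by simp)]
            have := card_idx_le (.quad c)
            omega
        · intro k hk hk'
          obtain ⟨i, rfl⟩ := (mem_idx_quad c k).1 hk
          obtain ⟨j, hj⟩ := h2 i hk'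
          exact ⟨j, hv _ _ hj⟩

lemma cc_le {κ : ℕ} (i : ℕ) (X : E) (σ : Nd E) : OK σ →
    All (fun t _ => ∀ j, cp t j ≤ κ) σ.t σ.a →
    (¬ Int σ.T X → cc ρ i X σ ≤ 3 * κ) ∧ cc ρ i X σ ≤ 6 * κ := by
  classical
  induction σ using @Nd.ind E _ _ ρ with
  | _ σ ih =>
    intro h hA
    have hκ : 1 ≤ κ := (one_le_cp _ 0).trans (hA.root 0)
    by_cases hs : Stop i σ
    · have := cc_stop (ρ := ρ) (X := X) hs
      exact ⟨fun _ => by omega, by omega⟩
    by_cases hX : Reg σ.T X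
    swap
    · rw [cc_not_reg h hX]; simp
    by_cases hc : ∃ j, σ.T j = X
    · obtain ⟨j, rfl⟩ := hc
      have := (cc_corner (ρ := ρ) i σ h j).trans (hA.root j)
      exact ⟨fun _ => by omega, by omega⟩
    push Not at hc
    set s := (idx σ.t).filter fun k => Reg (σ.ch ρ k).T X with hs'
    have e : cc ρ i X σ = ∑ k ∈ s, cc ρ i X (σ.ch ρ k) := by
      rw [cc_go hs, hs', Finset.sum_filter_of_ne]
      intro k hk hne
      by_contra hr
      exact hne (cc_not_reg (h.ch hk) hr)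
    have ih' := fun k (hk : k ∈ s) => ih k (Finset.mem_filter.1 hk).1
      (h.ch (Finset.mem_filter.1 hk).1) (hA.sub (Finset.mem_filter.1 hk).1)
    have hb : ∀ N, (∀ k ∈ s, cc ρ i X (σ.ch ρ k) ≤ N) → cc ρ i X σ ≤ s.card * N := fun N hN => by
      rw [e]; exact Finset.sum_le_card_nsmul _ _ _ hN
    rcases class_ch (ρ := ρ) σ h hX hc with h1 | ⟨h1, h2⟩
    · split_ifs at h1 with hi
      · refine ⟨fun h' => absurd hi h', ?_⟩
        by_cases h3 : s.card ≤ 1
        · exact (hb _ fun k hk => (ih' k hk).2).trans (by nlinarith)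
        · refine (hb (3 * κ) fun k hk => (ih' k hk).1 ?_).trans (by nlinarith)
          obtain ⟨k', hk', hne⟩ := Finset.exists_mem_ne (by omega : 1 < s.card) k
          rw [hs', Finset.mem_filter] at hk hk'
          exact sep_ch h hk.1 hk'.1 hne.symm hk'.2
      · have := (hb (3 * κ) fun k hk => (ih' k hk).1 fun h' => hi (int_of_ch h h'))
        exact ⟨fun _ => by nlinarith, by nlinarith⟩
    · have := hb κ fun k hk => by
        rw [hs', Finset.mem_filter] at hk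
        obtain ⟨j, hj⟩ := h2 k hk.1 hk.2
        rw [← hj]
        exact (cc_corner i _ (h.ch hk.1) j).trans ((hA.sub hk.1).root j)
      exact ⟨fun _ => by nlinarith, by nlinarith⟩

end Pool.Agent.MP_295da9_pr.Th

end

section

/-! Lipschitz decorations and the upper bound for balls. -/

namespace Pool.Agent.MP_295da9_pr.Th

/-- oscillation at most `2 ^ a` -/
def Osc (a : ℕ) (g : Fin 3 → ℝ) : Prop := ∀ j j', g j ≤ g j' + 2 ^ a

/-- rules that keep the oscillation small -/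
def RuleOK (ρ : Rule) : Prop :=
  ∀ a g, Osc a g → ∀ j, ρ a g ≤ g j + 2 ^ a ∧ g j ≤ ρ a g + 2 ^ a

/-- the majority rule -/
noncomputable def rho1 : Rule := fun _ g => if g 0 = g 1 then g 0 else g 2

lemma ruleOK_rho1 : RuleOK rho1 := by
  intro a g h j
  unfold rho1
  split_ifs
  · exact ⟨h _ _, h _ _⟩
  · exact ⟨h _ _, h _ _⟩

lemma min3_le (g : Fin 3 → ℝ) (j : Fin 3) : min (g 0) (min (g 1) (g 2)) ≤ g j := by
  fin_cases j
  · exact min_le_left _ _
  · exact (min_le_right _ _).trans (min_le_left _ _)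
  · exact (min_le_right _ _).trans (min_le_right _ _)

lemma le_min3 {g : Fin 3 → ℝ} {m : ℝ} (h : ∀ j, m ≤ g j) : m ≤ min (g 0) (min (g 1) (g 2)) :=
  le_min (h 0) (le_min (h 1) (h 2))

lemma ruleOK_rho2 : RuleOK rho2 := by
  intro a g h j
  unfold rho2
  have h1 := min3_le g j
  have h2 : g j - 2 ^ a ≤ min (g 0) (min (g 1) (g 2)) := le_min3 fun m => by linarith [h j m]
  have h3 : (0 : ℝ) < 2 ^ a := by positivity
  constructor <;> linarith

variable {E : Type*} [AddCommGroup E] [Module ℝ E] {ρ : Rule} {𝓛 : Set (Fin 3 → E)}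

lemma osc_ch (hρ : RuleOK ρ) {σ : Nd E} (h : OK σ) (ho : Osc σ.a σ.g) {k : Ix}
    (hk : k ∈ idx σ.t) : Osc (σ.ch ρ k).a (σ.ch ρ k).g := by
  obtain ⟨t, a, T, g⟩ := σ
  have h3 : (0 : ℝ) < 2 ^ a := by positivity
  cases t with
  | leaf => simp at hk
  | tri c =>
    obtain ⟨i, rfl⟩ := (mem_idx_tri c k).1 hk
    intro j j'
    simp only [Nd.ch, chT, lvl]
    rcases upd_mem i g (ρ a g) j with h1 | ⟨m, -, h1⟩ <;>
      rcases upd_mem i g (ρ a g) j' with h2 | ⟨m', -, h2⟩ <;> rw [h1, h2]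
    · linarith
    · exact (hρ a g ho m').1
    · exact (hρ a g ho m).2
    · exact ho m m'
  | quad c =>
    obtain ⟨i, rfl⟩ := (mem_idx_quad c k).1 hk
    obtain ⟨a, rfl⟩ : ∃ b, a = b + 1 := ⟨a - 1, by have : 1 ≤ a := h.2.1; omega⟩
    intro j j'
    have h1 := ho j j'
    have h2 := ho j' j
    simp only [pow_succ] at h1 h2
    rcases i with _ | i <;>
      simp only [Nd.ch, chT, lvl, quadT, smul_eq_mul, Nat.add_sub_cancel] <;> linarith

lemma osc_leaf (hρ : RuleOK ρ) {σ l : Nd E} (h : OK σ) (ho : Osc σ.a σ.g)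
    (hl : l ∈ cells ρ 0 σ) (j j' : Fin 3) : l.g j ≤ l.g j' + 1 := by
  have h1 := (cells_inherit (P := fun c => OK c ∧ Osc c.a c.g)
    (fun _ h _ _ hk => ⟨h.1.ch hk, osc_ch hρ h.1 h.2 hk⟩) σ ⟨h, ho⟩ l hl).1.2 j j'
  rw [level_cells h (by simp) hl] at h1
  simpa using h1

/-- value of the decoration at a vertex -/
def HasV (ρ : Rule) (σ : Nd E) (x : E) (v : ℝ) : Prop :=
  ∃ l ∈ cells ρ 0 σ, ∃ j, l.T j = x ∧ l.g j = v

lemma hasV_of_leaf (ρ : Rule) {σ : Nd E} {L : Fin 3 → E} (hL : LeafOf σ.t σ.T L) (j : Fin 3) :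
    ∃ v, HasV ρ σ (L j) v := by
  obtain ⟨l, hl, rfl⟩ := (leafOf_zero ρ σ L).1 hL
  exact ⟨_, l, hl, j, rfl, rfl⟩

lemma Cap.hasV (ρ : Rule) (hS : Sys 𝓛) {σ : Nd E} (h : Cap 𝓛 σ) {x : E} (hv : Vtx 𝓛 x)
    (hx : Reg σ.T x) : ∃ v, HasV ρ σ x v := by
  obtain ⟨L, hL, j, rfl⟩ := h.vtx_leaf hS hv hx
  exact hasV_of_leaf ρ hL j

lemma HasV.bdy {σ : Nd E} (h : OK σ) {x : E} {v : ℝ} (hv : HasV ρ σ x v) (hn : ¬ Int σ.T x) :
    v = val σ.g (bcf σ.T x) := by
  obtain ⟨l, hl, j, rfl, rfl⟩ := hv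
  exact value_bdy h hl j hn

lemma HasV.unique {σ : Nd E} (h : OK σ) {x : E} {v v' : ℝ} (hv : HasV ρ σ x v)
    (hv' : HasV ρ σ x v') : v = v' := by
  obtain ⟨l, hl, j, rfl, rfl⟩ := hv
  obtain ⟨l', hl', j', h1, rfl⟩ := hv'
  exact value_unique h hl hl' h1.symm

lemma HasV.reg {σ : Nd E} (h : OK σ) {x : E} {v : ℝ} (hv : HasV ρ σ x v) : Reg σ.T x := by
  obtain ⟨l, hl, j, rfl, rfl⟩ := hv
  exact reg_of_cells h hl (reg_vertex (h.cells hl).1 j)

lemma HasV.step (hρ : RuleOK ρ) {σ : Nd E} (h : OK σ) (ho : Osc σ.a σ.g) {L : Fin 3 → E}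
    (hL : LeafOf σ.t σ.T L) {j : Fin 3} {v : ℝ} (hv : HasV ρ σ (L j) v) (j' : Fin 3) :
    ∃ v', HasV ρ σ (L j') v' ∧ v' ≤ v + 1 := by
  obtain ⟨l, hl, rfl⟩ := (leafOf_zero ρ σ L).1 hL
  refine ⟨_, ⟨l, hl, j', rfl, rfl⟩, ?_⟩
  rw [hv.unique h ⟨l, hl, j, rfl, rfl⟩]
  exact osc_leaf hρ h ho hl _ _

lemma depth_le (hS : Sys 𝓛) {σ : Nd E} (h : Cap 𝓛 σ) (hg : σ.g = 0) {n : ℕ} {w z : E}
    (hn : Near 𝓛 n w z) (hz : ¬ Int σ.T z) (hv : Vtx 𝓛 w) (hw : Reg σ.T w) :
    ∃ v, HasV rho2 σ w v ∧ v ≤ n := by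
  have key : ∀ (n : ℕ) (w : E), ¬ Int σ.T w → Vtx 𝓛 w → Reg σ.T w →
      ∃ v, HasV rho2 σ w v ∧ v ≤ n := by
    intro n w h1 h2 h3
    obtain ⟨v, h4⟩ := h.hasV rho2 hS h2 h3
    refine ⟨v, h4, ?_⟩
    rw [h4.bdy h.ok h1, hg]
    simp [val]
  induction hn with
  | refl n x => exact key n x hz hv hw
  | @step n x y z h1 _ ih =>
    by_cases hi : Int σ.T x
    · obtain ⟨L, hL, ⟨j, rfl⟩, j', rfl⟩ := h.co_leaf hS h1 hi
      obtain ⟨v, h2, h3⟩ := ih hz h1.right (h.ok.reg_leaf_vertex hL j')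
      obtain ⟨v', h4, h5⟩ := h2.step ruleOK_rho2 h.ok (by rw [hg]; intro _ _; simp) hL j
      exact ⟨v', h4, by push_cast; linarith⟩
    · exact key _ x hi hv hw

/-- bound for the number of shallow leaves -/
def Bd (t : Tr) (a : ℕ) (L : ℝ) (N : ℕ) : Prop :=
  ∀ g R, (∀ j, R ≤ g j + L) → cnt R t a g ≤ N

lemma shallow_finset (hS : Sys 𝓛) {σ : Nd E} (h : Cap 𝓛 σ) {L : ℝ} {N n : ℕ}
    (hB : Bd σ.t σ.a L N) (hn : (n : ℝ) + 1 ≤ L) : ∃ F : Finset E, F.card ≤ 3 * N ∧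
      ∀ w z, Vtx 𝓛 w → Reg σ.T w → Near 𝓛 n w z → ¬ Int σ.T z → w ∈ F := by
  classical
  set σ0 : Nd E := ⟨σ.t, σ.a, σ.T, 0⟩ with hσ0
  set s := Multiset.filter (fun l : Nd E => ∃ j, l.g j < (n : ℝ) + 1) (cells rho2 0 σ0) with hs
  refine ⟨(s.bind fun l => {l.T 0, l.T 1, l.T 2}).toFinset, ?_, fun w z h1 h2 h3 h4 => ?_⟩
  · refine (Multiset.toFinset_card_le _).trans ?_
    have h1 : Multiset.card s ≤ N := by
      rw [hs, ← Multiset.countP_eq_card_filter]
      convert (countP_cnt ((n : ℝ) + 1) σ0).le.trans (hB 0 _ fun j => by simpa using hn)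
    rw [Multiset.card_bind]
    simp only [Function.comp_def, Multiset.insert_eq_cons, Multiset.card_cons,
      Multiset.card_singleton, Multiset.map_const', Multiset.sum_replicate, smul_eq_mul]
    omega
  · obtain ⟨v, ⟨l, hl, j, rfl, rfl⟩, h5⟩ := depth_le hS (h.redec 0) rfl h3 h4 h1 h2
    rw [Multiset.mem_toFinset, Multiset.mem_bind]
    refine ⟨l, Multiset.mem_filter.2 ⟨hl, j, by linarith⟩, ?_⟩
    fin_cases j <;> simp

lemma ball_low (hS : Sys 𝓛) {i N r : ℕ} (hr : 2 * r + 1 ≤ 2 ^ i) {v : E} (hv : Vtx 𝓛 v)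
    (σ : Nd E) : Cap 𝓛 σ → All (fun t a => a ≤ i → Bd t a (2 ^ i) N) σ.t σ.a → σ.a ≤ i →
    (∀ w, Near 𝓛 r v w → Reg σ.T w) →
    ∃ F : Finset E, F.card ≤ 12 * N + 3 ∧ ∀ w, Near 𝓛 r v w → w ∈ F := by
  classical
  induction σ using @Nd.ind E _ _ rho0 with
  | _ σ ih =>
    intro h hA ha hB
    by_cases h1 : ∃ k ∈ idx σ.t, ∀ w, Near 𝓛 r v w → Reg (σ.ch rho0 k).T w
    · obtain ⟨k, hk, h1⟩ := h1
      exact ih k hk (h.ch hk) (hA.sub hk) ((lvl_le _ _).trans ha) h1
    by_cases ht : σ.t = .leaf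
    · refine ⟨{σ.T 0, σ.T 1, σ.T 2}, Finset.card_le_three.trans (by omega), fun w hw => ?_⟩
      obtain ⟨L, hL, j, rfl⟩ := h.vtx_leaf hS (hw.vtx hv) (hB w hw)
      rw [ht] at hL
      obtain rfl : L = σ.T := hL
      fin_cases j <;> simp
    push Not at h1
    have h2 : ∀ k, ∃ F : Finset E, k ∈ idx σ.t → F.card ≤ 3 * N ∧
        ∀ w, Near 𝓛 r v w → Reg (σ.ch rho0 k).T w → w ∈ F := by
      intro k
      by_cases hk : k ∈ idx σ.t
      · obtain ⟨z, hz, hz'⟩ := h1 k hk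
        obtain ⟨F, hF, hF'⟩ := shallow_finset hS (h.ch (ρ := rho0) hk) (n := 2 * r)
          ((hA.sub hk).root ((lvl_le _ _).trans ha)) (by exact_mod_cast hr)
        exact ⟨F, fun _ => ⟨hF, fun w hw hw' => hF' w z (hw.vtx hv) hw'
          (by rw [two_mul]; exact hw.symm.trans hz) fun h' => hz' h'.reg⟩⟩
      · exact ⟨∅, fun h => absurd h hk⟩
    choose F hF using h2
    refine ⟨(idx σ.t).biUnion F, ?_, fun w hw => ?_⟩
    · refine (Finset.card_biUnion_le_card_mul _ _ _ fun k hk => (hF k hk).1).trans ?_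
      have := card_idx_le σ.t
      nlinarith
    · obtain ⟨k, hk, hw'⟩ := cover_ch rho0 h.ok ht (hB w hw)
      exact Finset.mem_biUnion.2 ⟨k, hk, (hF k hk).2 w hw hw'⟩

/-- decoration vanishing at one corner -/
noncomputable def dec (c : Nd E) (j : Fin 3) : Nd E :=
  ⟨c.t, c.a, c.T, fun m => if m = j then 0 else 2 ^ c.a⟩

omit [AddCommGroup E] [Module ℝ E] in
lemma osc_dec (c : Nd E) (j : Fin 3) : Osc (dec c j).a (dec c j).g := by
  intro m m'
  have h3 : (0 : ℝ) < 2 ^ c.a := by positivity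
  simp only [dec]
  split_ifs <;> linarith

omit [AddCommGroup E] [Module ℝ E] in
lemma val_dec (c : Nd E) (j : Fin 3) {b : Fin 3 → ℝ} (hs : b 0 + b 1 + b 2 = 1) :
    val (dec c j).g b = 2 ^ c.a * (1 - b j) := by
  rw [← hs]
  fin_cases j <;> simp [val, dec] <;> ring

lemma exists_half {b : Fin 3 → ℝ} (hs : b 0 + b 1 + b 2 = 1) (hb : NN b) (hn : ¬ PP b) :
    ∃ j, 1 / 2 ≤ b j := by
  by_contra h
  push Not at h
  apply hn
  rw [pp_iff]
  have := h 0
  have := h 1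
  have := h 2
  refine ⟨?_, ?_, ?_⟩ <;> linarith

lemma star_walk (hS : Sys 𝓛) {i r : ℕ} (hr : 2 * r < 2 ^ i) {σ c : Nd E} (h : Cap 𝓛 σ)
    (ha : i ≤ σ.a) (hc : c ∈ cells rho0 (i + 1) σ) {p : E} (hp : Vtx 𝓛 p) (h1 : Reg c.T p)
    (h2 : ¬ Int c.T p) (hI : ∀ w, Near 𝓛 r p w → Int σ.T w) :
    ∃ X, ∀ w, Near 𝓛 r p w → ∃ c' ∈ cells rho0 (i + 1) σ, (∃ j, c'.T j = X) ∧ Reg c'.T w := by
  have hlev : ∀ c' ∈ cells rho0 (i + 1) σ, c'.a = i := fun c' hc' =>
    level_cells h.ok (by simpa using ha) hc'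
  have hcap : ∀ c' ∈ cells rho0 (i + 1) σ, ∀ j, Cap 𝓛 (dec c' j) := fun c' hc' j =>
    (h.cells hc').redec _
  have hpos : (0 : ℝ) < 2 ^ i := by positivity
  obtain ⟨j, hj⟩ := exists_half (bcf_sum (h.cells hc).ok.1 p) h1 h2
  refine ⟨c.T j, fun w hw => ?_⟩
  have key := Near.induct (𝓛 := 𝓛) (x := p) (P := fun n w => n ≤ r →
    ∃ c' ∈ cells rho0 (i + 1) σ, ∃ j', c'.T j' = c.T j ∧ ∃ u, HasV rho1 (dec c' j') w u ∧
      u ≤ 2 ^ i / 2 + n) ?_ ?_ r w hw le_rfl
  · obtain ⟨c', hc', j', e, u, hu, -⟩ := key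
    exact ⟨c', hc', ⟨j', e⟩, hu.reg (hcap c' hc' j').ok⟩
  · intro n _
    obtain ⟨u, hu⟩ := (hcap c hc j).hasV rho1 hS hp h1
    refine ⟨c, hc, j, rfl, u, hu, ?_⟩
    rw [hu.bdy (hcap c hc j).ok h2, val_dec _ _ (bcf_sum (hcap c hc j).ok.1 p), hlev c hc]
    have : (0 : ℝ) ≤ n := Nat.cast_nonneg n
    change 2 ^ i * (1 - bcf c.T p j) ≤ _
    nlinarith
  · intro n y z hy ih hyz hn
    obtain ⟨c', hc', j', e, u, hu, hu'⟩ := ih (by omega)
    obtain ⟨L, hL, ⟨m, rfl⟩, m', rfl⟩ := h.co_leaf hS hyz (hI y (hy.mono (by omega)))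
    obtain ⟨c'', hc'', hL'⟩ := (leafOf_cells rho0 (i + 1) σ L).1 hL
    have r1 : Reg c'.T (L m) := hu.reg (hcap c' hc' j').ok
    have r2 : Reg c''.T (L m) := (h.cells hc'').ok.reg_leaf_vertex hL' m
    have fin : ∀ j'', c''.T j'' = c.T j → ∀ u', HasV rho1 (dec c'' j'') (L m) u' → u' ≤ u →
        ∃ c' ∈ cells rho0 (i + 1) σ, ∃ j', c'.T j' = c.T j ∧
          ∃ u, HasV rho1 (dec c' j') (L m') u ∧ u ≤ 2 ^ i / 2 + ((n + 1 : ℕ) : ℝ) := by
      intro j'' e' u' h3 h4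
      obtain ⟨u'', h5, h6⟩ := h3.step ruleOK_rho1 (hcap c'' hc'' j'').ok (osc_dec _ _) hL' m'
      exact ⟨c'', hc'', j'', e', u'', h5, by push_cast; linarith⟩
    rcases cells_eq_or h.ok hc' hc'' r1 r2 with rfl | ⟨n1, n2⟩
    · exact fin j' e u hu le_rfl
    · have e1 := hu.bdy (hcap c' hc' j').ok n1
      rw [val_dec _ _ (bcf_sum (hcap c' hc' j').ok.1 _), hlev c' hc'] at e1
      change u = 2 ^ i * (1 - bcf c'.T (L m) j') at e1
      have h3 : (2 * n : ℝ) < 2 ^ i := by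
        have : 2 * n < 2 ^ i := by omega
        exact_mod_cast this
      have h4 : 0 < bcf c'.T (L m) j' := by nlinarith
      obtain ⟨j'', e', h5⟩ := cells_corner h.ok (by simpa using ha) hc' hc'' r1 r2 h4
      obtain ⟨u', hu''⟩ := hasV_of_leaf rho1 (σ := dec c'' j'') hL' m
      refine fin j'' (e'.trans e) u' hu'' ?_
      rw [hu''.bdy (hcap c'' hc'' j'').ok n2, val_dec _ _ (bcf_sum (hcap c'' hc'' j'').ok.1 _),
        hlev c'' hc'', e1]
      change 2 ^ i * (1 - bcf c''.T (L m) j'') ≤ _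
      nlinarith

lemma all_cells {P : Tr → ℕ → Prop} {i : ℕ} {σ c : Nd E} (hA : All P σ.t σ.a)
    (hc : c ∈ cells ρ i σ) : All P c.t c.a :=
  (cells_inherit (P := fun c => All P c.t c.a) (fun _ h _ _ hk => h.sub hk) σ hA c hc).1

/-- upper bound for balls -/
lemma ball_upper (hS : Sys 𝓛) {i N r κ : ℕ} (hr : 4 * r < 2 ^ i) {v : E} (hv : Vtx 𝓛 v)
    {σ : Nd E} (h : Cap 𝓛 σ) (hA : All (fun t a => a ≤ i → Bd t a (2 ^ i) N) σ.t σ.a)
    (hκ : All (fun t _ => ∀ j, cp t j ≤ κ) σ.t σ.a) (ha : i ≤ σ.a)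
    (hI : ∀ w, Near 𝓛 (3 * r) v w → Int σ.T w) :
    ∃ F : Finset E, F.card ≤ 18 * κ * N + 12 * N + 3 ∧ ∀ w, Near 𝓛 r v w → w ∈ F := by
  classical
  have hlev : ∀ c' ∈ cells rho0 (i + 1) σ, c'.a = i := fun c' hc' =>
    level_cells h.ok (by simpa using ha) hc'
  by_cases h1 : ∃ p, Near 𝓛 r v p ∧ ∃ c ∈ cells rho0 (i + 1) σ, Reg c.T p ∧ ¬ Int c.T p
  · obtain ⟨p, hp, c, hc, h1, h2⟩ := h1
    obtain ⟨X, hX⟩ := star_walk hS (r := 2 * r) (by omega) h ha hc (hp.vtx hv) h1 h2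
      fun w hw => hI w ((hp.trans hw).mono (by omega))
    have h3 : ∀ c', ∃ F : Finset E, c' ∈ cells rho0 (i + 1) σ → F.card ≤ 3 * N ∧
        ∀ w, Near 𝓛 r v w → Reg c'.T w → w ∈ F := by
      intro c'
      by_cases hc' : c' ∈ cells rho0 (i + 1) σ
      · obtain ⟨F, hF, hF'⟩ := shallow_finset hS (h.cells hc') (n := 2 * r)
          ((all_cells hA hc').root (hlev c' hc').le)
          (by have : 2 * r + 1 ≤ 2 ^ i := by omega
              exact_mod_cast this)
        refine ⟨F, fun _ => ⟨hF, fun w hw hw' => hF' w p (hw.vtx hv) hw'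
          (by rw [two_mul]; exact hw.symm.trans hp) fun h' => ?_⟩⟩
        rcases cells_eq_or h.ok hc hc' h1 h'.reg with rfl | h4
        · exact h2 h'
        · exact h4.2 h'
      · exact ⟨∅, fun h => absurd h hc'⟩
    choose F hF using h3
    set s := Multiset.filter (fun c : Nd E => ∃ j, c.T j = X) (cells rho0 (i + 1) σ) with hs
    refine ⟨s.toFinset.biUnion F, ?_, fun w hw => ?_⟩
    · refine (Finset.card_biUnion_le_card_mul _ _ _ fun k hk =>
        (hF k (Multiset.mem_filter.1 (Multiset.mem_toFinset.1 hk)).1).1).trans ?_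
      have h4 : s.toFinset.card ≤ 6 * κ := by
        refine (Multiset.toFinset_card_le _).trans ?_
        rw [hs, ← Multiset.countP_eq_card_filter]
        have h5 := (cc_le (ρ := rho0) (i + 1) X σ h.ok hκ).2
        unfold cc at h5
        convert h5
      nlinarith
    · obtain ⟨c', hc', h4, h5⟩ := hX w (by rw [two_mul]; exact hp.symm.trans hw)
      exact Finset.mem_biUnion.2 ⟨c', Multiset.mem_toFinset.2 (Multiset.mem_filter.2 ⟨hc', h4⟩),
        (hF c' hc').2 w hw h5⟩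
  · push Not at h1
    obtain ⟨c, hc, h2⟩ := exists_cell rho0 (i + 1) σ h.ok (hI v (.refl _ _)).reg
    have h3 : ∀ w, Near 𝓛 r v w → Reg c.T w := by
      intro w hw
      refine Near.induct (𝓛 := 𝓛) (x := v) (P := fun n w => n ≤ r → Reg c.T w)
        (fun _ _ => h2) ?_ r w hw le_rfl
      intro n y z hy ih hyz hn
      exact (h.cells hc).co_reg hS hyz (h1 y (hy.mono (by omega)) c hc (ih (by omega)))
    obtain ⟨F, hF, hF'⟩ := ball_low hS (i := i) (r := r) (by omega) hv c (h.cells hc)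
      (all_cells hA hc) (hlev c hc).le h3
    exact ⟨F, by omega, hF'⟩

/-- lower bound for balls -/
lemma ball_lower (hS : Sys 𝓛) {i H L N κ : ℕ} {v : E} (hv : Vtx 𝓛 v) (σ : Nd E) :
    Cap 𝓛 σ → All (fun t a => a ≤ i + 1 → (a ≤ i ∧ hgt t a ≤ H) ∨ N ≤ reach t a L) σ.t σ.a →
    All (fun t _ => ∀ j, cp t j ≤ κ) σ.t σ.a → ¬ (σ.a ≤ i ∧ hgt σ.t σ.a ≤ H) → Reg σ.T v →
    ∃ F : Finset E, N ≤ 6 * κ * F.card ∧
      ∀ w ∈ F, Near 𝓛 (2 * H + 1 + 4 * 2 ^ i + 2 * L) v w := by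
  classical
  induction σ using @Nd.ind E _ _ rho0 with
  | _ σ ih =>
    intro h hA hκ hs hx
    have ht : σ.t ≠ .leaf := by
      intro ht
      have h1 := h.ok.2
      rw [ht] at h1
      have h2 : σ.a = 0 := h1
      exact hs ⟨by omega, by rw [ht]; exact Nat.zero_le _⟩
    obtain ⟨k, hk, hx'⟩ := cover_ch rho0 h.ok ht hx
    by_cases hc : (σ.ch rho0 k).a ≤ i ∧ hgt (σ.ch rho0 k).t (σ.ch rho0 k).a ≤ H
    swap
    · exact ih k hk (h.ch hk) (hA.sub hk) (hκ.sub hk) hc hx'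
    have ha : σ.a ≤ i + 1 := (le_lvl σ.a k).trans (Nat.add_le_add_right hc.1 1)
    have h1 := (hA.root ha).resolve_left hs
    obtain ⟨s, hs1, hs2, hs3⟩ := cap_exists_reach (ρ := rho0) σ h L
    have h2 : Near 𝓛 (2 * H + 1 + 4 * 2 ^ i) v (σ.T 0) := by
      have h3 : 2 ^ σ.a ≤ 2 ^ (i + 1) := Nat.pow_le_pow_right (by norm_num) ha
      rw [pow_succ] at h3
      exact (((h.ch hk).near_vtx hS hv hx').symm.trans (h.near_ch hk).symm).mono
        (by have := hc.2; omega)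
    refine ⟨(s.map fun l => l.T 0).toFinset, ?_, fun w hw => ?_⟩
    · refine h1.trans ?_
      rw [← hs2, ← Multiset.card_map (fun l : Nd E => l.T 0), ← Multiset.toFinset_sum_count_eq,
        mul_comm]
      refine Finset.sum_le_card_nsmul _ _ _ fun X _ => ?_
      have h5 := (cc_le (ρ := rho0) 0 X σ h.ok hκ).2
      unfold cc at h5
      refine le_trans ?_ h5
      rw [Multiset.count_map, Multiset.countP_eq_card_filter]
      exact Multiset.card_le_card ((Multiset.filter_le_filter _ hs1).trans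
        (Multiset.monotone_filter_right _ fun l hl => ⟨0, hl.symm⟩))
    · obtain ⟨l, hl, rfl⟩ := Multiset.mem_map.1 (Multiset.mem_toFinset.1 hw)
      exact h2.trans (hs3 l hl)

end Pool.Agent.MP_295da9_pr.Th

end
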