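import Mathlib
import Pool.Agent.Mg.F295da9.G8617ce

section

/-! Disjoint paths around a corner, and the isoperimetric property. -/

namespace Pool.Agent.MP_295da9_pr.Th

variable {E : Type*} [AddCommGroup E] [Module ℝ E] {ρ : Rule} {𝓛 : Set (Fin 3 → E)}

/-- joined inside the level set -/
def Lk (ρ : Rule) (σ : Nd E) (v : ℝ) (x y : E) : Prop :=
  Relation.ReflTransGen (fun p q => ∃ l ∈ cells ρ 0 σ,
    (∃ j, l.T j = p ∧ l.g j = v) ∧ ∃ j, l.T j = q ∧ l.g j = v) x y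

lemma Lk.of_ch {σ : Nd E} {k : Ix} (hk : k ∈ idx σ.t) {v : ℝ} {x y : E}
    (h : Lk ρ (σ.ch ρ k) v x y) : Lk ρ σ v x y := by
  induction h with
  | refl => exact .refl
  | tail _ h2 ih =>
    obtain ⟨l, hl, h1⟩ := h2
    exact ih.tail ⟨l, (mem_cells_go (not_stop_zero (ne_leaf_of_mem hk))).2 ⟨k, hk, hl⟩, h1⟩

lemma Lk.symm {σ : Nd E} {v : ℝ} {x y : E} (h : Lk ρ σ v x y) : Lk ρ σ v y x := by
  induction h with
  | refl => exact .refl
  | tail _ h2 ih =>
    obtain ⟨l, hl, h3, h4⟩ := h2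
    exact Relation.ReflTransGen.head ⟨l, hl, h4, h3⟩ ih

lemma sum3 {M : Type*} [AddCommMonoid M] (T : Fin 3 → M) {X Y Z : Fin 3} (h1 : X ≠ Y)
    (h2 : X ≠ Z) (h3 : Y ≠ Z) : T 0 + T 1 + T 2 = T X + T Y + T Z := by
  fin_cases X <;> fin_cases Y <;> fin_cases Z <;> simp at h1 h2 h3 ⊢ <;> abel

lemma rho1_eq (a : ℕ) (g : Fin 3 → ℝ) {X Y Z : Fin 3} (h1 : X ≠ Y) (h2 : X ≠ Z) (h3 : Y ≠ Z)
    {d : ℝ} (hY : g Y = g X + d) (hZ : g Z = g X + d) : rho1 a g = g X + d := by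
  unfold rho1
  fin_cases X <;> fin_cases Y <;> fin_cases Z <;> simp at h1 h2 h3 hY hZ ⊢ <;>
    split_ifs with h <;> first | linarith | (exfalso; apply h; linarith)

omit [AddCommGroup E] [Module ℝ E] in
lemma upd_pos' (k j j' : Fin 3) (hj : k ≠ j) (hj' : k ≠ j') (hne : j ≠ j') :
    ∃ p p' : Fin 3, p ≠ p' ∧ p ≠ 2 ∧ p' ≠ 2 ∧ (∀ (T : Fin 3 → E) (w : E),
      upd k T w p = T j ∧ upd k T w p' = T j') ∧ ∀ (T : Fin 3 → ℝ) (w : ℝ),
      upd k T w p = T j ∧ upd k T w p' = T j' := by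
  fin_cases k <;> fin_cases j <;> fin_cases j' <;> simp at hj hj' hne <;>
    first
    | exact ⟨0, 1, by decide, by decide, by decide, fun T w => ⟨rfl, rfl⟩, fun T w => ⟨rfl, rfl⟩⟩
    | exact ⟨1, 0, by decide, by decide, by decide, fun T w => ⟨rfl, rfl⟩, fun T w => ⟨rfl, rfl⟩⟩

lemma link (t : Tr) : ∀ (a : ℕ) (T : Fin 3 → E) (g : Fin 3 → ℝ), WL t a →
    ∀ X Y Z : Fin 3, X ≠ Y → X ≠ Z → Y ≠ Z → ∀ d : ℝ, d ≠ 0 → g Y = g X + d → g Z = g X + d →
    ∀ m : ℕ, m ≤ 2 ^ a → Lk rho1 ⟨t, a, T, g⟩ (g X + d * (m / 2 ^ a))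
      (pt a (T X) (T Y) m) (pt a (T X) (T Z) m) := by
  induction t with
  | leaf =>
    intro a T g h X Y Z _ _ _ d _ hY hZ m hm
    obtain rfl : a = 0 := h
    rcases Nat.le_one_iff_eq_zero_or_eq_one.1 (by simpa using hm) with rfl | rfl
    · rw [pt_zero, pt_zero]; exact .refl
    · exact .single ⟨_, (mem_cells_stop (Or.inl rfl)).2 rfl,
        ⟨Y, (pt_top 0 _ _).symm, by simpa using hY⟩, Z, (pt_top 0 _ _).symm, by simpa using hZ⟩
  | tri c ih =>
    intro a T g h X Y Z h1 h2 h3 d hd hY hZ m hm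
    have hw := rho1_eq a g h1 h2 h3 hY hZ
    have key : ∀ Y Z : Fin 3, X ≠ Y → X ≠ Z → Y ≠ Z → g Y = g X + d →
        Lk rho1 ⟨.tri c, a, T, g⟩ (g X + d * (m / 2 ^ a))
          (pt a (T X) (T Y) m) (pt a (T X) (ctr T) m) := by
      intro Y Z h1 h2 h3 hY
      obtain ⟨p, p', hp, hp2, hp2', e, e'⟩ := upd_pos' (E := E) Z X Y h2.symm h3.symm h1
      have h4 := ih Z a (upd Z T (ctr T)) (upd Z g (rho1 a g)) (h Z) p p' 2 hp hp2 hp2' d hd
        (by rw [(e' g _).1, (e' g _).2, hY]) (by rw [(e' g _).1]; exact hw) m hm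
      rw [(e T _).1, (e T _).2, (e' g _).1] at h4
      exact Lk.of_ch (σ := ⟨.tri c, a, T, g⟩) (k := .inl Z) (by simp) h4
    exact (key Y Z h1 h2 h3 hY).trans (key Z Y h2 h1 h3.symm hZ).symm
  | quad c ih =>
    intro a T g h X Y Z h1 h2 h3 d hd hY hZ m hm
    obtain ⟨a, rfl⟩ : ∃ b, a = b + 1 := ⟨a - 1, by have := h.1; omega⟩
    have hpos : (2 : ℝ) ^ a ≠ 0 := by positivity
    by_cases hm' : m ≤ 2 ^ a
    · have h4 := ih (some X) a (quadT (some X) T) (quadT (some X) g) (h.2 _) X Y Z h1 h2 h3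
        (d / 2) (by positivity) (by simp only [quadT, smul_eq_mul, hY]; ring)
        (by simp only [quadT, smul_eq_mul, hZ]; ring) m hm'
      have e : quadT (some X) g X + d / 2 * (m / 2 ^ a) = g X + d * (m / 2 ^ (a + 1)) := by
        simp only [quadT, smul_eq_mul]; rw [pow_succ]; field_simp; ring
      rw [e] at h4
      have h5 := Lk.of_ch (σ := ⟨.quad c, a + 1, T, g⟩) (k := .inr (some X)) (by simp) h4
      simp only [quadT, half_self, ← pt_lo] at h5
      exact h5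
    · obtain ⟨m, rfl⟩ : ∃ m', m = 2 ^ a + m' := ⟨m - 2 ^ a, by omega⟩
      have hm2 : m ≤ 2 ^ a := by rw [pow_succ] at hm; omega
      have key : ∀ Y Z : Fin 3, X ≠ Y → X ≠ Z → Y ≠ Z → g Y = g X + d → g Z = g X + d →
          Lk rho1 ⟨.quad c, a + 1, T, g⟩ (g X + d * (((2 ^ a + m : ℕ) : ℝ) / 2 ^ (a + 1)))
            (pt (a + 1) (T X) (T Y) (2 ^ a + m))
            (pt a ((1 / 2 : ℝ) • (T Y + T Z)) ((1 / 2 : ℝ) • (T Y + T X)) (2 ^ a - m)) := by
        intro Y Z h1 h2 h3 hY hZ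
        have h4 := ih (some Y) a (quadT (some Y) T) (quadT (some Y) g) (h.2 _) X Y Z h1 h2 h3
          (d / 2) (by positivity) (by simp only [quadT, smul_eq_mul, hY]; ring)
          (by simp only [quadT, smul_eq_mul, hY, hZ]; ring) m hm2
        have e : quadT (some Y) g X + d / 2 * (m / 2 ^ a) =
            g X + d * (((2 ^ a + m : ℕ) : ℝ) / 2 ^ (a + 1)) := by
          simp only [quadT, smul_eq_mul, hY]; push_cast; rw [pow_succ]; field_simp; ring
        rw [e] at h4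
        have h5 := Lk.of_ch (σ := ⟨.quad c, a + 1, T, g⟩) (k := .inr (some Y)) (by simp) h4
        simp only [quadT, half_self, ← pt_hi] at h5
        rw [pt_rev a _ _ (m := 2 ^ a - m) (m' := m) (by omega)]
        exact h5
      have hs := sum3 g h1 h2 h3
      have hT := sum3 T h1 h2 h3
      have h4 := ih none a (quadT none T) (quadT none g) (h.2 _) X Y Z h1 h2 h3
        (-(d / 2)) (by simpa using hd) (by simp only [quadT, smul_eq_mul, hs, hY]; ring)
        (by simp only [quadT, smul_eq_mul, hs, hZ]; ring) (2 ^ a - m) (by omega)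
      have e : quadT none g X + -(d / 2) * (((2 ^ a - m : ℕ) : ℝ) / 2 ^ a) =
          g X + d * (((2 ^ a + m : ℕ) : ℝ) / 2 ^ (a + 1)) := by
        simp only [quadT, smul_eq_mul, hs, hY, hZ]
        rw [Nat.cast_sub hm2]; push_cast; rw [pow_succ]; field_simp; ring
      rw [e] at h4
      have h5 := Lk.of_ch (σ := ⟨.quad c, a + 1, T, g⟩) (k := .inr none) (by simp) h4
      have e1 : quadT none T X = (1 / 2 : ℝ) • (T Y + T Z) := by
        simp only [quadT, hT]; module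
      have e2 : quadT none T Y = (1 / 2 : ℝ) • (T Z + T X) := by
        simp only [quadT, hT]; module
      have e3 : quadT none T Z = (1 / 2 : ℝ) • (T Y + T X) := by
        simp only [quadT, hT]; module
      rw [e1, e2, e3] at h5
      have h6 := key Z Y h2 h1 h3.symm hZ hY
      rw [add_comm (T Z) (T Y)] at h6
      exact ((key Y Z h1 h2 h3 hY hZ).trans h5.symm).trans h6.symm

/-- `A` is a set of vertices whose neighbours outside `S` lie in `A` -/
structure Clo (𝓛 : Set (Fin 3 → E)) (A : Set E) (S : Finset E) : Prop where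
  vtx : ∀ x ∈ A, Vtx 𝓛 x
  disj : ∀ x ∈ A, x ∉ S
  clo : ∀ x ∈ A, ∀ y, Co 𝓛 x y → y ∉ S → y ∈ A

variable {A : Set E} {S : Finset E}

lemma Lk.mem {σ : Nd E} (h : Cap 𝓛 σ) (hA : Clo 𝓛 A S) {v : ℝ} {x y : E} (hl : Lk ρ σ v x y)
    (hx : x ∈ A) (hS : ∀ s ∈ S, ¬ HasV ρ σ s v) : y ∈ A := by
  induction hl with
  | refl => exact hx
  | tail _ h2 ih =>
    obtain ⟨l, hl, ⟨j, rfl, -⟩, j', rfl, h3⟩ := h2
    exact hA.clo _ ih _ ⟨l.T, h.mem _ ((leafOf_zero ρ σ _).2 ⟨l, hl, rfl⟩), ⟨j, rfl⟩, j', rfl⟩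
      fun h4 => hS _ h4 ⟨l, hl, j', rfl, h3⟩

lemma not_int_of_zero {T : Fin 3 → E} {x : E} {z : Fin 3} (h : bcf T x z = 0) : ¬ Int T x :=
  fun h' => (h' z).ne' h

lemma eq_pt_of {T : Fin 3 → E} (h : Good T) {X Y Z : Fin 3} (h1 : X ≠ Y) (h2 : X ≠ Z)
    (h3 : Y ≠ Z) {x : E} (hz : bcf T x Z = 0) {a m : ℕ} (hm : 2 ^ a * (1 - bcf T x X) = m) :
    x = pt a (T X) (T Y) m := by
  apply eq_of_bcf_eq h
  have hs := bcf_sum h x
  have hpos : (2 : ℝ) ^ a ≠ 0 := by positivity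
  have e : (m : ℝ) / 2 ^ a = 1 - bcf T x X := by rw [← hm]; field_simp
  rw [bcf_pt h, e]
  ext j
  fin_cases X <;> fin_cases Y <;> fin_cases Z <;> simp at h1 h2 h3 <;> fin_cases j <;>
    simp at hz ⊢ <;> linarith

lemma exists_pt (hS : Sys 𝓛) {σ : Nd E} (h : Cap 𝓛 σ) {X Y Z : Fin 3} (h1 : X ≠ Y) (h2 : X ≠ Z)
    (h3 : Y ≠ Z) {x : E} (hv : Vtx 𝓛 x) (hx : Reg σ.T x) (hz : bcf σ.T x Z = 0) :
    ∃ m ≤ 2 ^ σ.a, x = pt σ.a (σ.T X) (σ.T Y) m := by
  obtain ⟨L, hL, j, rfl⟩ := h.vtx_leaf hS hv hx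
  obtain ⟨l, hl, rfl⟩ := (leafOf_zero rho0 σ L).1 hL
  obtain ⟨k, hk⟩ := lattice_of_bdy h.ok hl j (not_int_of_zero hz) Y
  have hs := (sum3 _ h1 h2 h3).symm.trans (bcf_sum h.ok.1 (l.T j))
  have hpos : (0 : ℝ) < 2 ^ σ.a := by positivity
  have hX := hx X
  have hY := hx Y
  have k0 : 0 ≤ k := by
    have : (0 : ℝ) ≤ k := by rw [← hk]; positivity
    exact_mod_cast this
  lift k to ℕ using k0
  refine ⟨k, ?_, eq_pt_of h.ok.1 h1 h2 h3 hz ?_⟩
  · have : (k : ℝ) ≤ 2 ^ σ.a := by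
      have h4 : ((k : ℤ) : ℝ) = k := by simp
      rw [← h4, ← hk]; nlinarith
    exact_mod_cast this
  · have h4 : ((k : ℤ) : ℝ) = k := by simp
    rw [← h4, ← hk]; congr 1; linarith

lemma reg_pt {T : Fin 3 → E} (h : Good T) {a m : ℕ} (hm : m ≤ 2 ^ a) (X Y : Fin 3) :
    Reg T (pt a (T X) (T Y) m) := by
  have hpos : (0 : ℝ) < 2 ^ a := by positivity
  have h1 : (m : ℝ) / 2 ^ a ≤ 1 := by rw [div_le_one hpos]; exact_mod_cast hm
  have h2 : 0 ≤ (m : ℝ) / 2 ^ a := by positivity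
  intro j
  rw [bcf_pt h]
  simp only [Pi.add_apply, Pi.single_apply]
  split_ifs <;> linarith

lemma pt_inj {T : Fin 3 → E} (h : Good T) (a : ℕ) {X Y : Fin 3} (h1 : X ≠ Y) :
    Function.Injective (pt a (T X) (T Y)) := by
  intro m m' e
  have h2 := congrFun (congrArg (bcf T) e) Y
  rw [bcf_pt h, bcf_pt h] at h2
  have hpos : (2 : ℝ) ^ a ≠ 0 := by positivity
  simpa [h1.symm, hpos] using h2

/-- number of elements with a property -/
noncomputable def nb {α : Type*} (S : Finset α) (p : α → Prop) : ℕ :=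
  (@Finset.filter _ p (Classical.decPred p) S).card

lemma nb_eq {α : Type*} (S : Finset α) (p : α → Prop) [DecidablePred p] :
    nb S p = (S.filter p).card := by
  unfold nb; convert rfl

lemma nb_le {α : Type*} (S : Finset α) (p : α → Prop) : nb S p ≤ S.card := by
  classical
  rw [nb_eq]; exact Finset.card_filter_le _ _

/-- at least `n` points of `A` on the side opposite to corner `z` -/
def St (A : Set E) (T : Fin 3 → E) (z : Fin 3) (n : ℕ) : Prop :=
  ∃ P : Finset E, (∀ x ∈ P, x ∈ A ∧ Reg T x ∧ bcf T x z = 0) ∧ n ≤ P.card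

lemma St.move {T T' : Fin 3 → E} {z z' : Fin 3} {n : ℕ} (h : St A T z n)
    (h1 : ∀ x, Reg T x → bcf T x z = 0 → Reg T' x ∧ bcf T' x z' = 0) : St A T' z' n := by
  obtain ⟨P, h2, h3⟩ := h
  exact ⟨P, fun x hx => ⟨(h2 x hx).1, h1 x (h2 x hx).2.1 (h2 x hx).2.2⟩, h3⟩

open Classical in
lemma St.cross (hS : Sys 𝓛) (hA : Clo 𝓛 A S) {σ : Nd E} (h : Cap 𝓛 σ) {Z : Fin 3} {n : ℕ}
    (hs : St A σ.T Z n) {Y : Fin 3} (h3 : Y ≠ Z) :
    St A σ.T Y (n - nb S fun s => Reg σ.T s ∧ bcf σ.T s Z ≠ 0) := by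
  rw [nb_eq]
  obtain ⟨P, hP, hn⟩ := hs
  obtain ⟨X, h1, h2⟩ := third Y Z
  have hc : Cap 𝓛 (dec σ X) := h.redec _
  have hpos : (2 : ℝ) ^ σ.a ≠ 0 := by positivity
  have e0 : ∀ x ∈ P, ∃ m ≤ 2 ^ σ.a, x = pt σ.a (σ.T X) (σ.T Y) m := fun x hx =>
    exists_pt hS h h1 h2 h3 (hA.vtx x (hP x hx).1) (hP x hx).2.1 (hP x hx).2.2
  set I := (Finset.range (2 ^ σ.a + 1)).filter fun m => pt σ.a (σ.T X) (σ.T Y) m ∈ A with hI
  have c1 : P.card ≤ I.card := by
    refine le_trans (Finset.card_le_card (t := I.image (pt σ.a (σ.T X) (σ.T Y))) ?_)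
      Finset.card_image_le
    intro x hx
    obtain ⟨m, hm, rfl⟩ := e0 x hx
    exact Finset.mem_image_of_mem _
      (Finset.mem_filter.2 ⟨Finset.mem_range.2 (by omega), (hP _ hx).1⟩)
  have c2 : (I.filter fun m : ℕ => ∃ s ∈ S, HasV rho1 (dec σ X) s m).card ≤
      (S.filter fun s => Reg σ.T s ∧ bcf σ.T s Z ≠ 0).card := by
    refine Finset.card_le_card_of_forall_subsingleton (fun m s => HasV rho1 (dec σ X) s (m : ℕ))
      ?_ ?_
    · intro m hm
      obtain ⟨hm1, s, hs, hv⟩ := Finset.mem_filter.1 hm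
      refine ⟨s, Finset.mem_filter.2 ⟨hs, hv.reg hc.ok, fun hz => ?_⟩, hv⟩
      have h4 := hv.bdy hc.ok (not_int_of_zero hz)
      rw [val_dec _ _ (bcf_sum hc.ok.1 s)] at h4
      have h5 := eq_pt_of h.ok.1 h1 h2 h3 hz h4.symm
      exact hA.disj s (h5 ▸ (Finset.mem_filter.1 hm1).2) hs
    · rintro s - m ⟨-, hm⟩ m' ⟨-, hm'⟩
      exact_mod_cast hm.unique hc.ok hm'
  refine ⟨(I.filter fun m : ℕ => ¬ ∃ s ∈ S, HasV rho1 (dec σ X) s m).image
    (pt σ.a (σ.T X) (σ.T Z)), ?_, ?_⟩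
  · intro x hx
    obtain ⟨m, hm, rfl⟩ := Finset.mem_image.1 hx
    obtain ⟨hm1, hm2⟩ := Finset.mem_filter.1 hm
    obtain ⟨hm3, hm4⟩ := Finset.mem_filter.1 hm1
    have hm5 : m ≤ 2 ^ σ.a := by have := Finset.mem_range.1 hm3; omega
    refine ⟨?_, reg_pt h.ok.1 hm5 _ _, by rw [bcf_pt h.ok.1]; simp [h1.symm, h3]⟩
    have h4 := link σ.t σ.a σ.T (dec σ X).g h.ok.2 X Y Z h1 h2 h3 (2 ^ σ.a) hpos
      (by simp [dec, h1.symm]) (by simp [dec, h2.symm]) m hm5
    have e : (dec σ X).g X + 2 ^ σ.a * ((m : ℝ) / 2 ^ σ.a) = m := by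
      simp only [dec, if_true]; field_simp; ring
    rw [e] at h4
    exact Lk.mem hc hA h4 hm4 fun s hs hv => hm2 ⟨s, hs, hv⟩
  · rw [Finset.card_image_of_injective _ (pt_inj h.ok.1 _ h2)]
    have := Finset.card_filter_add_card_filter_not (s := I)
      (fun m : ℕ => ∃ s ∈ S, HasV rho1 (dec σ X) s m)
    omega

open Classical in
lemma card_three {α : Type*} (S : Finset α) {p q r R : α → Prop} (h1 : ∀ s, p s → R s)
    (h2 : ∀ s, q s → R s ∧ ¬ p s) (h3 : ∀ s, r s → R s ∧ ¬ p s ∧ ¬ q s) :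
    nb S p + nb S q + nb S r ≤ nb S R := by
  simp only [nb_eq, Finset.card_filter]
  rw [← Finset.sum_add_distrib, ← Finset.sum_add_distrib]
  refine Finset.sum_le_sum fun s _ => ?_
  have := h1 s
  have := h2 s
  have := h3 s
  split_ifs <;> first | omega | tauto

lemma tri_side (i z : Fin 3) (hz : z ≠ 2) : ∃ i' z' : Fin 3, 2 ≠ z' ∧
    (∀ b : Fin 3 → ℝ, NN (updB i b) → updB i b z = 0 → NN (updB i' b) ∧ updB i' b z' = 0) ∧
    ∀ b : Fin 3 → ℝ, NN (updB i b) → NN (updB i' b) → updB i' b z' = 0 := by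
  fin_cases i <;> fin_cases z <;> simp at hz
  · refine ⟨1, 0, by decide, fun b h1 h2 => ?_, fun b h1 h2 => ?_⟩ <;>
      simp [nn_iff, updB] at h1 h2 ⊢ <;> (try refine ⟨⟨?_, ?_, ?_⟩, ?_⟩) <;> linarith
  · refine ⟨2, 0, by decide, fun b h1 h2 => ?_, fun b h1 h2 => ?_⟩ <;>
      simp [nn_iff, updB] at h1 h2 ⊢ <;> (try refine ⟨⟨?_, ?_, ?_⟩, ?_⟩) <;> linarith
  · refine ⟨0, 0, by decide, fun b h1 h2 => ?_, fun b h1 h2 => ?_⟩ <;>
      simp [nn_iff, updB] at h1 h2 ⊢ <;> (try refine ⟨⟨?_, ?_, ?_⟩, ?_⟩) <;> linarith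
  · refine ⟨2, 1, by decide, fun b h1 h2 => ?_, fun b h1 h2 => ?_⟩ <;>
      simp [nn_iff, updB] at h1 h2 ⊢ <;> (try refine ⟨⟨?_, ?_, ?_⟩, ?_⟩) <;> linarith
  · refine ⟨0, 1, by decide, fun b h1 h2 => ?_, fun b h1 h2 => ?_⟩ <;>
      simp [nn_iff, updB] at h1 h2 ⊢ <;> (try refine ⟨⟨?_, ?_, ?_⟩, ?_⟩) <;> linarith
  · refine ⟨1, 1, by decide, fun b h1 h2 => ?_, fun b h1 h2 => ?_⟩ <;>
      simp [nn_iff, updB] at h1 h2 ⊢ <;> (try refine ⟨⟨?_, ?_, ?_⟩, ?_⟩) <;> linarith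

lemma quad_in {b : Fin 3 → ℝ} (hs : b 0 + b 1 + b 2 = 1) (j : Fin 3)
    (h1 : NN (quadB (some j) b)) (h2 : quadB (some j) b j = 0) :
    NN (quadB none b) ∧ quadB none b j = 0 := by
  fin_cases j <;> simp [nn_iff, quadB] at h1 h2 ⊢ <;> refine ⟨⟨?_, ?_, ?_⟩, ?_⟩ <;> linarith

lemma quad_out {b : Fin 3 → ℝ} (hs : b 0 + b 1 + b 2 = 1) (j : Fin 3)
    (h1 : NN (quadB none b)) (h2 : quadB none b j = 0) :
    NN (quadB (some j) b) ∧ quadB (some j) b j = 0 := by
  fin_cases j <;> simp [nn_iff, quadB] at h1 h2 ⊢ <;> refine ⟨⟨?_, ?_, ?_⟩, ?_⟩ <;> linarith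

lemma quad_two {b : Fin 3 → ℝ} (j : Fin 3) (h1 : NN (quadB none b)) (h2 : NN (quadB (some j) b)) :
    quadB none b j = 0 ∧ quadB (some j) b j = 0 := by
  have h3 := h1 j
  have h4 := h2 j
  simp [quadB] at h3 h4 ⊢
  constructor <;> linarith

lemma quad_three {b : Fin 3 → ℝ} (hs : b 0 + b 1 + b 2 = 1) {j y : Fin 3} (hj : y ≠ j)
    (h1 : NN (quadB (some j) b)) (h2 : NN (quadB (some y) b)) : quadB (some y) b y = 0 := by
  fin_cases j <;> fin_cases y <;> simp [nn_iff, quadB] at hj h1 h2 ⊢ <;> linarith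

lemma St.up (hS : Sys 𝓛) (hA : Clo 𝓛 A S) {σ : Nd E} (h : Cap 𝓛 σ) {k : Ix} (hk : k ∈ idx σ.t)
    {z : Fin 3} {n : ℕ} (hs : St A (σ.ch ρ k).T z n) : ∃ z' n', St A σ.T z' n' ∧
      n + nb S (fun s => Reg (σ.ch ρ k).T s) ≤ n' + nb S fun s => Reg σ.T s := by
  have hsum := bcf_sum h.ok.1
  have hb : ∀ k x, bcf (σ.ch ρ k).T x = chB k (bcf σ.T x) := bcf_chN h.ok.1
  have hr : ∀ k x, Reg (σ.ch ρ k).T x ↔ NN (chB k (bcf σ.T x)) := fun k x => by
    unfold Reg; rw [hb]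
  have hup : ∀ k x, Reg (σ.ch ρ k).T x → Reg σ.T x := fun k x => reg_of_ch h.ok
  have hmono := card_three S (p := fun s => Reg (σ.ch ρ k).T s) (q := fun _ => False)
    (r := fun _ => False) (R := fun s => Reg σ.T s) (hup k) (by simp) (by simp)
  have out1 : ∀ (i : Fin 3) n, St A (σ.ch ρ (.inl i)).T 2 n → St A σ.T i n := fun i n h1 =>
    h1.move fun x h2 h3 => ⟨hup _ x h2, by rw [hb] at h3; simpa [chB, updB] using h3⟩
  have out2 : ∀ (j y : Fin 3) n, y ≠ j → St A (σ.ch ρ (.inr (some j))).T y n → St A σ.T y n :=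
    fun j y n hy h1 => h1.move fun x h2 h3 =>
      ⟨hup _ x h2, by rw [hb] at h3; simpa [chB, quadB, hy] using h3⟩
  have out3 : ∀ (j : Fin 3) n, St A (σ.ch ρ (.inr none)).T j n →
      St A (σ.ch ρ (.inr (some j))).T j n := fun j n h1 =>
    h1.move fun x h2 h3 => by
      rw [hr, hb] at *
      exact quad_out (hsum x) j h2 h3
  have hc := fun k hk => h.ch (ρ := ρ) (k := k) hk
  obtain ⟨t, a, T, g⟩ := σ
  cases t with
  | leaf => simp at hk
  | tri c =>
    obtain ⟨i, rfl⟩ := (mem_idx_tri c k).1 hk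
    by_cases hz : z = 2
    · subst hz
      exact ⟨i, n, out1 i n hs, by omega⟩
    · obtain ⟨i', z', h1, h2, h3⟩ := tri_side i z hz
      have h4 := (hs.move (T' := (Nd.ch ρ ⟨.tri c, a, T, g⟩ (.inl i')).T) (z' := z')
        fun x h5 h6 => by
          rw [hr, hb] at *
          exact h2 _ h5 h6).cross hS hA (hc (.inl i') (by simp)) h1
      refine ⟨i', _, out1 i' _ h4, ?_⟩
      have h5 := card_three S (p := fun s => Reg (Nd.ch ρ ⟨.tri c, a, T, g⟩ (.inl i)).T s)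
        (q := fun s => Reg (Nd.ch ρ ⟨.tri c, a, T, g⟩ (.inl i')).T s ∧
          bcf (Nd.ch ρ ⟨.tri c, a, T, g⟩ (.inl i')).T s z' ≠ 0)
        (r := fun _ => False) (R := fun s => Reg T s) (hup _)
        (fun s h6 => ⟨hup _ s h6.1, fun h7 => h6.2 (by
          rw [hb]; exact h3 _ ((hr _ _).1 h7) ((hr _ _).1 h6.1))⟩) (by simp)
      change _ ≤ _ + nb S fun s => Reg T s
      omega
  | quad c =>
    obtain ⟨i, rfl⟩ := (mem_idx_quad c k).1 hk
    rcases i with _ | j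
    · obtain ⟨y, hy, -⟩ := third z z
      have h4 := (out3 z n hs).cross hS hA (hc (.inr (some z)) (by simp)) hy
      refine ⟨y, _, out2 z y _ hy h4, ?_⟩
      have h5 := card_three S (p := fun s => Reg (Nd.ch ρ ⟨.quad c, a, T, g⟩ (.inr none)).T s)
        (q := fun s => Reg (Nd.ch ρ ⟨.quad c, a, T, g⟩ (.inr (some z))).T s ∧
          bcf (Nd.ch ρ ⟨.quad c, a, T, g⟩ (.inr (some z))).T s z ≠ 0)
        (r := fun _ => False) (R := fun s => Reg T s) (hup _)
        (fun s h6 => ⟨hup _ s h6.1, fun h7 => h6.2 (by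
          rw [hb]; exact (quad_two z ((hr _ _).1 h7) ((hr _ _).1 h6.1)).2)⟩) (by simp)
      change _ ≤ _ + nb S fun s => Reg T s
      omega
    · by_cases hz : z = j
      swap
      · exact ⟨z, n, out2 j z n hz hs, by omega⟩
      subst hz
      obtain ⟨y, hy, -⟩ := third z z
      obtain ⟨y', hy', -⟩ := third y y
      have h4 := (hs.move (T' := (Nd.ch ρ ⟨.quad c, a, T, g⟩ (.inr none)).T) (z' := z)
        fun x h5 h6 => by
          rw [hr, hb] at *
          exact quad_in (hsum x) z h5 h6).cross hS hA (hc (.inr none) (by simp)) hy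
      have h4' := (out3 y _ h4).cross hS hA (hc (.inr (some y)) (by simp)) hy'
      refine ⟨y', _, out2 y y' _ hy' h4', ?_⟩
      have h5 := card_three S
        (p := fun s => Reg (Nd.ch ρ ⟨.quad c, a, T, g⟩ (.inr (some z))).T s)
        (q := fun s => Reg (Nd.ch ρ ⟨.quad c, a, T, g⟩ (.inr none)).T s ∧
          bcf (Nd.ch ρ ⟨.quad c, a, T, g⟩ (.inr none)).T s z ≠ 0)
        (r := fun s => Reg (Nd.ch ρ ⟨.quad c, a, T, g⟩ (.inr (some y))).T s ∧
          bcf (Nd.ch ρ ⟨.quad c, a, T, g⟩ (.inr (some y))).T s y ≠ 0)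
        (R := fun s => Reg T s) (hup _)
        (fun s h6 => ⟨hup _ s h6.1, fun h7 => h6.2 (by
          rw [hb]; exact (quad_two z ((hr _ _).1 h6.1) ((hr _ _).1 h7)).1)⟩)
        (fun s h6 => ⟨hup _ s h6.1, fun h7 => h6.2 (by
          rw [hb]; exact quad_three (hsum s) hy ((hr _ _).1 h7) ((hr _ _).1 h6.1)),
          fun h7 => h6.2 (by
          rw [hb]; exact (quad_two y ((hr _ _).1 h7.1) ((hr _ _).1 h6.1)).2)⟩)
      change _ ≤ _ + nb S fun s => Reg T s
      omega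

lemma OK.sys_self {σ : Nd E} (h : OK σ) : Sys {L | LeafOf σ.t σ.T L} :=
  ⟨fun _ hL => h.good_leaf hL, fun _ hL _ hL' _ hx hx' _ hj => h.leaf_ff hL hL' hx hx' hj⟩

lemma OK.cap_self {σ : Nd E} (h : OK σ) : Cap {L | LeafOf σ.t σ.T L} σ :=
  ⟨h, fun _ hL => hL, fun _ hL _ _ _ => hL⟩

lemma clean_mem (hS : Sys 𝓛) (hA : Clo 𝓛 A S) {σ : Nd E} (h : Cap 𝓛 σ)
    (hc : ∀ s ∈ S, ¬ Reg σ.T s) {v : E} (hv : v ∈ A) (hr : Reg σ.T v) {m : ℕ}
    (hm : m ≤ 2 ^ σ.a) : pt σ.a (σ.T 0) (σ.T 1) m ∈ A := by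
  obtain ⟨L, hL, hj⟩ := h.vtx_leaf hS (hA.vtx v hv) hr
  have h1 := (h.ok.cap_self.near_vtx h.ok.sys_self ⟨L, hL, hj⟩ hr).symm.trans
    (h.ok.cap_self.near_side (j := 0) (j' := 1) (by decide) m hm)
  refine Near.induct (P := fun _ y => y ∈ A) (fun _ => hv) ?_ _ _ h1
  rintro n y z - ih ⟨L, hL, h2, j, rfl⟩
  exact hA.clo y ih _ ⟨L, h.mem L hL, h2, j, rfl⟩ fun h3 => hc _ h3 (h.ok.reg_leaf_vertex hL j)

open Classical in
lemma iso_up (hS : Sys 𝓛) (hA : Clo 𝓛 A S) {a0 : ℕ} (σ : Nd E) : Cap 𝓛 σ → a0 ≤ σ.a →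
    ∀ c ∈ cells rho0 (a0 + 1) σ, (∀ s ∈ S, ¬ Reg c.T s) → ∀ v ∈ A, Reg c.T v →
    ∃ z n, St A σ.T z n ∧ 2 ^ a0 + 1 ≤ n + nb S fun s => Reg σ.T s := by
  induction σ using @Nd.ind E _ _ rho0 with
  | _ σ ih =>
    intro h ha c hc h1 v hv h2
    by_cases hs : Stop (a0 + 1) σ
    · have h3 := level_cells h.ok (by simpa using ha) hc
      obtain rfl := (mem_cells_stop hs).1 hc
      refine ⟨2, 2 ^ a0 + 1, ⟨(Finset.range (2 ^ c.a + 1)).image (pt c.a (c.T 0) (c.T 1)),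
        fun x hx => ?_, ?_⟩, by omega⟩
      · obtain ⟨m, hm, rfl⟩ := Finset.mem_image.1 hx
        have hm' : m ≤ 2 ^ c.a := by have := Finset.mem_range.1 hm; omega
        exact ⟨clean_mem hS hA h h1 hv h2 hm', reg_pt h.ok.1 hm' _ _,
          by rw [bcf_pt h.ok.1]; simp⟩
      · rw [Finset.card_image_of_injective _ (pt_inj h.ok.1 _ (by decide)), Finset.card_range, h3]
        simp
    · obtain ⟨k, hk, hc⟩ := (mem_cells_go hs).1 hc
      have h3 : ¬ σ.a < a0 + 1 := fun h' => hs (Or.inr h')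
      obtain ⟨z, n, h4, h5⟩ := ih k hk (h.ch hk) (by
        have := le_lvl σ.a k
        change a0 ≤ lvl σ.a k
        omega) c hc h1 v hv h2
      obtain ⟨z', n', h6, h7⟩ := h4.up hS hA h hk
      exact ⟨z', n', h6, by omega⟩

/-- a set with small boundary stays near its boundary -/
lemma iso_near (hS : Sys 𝓛) (hA : Clo 𝓛 A S) {a0 H : ℕ} {σ : Nd E} (h : Cap 𝓛 σ)
    (ha : a0 ≤ σ.a) (hH : All (fun t a => a ≤ a0 → hgt t a ≤ H) σ.t σ.a)
    (hI : ∀ v ∈ A, Int σ.T v) (hc : S.card ≤ 2 ^ a0) (hSv : ∀ s ∈ S, Vtx 𝓛 s) {v : E}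
    (hv : v ∈ A) : ∃ s ∈ S, Near 𝓛 (4 * H + 2) s v := by
  classical
  obtain ⟨c, hc1, h1⟩ := exists_cell rho0 (a0 + 1) σ h.ok (hI v hv).reg
  by_cases h2 : ∃ s ∈ S, Reg c.T s
  · obtain ⟨s, hs, h2⟩ := h2
    have h3 := (all_cells hH hc1).root (level_cells h.ok (by simpa using ha) hc1).le
    exact ⟨s, hs, (((h.cells hc1).near_vtx hS (hSv s hs) h2).symm.trans
      ((h.cells hc1).near_vtx hS (hA.vtx v hv) h1)).mono (by omega)⟩
  · push Not at h2
    obtain ⟨z, n, ⟨P, h3, h4⟩, h5⟩ := iso_up hS hA σ h ha c hc1 h2 v hv h1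
    have h6 := nb_le S fun s => Reg σ.T s
    obtain ⟨x, hx⟩ := Finset.card_pos.1 (by omega : 0 < P.card)
    exact absurd (hI x (h3 x hx).1) (not_int_of_zero (h3 x hx).2.2)

end Pool.Agent.MP_295da9_pr.Th

end

section

/-! Increasing sequences of nodes exhausting the plane. -/

namespace Pool.Agent.MP_295da9_pr.Th

variable {E : Type*} [AddCommGroup E] [Module ℝ E] {ρ : Rule} {𝓛 : Set (Fin 3 → E)}

/-- `τ` is a piece of `σ` -/
def Sub (σ τ : Nd E) : Prop :=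
  Cap {L | LeafOf σ.t σ.T L} τ ∧ ∀ x, Int τ.T x → Int σ.T x

lemma Sub.refl {σ : Nd E} (h : OK σ) : Sub σ σ := ⟨h.cap_self, fun _ h => h⟩

lemma Cap.sub {σ τ : Nd E} (h : Cap 𝓛 σ) (hs : Sub σ τ) : Cap 𝓛 τ :=
  ⟨hs.1.ok, fun L hL => h.mem L (hs.1.mem L hL),
    fun L hL x hx hi => hs.1.cap L (h.cap L hL x hx (hs.2 x hi)) x hx hi⟩

lemma Sub.trans {σ τ υ : Nd E} (h : Sub σ τ) (h' : Sub τ υ) : Sub σ υ :=
  ⟨h.1.sub h', fun x hx => h.2 x (h'.2 x hx)⟩

lemma Sub.ch {σ : Nd E} (h : OK σ) {k : Ix} (hk : k ∈ idx σ.t) : Sub σ (σ.ch ρ k) :=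
  ⟨h.cap_self.ch hk, fun _ hx => int_of_ch h hx⟩

lemma Sub.redec {σ τ : Nd E} (h : Sub σ τ) (g g' : Fin 3 → ℝ) :
    Sub ⟨σ.t, σ.a, σ.T, g⟩ ⟨τ.t, τ.a, τ.T, g'⟩ := ⟨h.1.redec g', h.2⟩

lemma Sub.reg {σ τ : Nd E} (h : Sub σ τ) (hσ : OK σ) {x : E} (hx : Reg τ.T x) : Reg σ.T x := by
  obtain ⟨L, hL, h1⟩ := h.1.ok.exists_leaf hx
  exact hσ.reg_leaf (h.1.mem L hL) h1

/-- the l1 norm -/
def N1 (b : Fin 3 → ℝ) : ℝ := |b 0| + |b 1| + |b 2|

lemma n1_le_ch (k : Ix) {b : Fin 3 → ℝ} (hs : b 0 + b 1 + b 2 = 1) : N1 b ≤ N1 (chB k b) := by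
  have h0 := le_abs_self (chB k b 0)
  have h1 := le_abs_self (chB k b 1)
  have h2 := le_abs_self (chB k b 2)
  have g0 := neg_abs_le (chB k b 0)
  have g1 := neg_abs_le (chB k b 1)
  have g2 := neg_abs_le (chB k b 2)
  unfold N1
  generalize |chB k b 0| = u0 at *
  generalize |chB k b 1| = u1 at *
  generalize |chB k b 2| = u2 at *
  rcases k with i | _ | j
  · fin_cases i <;> simp [chB, updB] at h0 h1 h2 g0 g1 g2 <;>
      rcases abs_cases (b 0) with e0 | e0 <;> rcases abs_cases (b 1) with e1 | e1 <;>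
      rcases abs_cases (b 2) with e2 | e2 <;> linarith [e0.1, e1.1, e2.1]
  · simp [chB, quadB] at h0 h1 h2 g0 g1 g2
    rcases abs_cases (b 0) with e0 | e0 <;> rcases abs_cases (b 1) with e1 | e1 <;>
      rcases abs_cases (b 2) with e2 | e2 <;> linarith [e0.1, e1.1, e2.1]
  · fin_cases j <;> simp [chB, quadB] at h0 h1 h2 g0 g1 g2 <;>
      rcases abs_cases (b 0) with e0 | e0 <;> rcases abs_cases (b 1) with e1 | e1 <;>
      rcases abs_cases (b 2) with e2 | e2 <;> linarith [e0.1, e1.1, e2.1, e0.2, e1.2, e2.2]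

lemma n1_three {b : Fin 3 → ℝ} (hs : b 0 + b 1 + b 2 = 1) :
    N1 b - 1 ≤ 2 / 3 * (N1 (updB 0 (updB 0 (updB 0 b))) - 1) ∧
      (N1 (updB 0 (updB 0 (updB 0 b))) < 5 / 4 → PP b) := by
  set c := updB 0 (updB 0 (updB 0 b)) with hc
  have c0 : c 0 = 3 * b 0 - (b 2 - b 0) - ((b 2 - b 0) - (b 1 - b 0) - ((b 2 - b 0) - (b 1 - b 0)))
      - ((b 2 - b 0) - (b 1 - b 0)) + (b 2 - b 0) - (b 1 - b 0) := by
    simp [hc, updB]; ring
  have c1 : c 1 = 3 * (b 1 - b 0) - ((b 2 - b 0) - (b 1 - b 0)) := by simp [hc, updB]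
  have c2 : c 2 = 3 * ((b 2 - b 0) - (b 1 - b 0)) := by simp [hc, updB]
  have h0 := le_abs_self (c 0)
  have h1 := le_abs_self (c 1)
  have h2 := le_abs_self (c 2)
  have g0 := neg_abs_le (c 0)
  have g1 := neg_abs_le (c 1)
  have g2 := neg_abs_le (c 2)
  unfold N1
  constructor
  · rcases abs_cases (b 0) with e0 | e0 <;> rcases abs_cases (b 1) with e1 | e1 <;>
      rcases abs_cases (b 2) with e2 | e2 <;> linarith [e0.1, e1.1, e2.1]
  · intro h
    rw [pp_iff]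
    refine ⟨?_, ?_, ?_⟩ <;> linarith

lemma n1_of_nn {b : Fin 3 → ℝ} (hs : b 0 + b 1 + b 2 = 1) (h : NN b) : N1 b = 1 := by
  unfold N1
  rw [abs_of_nonneg (h 0), abs_of_nonneg (h 1), abs_of_nonneg (h 2), hs]

/-- the distinguished child of a stellar split -/
noncomputable def down (T : Fin 3 → E) : Fin 3 → E := upd 0 T (ctr T)

lemma good_down {T : Fin 3 → E} (h : Good T) (n : ℕ) : Good (down^[n] T) := by
  induction n with
  | zero => exact h
  | succ n ih => rw [Function.iterate_succ_apply']; exact good_ch ih (.inl 0)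

lemma bcf_down3 {T : Fin 3 → E} (h : Good T) (x : E) :
    bcf (down^[3] T) x = updB 0 (updB 0 (updB 0 (bcf T x))) := by
  have h1 := bcf_ch h (.inl 0) x
  have h2 := bcf_ch (good_ch h (.inl 0)) (.inl 0) x
  have h3 := bcf_ch (good_ch (good_ch h (.inl 0)) (.inl 0)) (.inl 0) x
  rw [h1] at h2
  rw [h2] at h3
  exact h3

lemma reg_down {T : Fin 3 → E} (h : Good T) {m n : ℕ} (hmn : m ≤ n) {x : E}
    (hx : Reg (down^[n] T) x) : Reg (down^[m] T) x := by
  induction n, hmn using Nat.le_induction with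
  | base => exact hx
  | succ n _ ih =>
    rw [Function.iterate_succ_apply'] at hx
    exact ih (reg_of_chT (good_down h n) (k := .inl 0) hx)

lemma int_down {T : Fin 3 → E} (h : Good T) {m n : ℕ} (hmn : m + 3 ≤ n) {x : E}
    (hx : Reg (down^[n] T) x) : Int (down^[m] T) x := by
  have h1 := reg_down h hmn hx
  rw [add_comm, Function.iterate_add_apply] at h1
  have h2 := good_down h m
  have h3 := n1_of_nn (bcf_sum (good_down h2 3) x) h1
  rw [bcf_down3 h2] at h3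
  exact (n1_three (bcf_sum h2 x)).2 (by rw [h3]; norm_num)

/-- a path in a tree -/
inductive PathT : Tr → ℕ → Tr → ℕ → Prop
  | refl (t : Tr) (a : ℕ) : PathT t a t a
  | step {t : Tr} {a : ℕ} {k : Ix} {t' : Tr} {a' : ℕ} :
      k ∈ idx t → PathT (sub t k) (lvl a k) t' a' → PathT t a t' a'

/-- a chain of stellar splits along the distinguished children -/
def ChainT : ℕ → Tr → Tr → Prop
  | 0, t, t' => t = t'
  | n + 1, t, t' => ∃ c, t = .tri c ∧ ChainT n (c 0) t'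

lemma ChainT.trans {m n : ℕ} {t t' t'' : Tr} (h : ChainT m t t') (h' : ChainT n t' t'') :
    ChainT (n + m) t t'' := by
  induction m generalizing t with
  | zero => obtain rfl : t = t' := h; exact h'
  | succ m ih =>
    obtain ⟨c, rfl, h1⟩ := h
    exact ⟨c, rfl, ih h1⟩

lemma PathT.lift {t t' : Tr} {a a' : ℕ} (h : PathT t a t' a') (hw : WL t a) {T' : Fin 3 → E}
    (hT : Good T') : ∃ T, Good T ∧ Sub ⟨t, a, T, 0⟩ ⟨t', a', T', 0⟩ ∧
      ∀ x, N1 (bcf T x) ≤ N1 (bcf T' x) := by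
  induction h with
  | refl t a => exact ⟨T', hT, Sub.refl ⟨hT, hw⟩, fun _ => le_rfl⟩
  | @step t a k t' a' hk _ ih =>
    obtain ⟨T1, h1, h2, h3⟩ := ih (hw.sub hk)
    obtain ⟨T, rfl⟩ := chT_surj k T1
    have h4 := good_of_ch k h1
    refine ⟨T, h4, ((Sub.ch (ρ := rho0) (σ := ⟨t, a, T, 0⟩) ⟨h4, hw⟩ hk).redec 0 0).trans h2,
      fun x => le_trans ?_ (h3 x)⟩
    rw [bcf_ch h4]
    exact n1_le_ch k (bcf_sum h4 x)

lemma ChainT.sub {n : ℕ} {t t' : Tr} (h : ChainT n t t') {a : ℕ} (hw : WL t a) {T : Fin 3 → E}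
    (hT : Good T) : Sub ⟨t, a, T, 0⟩ ⟨t', a, down^[n] T, 0⟩ ∧
      ∀ j ≤ n, ∃ u, Sub ⟨t, a, T, 0⟩ ⟨u, a, down^[j] T, 0⟩ := by
  induction n generalizing t T with
  | zero =>
    obtain rfl : t = t' := h
    exact ⟨Sub.refl ⟨hT, hw⟩, fun j hj => ⟨t, by
      obtain rfl : j = 0 := by omega
      exact Sub.refl ⟨hT, hw⟩⟩⟩
  | succ n ih =>
    obtain ⟨c, rfl, h1⟩ := h
    have h2 : Sub (⟨.tri c, a, T, 0⟩ : Nd E) ⟨c 0, a, down T, 0⟩ :=
      (Sub.ch (ρ := rho0) (σ := ⟨.tri c, a, T, 0⟩) (k := .inl 0) ⟨hT, hw⟩ (by simp)).redec 0 0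
    obtain ⟨h3, h4⟩ := ih h1 (hw 0) (good_down hT 1)
    refine ⟨h2.trans h3, fun j hj => ?_⟩
    cases j with
    | zero => exact ⟨_, Sub.refl ⟨hT, hw⟩⟩
    | succ j =>
      obtain ⟨u, hu⟩ := h4 j (by omega)
      exact ⟨u, h2.trans hu⟩

lemma ChainT.wl {n : ℕ} {t t' : Tr} (h : ChainT n t t') {a : ℕ} (hw : WL t a) : WL t' a := by
  induction n generalizing t with
  | zero => obtain rfl : t = t' := h; exact hw
  | succ n ih =>
    obtain ⟨c, rfl, h1⟩ := h
    exact ih h1 (hw 0)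

lemma PathT.wl {t t' : Tr} {a a' : ℕ} (h : PathT t a t' a') (hw : WL t a) : WL t' a' := by
  induction h with
  | refl => exact hw
  | step hk _ ih => exact ih (hw.sub hk)

lemma exists_up (n : ℕ) {T' : Fin 3 → E} (h : Good T') : ∃ T, Good T ∧ down^[n] T = T' ∧
    ∀ x, N1 (bcf T x) ≤ N1 (bcf T' x) := by
  induction n with
  | zero => exact ⟨T', h, rfl, fun _ => le_rfl⟩
  | succ n ih =>
    obtain ⟨T1, h1, h2, h3⟩ := ih
    obtain ⟨T, rfl⟩ := chT_surj (.inl 0) T1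
    have h4 := good_of_ch _ h1
    refine ⟨T, h4, h2, fun x => le_trans ?_ (h3 x)⟩
    rw [bcf_ch h4]
    exact n1_le_ch _ (bcf_sum h4 x)

/-- one step of the exhaustion -/
structure Up (len : ℕ) (σ τ : Nd E) : Prop where
  ok : OK σ
  sub : Sub σ τ
  contr : ∀ x, N1 (bcf σ.T x) - 1 ≤ 2 / 3 * (N1 (bcf τ.T x) - 1)
  pos : ∀ x, N1 (bcf τ.T x) < 5 / 4 → Int σ.T x
  ring : ∀ j ≤ len, ∃ u, Sub σ ⟨u, σ.a, down^[j] σ.T, 0⟩
  inner : ∀ x, Reg τ.T x → Reg (down^[len] σ.T) x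

lemma exists_Up {len : ℕ} {t r h t' : Tr} {a a' : ℕ} (hw : WL t a) (h1 : ChainT len t r)
    (h2 : PathT r a h a') (h3 : ChainT 3 h t') {T' : Fin 3 → E} (hT : Good T') :
    ∃ T, Up len ⟨t, a, T, 0⟩ ⟨t', a', T', 0⟩ := by
  obtain ⟨T3, g3, rfl, -⟩ := exists_up 3 hT
  have w1 := h1.wl hw
  have w2 := h2.wl w1
  obtain ⟨T2, g2, s2, n2⟩ := h2.lift w1 g3
  obtain ⟨T1, g1, rfl, n1⟩ := exists_up len g2
  obtain ⟨s1, r1⟩ := h1.sub hw g1
  obtain ⟨s3, -⟩ := h3.sub w2 g3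
  refine ⟨T1, ⟨g1, hw⟩, s1.trans (s2.trans s3), fun x => ?_, fun x hx => ?_, r1, fun x hx => ?_⟩
  · have := (n1_three (bcf_sum g3 x)).1
    rw [← bcf_down3 g3] at this
    linarith [n1 x, n2 x]
  · refine (s1.trans s2).2 x ((n1_three (bcf_sum g3 x)).2 ?_)
    rwa [← bcf_down3 g3]
  · exact (s2.trans s3).reg ⟨g2, w1⟩ hx

lemma exists_spine {B : ℕ → Tr} {lv len : ℕ → ℕ} (hw : ∀ k, WL (B k) (lv k))
    (h : ∀ k, ∃ r h, ChainT (len k) (B (k + 1)) r ∧ PathT r (lv (k + 1)) h (lv k) ∧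
      ChainT 3 h (B k)) {T0 : Fin 3 → E} (h0 : Good T0) :
    ∃ T : ℕ → Fin 3 → E, T 0 = T0 ∧
      ∀ k, Up (len k) ⟨B (k + 1), lv (k + 1), T (k + 1), 0⟩ ⟨B k, lv k, T k, 0⟩ := by
  have h1 : ∀ k (T' : {T : Fin 3 → E // Good T}), ∃ T : {T : Fin 3 → E // Good T},
      Up (len k) ⟨B (k + 1), lv (k + 1), T.1, 0⟩ ⟨B k, lv k, T'.1, 0⟩ := by
    intro k T'
    obtain ⟨r, u, h1, h2, h3⟩ := h k
    obtain ⟨T, hT⟩ := exists_Up (hw (k + 1)) h1 h2 h3 T'.2
    exact ⟨⟨T, hT.ok.1⟩, hT⟩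
  choose f hf using h1
  exact ⟨fun k => (Nat.rec ⟨T0, h0⟩ f k : {T : Fin 3 → E // Good T}).1, rfl, fun k => hf k _⟩

section Seq

variable {N : ℕ → Nd E} {len : ℕ → ℕ}

/-- all leaf triangles -/
def allL (N : ℕ → Nd E) : Set (Fin 3 → E) := {L | ∃ n, LeafOf (N n).t (N n).T L}

lemma seq_ok (h : ∀ k, Up (len k) (N (k + 1)) (N k)) (n : ℕ) : OK (N n) := (h n).sub.1.ok

lemma seq_sub (h : ∀ k, Up (len k) (N (k + 1)) (N k)) {m n : ℕ} (hmn : m ≤ n) :
    Sub (N n) (N m) := by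
  induction n, hmn using Nat.le_induction with
  | base => exact Sub.refl (seq_ok h m)
  | succ n _ ih => exact (h n).sub.trans ih

lemma seq_sys (h : ∀ k, Up (len k) (N (k + 1)) (N k)) : Sys (allL N) where
  good := fun _ ⟨n, hL⟩ => (seq_ok h n).good_leaf hL
  ff := fun L ⟨n, hL⟩ L' ⟨m, hL'⟩ _ hx hx' _ hj =>
    (seq_ok h (max n m)).leaf_ff ((seq_sub h (le_max_left n m)).1.mem L hL)
      ((seq_sub h (le_max_right n m)).1.mem L' hL') hx hx' hj

lemma seq_cap (h : ∀ k, Up (len k) (N (k + 1)) (N k)) (n : ℕ) : Cap (allL N) (N n) where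
  ok := seq_ok h n
  mem := fun _ hL => ⟨n, hL⟩
  cap := fun L ⟨m, hL⟩ x hx hi =>
    (seq_sub h (le_max_left n m)).1.cap L ((seq_sub h (le_max_right n m)).1.mem L hL) x hx hi

lemma seq_int (h : ∀ k, Up (len k) (N (k + 1)) (N k)) {m n : ℕ} (hmn : m < n) {x : E}
    (hx : Reg (N m).T x) : Int (N n).T x :=
  (seq_sub h hmn).2 x ((h m).pos x (by rw [n1_of_nn (bcf_sum (seq_ok h m).1 x) hx]; norm_num))

lemma seq_exhaust (h : ∀ k, Up (len k) (N (k + 1)) (N k)) (R : ℝ) :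
    ∃ n, ∀ x, N1 (bcf (N 0).T x) ≤ R → Int (N n).T x := by
  obtain ⟨n, hn⟩ := exists_pow_lt_of_lt_one (x := 1 / (4 * (|R| + 1))) (y := (2 / 3 : ℝ))
    (by positivity) (by norm_num)
  refine ⟨n + 1, fun x hx => (h n).pos x ?_⟩
  have h1 : ∀ n, N1 (bcf (N n).T x) - 1 ≤ (2 / 3) ^ n * (|R| + 1) := by
    intro n
    induction n with
    | zero => have := le_abs_self R; simp; linarith
    | succ n ih => have := (h n).contr x; rw [pow_succ]; linarith
  have h2 := h1 n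
  have h3 : (0 : ℝ) < |R| + 1 := by positivity
  rw [lt_div_iff₀ (by positivity)] at hn
  nlinarith

lemma seq_near (h : ∀ k, Up (len k) (N (k + 1)) (N k)) {n r : ℕ} {v w : E}
    (hv : Reg (N n).T v) (hw : Near (allL N) r v w) : Reg (N (n + r)).T w := by
  refine Near.induct (P := fun r w => Reg (N (n + r)).T w) (fun r => ?_) ?_ r w hw
  · exact (seq_sub h (Nat.le_add_right n r)).reg (seq_ok h _) hv
  · intro r y z _ ih hyz
    exact (seq_cap h _).co_reg (seq_sys h) hyz (seq_int h (by omega) ih)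

lemma seq_vtx (h : ∀ k, Up (len k) (N (k + 1)) (N k)) {v : E} (hv : Vtx (allL N) v) :
    ∃ n, Reg (N n).T v := by
  obtain ⟨L, ⟨n, hL⟩, j, rfl⟩ := hv
  exact ⟨n, (seq_ok h n).reg_leaf_vertex hL j⟩

end Seq

end Pool.Agent.MP_295da9_pr.Th

end

section

/-! The graph and the simplicial complex of a system of triangles. -/

namespace Pool.Agent.MP_295da9_pr.Th

variable {E : Type*}

/-- vertices -/
abbrev VV (𝓛 : Set (Fin 3 → E)) := {x : E // Vtx 𝓛 x}

/-- the graph of a family of triangles -/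
def Gr (𝓛 : Set (Fin 3 → E)) : SimpleGraph (VV 𝓛) where
  Adj u v := u ≠ v ∧ Co 𝓛 u.1 v.1
  symm := ⟨fun _ _ h => ⟨h.1.symm, h.2.symm⟩⟩
  loopless := ⟨fun _ h => h.1 rfl⟩

variable {𝓛 : Set (Fin 3 → E)}

lemma near_of_walk {u w : VV 𝓛} (q : (Gr 𝓛).Walk u w) : Near 𝓛 q.length u.1 w.1 := by
  induction q with
  | nil => exact .refl _ _
  | cons h _ ih => exact .step h.2 ih

lemma walk_of_near {n : ℕ} {x y : E} (h : Near 𝓛 n x y) :
    ∀ u w : VV 𝓛, u.1 = x → w.1 = y → ∃ q : (Gr 𝓛).Walk u w, q.length ≤ n := by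
  induction h with
  | refl n x =>
    intro u w h1 h2
    obtain rfl : u = w := Subtype.ext (h1.trans h2.symm)
    exact ⟨.nil, Nat.zero_le _⟩
  | @step n x y z h1 _ ih =>
    intro u w h2 h3
    obtain ⟨q, hq⟩ := ih ⟨y, h1.right⟩ w rfl h3
    by_cases h4 : u = ⟨y, h1.right⟩
    · subst h4; exact ⟨q, by omega⟩
    · exact ⟨.cons (v := ⟨y, h1.right⟩) ⟨h4, h2 ▸ h1⟩ q, by simp [hq]⟩

lemma dist_le_iff (hc : (Gr 𝓛).Connected) (u w : VV 𝓛) (n : ℕ) :
    (Gr 𝓛).dist u w ≤ n ↔ Near 𝓛 n u.1 w.1 := by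
  constructor
  · intro h
    obtain ⟨q, hq⟩ := hc.exists_walk_length_eq_dist u w
    exact (near_of_walk q).mono (hq ▸ h)
  · intro h
    obtain ⟨q, hq⟩ := walk_of_near h u w rfl rfl
    exact (SimpleGraph.dist_le q).trans hq

lemma ncard_le_of {P : VV 𝓛 → Prop} {F : Finset E} (h : ∀ w, P w → w.1 ∈ F) :
    {w | P w}.Finite ∧ {w | P w}.ncard ≤ F.card := by
  have h1 : Subtype.val '' {w | P w} ⊆ F := by rintro _ ⟨w, hw, rfl⟩; exact h w hw
  refine ⟨Set.Finite.of_finite_image (F.finite_toSet.subset h1) Subtype.val_injective.injOn, ?_⟩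
  rw [← Set.ncard_image_of_injective _ Subtype.val_injective, ← Set.ncard_coe_finset]
  exact Set.ncard_le_ncard h1 F.finite_toSet

lemma le_ncard_of {P : VV 𝓛 → Prop} {F : Finset E} (hP : {w | P w}.Finite)
    (h : ∀ x ∈ F, ∃ w : VV 𝓛, P w ∧ w.1 = x) : F.card ≤ {w | P w}.ncard := by
  rw [← Set.ncard_image_of_injective _ Subtype.val_injective, ← Set.ncard_coe_finset]
  exact Set.ncard_le_ncard h (hP.image _)

variable [AddCommGroup E] [Module ℝ E]

lemma face_bc (hS : Sys 𝓛) {L : Fin 3 → E} (hL : L ∈ 𝓛) {s : Set E} (hs : s ⊆ Set.range L)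
    {x : E} (hx : x ∈ convexHull ℝ s) : Reg L x ∧ ∀ j, L j ∉ s → bcf L x j = 0 :=
  (hS.good L hL).of_mem_convexHull hs hx (isBC_bcf (hS.good L hL) x)

lemma same_bc (hS : Sys 𝓛) {L L' : Fin 3 → E} (hL : L ∈ 𝓛) (hL' : L' ∈ 𝓛) {x : E}
    (hx : Reg L x) (hx' : Reg L' x) {j : Fin 3} (hj : bcf L x j ≠ 0) :
    ∃ j', L' j' = L j ∧ bcf L' x j' ≠ 0 := by
  have h1 : x ∈ convexHull ℝ {y | ∃ j', L' j' = y ∧ bcf L' x j' ≠ 0} :=
    (isBC_bcf (hS.good L' hL') x).mem_convexHull hx' fun j' h => ⟨j', rfl, h⟩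
  by_contra h
  refine hj ((face_bc hS hL ?_ h1).2 j h)
  rintro _ ⟨j', rfl, h2⟩
  exact hS.ff L' hL' L hL x hx' hx j' (lt_of_le_of_ne (hx' j') h2.symm)

/-- the triangulation -/
def cx (hS : Sys 𝓛) : Geometry.SimplicialComplex ℝ E where
  faces := {s | s.Nonempty ∧ ∃ L ∈ 𝓛, (s : Set E) ⊆ Set.range L}
  isRelLowerSet_faces := by
    rintro s ⟨hs, L, hL, h⟩
    refine ⟨hs, fun t ht htn => ⟨htn, L, hL, Set.Subset.trans ?_ h⟩⟩
    exact_mod_cast ht
  indep := by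
    rintro s ⟨-, L, hL, h⟩
    exact (hS.good L hL).affineIndependent.range.mono h
  inter_subset_convexHull := by
    rintro s t ⟨-, L, hL, hs⟩ ⟨-, L', hL', ht⟩ x ⟨hxs, hxt⟩
    obtain ⟨h1, h2⟩ := face_bc hS hL hs hxs
    obtain ⟨h3, h4⟩ := face_bc hS hL' ht hxt
    refine (isBC_bcf (hS.good L hL) x).mem_convexHull h1 fun j hj => ⟨?_, ?_⟩
    · by_contra h; exact hj (h2 j h)
    · obtain ⟨j', h5, h6⟩ := same_bc hS hL hL' h1 h3 hj
      rw [← h5]
      by_contra h; exact h6 (h4 j' h)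

lemma mem_cx (hS : Sys 𝓛) {s : Finset E} :
    s ∈ (cx hS).faces ↔ s.Nonempty ∧ ∃ L ∈ 𝓛, (s : Set E) ⊆ Set.range L := Iff.rfl

lemma range_val (hS : Sys 𝓛) : Set.range (fun u : VV 𝓛 => u.1) = (cx hS).vertices := by
  ext x
  rw [Geometry.SimplicialComplex.mem_vertices, mem_cx]
  constructor
  · rintro ⟨⟨x, L, hL, hx⟩, rfl⟩
    exact ⟨by simp, L, hL, by simpa using hx⟩
  · rintro ⟨-, L, hL, h⟩
    exact ⟨⟨x, L, hL, by simpa using h⟩, rfl⟩

lemma adj_iff (hS : Sys 𝓛) (u v : VV 𝓛) :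
    (Gr 𝓛).Adj u v ↔ u ≠ v ∧ ∃ s ∈ (cx hS).faces, (s : Set E) = {u.1, v.1} := by
  classical
  refine and_congr_right fun _ => ⟨?_, ?_⟩
  · rintro ⟨L, hL, h1, h2⟩
    refine ⟨{u.1, v.1}, ⟨by simp, L, hL, ?_⟩, by simp⟩
    rw [Finset.coe_pair]
    rintro x (rfl | rfl)
    · exact h1
    · exact h2
  · rintro ⟨s, ⟨-, L, hL, h⟩, hs⟩
    rw [hs] at h
    exact ⟨L, hL, h (Set.mem_insert _ _), h (Set.mem_insert_of_mem _ rfl)⟩

lemma cx_pure (hS : Sys 𝓛) : ∀ s ∈ (cx hS).faces, ∃ t ∈ (cx hS).faces, s ⊆ t ∧ t.card = 3 := by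
  classical
  rintro s ⟨-, L, hL, h⟩
  refine ⟨Finset.univ.image L, ⟨by simp, L, hL, by simp⟩, ?_, ?_⟩
  · intro x hx
    simpa using h hx
  · rw [Finset.card_image_of_injective _ (hS.good L hL).affineIndependent.injective]
    simp

lemma cx_space (hS : Sys 𝓛) (hE : ∀ x, ∃ L ∈ 𝓛, Reg L x) : (cx hS).space = Set.univ := by
  classical
  rw [Set.eq_univ_iff_forall]
  intro x
  obtain ⟨L, hL, hx⟩ := hE x
  rw [Geometry.SimplicialComplex.mem_space_iff]
  refine ⟨Finset.univ.image L, ⟨by simp, L, hL, by simp⟩, ?_⟩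
  exact (isBC_bcf (hS.good L hL) x).mem_convexHull hx fun j _ => by simp

lemma finite_leaf (σ : Nd E) : {L | LeafOf σ.t σ.T L}.Finite := by
  classical
  refine ((cells rho0 0 σ).map fun l => l.T).toFinset.finite_toSet.subset fun L hL => ?_
  obtain ⟨l, hl, rfl⟩ := (leafOf_zero rho0 σ L).1 hL
  exact Multiset.mem_toFinset.2 (Multiset.mem_map.2 ⟨l, hl, rfl⟩)

lemma cx_finite (hS : Sys 𝓛) {σ : Nd E} (h : Cap 𝓛 σ) {A : Set E} (hA : ∀ x ∈ A, Int σ.T x) :
    {s ∈ (cx hS).faces | (convexHull ℝ (s : Set E) ∩ A).Nonempty}.Finite := by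
  classical
  refine ((finite_leaf σ).biUnion fun L _ =>
    (Finset.univ.image L).powerset.finite_toSet).subset ?_
  rintro s ⟨⟨-, L, hL, hs⟩, x, hx, hxA⟩
  simp only [Set.mem_iUnion]
  refine ⟨L, h.cap L hL x (face_bc hS hL hs hx).1 (hA x hxA), ?_⟩
  rw [Finset.mem_coe, Finset.mem_powerset]
  intro y hy
  simpa using hs hy

lemma finite_reg (hS : Sys 𝓛) {σ : Nd E} (h : Cap 𝓛 σ) : {w : VV 𝓛 | Reg σ.T w.1}.Finite := by
  refine Set.Finite.of_finite_image (((finite_leaf σ).biUnion fun L _ =>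
    Set.finite_range L).subset ?_) Subtype.val_injective.injOn
  rintro _ ⟨w, hw, rfl⟩
  obtain ⟨L, hL, hj⟩ := h.vtx_leaf hS w.2 hw
  exact Set.mem_biUnion hL hj

lemma ring_card (hS : Sys 𝓛) {σ : Nd E} (h : Cap 𝓛 σ) :
    {w : VV 𝓛 | Reg σ.T w.1 ∧ ¬ Int σ.T w.1}.ncard ≤ 3 * (2 ^ σ.a + 1) := by
  classical
  refine (ncard_le_of (F := (Finset.range (2 ^ σ.a + 1)).image (pt σ.a (σ.T 1) (σ.T 2)) ∪
    (Finset.range (2 ^ σ.a + 1)).image (pt σ.a (σ.T 0) (σ.T 2)) ∪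
    (Finset.range (2 ^ σ.a + 1)).image (pt σ.a (σ.T 0) (σ.T 1))) ?_).2.trans ?_
  · rintro w ⟨h1, h2⟩
    obtain ⟨z, hz⟩ : ∃ z, bcf σ.T w.1 z = 0 := by
      by_contra h3
      push Not at h3
      exact h2 fun j => lt_of_le_of_ne (h1 j) (h3 j).symm
    simp only [Finset.mem_union, Finset.mem_image, Finset.mem_range]
    fin_cases z
    · obtain ⟨m, hm, e⟩ := exists_pt hS h (X := 1) (Y := 2) (Z := 0) (by decide) (by decide)
        (by decide) w.2 h1 hz
      exact Or.inl (Or.inl ⟨m, by omega, e.symm⟩)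
    · obtain ⟨m, hm, e⟩ := exists_pt hS h (X := 0) (Y := 2) (Z := 1) (by decide) (by decide)
        (by decide) w.2 h1 hz
      exact Or.inl (Or.inr ⟨m, by omega, e.symm⟩)
    · obtain ⟨m, hm, e⟩ := exists_pt hS h (X := 0) (Y := 1) (Z := 2) (by decide) (by decide)
        (by decide) w.2 h1 hz
      exact Or.inr ⟨m, by omega, e.symm⟩
  · have h1 := fun f : ℕ → E => (Finset.card_image_le (s := Finset.range (2 ^ σ.a + 1)) (f := f))
    simp only [Finset.card_range] at h1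
    refine (Finset.card_union_le _ _).trans ((Nat.add_le_add ((Finset.card_union_le _ _).trans
      (Nat.add_le_add (h1 _) (h1 _))) (h1 _)).trans (by omega))

lemma walk_stays (hS : Sys 𝓛) {σ : Nd E} (h : Cap 𝓛 σ) {ω : Set (VV 𝓛)}
    (hω : ∀ x : VV 𝓛, Reg σ.T x.1 → ¬ Int σ.T x.1 → x ∉ ω) {u w : VV 𝓛} (q : (Gr 𝓛).Walk u w)
    (hq : ∀ x ∈ q.support, x ∈ ω) (hu : Reg σ.T u.1) : Reg σ.T w.1 := by
  induction q with
  | nil => exact hu
  | @cons u v w h1 q ih =>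
    refine ih (fun x hx => hq x (by simp [hx])) (h.co_reg hS h1.2 ?_)
    by_contra h2
    exact hω u hu h2 (hq u (by simp))

/-- sets with a small boundary stay close to it -/
lemma iso_graph (hS : Sys 𝓛) {a0 H : ℕ} {σ : Nd E} (h : Cap 𝓛 σ) (ha : a0 ≤ σ.a)
    (hH : All (fun t a => a ≤ a0 → hgt t a ≤ H) σ.t σ.a) {A : Set (VV 𝓛)} {S : Finset (VV 𝓛)}
    (hI : ∀ v ∈ A, Int σ.T v.1) (hc : S.card ≤ 2 ^ a0) (h1 : ∀ v ∈ A, v ∉ S)
    (h2 : ∀ v ∈ A, ∀ w, (Gr 𝓛).Adj v w → w ∉ S → w ∈ A) {v : VV 𝓛} (hv : v ∈ A) :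
    ∃ s ∈ S, Near 𝓛 (4 * H + 2) s.1 v.1 := by
  classical
  have hA : Clo 𝓛 (Subtype.val '' A) (S.image Subtype.val) := by
    refine ⟨?_, ?_, ?_⟩
    · rintro _ ⟨x, -, rfl⟩; exact x.2
    · rintro _ ⟨x, hx, rfl⟩ h3
      obtain ⟨y, hy, e⟩ := Finset.mem_image.1 h3
      exact h1 x hx (Subtype.ext e ▸ hy)
    · rintro _ ⟨x, hx, rfl⟩ y h3 h4
      by_cases e : x = ⟨y, h3.right⟩
      · exact ⟨x, hx, by rw [e]⟩
      · exact ⟨⟨y, h3.right⟩, h2 x hx _ ⟨e, h3⟩ fun h5 => h4 (Finset.mem_image.2 ⟨_, h5, rfl⟩), rfl⟩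
  obtain ⟨s, hs, h3⟩ := iso_near hS hA h ha hH (by rintro _ ⟨x, hx, rfl⟩; exact hI x hx)
    (Finset.card_image_le.trans hc)
    (fun s hs => by obtain ⟨y, -, rfl⟩ := Finset.mem_image.1 hs; exact y.2) ⟨v, hv, rfl⟩
  obtain ⟨y, hy, rfl⟩ := Finset.mem_image.1 hs
  exact ⟨y, hy, h3⟩

end Pool.Agent.MP_295da9_pr.Th

end

section

/-! The self-similar family of subdivision trees. -/

namespace Pool.Agent.MP_295da9_pr.Th

/-- stellar split with distinguished child `X` -/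
def tri3 (X Y : Tr) : Tr := .tri ![X, Y, Y]

/-- midpoint split with central child `X` -/
def quad4 (X Y : Tr) : Tr := .quad fun o => o.elim X fun _ => Y

/-- three stellar splits -/
def host3 (Y X : Tr) : Tr := tri3 (tri3 (tri3 X Y) Y) Y

lemma size_tri3 (X Y : Tr) : size (tri3 X Y) = size X + 2 * size Y := by
  simp [tri3, size, Fin.sum_univ_three]; ring

lemma size_quad4 (X Y : Tr) : size (quad4 X Y) = size X + 3 * size Y := by
  simp [quad4, size, Fintype.sum_option]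

lemma hgt_tri3 {X Y : Tr} {a M : ℕ} (h1 : hgt X a ≤ M) (h2 : hgt Y a ≤ M) :
    hgt (tri3 X Y) a ≤ M + 2 ^ a := by
  rw [add_comm]
  refine Nat.add_le_add_left (Finset.sup_le fun k _ => ?_) _
  fin_cases k <;> assumption

lemma hgt_quad4 {X Y : Tr} {a M : ℕ} (h1 : hgt X a ≤ M) (h2 : hgt Y a ≤ M) :
    hgt (quad4 X Y) (a + 1) ≤ M + 2 ^ (a + 1) := by
  rw [add_comm M]
  refine Nat.add_le_add_left (Finset.sup_le fun k _ => ?_) _
  cases k <;> assumption

lemma all_tri3 {P : Tr → ℕ → Prop} {X Y : Tr} {a : ℕ} (h : P (tri3 X Y) a) (h1 : All P X a)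
    (h2 : All P Y a) : All P (tri3 X Y) a :=
  ⟨h, fun k => by fin_cases k <;> assumption⟩

lemma all_quad4 {P : Tr → ℕ → Prop} {X Y : Tr} {a : ℕ} (h : P (quad4 X Y) (a + 1))
    (h1 : All P X a) (h2 : All P Y a) : All P (quad4 X Y) (a + 1) :=
  ⟨h, fun k => by cases k <;> assumption⟩

lemma wl_tri3 {X Y : Tr} {a : ℕ} (h1 : WL X a) (h2 : WL Y a) : WL (tri3 X Y) a :=
  fun k => by fin_cases k <;> assumption

lemma wl_quad4 {X Y : Tr} {a : ℕ} (h1 : WL X a) (h2 : WL Y a) : WL (quad4 X Y) (a + 1) :=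
  ⟨by omega, fun k => by cases k <;> assumption⟩

lemma reach_tri3_left (X Y : Tr) (a L : ℕ) : reach X a L ≤ reach (tri3 X Y) a (L + 2 ^ a) := by
  rw [add_comm]; exact reach_sub (t := tri3 X Y) a L (k := .inl 0) (by simp [tri3])

lemma reach_tri3_right (X Y : Tr) (a L : ℕ) : reach Y a L ≤ reach (tri3 X Y) a (L + 2 ^ a) := by
  rw [add_comm]; exact reach_sub (t := tri3 X Y) a L (k := .inl 1) (by simp [tri3])

lemma reach_quad4 (X Y : Tr) (a L : ℕ) :
    reach X a L ≤ reach (quad4 X Y) (a + 1) (L + 2 ^ (a + 1)) := by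
  rw [add_comm L]; exact reach_sub (t := quad4 X Y) (a + 1) L (k := .inr none) (by simp [quad4])

lemma all_small {P : Tr → ℕ → Prop} {i H : ℕ} (hP : ∀ t a, a ≤ i → hgt t a ≤ H → P t a)
    {t : Tr} {a : ℕ} (ha : a ≤ i) (h : hgt t a ≤ H) : All P t a :=
  all_of_inherit (Q := fun t a => a ≤ i ∧ hgt t a ≤ H) (fun t a h => hP t a h.1 h.2)
    (fun _ a h k hk => ⟨(lvl_le a k).trans h.1, 
      le_trans (Nat.le_add_left _ _) ((hgt_sub a hk).trans h.2)⟩) t a ⟨ha, h⟩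

section defs

variable (lv : ℕ → ℕ) (B : ℕ → Tr)

/-- face of level `a` hosting the bush of scale `k` -/
def Hh : ℕ → ℕ → Tr
  | 0, k => B k
  | a + 1, k => if a + 1 ≤ lv k then B k else
      quad4 (Hh a k) (if a = 0 then .leaf else Hh a a)

/-- plain face of level `a` -/
def Ee (a : ℕ) : Tr := if a = 0 then .leaf else Hh lv B a a

/-- tube segment of level `a` and length `2 ^ (a + d)` followed by `r` -/
def Seg (a : ℕ) : ℕ → Tr → Tr
  | 0, r => tri3 r (Ee lv B a)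
  | d + 1, r => Seg a d (host3 (Hh lv B a (a + d)) (Seg a d r))

/-- change of level -/
def drp (a a' : ℕ) (X : Tr) : Tr := if a' = a then X else quad4 X (Ee lv B a)

/-- the next bush -/
def nxtB (k : ℕ) : Tr :=
  Seg lv B (lv (k + 1)) (k - lv (k + 1)) (drp lv B (lv k) (lv (k + 1)) (host3 (B k) (B k)))

/-- total weight of the side faces of a segment -/
def sgw (w : Tr → ℕ) (a : ℕ) : ℕ → ℕ
  | 0 => w (Ee lv B a)
  | d + 1 => 2 * sgw w a d + 3 * w (Hh lv B a (a + d))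

end defs

variable {lv : ℕ → ℕ} {B : ℕ → Tr}

lemma Hh_congr {B' : ℕ → Tr} {K : ℕ} (h : ∀ m ≤ K, B m = B' m) (a : ℕ) :
    ∀ k, a ≤ K → k ≤ K → Hh lv B a k = Hh lv B' a k := by
  induction a with
  | zero => intro k _ hk; exact h k hk
  | succ a ih =>
    intro k ha hk
    simp only [Hh, h k hk, ih k (by omega) hk, ih a (by omega) (by omega)]

lemma Ee_congr {B' : ℕ → Tr} {K : ℕ} (h : ∀ m ≤ K, B m = B' m) {a : ℕ} (ha : a ≤ K) :
    Ee lv B a = Ee lv B' a := by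
  simp only [Ee, Hh_congr h a a ha ha]

lemma Seg_congr {B' : ℕ → Tr} {K : ℕ} (h : ∀ m ≤ K, B m = B' m) {a : ℕ} (d : ℕ) :
    a + d ≤ K → ∀ r, Seg lv B a d r = Seg lv B' a d r := by
  induction d with
  | zero => intro ha r; simp only [Seg, Ee_congr h (show a ≤ K from ha)]
  | succ d ih =>
    intro ha r
    simp only [Seg, ih (by omega), Hh_congr h a (a + d) (by omega) (by omega)]

/-- slowly increasing levels -/
structure Slow (lv : ℕ → ℕ) : Prop where
  zero : lv 0 = 0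
  step : ∀ k, lv (k + 1) = lv k ∨ lv (k + 1) = lv k + 1
  slow : ∀ k, lv (k + 1) ≠ 0 → 2 * lv (k + 1) + 3 ≤ k

lemma Slow.succ_le (h : Slow lv) (k : ℕ) : lv (k + 1) ≤ k := by
  have := h.slow k; omega

lemma Slow.le (h : Slow lv) (k : ℕ) : lv k ≤ k - 1 := by
  cases k with
  | zero => rw [h.zero]
  | succ k => exact h.succ_le k

lemma Slow.mono (h : Slow lv) : Monotone lv :=
  monotone_nat_of_le_succ fun k => by have := h.step k; omega

lemma nxtB_congr (h : Slow lv) {B' : ℕ → Tr} {k : ℕ} (h1 : ∀ m ≤ k, B m = B' m) :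
    nxtB lv B k = nxtB lv B' k := by
  have h2 := h.succ_le k
  have h3 := h.le k
  simp only [nxtB, drp]
  rw [Seg_congr h1 _ (by omega), Ee_congr h1 (by omega), h1 k le_rfl]

lemma exists_fam (h : Slow lv) :
    ∃ B : ℕ → Tr, B 0 = tri3 .leaf .leaf ∧ ∀ k, B (k + 1) = nxtB lv B k := by
  let Bs : ℕ → ℕ → Tr := fun n => Nat.rec (fun _ => tri3 .leaf .leaf)
    (fun k f => Function.update f (k + 1) (nxtB lv f k)) n
  have h1 : ∀ n, ∀ m ≤ n, Bs n m = Bs m m := by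
    intro n
    induction n with
    | zero => intro m hm; obtain rfl : m = 0 := by omega
              rfl
    | succ n ih =>
      intro m hm
      rcases Nat.lt_or_eq_of_le hm with h2 | rfl
      · change Function.update (Bs n) (n + 1) _ m = _
        rw [Function.update_of_ne (by omega), ih m (by omega)]
      · rfl
  refine ⟨fun k => Bs k k, rfl, fun k => ?_⟩
  change Function.update (Bs k) (k + 1) _ (k + 1) = _
  rw [Function.update_self]
  exact nxtB_congr h (h1 k)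

lemma Hh_of_eq {a k : ℕ} (h : lv k = a) : Hh lv B a k = B k := by
  cases a with
  | zero => rfl
  | succ a => simp only [Hh]; rw [if_pos h.ge]

lemma Hh_succ {a k : ℕ} (h : lv k ≤ a) :
    Hh lv B (a + 1) k = quad4 (Hh lv B a k) (Ee lv B a) := by
  simp only [Hh]; rw [if_neg (by omega)]; rfl

lemma Ee_zero : Ee lv B 0 = .leaf := rfl

lemma Ee_succ (a : ℕ) : Ee lv B (a + 1) = Hh lv B (a + 1) (a + 1) := rfl

/-- induction principle for the faces -/
lemma Hh_ind (h : Slow lv) {K : ℕ} {Q : ℕ → ℕ → Tr → Prop} {R : ℕ → Tr → Prop}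
    (h0 : ∀ k ≤ K, Q (lv k) k (B k)) (h1 : R 0 .leaf)
    (h2 : ∀ a X, Q (a + 1) (a + 1) (quad4 X (Ee lv B a)) → R a (Ee lv B a) →
      R (a + 1) (quad4 X (Ee lv B a)))
    (h3 : ∀ a k X Y, lv k ≤ a → a < k → k ≤ K → Q a k X → R a Y → Q (a + 1) k (quad4 X Y))
    (a : ℕ) : (∀ k, lv k ≤ a → a ≤ k → k ≤ K → Q a k (Hh lv B a k)) ∧
      (a ≤ K → R a (Ee lv B a)) := by
  induction a with
  | zero =>
    refine ⟨fun k hk _ hK => ?_, fun _ => h1⟩
    have := h0 k hK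
    rwa [show lv k = 0 by omega] at this
  | succ a ih =>
    have key : ∀ k, lv k ≤ a + 1 → a + 1 ≤ k → k ≤ K → Q (a + 1) k (Hh lv B (a + 1) k) := by
      intro k hk hk' hK
      rcases Nat.lt_or_eq_of_le hk with h4 | h4
      · rw [Hh_succ (by omega)]
        exact h3 a k _ _ (by omega) hk' hK (ih.1 k (by omega) (by omega) hK) (ih.2 (by omega))
      · rw [Hh_of_eq h4, ← h4]; exact h0 k hK
    refine ⟨key, fun hK => ?_⟩
    have h4 := key (a + 1) ((h.succ_le a).trans (by omega)) le_rfl hK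
    rw [Ee_succ]
    rw [Hh_succ (h.succ_le a)] at h4 ⊢
    exact h2 a _ h4 (ih.2 (by omega))

section seg

variable {a : ℕ} {S : Tr → Prop} {Q : Tr → ℕ → Prop} {w : Tr → ℕ} {P : Tr → ℕ → Prop}

lemma seg_small (rule : ∀ X Y n, S Y → Q X n → Q (tri3 X Y) (n + w Y)) {nmax : ℕ}
    (hP : ∀ t n, Q t n → n ≤ nmax → P t a) (hS : ∀ Y, S Y → All P Y a) (hE : S (Ee lv B a))
    (d : ℕ) : (∀ d' < d, S (Hh lv B a (a + d'))) → ∀ r n, Q r n →
      Q (Seg lv B a d r) (n + sgw lv B w a d) ∧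
      (All P r a → n + sgw lv B w a d ≤ nmax → All P (Seg lv B a d r) a) := by
  induction d with
  | zero =>
    intro _ r n hr
    exact ⟨rule _ _ _ hE hr, fun h1 h2 => all_tri3 (hP _ _ (rule _ _ _ hE hr) h2) h1 (hS _ hE)⟩
  | succ d ih =>
    intro hH r n hr
    have hY := hH d (by omega)
    obtain ⟨q0, a0⟩ := ih (fun d' h => hH d' (by omega)) r n hr
    have q1 := rule _ _ _ hY q0
    have q2 := rule _ _ _ hY q1
    have q3 := rule _ _ _ hY q2
    obtain ⟨q4, a4⟩ := ih (fun d' h => hH d' (by omega)) _ _ q3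
    have e : n + sgw lv B w a d + w (Hh lv B a (a + d)) + w (Hh lv B a (a + d)) +
        w (Hh lv B a (a + d)) + sgw lv B w a d = n + sgw lv B w a (d + 1) := by
      simp only [sgw]; ring
    refine ⟨e ▸ q4, fun h1 h2 => a4 ?_ (e ▸ h2)⟩
    exact all_tri3 (hP _ _ q3 (by omega)) (all_tri3 (hP _ _ q2 (by omega))
      (all_tri3 (hP _ _ q1 (by omega)) (a0 h1 (by omega)) (hS _ hY)) (hS _ hY)) (hS _ hY)

lemma seg_Q (rule : ∀ X Y n, S Y → Q X n → Q (tri3 X Y) (n + w Y)) (hE : S (Ee lv B a))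
    {d : ℕ} (hH : ∀ d' < d, S (Hh lv B a (a + d'))) {r : Tr} {n : ℕ} (hr : Q r n) :
    Q (Seg lv B a d r) (n + sgw lv B w a d) :=
  (seg_small (P := fun _ _ => True) (nmax := 0) rule (fun _ _ _ _ => trivial)
    (fun Y _ => all_of_inherit (Q := fun _ _ => True) (fun _ _ h => h) (fun _ _ _ _ _ => trivial)
      Y a trivial) hE d hH r n hr).1

lemma seg_triv (hP : ∀ t, P t a) (hE : All P (Ee lv B a) a) {d : ℕ}
    (hH : ∀ d' < d, All P (Hh lv B a (a + d')) a) {r : Tr} (hr : All P r a) :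
    All P (Seg lv B a d r) a :=
  (seg_small (S := fun Y => All P Y a) (Q := fun _ _ => True) (w := fun _ => 0)
    (nmax := sgw lv B (fun _ => 0) a d) (fun _ _ _ _ _ => trivial) (fun t _ _ _ => hP t)
    (fun _ h => h) hE d hH r 0 trivial).2 hr (by simp)

lemma seg_big {R : Tr → Prop} {d0 : ℕ}
    (base : ∀ r, R r → All P r a → All P (Seg lv B a d0 r) a) (hR : ∀ t, R t → P t a) (d : ℕ)
    (hd : d0 ≤ d) : (∀ d' < d, All P (Hh lv B a (a + d')) a) →
    (∀ d' r, d0 ≤ d' → d' < d → R (tri3 (Seg lv B a d' r) (Hh lv B a (a + d'))) ∧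
      R (tri3 (tri3 (Seg lv B a d' r) (Hh lv B a (a + d'))) (Hh lv B a (a + d'))) ∧
      R (host3 (Hh lv B a (a + d')) (Seg lv B a d' r))) →
    ∀ r, R r → All P r a → All P (Seg lv B a d r) a := by
  induction d, hd using Nat.le_induction with
  | base => exact fun _ _ => base
  | succ d hd ih =>
    intro hH hb r h1 h2
    have ih' := ih (fun d' h => hH d' (by omega)) (fun d' r h h' => hb d' r h (by omega))
    obtain ⟨r1, r2, r3⟩ := hb d r hd (by omega)
    have hY := hH d (by omega)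
    exact ih' _ r3 (all_tri3 (hR _ r3) (all_tri3 (hR _ r2)
      (all_tri3 (hR _ r1) (ih' r h1 h2) hY) hY) hY)

lemma seg_pre {d0 d : ℕ} (hd : d0 ≤ d) (r : Tr) :
    ∃ r', Seg lv B a d r = Seg lv B a d0 r' := by
  induction d, hd using Nat.le_induction generalizing r with
  | base => exact ⟨r, rfl⟩
  | succ d _ ih => exact ih _

lemma sgw_const (c d : ℕ) : sgw lv B (fun _ => c) a d + 3 * c = 4 * 2 ^ d * c := by
  induction d with
  | zero => simp only [sgw]; ring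
  | succ d ih => simp only [sgw]; rw [pow_succ]; linarith

lemma chain_host3 (Y X : Tr) : ChainT 3 (host3 Y X) X := ⟨_, rfl, _, rfl, _, rfl, rfl⟩

lemma chain_seg (d : ℕ) : ∀ r, ChainT (4 * 2 ^ d - 3) (Seg lv B a d r) r := by
  induction d with
  | zero => intro r; exact ⟨_, rfl, rfl⟩
  | succ d ih =>
    intro r
    have h := (ih (host3 (Hh lv B a (a + d)) (Seg lv B a d r))).trans
      ((chain_host3 _ _).trans (ih r))
    have h1 : 0 < 2 ^ d := by positivity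
    rwa [show 4 * 2 ^ d - 3 + 3 + (4 * 2 ^ d - 3) = 4 * 2 ^ (d + 1) - 3 by
      rw [pow_succ]; omega] at h

lemma size_seg (d : ℕ) (r : Tr) :
    size (Seg lv B a d r) = size r + sgw lv B (fun Y => 2 * size Y) a d :=
  seg_Q (S := fun _ => True) (Q := fun t n => size t = n)
    (fun X Y n _ h => by rw [size_tri3, h]) trivial (fun _ _ => trivial) rfl

end seg

/-- the family -/
structure Fam (lv : ℕ → ℕ) (B : ℕ → Tr) : Prop where
  slow : Slow lv
  zero : B 0 = tri3 .leaf .leaf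
  succ : ∀ k, B (k + 1) = nxtB lv B k

lemma drp_cases (h : Slow lv) (k : ℕ) (X : Tr) :
    (lv (k + 1) = lv k ∧ drp lv B (lv k) (lv (k + 1)) X = X) ∨
    (lv (k + 1) = lv k + 1 ∧ drp lv B (lv k) (lv (k + 1)) X = quad4 X (Ee lv B (lv k))) := by
  rcases h.step k with h1 | h1
  · exact Or.inl ⟨h1, if_pos h1⟩
  · exact Or.inr ⟨h1, if_neg (by omega)⟩

lemma Fam.chain (h : Fam lv B) (k : ℕ) : ∃ r u, ChainT (4 * 2 ^ (k - lv (k + 1)) - 3) (B (k + 1)) r ∧
    PathT r (lv (k + 1)) u (lv k) ∧ ChainT 3 u (B k) := by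
  refine ⟨_, host3 (B k) (B k), by rw [h.succ k]; exact chain_seg _ _, ?_, chain_host3 _ _⟩
  rcases drp_cases (B := B) h.slow k (host3 (B k) (B k)) with ⟨h1, h2⟩ | ⟨h1, h2⟩
  · rw [h2, h1]; exact .refl _ _
  · rw [h2, h1]; exact .step (k := .inr none) (by simp [quad4]) (.refl _ _)

lemma Fam.wl (h : Fam lv B) (k : ℕ) : WL (B k) (lv k) := by
  induction k using Nat.strong_induction_on with
  | _ k ih =>
    cases k with
    | zero => rw [h.zero, h.slow.zero]; exact wl_tri3 rfl rfl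
    | succ k =>
      have h1 := Hh_ind (B := B) h.slow (K := k) (Q := fun a _ t => WL t a) (R := fun a t => WL t a)
        (fun m hm => ih m (by omega)) rfl (fun _ _ h _ => h)
        (fun _ _ _ _ _ _ _ h1 h2 => wl_quad4 h1 h2)
      have h2 := h.slow.succ_le k
      have h3 := h.slow.le k
      have h4 := ih k (by omega)
      have h5 : WL (host3 (B k) (B k)) (lv k) := wl_tri3 (wl_tri3 (wl_tri3 h4 h4) h4) h4
      rw [h.succ]
      refine seg_Q (S := fun t => WL t (lv (k + 1))) (Q := fun t _ => WL t (lv (k + 1)))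
        (w := fun _ => 0) (n := 0) (fun _ _ _ h1 h2 => wl_tri3 h2 h1) ((h1 _).2 h2)
        (fun d' hd => (h1 _).1 _ (h.slow.mono (by omega)) (by omega) (by omega)) ?_
      rcases drp_cases (B := B) h.slow k (host3 (B k) (B k)) with ⟨e1, e2⟩ | ⟨e1, e2⟩
      · rw [e2, e1]; exact h5
      · rw [e2, e1]; exact wl_quad4 h5 ((h1 _).2 (by omega))

lemma Fam.size_ge (h : Fam lv B) (k : ℕ) : 8 ^ k ≤ size (B k) := by
  induction k using Nat.strong_induction_on with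
  | _ k ih =>
    cases k with
    | zero => rw [h.zero, size_tri3]; simp [size]
    | succ k =>
      have h1 := Hh_ind (B := B) h.slow (K := k) (Q := fun _ k t => 8 ^ k ≤ size t)
        (R := fun a t => 8 ^ a ≤ size t) (fun m hm => ih m (by omega)) le_rfl (fun _ _ h _ => h)
        (fun _ _ _ _ _ _ _ h1 _ => by rw [size_quad4]; omega)
      have h2 := h.slow.succ_le k
      have h4 := ih k (by omega)
      have h5 : ∀ d, lv (k + 1) + d ≤ k →
          8 ^ (lv (k + 1) + d) ≤ sgw lv B (fun Y => 2 * size Y) (lv (k + 1)) d := by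
        intro d
        induction d with
        | zero => intro _; have := (h1 _).2 h2; simp only [sgw, add_zero]; omega
        | succ d ih =>
          intro hd
          have := (h1 (lv (k + 1))).1 (lv (k + 1) + d) (h.slow.mono (by omega)) (by omega) (by omega)
          have := ih (by omega)
          simp only [sgw]
          rw [← add_assoc, pow_succ]
          omega
      have h6 := h5 (k - lv (k + 1)) (by omega)
      rw [show lv (k + 1) + (k - lv (k + 1)) = k by omega] at h6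
      rw [h.succ, nxtB, size_seg, pow_succ]
      rcases drp_cases (B := B) h.slow k (host3 (B k) (B k)) with ⟨-, e2⟩ | ⟨-, e2⟩ <;>
        rw [e2] <;> simp only [host3, size_tri3, size_quad4] <;> omega

lemma faces_size_le (h : Slow lv) {K : ℕ} (ih : ∀ m ≤ K, size (B m) + 3 * 4 ^ m ≤ 6 * 8 ^ m)
    (a : ℕ) : (∀ k, lv k ≤ a → a ≤ k → k ≤ K →
      size (Hh lv B a k) ≤ size (B k) + if a = 0 then 0 else 6 * 8 ^ a) ∧
      (a ≤ K → size (Ee lv B a) ≤ if a = 0 then 1 else 12 * 8 ^ a) := by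
  refine (Hh_ind (B := B) h (K := K)
    (Q := fun a k t => k ≤ K ∧ size t ≤ size (B k) + if a = 0 then 0 else 6 * 8 ^ a)
    (R := fun a t => size t ≤ if a = 0 then 1 else 12 * 8 ^ a)
    (fun m hm => ⟨hm, Nat.le_add_right _ _⟩) le_rfl (fun a X h _ => ?_)
    (fun a k X Y _ _ hk h1 h2 => ⟨hk, ?_⟩) a).imp_left fun h k h1 h2 h3 => (h k h1 h2 h3).2
  · have := ih _ h.1
    have := h.2
    simp only [Nat.add_eq_zero_iff, one_ne_zero, and_false, if_false] at this ⊢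
    omega
  · have h3 := h1.2
    have h4 : 1 ≤ 8 ^ a := Nat.one_le_pow _ _ (by norm_num)
    rw [size_quad4, if_neg (by omega), pow_succ]
    split_ifs at h2 h3 <;> omega

lemma sgw_size_le (h : Slow lv) {K : ℕ} (ih : ∀ m ≤ K, size (B m) + 3 * 4 ^ m ≤ 6 * 8 ^ m)
    {a : ℕ} (ha : a ≤ K) (d : ℕ) : a + d ≤ K + 1 → lv (a + d) ≤ a →
      sgw lv B (fun Y => 2 * size Y) a d + (if a = 0 then 0 else 36 * 8 ^ a) + 9 * 4 ^ (a + d) ≤
        2 ^ d * (if a = 0 then 2 else 60 * 8 ^ a) + 6 * 8 ^ (a + d) + 3 * 2 ^ (a + d) := by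
  induction d with
  | zero =>
    intro _ _
    have h1 := (faces_size_le h ih a).2 ha
    simp only [sgw, add_zero, pow_zero, one_mul]
    split_ifs at h1 ⊢ with h0
    · subst h0; omega
    · obtain ⟨a, rfl⟩ : ∃ b, a = b + 1 := ⟨a - 1, by omega⟩
      have : 4 ^ a ≤ 8 ^ a := Nat.pow_le_pow_left (by norm_num) a
      simp only [pow_succ] at h1 ⊢
      omega
  | succ d ihd =>
    intro hd hl
    have h0 : lv (a + d) ≤ a := (h.mono (by omega)).trans hl
    have h1 := (faces_size_le h ih a).1 (a + d) h0 (by omega) (by omega)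
    have h2 := ihd (by omega) h0
    have h3 := ih (a + d) (by omega)
    simp only [sgw, ← add_assoc, pow_succ]
    generalize (if a = 0 then 2 else 60 * 8 ^ a) = u at *
    split_ifs at h1 h2 ⊢ <;> nlinarith

lemma Fam.size_le (h : Fam lv B) (k : ℕ) : size (B k) + 3 * 4 ^ k ≤ 6 * 8 ^ k := by
  induction k using Nat.strong_induction_on with
  | _ k ih =>
    cases k with
    | zero => rw [h.zero, size_tri3]; simp [size]
    | succ k =>
      have ih' : ∀ m ≤ k, size (B m) + 3 * 4 ^ m ≤ 6 * 8 ^ m := fun m hm => ih m (by omega)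
      have h2 := h.slow.succ_le k
      have h3 := h.slow.le k
      have h4 := ih' k le_rfl
      have h5 := sgw_size_le h.slow ih' h2 (k - lv (k + 1)) (by omega) (h.slow.mono (by omega))
      rw [show lv (k + 1) + (k - lv (k + 1)) = k by omega] at h5
      have h6 := (faces_size_le h.slow ih' (lv k)).2 (by omega)
      have h7 : size (drp lv B (lv k) (lv (k + 1)) (host3 (B k) (B k))) ≤
          7 * size (B k) + if lv (k + 1) = 0 then 0 else 36 * 8 ^ lv (k + 1) := by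
        rcases drp_cases (B := B) h.slow k (host3 (B k) (B k)) with ⟨e1, e2⟩ | ⟨e1, e2⟩
        · rw [e2]; simp only [host3, size_tri3]; omega
        · have : 1 ≤ 8 ^ lv k := Nat.one_le_pow _ _ (by norm_num)
          rw [e2]
          simp only [host3, size_tri3, size_quad4]
          rw [if_neg (by omega), e1, pow_succ]
          split_ifs at h6 <;> omega
      have h8 : 2 ^ k ≤ 4 ^ k := Nat.pow_le_pow_left (by norm_num) k
      have h9 : 2 ^ (k - lv (k + 1)) * (if lv (k + 1) = 0 then 2 else 60 * 8 ^ lv (k + 1)) ≤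
          8 * 4 ^ k := by
        split_ifs with h0
        · rw [h0, Nat.sub_zero]; omega
        · have h10 := h.slow.slow k h0
          obtain ⟨e, he⟩ : ∃ e, k = 2 * lv (k + 1) + 3 + e := ⟨k - (2 * lv (k + 1) + 3), by omega⟩
          generalize lv (k + 1) = a at *
          subst he
          have e1 : 2 * a + 3 + e - a = a + 3 + e := by omega
          have e2 : (8 : ℕ) ^ a = 2 ^ a * 2 ^ a * 2 ^ a := by rw [← mul_pow, ← mul_pow]; rfl
          have e3 : (4 : ℕ) ^ (2 * a + 3 + e) =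
              64 * (2 ^ a * 2 ^ a * 2 ^ a * 2 ^ a) * (2 ^ e * 2 ^ e) := by
            rw [show (4 : ℕ) = 2 * 2 by norm_num, mul_pow]; ring
          have e4 : 1 ≤ 2 ^ e := Nat.one_le_two_pow
          rw [e1, e2, e3, pow_add, pow_add]
          generalize 2 ^ a = x at *
          generalize 2 ^ e = y at *
          have e5 : x * x * x * x * y ≤ x * x * x * x * (y * y) :=
            Nat.mul_le_mul_left _ (Nat.le_mul_self y)
          have e6 : x * 2 ^ 3 * y * (60 * (x * x * x)) = 480 * (x * x * x * x * y) := by ring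
          have e7 : 8 * (64 * (x * x * x * x) * (y * y)) = 512 * (x * x * x * x * (y * y)) := by
            ring
          omega
      rw [h.succ, nxtB, size_seg, pow_succ, pow_succ]
      omega

end Pool.Agent.MP_295da9_pr.Th

end

section

/-! Heights, corner numbers and shallow parts of the family. -/

namespace Pool.Agent.MP_295da9_pr.Th

variable {lv : ℕ → ℕ} {B : ℕ → Tr}

lemma two_pow_le {a b : ℕ} (h : a ≤ b) : 2 ^ a ≤ 2 ^ b := Nat.pow_le_pow_right (by norm_num) h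

lemma eight_pow_le {a b : ℕ} (h : a ≤ b) : 8 ^ a ≤ 8 ^ b := Nat.pow_le_pow_right (by norm_num) h

lemma faces_hgt (h : Slow lv) {K : ℕ} (ih : ∀ m ≤ K, hgt (B m) (lv m) ≤ 10 * 2 ^ m) (a : ℕ) :
    (∀ k, lv k ≤ a → a ≤ k → k ≤ K → hgt (Hh lv B a k) a ≤ 10 * 2 ^ k + 2 * 2 ^ a) ∧
      (a ≤ K → hgt (Ee lv B a) a ≤ 12 * 2 ^ a) :=
  Hh_ind (B := B) h (K := K) (Q := fun a k t => hgt t a ≤ 10 * 2 ^ k + 2 * 2 ^ a)
    (R := fun a t => hgt t a ≤ 12 * 2 ^ a) (fun m hm => (ih m hm).trans (Nat.le_add_right _ _))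
    (Nat.zero_le _) (fun a X h _ => by omega)
    (fun a k X Y _ hk _ h1 h2 => by
      have h3 := two_pow_le hk.le
      have := hgt_quad4 h1 (h2.trans (by omega : 12 * 2 ^ a ≤ 10 * 2 ^ k + 2 * 2 ^ a))
      rw [pow_succ] at this ⊢
      omega) a

lemma hgt_host3 {X Y : Tr} {a M : ℕ} (h1 : hgt X a ≤ M) (h2 : hgt Y a ≤ M) :
    hgt (host3 Y X) a ≤ M + 3 * 2 ^ a := by
  have h3 := hgt_tri3 h1 h2
  have h4 := hgt_tri3 h3 (h2.trans (Nat.le_add_right _ _))
  have h5 := hgt_tri3 h4 (h2.trans ((Nat.le_add_right _ _).trans (Nat.le_add_right _ _)))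
  exact h5.trans (by omega)

lemma Fam.hgt_le (h : Fam lv B) (k : ℕ) : hgt (B k) (lv k) ≤ 10 * 2 ^ k := by
  induction k using Nat.strong_induction_on with
  | _ k ih =>
    cases k with
    | zero =>
      rw [h.zero, h.slow.zero]
      exact (hgt_tri3 (M := 0) le_rfl le_rfl).trans (by norm_num)
    | succ k =>
      have h1 := faces_hgt h.slow (K := k) fun m hm => ih m (by omega)
      have h2 := h.slow.succ_le k
      have h3 := h.slow.le k
      have h4 := ih k (by omega)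
      have p1 := two_pow_le h2
      have p2 := two_pow_le (show lv k ≤ k by omega)
      have h5 : hgt (drp lv B (lv k) (lv (k + 1)) (host3 (B k) (B k))) (lv (k + 1)) ≤
          14 * 2 ^ k + 0 := by
        have h6 := hgt_host3 h4 h4
        rcases drp_cases (B := B) h.slow k (host3 (B k) (B k)) with ⟨e1, e2⟩ | ⟨e1, e2⟩
        · rw [e2, e1]; omega
        · have h7 := (h1 (lv k)).2 (by omega)
          have := hgt_quad4 (M := 13 * 2 ^ k) (h6.trans (by omega)) (h7.trans (by omega))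
          rw [e2]
          rw [← e1] at this
          omega
      have h6 := seg_Q (lv := lv) (B := B) (a := lv (k + 1))
        (S := fun Y => hgt Y (lv (k + 1)) ≤ 14 * 2 ^ k)
        (Q := fun t n => hgt t (lv (k + 1)) ≤ 14 * 2 ^ k + n) (w := fun _ => 2 ^ lv (k + 1))
        (fun X Y n h1 h2 => (hgt_tri3 h2 (h1.trans (Nat.le_add_right _ _))).trans (by omega))
        (((h1 _).2 h2).trans (by omega)) (d := k - lv (k + 1))
        (fun d' hd => ((h1 _).1 _ (h.slow.mono (by omega)) (by omega) (by omega)).trans (by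
          have := two_pow_le (show lv (k + 1) + d' ≤ k by omega)
          omega)) h5
      have h7 := sgw_const (lv := lv) (B := B) (a := lv (k + 1)) (2 ^ lv (k + 1)) (k - lv (k + 1))
      rw [mul_assoc, ← pow_add, show k - lv (k + 1) + lv (k + 1) = k by omega] at h7
      rw [h.succ, nxtB, pow_succ]
      omega

lemma Fam.hgt_H (h : Fam lv B) {a k : ℕ} (h1 : lv k ≤ a) (h2 : a ≤ k) :
    hgt (Hh lv B a k) a ≤ 12 * 2 ^ k := by
  have := (faces_hgt h.slow (K := k) (fun m _ => h.hgt_le m) a).1 k h1 h2 le_rfl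
  have := two_pow_le h2
  omega

lemma Fam.hgt_E (h : Fam lv B) (a : ℕ) : hgt (Ee lv B a) a ≤ 12 * 2 ^ a :=
  (faces_hgt h.slow (K := a) (fun m _ => h.hgt_le m) a).2 le_rfl

lemma Fam.size_H_ge (h : Fam lv B) {a k : ℕ} (h1 : lv k ≤ a) (h2 : a ≤ k) :
    8 ^ k ≤ size (Hh lv B a k) :=
  (Hh_ind (B := B) h.slow (K := k) (Q := fun _ k t => 8 ^ k ≤ size t)
    (R := fun a t => 8 ^ a ≤ size t) (fun m _ => h.size_ge m) le_rfl (fun _ _ h _ => h)
    (fun _ _ _ _ _ _ _ h1 _ => by rw [size_quad4]; omega) a).1 k h1 h2 le_rfl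

lemma Fam.size_E_le (h : Fam lv B) (a : ℕ) : size (Ee lv B a) ≤ 12 * 8 ^ a := by
  have := (faces_size_le h.slow (K := a) (fun m _ => h.size_le m) a).2 le_rfl
  have h1 : 1 ≤ 8 ^ a := Nat.one_le_pow _ _ (by norm_num)
  split_ifs at this <;> omega

lemma Fam.sgw_le (h : Fam lv B) {a d : ℕ} (h1 : lv (a + d) ≤ a) :
    sgw lv B (fun Y => 2 * size Y) a d ≤ 69 * 8 ^ (a + d) := by
  have h2 := sgw_size_le h.slow (K := a + d) (fun m _ => h.size_le m) (Nat.le_add_right a d) d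
    (by omega) h1
  have h3 : 2 ^ (a + d) ≤ 8 ^ (a + d) := Nat.pow_le_pow_left (by norm_num) _
  have h4 : 2 ^ d * (if a = 0 then 2 else 60 * 8 ^ a) ≤ 60 * 8 ^ (a + d) := by
    have h5 : 2 ^ d ≤ 8 ^ d := Nat.pow_le_pow_left (by norm_num) _
    have h6 : 1 ≤ 8 ^ a := Nat.one_le_pow _ _ (by norm_num)
    calc _ ≤ 8 ^ d * (60 * 8 ^ a) := Nat.mul_le_mul h5 (by split_ifs <;> omega)
      _ = _ := by rw [pow_add]; ring
  omega

/-! corner numbers -/

/-- bounds for tube nodes -/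
def CTube (t : Tr) : Prop := cp t 0 ≤ 4 ∧ cp t 1 ≤ 9 ∧ cp t 2 ≤ 14

/-- bounds for bushes -/
def CTop (t : Tr) : Prop := cp t 0 ≤ 2 ∧ cp t 1 ≤ 5 ∧ cp t 2 ≤ 14

/-- bounds for plain faces -/
def COne (t : Tr) : Prop := ∀ j, cp t j ≤ 1

lemma COne.top {t : Tr} (h : COne t) : CTop t := by
  have := h 0; have := h 1; have := h 2
  refine ⟨?_, ?_, ?_⟩ <;> omega

lemma CTop.tube {t : Tr} (h : CTop t) : CTube t := by
  obtain ⟨h0, h1, h2⟩ := h
  refine ⟨?_, ?_, ?_⟩ <;> omega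

lemma CTube.le {t : Tr} (h : CTube t) (j : Fin 3) : cp t j ≤ 14 := by
  obtain ⟨h0, h1, h2⟩ := h
  fin_cases j
  · exact h0.trans (by norm_num)
  · exact h1.trans (by norm_num)
  · exact h2

lemma ctube_tri3 {X Y : Tr} (h1 : CTube X) (h2 : CTop Y) : CTube (tri3 X Y) := by
  obtain ⟨a0, a1, a2⟩ := h1
  obtain ⟨b0, b1, b2⟩ := h2
  refine ⟨?_, ?_, ?_⟩ <;> simp [tri3, cp] <;> omega

lemma ctop_tri3 {X Y : Tr} (h1 : CTube X) (h2 : COne Y) : CTop (tri3 X Y) := by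
  obtain ⟨a0, a1, a2⟩ := h1
  have := h2 0
  have := h2 1
  refine ⟨?_, ?_, ?_⟩ <;> simp [tri3, cp] <;> omega

lemma cone_quad4 (X : Tr) {Y : Tr} (h : COne Y) : COne (quad4 X Y) := fun j => h j

lemma Fam.cp_le (h : Fam lv B) (k : ℕ) :
    CTop (B k) ∧ All (fun t _ => ∀ j, cp t j ≤ 14) (B k) (lv k) := by
  induction k using Nat.strong_induction_on with
  | _ k ih =>
    have hl : COne .leaf := fun _ => le_rfl
    cases k with
    | zero =>
      rw [h.zero]
      have := ctop_tri3 hl.top.tube hl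
      exact ⟨this, all_tri3 this.tube.le hl.top.tube.le hl.top.tube.le⟩
    | succ k =>
      have h1 := Hh_ind (B := B) h.slow (K := k)
        (Q := fun a _ t => CTop t ∧ All (fun t _ => ∀ j, cp t j ≤ 14) t a)
        (R := fun a t => COne t ∧ All (fun t _ => ∀ j, cp t j ≤ 14) t a)
        (fun m hm => ih m (by omega)) ⟨hl, hl.top.tube.le⟩
        (fun _ _ h h' => ⟨cone_quad4 _ h'.1, h.2⟩)
        (fun _ _ X _ _ _ _ h1 h2 => ⟨(cone_quad4 X h2.1).top,
          all_quad4 (cone_quad4 X h2.1).top.tube.le h1.2 h2.2⟩)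
      have h2 := h.slow.succ_le k
      have h3 := h.slow.le k
      obtain ⟨h4, h4'⟩ := ih k (by omega)
      have t1 := ctube_tri3 h4.tube h4
      have t2 := ctube_tri3 t1 h4
      have t3 := ctube_tri3 t2 h4
      have a3 := all_tri3 t3.le (all_tri3 t2.le (all_tri3 t1.le h4' h4') h4') h4'
      have h5 : CTube (drp lv B (lv k) (lv (k + 1)) (host3 (B k) (B k))) ∧
          All (fun t _ => ∀ j, cp t j ≤ 14) (drp lv B (lv k) (lv (k + 1)) (host3 (B k) (B k)))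
            (lv (k + 1)) := by
        rcases drp_cases (B := B) h.slow k (host3 (B k) (B k)) with ⟨e1, e2⟩ | ⟨e1, e2⟩
        · rw [e2, e1]; exact ⟨t3, a3⟩
        · have h7 := (h1 (lv k)).2 (by omega)
          rw [e2, e1]
          exact ⟨(cone_quad4 _ h7.1).top.tube, all_quad4 (cone_quad4 _ h7.1).top.tube.le a3 h7.2⟩
      have hE := (h1 _).2 h2
      have hH := fun d' (hd : d' < k - lv (k + 1)) => (h1 (lv (k + 1))).1 (lv (k + 1) + d')
        (h.slow.mono (by omega)) (by omega) (by omega)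
      have h6 := fun d hd => seg_small (lv := lv) (B := B) (a := lv (k + 1))
        (S := fun t => CTop t ∧ All (fun t _ => ∀ j, cp t j ≤ 14) t (lv (k + 1)))
        (Q := fun t _ => CTube t) (w := fun _ => 0) (P := fun t _ => ∀ j, cp t j ≤ 14)
        (nmax := sgw lv B (fun _ => 0) (lv (k + 1)) (k - lv (k + 1)))
        (fun _ _ _ h1 h2 => ctube_tri3 h2 h1.1) (fun _ _ h _ => h.le) (fun _ h => h.2)
        ⟨hE.1.top, hE.2⟩ d hd
      rw [h.succ, nxtB]
      refine ⟨?_, (h6 _ hH _ 0 h5.1).2 h5.2 (by simp)⟩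
      have h7 : ∀ d ≤ k - lv (k + 1), ∀ r, CTube r → CTop (Seg lv B (lv (k + 1)) d r) := by
        intro d
        induction d with
        | zero => exact fun _ r hr => ctop_tri3 hr hE.1
        | succ d ih =>
          intro hd r hr
          have hY := (hH d hd).1
          exact ih (by omega) _
            (ctube_tri3 (ctube_tri3 (ctube_tri3 (ih (by omega) r hr).tube hY) hY) hY)
      exact h7 _ le_rfl _ h5.1

/-! heights by level -/

lemma Fam.hgt_level (h : Fam lv B) {a0 K : ℕ} (hK : ∀ k, lv k ≤ a0 → k ≤ K) (k : ℕ) :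
    All (fun t a => a ≤ a0 → hgt t a ≤ 13 * 2 ^ K) (B k) (lv k) := by
  have small : ∀ t a, a ≤ a0 → hgt t a ≤ 13 * 2 ^ K →
      All (fun t a => a ≤ a0 → hgt t a ≤ 13 * 2 ^ K) t a := fun t a h1 h2 =>
    all_small (P := fun t a => a ≤ a0 → hgt t a ≤ 13 * 2 ^ K) (fun _ _ _ h _ => h) h1 h2
  induction k using Nat.strong_induction_on with
  | _ k ih =>
    by_cases h0 : lv k ≤ a0
    · have := two_pow_le (hK k h0)
      exact small _ _ h0 ((h.hgt_le k).trans (by omega))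
    cases k with
    | zero => exact absurd (h.slow.zero.le.trans (Nat.zero_le _)) h0
    | succ k =>
      have h1 := Hh_ind (B := B) h.slow (K := k)
        (Q := fun a k t => t = Hh lv B a k ∧
          All (fun t a => a ≤ a0 → hgt t a ≤ 13 * 2 ^ K) t a)
        (R := fun a t => t = Ee lv B a ∧ All (fun t a => a ≤ a0 → hgt t a ≤ 13 * 2 ^ K) t a)
        (fun m hm => ⟨(Hh_of_eq rfl).symm, ih m (by omega)⟩) ⟨rfl, fun _ => Nat.zero_le _⟩
        (fun _ _ h _ => h)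
        (fun a m X Y h1 h2 _ h3 h4 => by
          have e : quad4 X Y = Hh lv B (a + 1) m := by rw [h3.1, h4.1, Hh_succ h1]
          refine ⟨e, all_quad4 (fun h5 => ?_) h3.2 h4.2⟩
          have := two_pow_le (hK m (by omega))
          rw [e]
          exact (h.hgt_H (by omega) h2).trans (by omega))
      have h2 := h.slow.succ_le k
      have h3 := h.slow.le k
      have h4 := ih k (by omega)
      have h5 : All (fun t a => a ≤ a0 → hgt t a ≤ 13 * 2 ^ K) (host3 (B k) (B k)) (lv k) := by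
        by_cases h6 : lv k ≤ a0
        · have := two_pow_le (hK k h6)
          have := two_pow_le (show lv k ≤ k by omega)
          exact small _ _ h6 ((hgt_host3 (h.hgt_le k) (h.hgt_le k)).trans (by omega))
        · exact all_tri3 (fun h => absurd h h6) (all_tri3 (fun h => absurd h h6)
            (all_tri3 (fun h => absurd h h6) h4 h4) h4) h4
      rw [h.succ]
      refine seg_triv (fun _ h => absurd h h0) ((h1 _).2 h2).2
        (fun d' hd => ((h1 _).1 _ (h.slow.mono (by omega)) (by omega) (by omega)).2) ?_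
      rcases drp_cases (B := B) h.slow k (host3 (B k) (B k)) with ⟨e1, e2⟩ | ⟨e1, e2⟩
      · rw [e2, e1]; exact h5
      · rw [e2, e1]
        exact all_quad4 (fun h => absurd (e1 ▸ h) h0) h5 ((h1 _).2 (by omega)).2

/-! rich nodes -/

lemma Fam.rich_seg (_h : Fam lv B) {N a d L : ℕ} {r : Tr} (hr : N ≤ reach r a L) :
    N ≤ reach (Seg lv B a d r) a (L + sgw lv B (fun _ => 2 ^ a) a d) :=
  seg_Q (S := fun _ => True) (Q := fun t n => N ≤ reach t a n) (w := fun _ => 2 ^ a)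
    (fun X Y n _ h => h.trans (reach_tri3_left X Y a n)) trivial (fun _ _ => trivial) hr

lemma sgw_pow (a d : ℕ) : sgw lv B (fun _ => 2 ^ a) a d + 3 * 2 ^ a = 4 * 2 ^ (a + d) := by
  rw [sgw_const, pow_add]; ring

lemma Fam.rich_B (h : Fam lv B) {i k : ℕ} (hk : i + 1 ≤ k) (hl : lv k ≤ i + 1) :
    8 ^ i ≤ reach (B k) (lv k) (26 * 2 ^ i) := by
  rcases Nat.lt_or_eq_of_le hk with h1 | rfl
  · obtain ⟨k, rfl⟩ : ∃ m, k = m + 1 := ⟨k - 1, by omega⟩
    rw [h.succ, nxtB]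
    rcases Nat.lt_or_eq_of_le hl with h2 | h2
    · obtain ⟨r, hr⟩ := seg_pre (lv := lv) (B := B) (a := lv (k + 1))
        (d0 := i - lv (k + 1) + 1) (d := k - lv (k + 1)) (by omega)
        (drp lv B (lv k) (lv (k + 1)) (host3 (B k) (B k)))
      have e : lv (k + 1) + (i - lv (k + 1)) = i := by omega
      have h3 : lv i ≤ lv (k + 1) := h.slow.mono (by omega)
      have h4 := h.size_H_ge h3 (by omega)
      rw [← reach_eq_size _ _ _ (h.hgt_H h3 (by omega))] at h4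
      have h5 := h.rich_seg (d := i - lv (k + 1)) (h4.trans (reach_tri3_right
        (tri3 (tri3 (Seg lv B (lv (k + 1)) (i - lv (k + 1)) r) (Hh lv B (lv (k + 1)) i))
          (Hh lv B (lv (k + 1)) i)) _ _ _))
      have h6 := sgw_pow (lv := lv) (B := B) (lv (k + 1)) (i - lv (k + 1))
      rw [e] at h6
      rw [hr, Seg, e]
      exact h5.trans (reach_mono _ _ _ _ (by omega))
    · obtain ⟨r, hr⟩ := seg_pre (lv := lv) (B := B) (a := lv (k + 1))
        (d0 := 0) (d := k - lv (k + 1)) (by omega)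
        (drp lv B (lv k) (lv (k + 1)) (host3 (B k) (B k)))
      have h4 := h.size_H_ge (a := i + 1) (k := i + 1) ((h.slow.succ_le i).trans (by omega)) le_rfl
      rw [← Ee_succ, ← reach_eq_size _ _ _ (h.hgt_E (i + 1))] at h4
      rw [hr, Seg, h2]
      refine (eight_pow_le (Nat.le_succ i)).trans (h4.trans ((reach_tri3_right r _ _ _).trans
        (reach_mono _ _ _ _ ?_)))
      rw [pow_succ]; omega
  · have h4 := h.size_ge (i + 1)
    rw [← reach_eq_size _ _ _ (h.hgt_le (i + 1))] at h4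
    refine (eight_pow_le (Nat.le_succ i)).trans (h4.trans (reach_mono _ _ _ _ ?_))
    rw [pow_succ]; omega

lemma Fam.rich_H (h : Fam lv B) {i k : ℕ} (hk : i + 1 ≤ k) (a : ℕ) :
    lv k ≤ a → a ≤ i + 1 → 8 ^ i ≤ reach (Hh lv B a k) a (26 * 2 ^ i + 2 * 2 ^ a) := by
  induction a with
  | zero =>
    intro h1 _
    have := h.rich_B hk (by omega)
    rw [show lv k = 0 by omega] at this
    exact this.trans (reach_mono _ _ _ _ (by omega))
  | succ a ih =>
    intro h1 h2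
    rcases Nat.lt_or_eq_of_le h1 with h3 | h3
    · rw [Hh_succ (by omega)]
      refine (ih (by omega) (by omega)).trans ((reach_quad4 _ _ _ _).trans
        (reach_mono _ _ _ _ ?_))
      rw [pow_succ]; omega
    · rw [Hh_of_eq h3, ← h3]
      exact (h.rich_B hk (by omega)).trans (reach_mono _ _ _ _ (by omega))

lemma Fam.all_rich (h : Fam lv B) (i k : ℕ) :
    All (fun t a => a ≤ i + 1 → (a ≤ i ∧ hgt t a ≤ 24 * 2 ^ i) ∨ 8 ^ i ≤ reach t a (40 * 2 ^ i))
      (B k) (lv k) := by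
  set P : Tr → ℕ → Prop := fun t a => a ≤ i + 1 → (a ≤ i ∧ hgt t a ≤ 24 * 2 ^ i) ∨
    8 ^ i ≤ reach t a (40 * 2 ^ i) with hP
  have small : ∀ t a, a ≤ i → hgt t a ≤ 24 * 2 ^ i → All P t a := fun t a h1 h2 =>
    all_small (fun _ _ h1 h2 _ => Or.inl ⟨h1, h2⟩) h1 h2
  have rich : ∀ t a L, 8 ^ i ≤ reach t a L → L ≤ 40 * 2 ^ i → P t a := fun t a L h1 h2 _ =>
    Or.inr (h1.trans (reach_mono _ _ _ _ h2))
  induction k using Nat.strong_induction_on with
  | _ k ih =>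
    by_cases h0 : k ≤ i + 1
    · have := two_pow_le h0
      have := h.slow.le k
      rw [pow_succ] at *
      exact small _ _ (by omega) ((h.hgt_le k).trans (by omega))
    obtain ⟨k, rfl⟩ : ∃ m, k = m + 1 := ⟨k - 1, by omega⟩
    have h1 := Hh_ind (B := B) h.slow (K := k) (Q := fun a k t => t = Hh lv B a k ∧ All P t a)
      (R := fun a t => t = Ee lv B a ∧ All P t a)
      (fun m hm => ⟨(Hh_of_eq rfl).symm, ih m (by omega)⟩)
      ⟨rfl, fun _ => Or.inl ⟨Nat.zero_le _, Nat.zero_le _⟩⟩ (fun _ _ h _ => h)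
      (fun a m X Y h1 h2 _ h3 h4 => by
        have e : quad4 X Y = Hh lv B (a + 1) m := by rw [h3.1, h4.1, Hh_succ h1]
        refine ⟨e, all_quad4 (fun h5 => ?_) h3.2 h4.2⟩
        rw [e]
        by_cases h6 : m ≤ i
        · have := two_pow_le h6
          exact Or.inl ⟨by omega, (h.hgt_H (by omega) h2).trans (by omega)⟩
        · have := two_pow_le h5
          rw [pow_succ 2 i] at this
          exact rich _ _ _ (h.rich_H (by omega) _ (by omega) h5) (by omega) h5)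
    have h2 := h.slow.succ_le k
    have h3 := h.slow.le k
    have h4 := ih k (by omega)
    have hm : lv k ≤ lv (k + 1) := h.slow.mono (by omega)
    have hE := ((h1 _).2 h2).2
    have hH := fun d' (hd : d' < k - lv (k + 1)) => ((h1 (lv (k + 1))).1 (lv (k + 1) + d')
      (h.slow.mono (by omega)) (by omega) (by omega)).2
    have side : ∀ X, lv k ≤ i + 1 → 8 ^ i ≤ reach (tri3 X (B k)) (lv k) (28 * 2 ^ i) := by
      intro X h5
      have := two_pow_le h5
      rw [pow_succ] at this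
      exact (h.rich_B (by omega) h5).trans ((reach_tri3_right _ _ _ _).trans
        (reach_mono _ _ _ _ (by omega)))
    have h5 : All P (host3 (B k) (B k)) (lv k) :=
      all_tri3 (fun h => rich _ _ _ (side _ h) (by omega) h)
        (all_tri3 (fun h => rich _ _ _ (side _ h) (by omega) h)
          (all_tri3 (fun h => rich _ _ _ (side _ h) (by omega) h) h4 h4) h4) h4
    have h6 : (lv (k + 1) ≤ i + 1 → 8 ^ i ≤
        reach (drp lv B (lv k) (lv (k + 1)) (host3 (B k) (B k))) (lv (k + 1)) (32 * 2 ^ i)) ∧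
        All P (drp lv B (lv k) (lv (k + 1)) (host3 (B k) (B k))) (lv (k + 1)) := by
      rcases drp_cases (B := B) h.slow k (host3 (B k) (B k)) with ⟨e1, e2⟩ | ⟨e1, e2⟩
      · rw [e2, e1]
        exact ⟨fun h => (side _ h).trans (reach_mono _ _ _ _ (by omega)), h5⟩
      · rw [e2, e1]
        have h7 : lv k + 1 ≤ i + 1 → 8 ^ i ≤
            reach (quad4 (host3 (B k) (B k)) (Ee lv B (lv k))) (lv k + 1) (32 * 2 ^ i) := by
          intro h8
          have := two_pow_le h8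
          rw [pow_succ 2 i] at this
          exact (side _ (by omega)).trans ((reach_quad4 _ _ _ _).trans
            (reach_mono _ _ _ _ (by omega)))
        exact ⟨h7, all_quad4 (fun h => rich _ _ _ (h7 h) (by omega) h) h5 ((h1 _).2 (by omega)).2⟩
    rw [h.succ]
    by_cases ha : lv (k + 1) ≤ i + 1
    swap
    · exact seg_triv (fun _ h => absurd h ha) hE hH h6.2
    have p1 := two_pow_le ha
    rw [pow_succ 2 i] at p1
    refine seg_big (R := fun t => 8 ^ i ≤ reach t (lv (k + 1)) (32 * 2 ^ i))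
      (d0 := i + 1 - lv (k + 1)) (fun r h7 h8 => ?_) (fun t h => rich _ _ _ h (by omega)) _
      (by omega) hH (fun d' r h7 h8 => ?_) _ (h6.1 ha) h6.2
    · have h9 := sgw_pow (lv := lv) (B := B) (lv (k + 1)) (i + 1 - lv (k + 1))
      rw [show lv (k + 1) + (i + 1 - lv (k + 1)) = i + 1 by omega, pow_succ 2 i] at h9
      exact (seg_small (S := fun Y => All P Y (lv (k + 1)))
        (Q := fun t n => 8 ^ i ≤ reach t (lv (k + 1)) n) (w := fun _ => 2 ^ lv (k + 1))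
        (nmax := 40 * 2 ^ i) (fun X Y n _ h => h.trans (reach_tri3_left X Y _ n))
        (fun t n => rich t _ n) (fun _ h => h) hE _ (fun d' hd => hH d' (by omega)) r _ h7).2 h8
        (by omega)
    · have h9 : ∀ X, 8 ^ i ≤ reach (tri3 X (Hh lv B (lv (k + 1)) (lv (k + 1) + d'))) (lv (k + 1))
          (32 * 2 ^ i) := fun X =>
        (h.rich_H (by omega) _ (h.slow.mono (by omega)) ha).trans
          ((reach_tri3_right _ _ _ _).trans (reach_mono _ _ _ _ (by omega)))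
      exact ⟨h9 _, h9 _, h9 _⟩

end Pool.Agent.MP_295da9_pr.Th

end

section

/-! Upper bounds for the shallow parts of the family. -/

namespace Pool.Agent.MP_295da9_pr.Th

variable {lv : ℕ → ℕ} {B : ℕ → Tr}

lemma cnt_le_size (R : ℝ) (t : Tr) : ∀ a g, cnt R t a g ≤ size t := by
  induction t with
  | leaf => intro a g; simp only [cnt, size]; split_ifs <;> omega
  | tri c ih => exact fun a g => Finset.sum_le_sum fun k _ => ih k _ _
  | quad c ih => exact fun a g => Finset.sum_le_sum fun k _ => ih k _ _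

lemma le_upd {g : Fin 3 → ℝ} {m : ℝ} (h : ∀ j, m ≤ g j) (a : ℕ) (k j : Fin 3) :
    m ≤ upd k g (rho2 a g) j := by
  rcases upd_mem k g (rho2 a g) j with h1 | ⟨j', -, h1⟩ <;> rw [h1]
  · have h2 := le_min3 h
    have h3 : (0 : ℝ) < 2 ^ a := by positivity
    unfold rho2
    linarith
  · exact h _

lemma le_quad {g : Fin 3 → ℝ} {m : ℝ} (h : ∀ j, m ≤ g j) (k : Option (Fin 3)) (j : Fin 3) :
    m ≤ quadT k g j := by
  have h0 := h 0
  have h1 := h 1
  have h2 := h 2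
  cases k with
  | none => fin_cases j <;> simp [quadT] <;> linarith
  | some k =>
    have := h k
    have := h j
    simp only [quadT, smul_eq_mul]
    linarith

lemma cnt_eq_zero (R : ℝ) (t : Tr) : ∀ a g, (∀ j, R ≤ g j) → cnt R t a g = 0 := by
  induction t with
  | leaf =>
    intro a g h
    simp only [cnt]
    rw [if_neg]
    rintro ⟨j, hj⟩
    exact absurd (h j) (not_le.2 hj)
  | tri c ih => exact fun a g h => Finset.sum_eq_zero fun k _ => ih k _ _ (le_upd h a k)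
  | quad c ih => exact fun a g h => Finset.sum_eq_zero fun k _ => ih k _ _ (le_quad h k)

lemma bd_size (t : Tr) (a : ℕ) (L : ℝ) : Bd t a L (size t) := fun g R _ => cnt_le_size R t a g

lemma bd_zero (t : Tr) (a : ℕ) {L : ℝ} (h : L ≤ 0) : Bd t a L 0 :=
  fun g R h1 => (cnt_eq_zero R t a g fun j => by linarith [h1 j]).le

lemma Bd.mono {t : Tr} {a : ℕ} {L : ℝ} {N N' : ℕ} (h : Bd t a L N) (h1 : N ≤ N') :
    Bd t a L N' := fun g R h2 => (h g R h2).trans h1

lemma bd_tri3 {X Y : Tr} {a : ℕ} {L : ℝ} {N M : ℕ} (h1 : Bd X a L N) (h2 : Bd Y a L M) :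
    Bd (tri3 X Y) a L (N + 2 * M) := by
  intro g R h
  have h3 : ∀ k j, R ≤ upd k g (rho2 a g) j + L := fun k j => by
    linarith [le_upd (m := R - L) (g := g) (fun j => by linarith [h j]) a k j]
  have e0 := h1 _ _ (h3 0)
  have e1 := h2 _ _ (h3 1)
  have e2 := h2 _ _ (h3 2)
  simp only [tri3, cnt, Fin.sum_univ_three, Matrix.cons_val]
  omega

lemma bd_quad4 {X Y : Tr} {a : ℕ} {L : ℝ} {N M : ℕ} (h1 : Bd X a L N) (h2 : Bd Y a L M) :
    Bd (quad4 X Y) (a + 1) L (N + 3 * M) := by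
  intro g R h
  have h3 : ∀ k j, R ≤ quadT k g j + L := fun k j => by
    linarith [le_quad (m := R - L) (g := g) (fun j => by linarith [h j]) k j]
  have e0 := h1 _ _ (h3 none)
  have e1 := h2 _ _ (h3 (some 0))
  have e2 := h2 _ _ (h3 (some 1))
  have e3 := h2 _ _ (h3 (some 2))
  simp only [quad4, cnt, Fintype.sum_option, Fin.sum_univ_three, Option.elim, Nat.add_sub_cancel]
  omega

lemma cnt_tri3 {X Y : Tr} {a : ℕ} {L R : ℝ} {M : ℕ} {g : Fin 3 → ℝ} (h2 : Bd Y a L M)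
    (h : ∀ j, R ≤ g j + L) : cnt R (tri3 X Y) a g ≤ cnt R X a (upd 0 g (rho2 a g)) + 2 * M := by
  have h3 : ∀ k j, R ≤ upd k g (rho2 a g) j + L := fun k j => by
    linarith [le_upd (m := R - L) (g := g) (fun j => by linarith [h j]) a k j]
  have e1 := h2 _ _ (h3 1)
  have e2 := h2 _ _ (h3 2)
  simp only [tri3, cnt, Fin.sum_univ_three, Matrix.cons_val]
  omega

lemma bd_host3 {X Y : Tr} {a : ℕ} {L : ℝ} {N M : ℕ} (h1 : Bd X a (L - 2 ^ a) N)
    (h2 : Bd Y a L M) : Bd (host3 Y X) a L (N + 6 * M) := by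
  intro g R h
  have a0 : ∀ j, R - L ≤ g j := fun j => by linarith [h j]
  have a1 := le_upd a0 a 0
  have a2 := le_upd a1 a 0
  have b0 := le_min3 a0
  have b1 := le_min3 a1
  have b2 := le_min3 a2
  have e0 := cnt_tri3 (X := tri3 (tri3 X Y) Y) h2 h
  have e1 := cnt_tri3 (X := tri3 X Y) (R := R) (g := upd 0 g (rho2 a g)) h2
    fun j => by linarith [a1 j]
  have e2 := cnt_tri3 (X := X) (R := R)
    (g := upd 0 (upd 0 g (rho2 a g)) (rho2 a (upd 0 g (rho2 a g)))) h2 fun j => by linarith [a2 j]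
  have e3 := h1 (upd 0 (upd 0 (upd 0 g (rho2 a g)) (rho2 a (upd 0 g (rho2 a g))))
    (rho2 a (upd 0 (upd 0 g (rho2 a g)) (rho2 a (upd 0 g (rho2 a g)))))) R (by
      intro j
      fin_cases j
      · change R ≤ rho2 a g + _
        unfold rho2
        linarith
      · change R ≤ rho2 a (upd 0 g (rho2 a g)) + _
        generalize upd 0 g (rho2 a g) = g' at *
        unfold rho2
        linarith
      · change R ≤ rho2 a (upd 0 (upd 0 g (rho2 a g)) (rho2 a (upd 0 g (rho2 a g)))) + _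
        generalize upd 0 (upd 0 g (rho2 a g)) (rho2 a (upd 0 g (rho2 a g))) = g' at *
        unfold rho2
        linarith)
  unfold host3
  omega

lemma bd_seg {a : ℕ} (d : ℕ) : ∀ (r : Tr) (L : ℝ) (N : ℕ), Bd r a (L - (2 ^ (a + d) - 2 ^ a)) N →
    Bd (Seg lv B a d r) a L (N + sgw lv B (fun Y => 2 * size Y) a d) := by
  induction d with
  | zero => intro r L N h; exact bd_tri3 (by simpa using h) (bd_size _ _ _)
  | succ d ih =>
    intro r L N h
    have h1 := ih r (L - (2 ^ (a + d) - 2 ^ a) - 2 ^ a) N (by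
      convert h using 1
      rw [← add_assoc, pow_succ]; ring)
    exact (ih _ _ _ (bd_host3 h1 (bd_size (Hh lv B a (a + d)) _ _))).mono
      (by simp only [sgw]; omega)

lemma size_sub {t : Tr} {k : Ix} (hk : k ∈ idx t) : size (sub t k) ≤ size t := by
  rw [size_go (ne_leaf_of_mem hk)]
  exact Finset.single_le_sum (f := fun k => size (sub t k)) (fun _ _ => Nat.zero_le _) hk

lemma all_bd_size {i N : ℕ} {L : ℝ} {t : Tr} (a : ℕ) (h : size t ≤ N) :
    All (fun t a => a ≤ i → Bd t a L N) t a :=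
  all_of_inherit (P := fun t a => a ≤ i → Bd t a L N) (Q := fun t _ => size t ≤ N)
    (fun t a h _ => (bd_size t a L).mono h)
    (fun _ _ h _ hk => (size_sub hk).trans h) t a h

lemma Fam.bd_seg (h : Fam lv B) {i a d : ℕ} (h1 : a ≤ i) (h2 : i + 1 ≤ a + d)
    (h3 : lv (i + 1) ≤ a) (r : Tr) : Bd (Seg lv B a d r) a (2 ^ i) (552 * 8 ^ i) := by
  obtain ⟨r', hr⟩ := seg_pre (lv := lv) (B := B) (a := a) (d0 := i + 1 - a) (d := d) (by omega) r
  have e : a + (i + 1 - a) = i + 1 := by omega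
  have h4 := h.sgw_le (a := a) (d := i + 1 - a) (by rwa [e])
  rw [e, pow_succ] at h4
  rw [hr]
  refine (Th.bd_seg _ _ _ _ (bd_zero _ _ ?_)).mono (by omega)
  have h5 : (2 : ℝ) ^ a ≤ 2 ^ i := pow_le_pow_right₀ (by norm_num) h1
  rw [e, pow_succ]
  linarith

lemma Fam.bd_B (h : Fam lv B) {i k : ℕ} (h1 : lv k ≤ i) :
    Bd (B k) (lv k) (2 ^ i) (552 * 8 ^ i) := by
  by_cases h0 : k ≤ i + 1
  · have h2 := eight_pow_le h0
    have h3 := h.size_le k
    rw [pow_succ] at h2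
    exact (bd_size _ _ _).mono (by omega)
  · obtain ⟨k, rfl⟩ : ∃ m, k = m + 1 := ⟨k - 1, by omega⟩
    have h2 := h.slow.succ_le k
    rw [h.succ]
    exact h.bd_seg h1 (by omega) (h.slow.mono (by omega)) _

lemma Fam.bd_H (h : Fam lv B) {i a k : ℕ} (h0 : a ≤ i) (h1 : lv k ≤ a) (h2 : a ≤ k) :
    Bd (Hh lv B a k) a (2 ^ i) (558 * 8 ^ i) := by
  have h3 := ((Hh_ind (B := B) h.slow (K := k)
    (Q := fun a k t => t = Hh lv B a k ∧ (a ≤ i → Bd t a (2 ^ i) (552 * 8 ^ i + 6 * 8 ^ a)))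
    (R := fun a t => t = Ee lv B a)
    (fun m _ => ⟨(Hh_of_eq rfl).symm, fun h4 => (h.bd_B h4).mono (Nat.le_add_right _ _)⟩) rfl
    (fun a X h4 _ => h4.1) (fun a m X Y h3 _ _ h4 h5 => ⟨by rw [h4.1, h5, Hh_succ h3],
      fun h6 => ?_⟩) a).1 k h1 h2 le_rfl).2 h0
  · have := eight_pow_le h0
    exact h3.mono (by omega)
  · have h7 := h.size_E_le a
    refine (bd_quad4 (h4.2 (by omega)) (bd_size Y _ _)).mono ?_
    rw [h5, pow_succ]
    omega

lemma Fam.all_bd (h : Fam lv B) (i k : ℕ) :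
    All (fun t a => a ≤ i → Bd t a (2 ^ i) (5000 * 8 ^ i)) (B k) (lv k) := by
  set P : Tr → ℕ → Prop := fun t a => a ≤ i → Bd t a (2 ^ i) (5000 * 8 ^ i) with hP
  have mk : ∀ t a n, Bd t a (2 ^ i) n → n ≤ 5000 * 8 ^ i → P t a := fun t a n h1 h2 _ =>
    h1.mono h2
  induction k using Nat.strong_induction_on with
  | _ k ih =>
    by_cases h0 : k ≤ i + 1
    · have h2 := eight_pow_le h0
      have h3 := h.size_le k
      rw [pow_succ] at h2
      exact all_bd_size _ (by omega)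
    obtain ⟨k, rfl⟩ : ∃ m, k = m + 1 := ⟨k - 1, by omega⟩
    have h1 := Hh_ind (B := B) h.slow (K := k) (Q := fun a k t => t = Hh lv B a k ∧ All P t a)
      (R := fun a t => t = Ee lv B a ∧ All P t a)
      (fun m hm => ⟨(Hh_of_eq rfl).symm, ih m (by omega)⟩)
      ⟨rfl, all_bd_size _ (by have : 1 ≤ 8 ^ i := Nat.one_le_pow _ _ (by norm_num)
                              simp only [size]; omega)⟩ (fun _ _ h _ => h)
      (fun a m X Y h1 h2 _ h3 h4 => by
        have e : quad4 X Y = Hh lv B (a + 1) m := by rw [h3.1, h4.1, Hh_succ h1]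
        refine ⟨e, all_quad4 (fun h5 => ?_) h3.2 h4.2⟩
        rw [e]
        exact (h.bd_H h5 (by omega) h2).mono (by omega))
    have h2 := h.slow.succ_le k
    have h3 := h.slow.le k
    have h4 := ih k (by omega)
    have hm : lv k ≤ lv (k + 1) := h.slow.mono (by omega)
    have hE := ((h1 _).2 h2).2
    have hH := fun d' (hd : d' < k - lv (k + 1)) => ((h1 (lv (k + 1))).1 (lv (k + 1) + d')
      (h.slow.mono (by omega)) (by omega) (by omega)).2
    have b1 := fun h5 : lv k ≤ i => bd_tri3 (h.bd_B h5) (h.bd_B h5)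
    have b2 := fun h5 : lv k ≤ i => bd_tri3 (b1 h5) (h.bd_B h5)
    have b3 := fun h5 : lv k ≤ i => bd_tri3 (b2 h5) (h.bd_B h5)
    have h5 : All P (host3 (B k) (B k)) (lv k) :=
      all_tri3 (fun h => (b3 h).mono (by omega)) (all_tri3 (fun h => (b2 h).mono (by omega))
        (all_tri3 (fun h => (b1 h).mono (by omega)) h4 h4) h4) h4
    have h6 : (lv (k + 1) ≤ i → Bd (drp lv B (lv k) (lv (k + 1)) (host3 (B k) (B k)))
        (lv (k + 1)) (2 ^ i) (3900 * 8 ^ i)) ∧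
        All P (drp lv B (lv k) (lv (k + 1)) (host3 (B k) (B k))) (lv (k + 1)) := by
      rcases drp_cases (B := B) h.slow k (host3 (B k) (B k)) with ⟨e1, e2⟩ | ⟨e1, e2⟩
      · rw [e2, e1]
        exact ⟨fun h => (b3 h).mono (by omega), h5⟩
      · rw [e2, e1]
        have h7 : lv k + 1 ≤ i → Bd (quad4 (host3 (B k) (B k)) (Ee lv B (lv k))) (lv k + 1)
            (2 ^ i) (3900 * 8 ^ i) := by
          intro h8
          have := eight_pow_le (show lv k ≤ i by omega)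
          have := h.size_E_le (lv k)
          exact (bd_quad4 (b3 (by omega)) (bd_size _ _ _)).mono (by omega)
        exact ⟨h7, all_quad4 (fun h => (h7 h).mono (by omega)) h5 ((h1 _).2 (by omega)).2⟩
    rw [h.succ]
    by_cases ha : lv (k + 1) ≤ i
    swap
    · exact seg_triv (fun _ h => absurd h ha) hE hH h6.2
    have hl : lv (i + 1) ≤ lv (k + 1) := h.slow.mono (by omega)
    refine seg_big (R := fun t => Bd t (lv (k + 1)) (2 ^ i) (3900 * 8 ^ i))
      (d0 := i + 1 - lv (k + 1)) (fun r h7 h8 => ?_) (fun t h => mk _ _ _ h (by omega)) _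
      (by omega) hH (fun d' r h7 h8 => ?_) _ (h6.1 ha) h6.2
    · have e : lv (k + 1) + (i + 1 - lv (k + 1)) = i + 1 := by omega
      have h9 := h.sgw_le (a := lv (k + 1)) (d := i + 1 - lv (k + 1)) (by rwa [e])
      rw [e, pow_succ] at h9
      exact (seg_small (S := fun Y => All P Y (lv (k + 1)))
        (Q := fun t n => Bd t (lv (k + 1)) (2 ^ i) n) (w := fun Y => 2 * size Y)
        (nmax := 5000 * 8 ^ i) (fun X Y n _ h => bd_tri3 h (bd_size Y _ _))
        (fun t n => mk t _ n) (fun _ h => h) hE _ (fun d' hd => hH d' (by omega)) r _ h7).2 h8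
        (by omega)
    · have c0 := h.bd_H (k := lv (k + 1) + d') ha (h.slow.mono (by omega)) (by omega)
      have c1 := bd_tri3 (h.bd_seg (d := d') ha (by omega) hl r) c0
      have c2 := bd_tri3 c1 c0
      exact ⟨c1.mono (by omega), c2.mono (by omega), (bd_tri3 c2 c0).mono (by omega)⟩

end Pool.Agent.MP_295da9_pr.Th

end
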