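import Mathlib
import Pool.Agent.Mg.F295da9.G8617ce
import Pool.Agent.Mg.F295da9.G56c6b9

section

namespace Pool.Agent.MP_295da9_pr

open MeasureTheory ProbabilityTheory Filter
open scoped ENNReal

/-- vertices -/
abbrev V : Type := {σ : Slot // st σ ≠ 0}

/-- the graph -/
def G : SimpleGraph V where
  Adj u v := (∃ j, tri u.1 j = v.1) ∨ (∃ j, tri v.1 j = u.1)
  symm := ⟨fun _ _ h => h.symm⟩
  loopless := ⟨fun u h => by
    rcases h with ⟨j, h⟩ | ⟨j, h⟩ <;> exact tri_ne_self _ _ h⟩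

lemma G_adj {u v : V} : G.Adj u v ↔ (∃ j, tri u.1 j = v.1) ∨ (∃ j, tri v.1 j = u.1) := Iff.rfl

/-- spine vertices -/
def sp (n : ℕ) : V := ⟨((n : ℤ) + 1, 0), by rw [st_spine]; omega⟩

lemma sp_injective : Function.Injective sp := by
  intro a b h
  have := congrArg (fun v : V => v.1.1) h
  simpa [sp] using this

instance : Infinite V := Infinite.of_injective sp sp_injective

lemma exists_walk_anc (k : ℕ) : ∀ u w : V, anc k u.1 = w.1 → ∃ q : G.Walk u w, q.length = k := by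
  induction k with
  | zero =>
    intro u w h
    have : u = w := Subtype.ext h
    subst this
    exact ⟨.nil, rfl⟩
  | succ k ih =>
    intro u w h
    rw [anc_succ] at h
    obtain ⟨q, hq⟩ := ih ⟨par u.1, st_par_ne u.2⟩ w h
    exact ⟨.cons (v := ⟨par u.1, st_par_ne u.2⟩) (Or.inl ⟨2, tri_two _⟩) q, by simp [hq]⟩

lemma exists_common_anc (σ τ : Slot) : ∃ a b, anc a σ = anc b τ := by
  obtain ⟨l1, h1⟩ := exists_spine_anc σ
  obtain ⟨l2, h2⟩ := exists_spine_anc τ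
  obtain ⟨a, ha⟩ := h1 _ (le_max_left l1 l2)
  obtain ⟨b, hb⟩ := h2 _ (le_max_right l1 l2)
  exact ⟨a, b, ha.trans hb.symm⟩

/-- ancestor vertex -/
def ancV (k : ℕ) (u : V) : V := ⟨anc k u.1, by have := st_anc k u.1 u.2; have := u.2; omega⟩

lemma G_connected : G.Connected := by
  refine ⟨fun u w => ?_⟩
  obtain ⟨a, b, h⟩ := exists_common_anc u.1 w.1
  obtain ⟨q1, -⟩ := exists_walk_anc a u (ancV a u) rfl
  obtain ⟨q2, -⟩ := exists_walk_anc b w (ancV a u) h.symm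
  exact ⟨q1.append q2.reverse⟩

lemma near_of_walk {u w : V} (q : G.Walk u w) :
    ∃ a b, a ≤ 5 * q.length ∧ b ≤ 5 * q.length ∧ anc a u.1 = anc b w.1 := by
  induction q with
  | nil => exact ⟨0, 0, by simp, by simp, rfl⟩
  | @cons u v w h q ih =>
    obtain ⟨a, b, ha, hb, hab⟩ := ih
    simp only [SimpleGraph.Walk.length_cons]
    rcases h with ⟨j, h⟩ | ⟨j, h⟩
    · obtain ⟨k, -, h1, h2⟩ := tri_eq_anc u.1 j
      have := h2 u.2
      exact ⟨a + k, b, by omega, by omega, by rw [anc_add, ← h1, h, hab]⟩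
    · obtain ⟨k, -, h1, h2⟩ := tri_eq_anc v.1 j
      have := h2 v.2
      by_cases hk : k ≤ a
      · refine ⟨a - k, b, by omega, by omega, ?_⟩
        rw [← h, h1, ← anc_add, Nat.sub_add_cancel hk, hab]
      · refine ⟨0, k - a + b, by omega, by omega, ?_⟩
        rw [anc_add, ← hab, ← anc_add, Nat.sub_add_cancel (by omega), ← h1, h, anc_zero]

lemma ball_subset (v : V) (n : ℕ) :
    Subtype.val '' {w : V | G.dist v w ≤ n} ⊆ DF (anc (5 * n) v.1) (10 * n + 1) := by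
  rintro _ ⟨w, hw, rfl⟩
  obtain ⟨q, hq⟩ := G_connected.exists_walk_length_eq_dist v w
  obtain ⟨a, b, ha, hb, hab⟩ := near_of_walk q
  have hw' : G.dist v w ≤ n := hw
  rw [Finset.mem_coe, mem_DF]
  refine ⟨w.2, 5 * n - a + b, by omega, ?_⟩
  rw [anc_add, ← hab, ← anc_add, Nat.sub_add_cancel (by omega)]

lemma subset_ball (v : V) (m n : ℕ) (h : 2 * m ≤ n + 1) (hm : 1 ≤ m) :
    (DF (anc m v.1) m : Set Slot) ⊆ Subtype.val '' {w : V | G.dist v w ≤ n} := by
  intro τ hτ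
  rw [Finset.mem_coe, mem_DF] at hτ
  obtain ⟨h1, k, hk, h2⟩ := hτ
  refine ⟨⟨τ, h1⟩, ?_, rfl⟩
  obtain ⟨q1, hq1⟩ := exists_walk_anc m v (ancV m v) rfl
  obtain ⟨q2, hq2⟩ := exists_walk_anc k ⟨τ, h1⟩ (ancV m v) h2
  have := SimpleGraph.dist_le (q1.append q2.reverse)
  simp only [SimpleGraph.Walk.length_append, SimpleGraph.Walk.length_reverse] at this
  change G.dist v ⟨τ, h1⟩ ≤ n
  omega

lemma ball_finite (v : V) (n : ℕ) : {w : V | G.dist v w ≤ n}.Finite :=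
  Set.Finite.of_finite_image ((Finset.finite_toSet _).subset (ball_subset v n))
    Subtype.val_injective.injOn

lemma ball_ncard_le (v : V) (n : ℕ) (hn : 1 ≤ n) :
    {w : V | G.dist v w ≤ n}.ncard ≤ 16875 * n ^ 3 := by
  rw [← Set.ncard_image_of_injective _ Subtype.val_injective]
  refine (Set.ncard_le_ncard (ball_subset v n) (Finset.finite_toSet _)).trans ?_
  rw [Set.ncard_coe_finset, card_DF]
  refine (D_upper _ _).trans ?_
  have : (10 * n + 1 + 4) ^ 3 ≤ (15 * n) ^ 3 := Nat.pow_le_pow_left (by omega) 3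
  nlinarith

lemma le_ball_ncard (v : V) (n : ℕ) (hn : 1 ≤ n) :
    n ^ 3 ≤ 27648 * {w : V | G.dist v w ≤ n}.ncard := by
  rw [← Set.ncard_image_of_injective _ Subtype.val_injective]
  have h1 := Set.ncard_le_ncard (subset_ball v ((n + 1) / 2) n (by omega) (by omega))
    ((ball_finite v n).image _)
  rw [Set.ncard_coe_finset, card_DF] at h1
  have h2 := st_anc ((n + 1) / 2) v.1 v.2
  have h3 := v.2
  have h4 := D_lower (st (anc ((n + 1) / 2) v.1)) ((n + 1) / 2) (by omega) (by omega)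
  have h5 : n ^ 3 ≤ (2 * ((n + 1) / 2)) ^ 3 := Nat.pow_le_pow_left (by omega) 3
  nlinarith

lemma G_locallyFinite (v : V) : (G.neighborSet v).Finite := by
  refine (ball_finite v 1).subset fun w hw => ?_
  exact (SimpleGraph.dist_eq_one_iff_adj.mpr hw).le

lemma G_growth : ∃ c C : ℝ, 0 < c ∧ c < C ∧ ∀ n : ℕ, 1 ≤ n → ∀ v : V,
    c * (n : ℝ) ^ 3 < ({w | G.dist v w ≤ n}.ncard : ℝ) ∧
      ({w | G.dist v w ≤ n}.ncard : ℝ) < C * (n : ℝ) ^ 3 := by
  refine ⟨1 / 27649, 16876, by norm_num, by norm_num, fun n hn v => ?_⟩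
  have h1 : ((n : ℝ)) ^ 3 ≤ 27648 * ({w | G.dist v w ≤ n}.ncard : ℝ) := by
    exact_mod_cast le_ball_ncard v n hn
  have h2 : ({w | G.dist v w ≤ n}.ncard : ℝ) ≤ 16875 * (n : ℝ) ^ 3 := by
    exact_mod_cast ball_ncard_le v n hn
  have h3 : (0 : ℝ) < (n : ℝ) ^ 3 := by positivity
  constructor <;> nlinarith

lemma walk_stays (σ : Slot) (ω : Set V) (hω : ∀ x : V, (∃ j, tri σ j = x.1) → x ∉ ω)
    {u w : V} (q : G.Walk u w) (hq : ∀ x ∈ q.support, x ∈ ω) (hu : ∃ k, anc k u.1 = σ) :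
    ∃ k, anc k w.1 = σ := by
  induction q with
  | nil => exact hu
  | @cons u v w h q ih =>
    refine ih (fun x hx => hq x (by simp [hx])) ?_
    obtain ⟨k, hk⟩ := hu
    rcases h with ⟨j, h⟩ | ⟨j, h⟩
    · rcases tri_desc σ k u.1 hk j with h1 | ⟨j', h1⟩
      · rwa [h] at h1
      · exact absurd (hq v (by simp)) (hω v ⟨j', by rw [← h1, h]⟩)
    · obtain ⟨k', -, h1, -⟩ := tri_eq_anc v.1 j
      exact ⟨k + k', by rw [anc_add, ← h1, h, hk]⟩

lemma setBer_closed {ι : Type*} (p : unitInterval) (F : Finset ι) :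
    setBernoulli Set.univ p {ω : Set ι | ∀ x ∈ F, x ∉ ω} =
      (unitInterval.toNNReal (unitInterval.symm p) : ℝ≥0∞) ^ F.card := by
  rw [setBernoulli_apply']
  have : (fun p : ι → Prop => {i | p i}) ⁻¹' {ω : Set ι | ∀ x ∈ F, x ∉ ω}
      = Set.pi F (fun _ => {False}) := by
    ext f; simp
  rw [this, Measure.infinitePi_pi _ (fun _ _ => MeasurableSet.of_discrete)]
  simp

lemma measurableSet_closed {ι : Type*} (F : Finset ι) :
    MeasurableSet {ω : Set ι | ∀ x ∈ F, x ∉ ω} := by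
  have : {ω : Set ι | ∀ x ∈ F, x ∉ ω} = ⋂ x ∈ F, {ω : Set ι | x ∈ ω}ᶜ := by
    ext; simp
  rw [this]
  exact Finset.measurableSet_biInter _ fun x _ => (measurableSet_mem x).compl

lemma ae_exists_closed {ι : Type*} (p : unitInterval) (hp : p < 1) (T : ℕ → Finset ι)
    (hT : Pairwise fun a b => Disjoint (T a) (T b)) (hc : ∀ k, (T k).card = 3) :
    setBernoulli Set.univ p {ω : Set ι | ∀ k, ¬ ∀ x ∈ T k, x ∉ ω} = 0 := by
  classical
  set μ := setBernoulli (Set.univ : Set ι) p with hμ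
  set r : ℝ≥0∞ := (unitInterval.toNNReal (unitInterval.symm p) : ℝ≥0∞) with hr
  let C : ℕ → Set (Set ι) := fun k => {ω | ∀ x ∈ T k, x ∉ ω}
  have hC : ∀ k, MeasurableSet (C k) := fun k => measurableSet_closed _
  have hCk : ∀ k, μ (C k) = r ^ 3 := fun k => by rw [← hc k]; exact setBer_closed p _
  have hind : iIndepSet C μ := by
    rw [iIndepSet_iff_meas_biInter hC]
    intro s
    have h1 : ⋂ k ∈ s, C k = {ω | ∀ x ∈ s.biUnion T, x ∉ ω} := by
      ext ω
      simp only [C, Set.mem_iInter, Set.mem_ofPred_eq, Finset.mem_biUnion]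
      exact ⟨fun h x ⟨k, hk, hx⟩ => h k hk x hx, fun h k hk x hx => h x ⟨k, hk, hx⟩⟩
    rw [h1, setBer_closed, Finset.card_biUnion (fun a _ b _ hab => hT hab)]
    simp only [hc, hCk, Finset.sum_const, Finset.prod_const, smul_eq_mul]
    rw [← pow_mul, mul_comm]
  have hr0 : r ≠ 0 := by
    simp only [hr, ne_eq, ENNReal.coe_eq_zero]
    intro h
    have h1 : ((unitInterval.symm p : unitInterval) : ℝ) = 0 := congrArg NNReal.toReal h
    rw [unitInterval.coe_symm_eq] at h1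
    have h2 : (p : ℝ) < 1 := hp
    linarith
  have hsum : ∑' k, μ (C k) = ∞ := by
    simp only [hCk]
    exact ENNReal.tsum_const_eq_top_of_ne_zero (pow_ne_zero 3 hr0)
  have h1 := measure_limsup_eq_one hC hind hsum
  have h2 : μ (limsup C atTop)ᶜ = 0 :=
    (prob_compl_eq_zero_iff (MeasurableSet.measurableSet_limsup hC)).mpr h1
  refine measure_mono_null ?_ h2
  intro ω hω h
  rw [mem_limsup_iff_frequently_mem] at h
  obtain ⟨k, hk⟩ := h.exists
  exact hω k hk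

lemma G_percolation (p : unitInterval) (hp : p < 1) (v : V) :
    setBernoulli Set.univ p
      {ω : Set V | {w | ∃ q : G.Walk v w, ∀ x ∈ q.support, x ∈ ω}.Infinite} = 0 := by
  classical
  obtain ⟨l0, hl0⟩ := exists_spine_anc v.1
  let n0 := l0.toNat
  let T : ℕ → Finset V := fun k => {sp (n0 + 3 * k), sp (n0 + 3 * k + 1), sp (n0 + 3 * k + 2)}
  refine measure_mono_null ?_ (ae_exists_closed p hp T ?_ ?_)
  · intro ω hω k hk
    apply hω
    have h1 := finite_desc (((n0 + 3 * k : ℕ) : ℤ), 0)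
    refine Set.Finite.of_finite_image (h1.subset ?_) Subtype.val_injective.injOn
    rintro _ ⟨w, ⟨q, hq⟩, rfl⟩
    refine ⟨w.2, walk_stays _ ω ?_ q hq (hl0 _ (by omega))⟩
    rintro x ⟨j, hj⟩
    apply hk
    rw [tri_spine] at hj
    simp only [T, Finset.mem_insert, Finset.mem_singleton]
    fin_cases j
    · right; right; apply Subtype.ext; rw [← hj]; simp [sp]; ring
    · right; left; apply Subtype.ext; rw [← hj]; simp [sp]; ring
    · left; apply Subtype.ext; rw [← hj]; simp [sp]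
  · intro a b hab
    simp only [T, Finset.disjoint_insert_left, Finset.mem_insert, Finset.mem_singleton,
      Finset.disjoint_singleton_left, sp_injective.eq_iff]
    omega
  · intro k
    rw [Finset.card_eq_three]
    refine ⟨_, _, _, ?_, ?_, ?_, rfl⟩ <;> simp [sp_injective.eq_iff]

end Pool.Agent.MP_295da9_pr

end

section

/-! Closed rings stop percolation; growth and isoperimetry of the limit graph. -/

namespace Pool.Agent.MP_295da9_pr.Th

open MeasureTheory ProbabilityTheory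

lemma one_sub_pow_mul_le {x : ℝ} (h0 : 0 ≤ x) (h1 : x ≤ 1) (n : ℕ) :
    (1 - x) ^ n * (1 + n * x) ≤ 1 := by
  induction n with
  | zero => simp
  | succ n ih =>
    have h2 : 0 ≤ (1 - x) ^ n := pow_nonneg (by linarith) n
    have h3 : (1 - x) * (1 + (n + 1) * x) ≤ 1 + n * x := by
      have : (0 : ℝ) ≤ (n + 1) * x * x := by positivity
      nlinarith
    rw [pow_succ, mul_assoc]
    push_cast
    exact (mul_le_mul_of_nonneg_left h3 h2).trans ih

lemma prob_none_closed {ι : Type*} (p : unitInterval) {n r : ℕ} (T : Fin n → Finset ι)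
    (hT : Pairwise fun a b => Disjoint (T a) (T b)) (hc : ∀ k, (T k).card ≤ r) :
    (setBernoulli Set.univ p).real {ω : Set ι | ∀ k, ¬ ∀ x ∈ T k, x ∉ ω} *
      (1 + n * (1 - p : ℝ) ^ r) ≤ 1 := by
  classical
  set μ := setBernoulli (Set.univ : Set ι) p with hμ
  let C : Fin n → Set (Set ι) := fun k => {ω | ∀ x ∈ T k, x ∉ ω}
  have hC : ∀ k, MeasurableSet (C k) := fun k => measurableSet_closed _
  have hind : iIndepSet C μ := by
    rw [iIndepSet_iff_meas_biInter hC]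
    intro s
    have h1 : ⋂ k ∈ s, C k = {ω | ∀ x ∈ s.biUnion T, x ∉ ω} := by
      ext ω
      simp only [C, Set.mem_iInter, Set.mem_ofPred_eq, Finset.mem_biUnion]
      exact ⟨fun h x ⟨k, hk, hx⟩ => h k hk x hx, fun h k hk x hx => h x ⟨k, hk, hx⟩⟩
    rw [h1, setBer_closed, Finset.card_biUnion (fun a _ b _ hab => hT hab),
      ← Finset.prod_pow_eq_pow_sum]
    exact Finset.prod_congr rfl fun k _ => (setBer_closed p _).symm
  have h1 := ((iIndepSet_iff_iIndep _ _).1 hind).meas_iInter (s := fun k => (C k)ᶜ)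
    fun k => (MeasurableSpace.measurableSet_generateFrom (Set.mem_singleton _)).compl
  have h2 : {ω : Set ι | ∀ k, ¬ ∀ x ∈ T k, x ∉ ω} = ⋂ k, (C k)ᶜ := by
    ext ω; simp only [C, Set.mem_iInter, Set.mem_compl_iff, Set.mem_ofPred_eq]
  have q0 : (0 : ℝ) ≤ 1 - p := by linarith [p.2.2]
  have q1 : (1 - p : ℝ) ≤ 1 := by linarith [p.2.1]
  have h3 : ∀ k, μ.real (C k)ᶜ ≤ 1 - (1 - p : ℝ) ^ r := by
    intro k
    rw [probReal_compl_eq_one_sub (hC k), measureReal_def, setBer_closed]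
    have := pow_le_pow_of_le_one q0 q1 (hc k)
    simp only [ENNReal.toReal_pow, ENNReal.coe_toReal, unitInterval.coe_toNNReal,
      unitInterval.coe_symm_eq]
    linarith
  have h4 : μ.real (⋂ k, (C k)ᶜ) ≤ (1 - (1 - p : ℝ) ^ r) ^ n := by
    rw [measureReal_def, h1, ENNReal.toReal_prod]
    refine (Finset.prod_le_prod (fun k _ => ENNReal.toReal_nonneg) fun k _ => h3 k).trans ?_
    simp
  rw [h2]
  exact (mul_le_mul_of_nonneg_right h4 (by positivity)).trans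
    (one_sub_pow_mul_le (by positivity) (pow_le_one₀ q0 q1) n)

variable {E : Type*} [AddCommGroup E] [Module ℝ E] {N : ℕ → Nd E} {len : ℕ → ℕ}

lemma seq_conn (h : ∀ k, Up (len k) (N (k + 1)) (N k)) : (Gr (allL N)).Connected := by
  have : Nonempty (VV (allL N)) := ⟨⟨_, (seq_cap h 0).vtx_corner 0⟩⟩
  refine ⟨fun u w => ?_⟩
  obtain ⟨n, hn⟩ := seq_vtx h u.2
  obtain ⟨m, hm⟩ := seq_vtx h w.2
  have h1 := (seq_cap h (max n m)).near_vtx (seq_sys h) u.2
    ((seq_sub h (le_max_left n m)).reg (seq_ok h _) hn)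
  have h2 := (seq_cap h (max n m)).near_vtx (seq_sys h) w.2
    ((seq_sub h (le_max_right n m)).reg (seq_ok h _) hm)
  obtain ⟨q, -⟩ := walk_of_near (h1.symm.trans h2) u w rfl rfl
  exact ⟨q⟩

lemma seq_perc (h : ∀ k, Up (len k) (N (k + 1)) (N k)) (p : unitInterval)
    (hp : ∀ M : ℕ, ∃ k n : ℕ, M ≤ k ∧ 3 * n ≤ len k + 3 ∧
      (M : ℝ) ≤ n * (1 - p : ℝ) ^ (3 * (2 ^ (N (k + 1)).a + 1))) (v : VV (allL N)) :
    setBernoulli Set.univ p {ω : Set (VV (allL N)) |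
      {w | ∃ q : (Gr (allL N)).Walk v w, ∀ x ∈ q.support, x ∈ ω}.Infinite} = 0 := by
  classical
  obtain ⟨n0, h0⟩ := seq_vtx h v.2
  rw [← measureReal_eq_zero_iff]
  refine le_antisymm (le_of_not_gt fun hpos => ?_) measureReal_nonneg
  obtain ⟨M, hM⟩ := exists_nat_one_div_lt hpos
  obtain ⟨k, n, h1, h2, h3⟩ := hp (max M n0)
  have hS := seq_sys h
  have hg := (seq_ok h (k + 1)).1
  have h4 : ∀ j : Fin n, ∃ u, Cap (allL N) ⟨u, (N (k + 1)).a, down^[3 * j] (N (k + 1)).T, 0⟩ := by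
    intro j
    obtain ⟨u, hu⟩ := (h k).ring (3 * j) (by omega)
    exact ⟨u, (seq_cap h (k + 1)).sub hu⟩
  choose u hu using h4
  have hfin : ∀ j : Fin n, {w : VV (allL N) | Reg (down^[3 * j] (N (k + 1)).T) w.1 ∧
      ¬ Int (down^[3 * j] (N (k + 1)).T) w.1}.Finite := fun j =>
    (finite_reg hS (hu j)).subset fun _ h => h.1
  have h5 := prob_none_closed p (r := 3 * (2 ^ (N (k + 1)).a + 1)) (fun j => (hfin j).toFinset)
    (by
      have key : ∀ a b : Fin n, a < b → Disjoint (hfin a).toFinset (hfin b).toFinset := by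
        intro a b hab
        rw [Finset.disjoint_left]
        intro x hx hx'
        rw [Set.Finite.mem_toFinset] at hx hx'
        exact hx.2 (int_down hg (by have : a.1 < b.1 := hab; omega) hx'.1)
      intro a b hab
      rcases lt_or_gt_of_ne hab with h | h
      · exact key a b h
      · exact (key b a h).symm)
    fun j => by
      have := ring_card hS (hu j)
      dsimp only at this ⊢
      rwa [← Set.ncard_eq_toFinset_card _ (hfin j)]
  have h6 : (setBernoulli Set.univ p).real {ω : Set (VV (allL N)) |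
      {w | ∃ q : (Gr (allL N)).Walk v w, ∀ x ∈ q.support, x ∈ ω}.Infinite} ≤
      (setBernoulli Set.univ p).real {ω | ∀ k, ¬ ∀ x ∈ (hfin k).toFinset, x ∉ ω} := by
    refine measureReal_mono fun ω hω j hj => hω ((finite_reg hS (hu j)).subset ?_)
    rintro w ⟨q, hq⟩
    refine walk_stays hS (hu j) (fun x h1 h2 => hj x ((hfin j).mem_toFinset.2 ⟨h1, h2⟩)) q hq ?_
    exact reg_down hg (by omega) ((h k).inner _
      ((seq_sub h ((le_max_right _ _).trans h1)).reg (seq_ok h _) h0))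
  have h7 : (M : ℝ) ≤ (max M n0 : ℕ) := by exact_mod_cast le_max_left M n0
  have h8 : (0 : ℝ) < M + 1 := by positivity
  rw [div_lt_iff₀ h8] at hM
  nlinarith

end Pool.Agent.MP_295da9_pr.Th

end

section

/-! The thick triangulation. -/

namespace Pool.Agent.MP_295da9_pr.Th

open MeasureTheory ProbabilityTheory

/-- the family placed on an exhausting sequence of triangles -/
structure World {E : Type*} [AddCommGroup E] [Module ℝ E] (lv : ℕ → ℕ) (B : ℕ → Tr)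
    (N : ℕ → Nd E) : Prop where
  fam : Fam lv B
  unb : ∀ a, ∃ k, a ≤ lv k
  t : ∀ k, (N k).t = B k
  a : ∀ k, (N k).a = lv k
  up : ∀ k, Up (4 * 2 ^ (k - lv (k + 1)) - 3) (N (k + 1)) (N k)

section general

variable {E : Type*} [AddCommGroup E] [Module ℝ E] {lv : ℕ → ℕ} {B : ℕ → Tr} {N : ℕ → Nd E}

lemma exists_world (h : Slow lv) (unb : ∀ a, ∃ k, a ≤ lv k) {T0 : Fin 3 → E} (h0 : Good T0) :
    ∃ (B : ℕ → Tr) (N : ℕ → Nd E), World lv B N ∧ (N 0).T = T0 := by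
  obtain ⟨B, h1, h2⟩ := exists_fam h
  have hF : Fam lv B := ⟨h, h1, h2⟩
  obtain ⟨T, h3, h4⟩ := exists_spine hF.wl hF.chain h0
  exact ⟨B, fun k => ⟨B k, lv k, T k, 0⟩, ⟨hF, unb, fun _ => rfl, fun _ => rfl, h4⟩, h3⟩

lemma World.root (h : World lv B N) (i r : ℕ) {v : E} (hv : Vtx (allL N) v) :
    ∃ m, i ≤ lv m ∧ ∀ w, Near (allL N) r v w → Int (N m).T w := by
  obtain ⟨n, hn⟩ := seq_vtx h.up hv
  obtain ⟨k, hk⟩ := h.unb i
  exact ⟨max k (n + r + 1), hk.trans (h.fam.slow.mono (le_max_left _ _)), fun w hw =>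
    seq_int h.up (lt_of_lt_of_le (Nat.lt_succ_self _) (le_max_right _ _)) (seq_near h.up hn hw)⟩

lemma World.upper (h : World lv B N) (v : VV (allL N)) {n : ℕ} (hn : 1 ≤ n) :
    {w : VV (allL N) | Near (allL N) n v.1 w.1}.Finite ∧
      {w : VV (allL N) | Near (allL N) n v.1 w.1}.ncard ≤ 700000000 * n ^ 3 := by
  obtain ⟨i, h1, h2⟩ : ∃ i, 4 * n < 2 ^ i ∧ 2 ^ i ≤ 8 * n :=
    ⟨Nat.log 2 (4 * n) + 1, Nat.lt_pow_succ_log_self (by norm_num) _, by
      have := Nat.pow_log_le_self 2 (show 4 * n ≠ 0 by omega)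
      rw [pow_succ]; omega⟩
  obtain ⟨m, h3, h4⟩ := h.root i (3 * n) v.2
  obtain ⟨F, h5, h6⟩ := ball_upper (seq_sys h.up) (N := 5000 * 8 ^ i) (κ := 14) h1 v.2
    (seq_cap h.up m) (by rw [h.t, h.a]; exact h.fam.all_bd i m)
    (by rw [h.t, h.a]; exact (h.fam.cp_le m).2) (by rwa [h.a]) h4
  obtain ⟨h7, h8⟩ := ncard_le_of (P := fun w : VV (allL N) => Near (allL N) n v.1 w.1)
    fun w hw => h6 w.1 hw
  refine ⟨h7, h8.trans (h5.trans ?_)⟩
  have h9 : 8 ^ i ≤ (8 * n) ^ 3 := by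
    rw [show (8 : ℕ) ^ i = (2 ^ i) ^ 3 by rw [← pow_mul, mul_comm, pow_mul]; norm_num]
    exact Nat.pow_le_pow_left h2 3
  have h10 : 1 ≤ n ^ 3 := Nat.one_le_pow _ _ hn
  rw [mul_pow] at h9
  omega

lemma World.lower (h : World lv B N) (v : VV (allL N)) {n : ℕ} (hn : 1 ≤ n) :
    n ^ 3 ≤ 2000000000 * {w : VV (allL N) | Near (allL N) n v.1 w.1}.ncard := by
  have hf := (h.upper v hn).1
  by_cases h0 : n < 133
  · have h1 : 0 < {w : VV (allL N) | Near (allL N) n v.1 w.1}.ncard :=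
      (Set.ncard_pos hf).2 ⟨v, .refl _ _⟩
    have h2 : n ^ 3 ≤ 133 ^ 3 := Nat.pow_le_pow_left h0.le 3
    omega
  obtain ⟨i, h1, h2⟩ : ∃ i, 133 * 2 ^ i ≤ n ∧ n ≤ 266 * 2 ^ i :=
    ⟨Nat.log 2 (n / 133), by
      have := Nat.pow_log_le_self 2 (show n / 133 ≠ 0 by omega)
      omega, by
      have := Nat.lt_pow_succ_log_self (b := 2) (by norm_num) (n / 133)
      rw [pow_succ] at this
      omega⟩
  obtain ⟨m, h3, h4⟩ := h.root (i + 1) 0 v.2
  obtain ⟨F, h5, h6⟩ := ball_lower (seq_sys h.up) (κ := 14) v.2 (N m)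
    (seq_cap h.up m) (by rw [h.t, h.a]; exact h.fam.all_rich i m)
    (by rw [h.t, h.a]; exact (h.fam.cp_le m).2) (by rw [h.a]; omega) (h4 _ (.refl _ _)).reg
  have h7 : 1 ≤ 2 ^ i := Nat.one_le_two_pow
  have h8 := le_ncard_of (P := fun w : VV (allL N) => Near (allL N) n v.1 w.1) hf
    fun x hx => ⟨⟨x, (h6 x hx).vtx v.2⟩, (h6 x hx).mono (by omega), rfl⟩
  have h9 : n ^ 3 ≤ 266 ^ 3 * 8 ^ i := by
    rw [show (8 : ℕ) ^ i = (2 ^ i) ^ 3 by rw [← pow_mul, mul_comm, pow_mul]; norm_num, ← mul_pow]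
    exact Nat.pow_le_pow_left h2 3
  omega

lemma World.ball (h : World lv B N) (v : VV (allL N)) (n : ℕ) :
    {w | (Gr (allL N)).dist v w ≤ n} = {w : VV (allL N) | Near (allL N) n v.1 w.1} :=
  Set.ext fun w => dist_le_iff (seq_conn h.up) v w n

lemma World.growth (h : World lv B N) : ∃ c C : ℝ, 0 < c ∧ c < C ∧ ∀ n : ℕ, 1 ≤ n →
    ∀ v : VV (allL N), c * (n : ℝ) ^ 3 < ({w | (Gr (allL N)).dist v w ≤ n}.ncard : ℝ) ∧
      ({w | (Gr (allL N)).dist v w ≤ n}.ncard : ℝ) < C * (n : ℝ) ^ 3 := by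
  refine ⟨1 / 2000000001, 700000001, by norm_num, by norm_num, fun n hn v => ?_⟩
  rw [h.ball]
  have h1 : ((n : ℝ)) ^ 3 ≤
      2000000000 * ({w : VV (allL N) | Near (allL N) n v.1 w.1}.ncard : ℝ) := by
    exact_mod_cast h.lower v hn
  have h2 : ({w : VV (allL N) | Near (allL N) n v.1 w.1}.ncard : ℝ) ≤ 700000000 * (n : ℝ) ^ 3 := by
    exact_mod_cast (h.upper v hn).2
  have h3 : (0 : ℝ) < (n : ℝ) ^ 3 := by positivity
  constructor <;> nlinarith

lemma World.locFin (h : World lv B N) (v : VV (allL N)) : ((Gr (allL N)).neighborSet v).Finite :=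
  (h.upper v le_rfl).1.subset fun _ hw => Co.near hw.2

lemma World.infinite (h : World lv B N) : Infinite (VV (allL N)) := by
  by_contra h0
  rw [not_infinite_iff_finite] at h0
  obtain ⟨v⟩ := (seq_conn h.up).nonempty
  have h1 := h.lower v (n := 2000000000 * Nat.card (VV (allL N)) + 1) (by omega)
  have h2 := Set.ncard_le_card
    {w : VV (allL N) | Near (allL N) (2000000000 * Nat.card (VV (allL N)) + 1) v.1 w.1}
  have h3 := Nat.le_self_pow (n := 3) (by norm_num) (2000000000 * Nat.card (VV (allL N)) + 1)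
  omega

lemma World.close (h : World lv B N) {a0 K : ℕ} (hK : ∀ k, lv k ≤ a0 → k ≤ K)
    {A : Set (VV (allL N))} (hA : A.Finite) {S : Finset (VV (allL N))} (hc : S.card ≤ 2 ^ a0)
    (h1 : ∀ v ∈ A, v ∉ S) (h2 : ∀ v ∈ A, ∀ w, (Gr (allL N)).Adj v w → w ∉ S → w ∈ A)
    {v : VV (allL N)} (hv : v ∈ A) : ∃ s ∈ S, Near (allL N) (52 * 2 ^ K + 2) s.1 v.1 := by
  choose f hf using fun v : VV (allL N) => seq_vtx h.up v.2
  obtain ⟨b, hb⟩ := (hA.image f).bddAbove
  obtain ⟨k, hk⟩ := h.unb a0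
  obtain ⟨s, hs, h3⟩ := iso_graph (seq_sys h.up) (seq_cap h.up (max k (b + 1)))
    (by rw [h.a]; exact hk.trans (h.fam.slow.mono (le_max_left _ _)))
    (by rw [h.t, h.a]; exact h.fam.hgt_level hK _)
    (fun w hw => seq_int h.up (lt_of_lt_of_le (Nat.lt_succ_of_le (hb ⟨w, hw, rfl⟩))
      (le_max_right _ _)) (hf w)) hc h1 h2 hv
  exact ⟨s, hs, h3.mono (by omega)⟩

lemma World.iso (h : World lv B N) (M : ℕ) : ∃ n : ℕ, ∀ A : Finset (VV (allL N)), n ≤ A.card →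
    M ≤ {w | w ∉ A ∧ ∃ v ∈ A, (Gr (allL N)).Adj v w}.ncard := by
  classical
  obtain ⟨K, hK⟩ := h.unb (M + 1)
  have hK' : ∀ k, lv k ≤ M → k ≤ K := fun k hk => by
    by_contra h1
    have := h.fam.slow.mono (show K ≤ k by omega)
    omega
  refine ⟨M * (700000000 * (52 * 2 ^ K + 2) ^ 3) + 1, fun A hA => ?_⟩
  by_contra h1
  have hf : {w | w ∉ A ∧ ∃ v ∈ A, (Gr (allL N)).Adj v w}.Finite :=
    (A.finite_toSet.biUnion fun v _ => h.locFin v).subset fun w ⟨_, v, hv, hw⟩ =>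
      Set.mem_biUnion hv hw
  rw [Set.ncard_eq_toFinset_card _ hf] at h1
  have h2 := fun s : VV (allL N) => h.upper s (n := 52 * 2 ^ K + 2) (by omega)
  have h3 : A ⊆ hf.toFinset.biUnion fun s => (h2 s).1.toFinset := by
    intro v hv
    obtain ⟨s, hs, h4⟩ := h.close hK' A.finite_toSet (S := hf.toFinset)
      (by have := Nat.lt_two_pow_self (n := M); omega)
      (fun v hv h => (hf.mem_toFinset.1 h).1 hv)
      (fun v hv w hw h => by
        by_contra h5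
        exact h (hf.mem_toFinset.2 ⟨h5, v, hv, hw⟩)) hv
    exact Finset.mem_biUnion.2 ⟨s, hs, (h2 s).1.mem_toFinset.2 h4⟩
  have h4 := (Finset.card_le_card h3).trans (Finset.card_biUnion_le_card_mul _ _ _ fun s _ => by
    rw [← Set.ncard_eq_toFinset_card _ (h2 s).1]; exact (h2 s).2)
  have h5 := Nat.mul_le_mul_right (700000000 * (52 * 2 ^ K + 2) ^ 3) (not_le.1 h1).le
  omega

lemma World.perc (h : World lv B N) (p : unitInterval)
    (hp : ∀ M : ℕ, ∃ k : ℕ, M ≤ k ∧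
      (M : ℝ) ≤ 2 ^ (k - lv (k + 1)) * (1 - p : ℝ) ^ (3 * (2 ^ lv (k + 1) + 1)))
    (v : VV (allL N)) : setBernoulli Set.univ p {ω : Set (VV (allL N)) |
      {w | ∃ q : (Gr (allL N)).Walk v w, ∀ x ∈ q.support, x ∈ ω}.Infinite} = 0 := by
  refine seq_perc h.up p (fun M => ?_) v
  obtain ⟨k, h1, h2⟩ := hp M
  refine ⟨k, 2 ^ (k - lv (k + 1)), h1, ?_, by rw [h.a]; exact_mod_cast h2⟩
  have : 1 ≤ 2 ^ (k - lv (k + 1)) := Nat.one_le_two_pow
  omega

end general

/-- levels rising when the threshold is passed -/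
def lvOf (thr : ℕ → ℕ) : ℕ → ℕ
  | 0 => 0
  | k + 1 => if thr (lvOf thr k + 1) ≤ k then lvOf thr k + 1 else lvOf thr k

lemma lvOf_thr (thr : ℕ → ℕ) (k : ℕ) : lvOf thr (k + 1) ≠ 0 → thr (lvOf thr (k + 1)) ≤ k := by
  induction k with
  | zero =>
    simp only [lvOf]
    split_ifs with h
    · exact fun _ => h
    · exact fun h => absurd rfl h
  | succ k ih =>
    rw [lvOf]
    split_ifs with h
    · exact fun _ => h
    · exact fun h => (ih h).trans (Nat.le_succ k)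

lemma lvOf_slow {thr : ℕ → ℕ} (h : ∀ a, 2 * a + 3 ≤ thr a) : Slow (lvOf thr) where
  zero := rfl
  step k := by rw [lvOf]; split_ifs <;> simp
  slow k hk := (h _).trans (lvOf_thr thr k hk)

lemma lvOf_unb {thr : ℕ → ℕ} (h : Slow (lvOf thr)) (a : ℕ) : ∃ k, a ≤ lvOf thr k := by
  induction a with
  | zero => exact ⟨0, le_rfl⟩
  | succ a ih =>
    obtain ⟨k, hk⟩ := ih
    have h1 := hk.trans (h.mono (le_max_left k (thr (a + 1))))
    rcases Nat.lt_or_eq_of_le h1 with h2 | h2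
    · exact ⟨_, h2⟩
    · exact ⟨max k (thr (a + 1)) + 1, by rw [lvOf, ← h2, if_pos (le_max_right _ _)]⟩

/-- the plane -/
abbrev Pl := EuclideanSpace ℝ (Fin 2)

/-- the first triangle -/
noncomputable def T0 : Fin 3 → Pl := ![0, EuclideanSpace.single 0 1, EuclideanSpace.single 1 1]

lemma isBC_T0 (x : Pl) (b : Fin 3 → ℝ) : IsBC T0 x b ↔ b = ![1 - x 0 - x 1, x 0, x 1] := by
  unfold IsBC
  constructor
  · rintro ⟨h1, rfl⟩
    ext j
    fin_cases j <;> simp [T0]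
    linarith
  · rintro rfl
    refine ⟨by simp; ring, ?_⟩
    ext j
    fin_cases j <;> simp [T0]

lemma good_T0 : Good T0 := fun x => by simp only [isBC_T0]; exact existsUnique_eq

lemma n1_T0 (x : Pl) : N1 (bcf T0 x) ≤ 1 + 4 * ‖x‖ := by
  rw [(isBC_T0 x _).1 (isBC_bcf good_T0 x)]
  have h0 : |x 0| ≤ ‖x‖ := PiLp.norm_apply_le x 0
  have h1 : |x 1| ≤ ‖x‖ := PiLp.norm_apply_le x 1
  have h2 : |1 - x 0 - x 1| ≤ 1 + 2 * ‖x‖ := by
    rw [abs_le] at *
    constructor <;> linarith [h0.1, h0.2, h1.1, h1.2, norm_nonneg x]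
  simp only [N1, Matrix.cons_val]
  linarith

lemma World.exhaust {lv : ℕ → ℕ} {B : ℕ → Tr} {N : ℕ → Nd Pl} (h : World lv B N)
    (h0 : (N 0).T = T0) (R : ℝ) : ∃ n, ∀ x : Pl, ‖x‖ < R → Int (N n).T x := by
  obtain ⟨n, hn⟩ := seq_exhaust h.up (1 + 4 * R)
  exact ⟨n, fun x hx => hn x (by rw [h0]; linarith [n1_T0 x])⟩

lemma World.space {lv : ℕ → ℕ} {B : ℕ → Tr} {N : ℕ → Nd Pl} (h : World lv B N)
    (h0 : (N 0).T = T0) : (cx (seq_sys h.up)).space = Set.univ := by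
  refine cx_space _ fun x => ?_
  obtain ⟨n, hn⟩ := h.exhaust h0 (‖x‖ + 1)
  obtain ⟨L, hL, hx⟩ := (seq_ok h.up n).exists_leaf (hn x (by linarith)).reg
  exact ⟨L, ⟨n, hL⟩, hx⟩

lemma World.faces {lv : ℕ → ℕ} {B : ℕ → Tr} {N : ℕ → Nd Pl} (h : World lv B N)
    (h0 : (N 0).T = T0) (R : ℝ) : {s ∈ (cx (seq_sys h.up)).faces |
      (convexHull ℝ (s : Set Pl) ∩ Metric.ball 0 R).Nonempty}.Finite := by
  obtain ⟨n, hn⟩ := h.exhaust h0 R
  exact cx_finite _ (seq_cap h.up n) fun x hx => hn x (by simpa using hx)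

/-- very slow thresholds -/
def thr1 (a : ℕ) : ℕ := a * (3 * (2 ^ a + 1)) + (2 * a + 3)

lemma slow1 : Slow (lvOf thr1) := lvOf_slow fun _ => Nat.le_add_left _ _

lemma perc1 {q : ℝ} (hq : 0 < q) (M : ℕ) : ∃ k : ℕ, M ≤ k ∧
    (M : ℝ) ≤ 2 ^ (k - lvOf thr1 (k + 1)) * q ^ (3 * (2 ^ lvOf thr1 (k + 1) + 1)) := by
  obtain ⟨a1, h1⟩ := exists_pow_lt_of_lt_one hq (show (1 / 2 : ℝ) < 1 by norm_num)
  obtain ⟨k0, h2⟩ := lvOf_unb slow1 (max (M + 1) a1)
  refine ⟨max k0 M, le_max_right _ _, ?_⟩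
  have h3 : max (M + 1) a1 ≤ lvOf thr1 (max k0 M + 1) :=
    h2.trans (slow1.mono ((le_max_left k0 M).trans (Nat.le_succ _)))
  have h4 := lvOf_thr thr1 (max k0 M) (by omega)
  generalize lvOf thr1 (max k0 M + 1) = a at *
  unfold thr1 at h4
  generalize max k0 M = k at *
  generalize 3 * (2 ^ a + 1) = r at *
  have h5 : (1 / 2 : ℝ) ^ a ≤ q :=
    (pow_le_pow_of_le_one (by norm_num) (by norm_num) ((le_max_right _ _).trans h3)).trans h1.le
  have h6 : (2 : ℝ) ^ (a * r + a) ≤ 2 ^ (k - a) := pow_le_pow_right₀ (by norm_num) (by omega)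
  have h7 : (M : ℝ) ≤ 2 ^ a := by
    have : M ≤ 2 ^ a := by have := Nat.lt_two_pow_self (n := a); omega
    exact_mod_cast this
  calc (M : ℝ) ≤ 2 ^ (a * r + a) * ((1 / 2) ^ a) ^ r := by
        rw [← pow_mul, pow_add, mul_right_comm, ← mul_pow]
        simpa using h7
    _ ≤ _ := mul_le_mul h6 (pow_le_pow_left₀ (by positivity) h5 r) (by positivity) (by positivity)

theorem main : ∃ (V : Type) (G : SimpleGraph V) (pos : V → EuclideanSpace ℝ (Fin 2))
    (K : Geometry.SimplicialComplex ℝ (EuclideanSpace ℝ (Fin 2))),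
    G.Connected ∧ Infinite V ∧ (∀ v, (G.neighborSet v).Finite) ∧
    Function.Injective pos ∧ Set.range pos = K.vertices ∧
    (∀ u v, G.Adj u v ↔ u ≠ v ∧ ∃ s ∈ K.faces,
      (s : Set (EuclideanSpace ℝ (Fin 2))) = {pos u, pos v}) ∧
    K.space = Set.univ ∧ (∀ s ∈ K.faces, ∃ t ∈ K.faces, s ⊆ t ∧ t.card = 3) ∧
    (∀ R : ℝ, {s ∈ K.faces |
      (convexHull ℝ (s : Set (EuclideanSpace ℝ (Fin 2))) ∩ Metric.ball 0 R).Nonempty}.Finite) ∧
    (∃ c C : ℝ, 0 < c ∧ c < C ∧ ∀ n : ℕ, 1 ≤ n → ∀ v : V,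
      c * (n : ℝ) ^ 3 < ({w | G.dist v w ≤ n}.ncard : ℝ) ∧
        ({w | G.dist v w ≤ n}.ncard : ℝ) < C * (n : ℝ) ^ 3) ∧
    (∀ M : ℕ, ∃ n : ℕ, ∀ A : Finset V, n ≤ A.card →
      M ≤ {w | w ∉ A ∧ ∃ v ∈ A, G.Adj v w}.ncard) ∧
    ∀ p : unitInterval, p < 1 → ∀ v : V, setBernoulli Set.univ p
      {ω : Set V | {w | ∃ q : G.Walk v w, ∀ x ∈ q.support, x ∈ ω}.Infinite} = 0 := by
  obtain ⟨B, N, h, h0⟩ := exists_world slow1 (lvOf_unb slow1) good_T0
  exact ⟨VV (allL N), Gr (allL N), fun u => u.1, cx (seq_sys h.up), seq_conn h.up, h.infinite,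
    h.locFin, Subtype.val_injective, range_val _, adj_iff _, h.space h0, cx_pure _, h.faces h0,
    h.growth, h.iso, fun p hp => h.perc p (perc1 (sub_pos.2 hp))⟩

end Pool.Agent.MP_295da9_pr.Th

end
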