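import Mathlib
import Pool.Agent.Mg.F295da9.Gd0e1ae

section

/-! Cocycles on the triangulation have potentials. -/

namespace Pool.Agent.MP_295da9_pr.Th

variable {E : Type*} [AddCommGroup E] [Module ℝ E] {𝓛 : Set (Fin 3 → E)} {M : Type*}
  [AddCommGroup M] {φ : E → E → M}

/-- `f` is a potential of `φ` on the leaves of the node -/
def Pot (φ : E → E → M) (σ : Nd E) (f : E → M) : Prop :=
  ∀ L, LeafOf σ.t σ.T L → ∀ i j, φ (L i) (L j) = f (L j) - f (L i)

lemma Pot.shift {σ : Nd E} {f : E → M} (h : Pot φ σ f) (c : M) : Pot φ σ fun x => f x + c :=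
  fun L hL i j => by rw [h L hL, add_sub_add_right_eq_sub]

lemma Pot.step {σ : Nd E} {f : E → M} (h : Pot φ σ f) (ho : OK σ) {X Y : Fin 3} (hne : X ≠ Y)
    {m : ℕ} (hm : m < 2 ^ σ.a) : f (pt σ.a (σ.T X) (σ.T Y) (m + 1)) =
      f (pt σ.a (σ.T X) (σ.T Y) m) +
        φ (pt σ.a (σ.T X) (σ.T Y) m) (pt σ.a (σ.T X) (σ.T Y) (m + 1)) := by
  obtain ⟨L, hL, ⟨i, hi⟩, j, hj⟩ := side_path σ.t σ.a σ.T ho.2 X Y hne m hm
  rw [← hi, ← hj, h L hL]; abel

lemma Pot.side {σ τ : Nd E} {f g : E → M} (h : Pot φ σ f) (h' : Pot φ τ g) (ho : OK σ)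
    (ho' : OK τ) {X Y X' Y' : Fin 3} (hne : X ≠ Y) (hne' : X' ≠ Y') (ha : τ.a = σ.a)
    (hX : τ.T X' = σ.T X) (hY : τ.T Y' = σ.T Y) (h0 : f (σ.T X) = g (σ.T X)) {m : ℕ}
    (hm : m ≤ 2 ^ σ.a) : f (pt σ.a (σ.T X) (σ.T Y) m) = g (pt σ.a (σ.T X) (σ.T Y) m) := by
  induction m with
  | zero => rwa [pt_zero]
  | succ m ih =>
    have h1 := h'.step ho' hne' (m := m) (by rw [ha]; omega)
    rw [ha, hX, hY] at h1
    rw [h1, h.step ho hne (by omega), ih (by omega)]

omit [AddCommGroup E] [Module ℝ E] in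
lemma tri_pos (i i' : Fin 3) (h : i ≠ i') : ∃ p p' q l : Fin 3, 2 ≠ p ∧ 2 ≠ p' ∧ p ≠ p' ∧ 2 ≠ q ∧
    (∀ (T : Fin 3 → E) (w : E), upd i T w p = T l ∧ upd i' T w q = T l) ∧
    ∀ b : Fin 3 → ℝ, updB i b p' = b i' - b i := by
  fin_cases i <;> fin_cases i' <;> simp at h
  · exact ⟨1, 0, 1, 2, by decide, by decide, by decide, by decide, fun _ _ => ⟨rfl, rfl⟩,
      fun _ => rfl⟩
  · exact ⟨0, 1, 1, 1, by decide, by decide, by decide, by decide, fun _ _ => ⟨rfl, rfl⟩,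
      fun _ => rfl⟩
  · exact ⟨1, 0, 1, 2, by decide, by decide, by decide, by decide, fun _ _ => ⟨rfl, rfl⟩,
      fun _ => rfl⟩
  · exact ⟨0, 1, 0, 0, by decide, by decide, by decide, by decide, fun _ _ => ⟨rfl, rfl⟩,
      fun _ => rfl⟩
  · exact ⟨1, 0, 0, 1, by decide, by decide, by decide, by decide, fun _ _ => ⟨rfl, rfl⟩,
      fun _ => rfl⟩
  · exact ⟨0, 1, 0, 0, by decide, by decide, by decide, by decide, fun _ _ => ⟨rfl, rfl⟩,
      fun _ => rfl⟩

lemma glue {σ : Nd E} (h : Cap 𝓛 σ) (ht : σ.t ≠ .leaf) (F : Ix → E → M)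
    (h1 : ∀ k ∈ idx σ.t, Pot φ (σ.ch rho0 k) (F k))
    (h2 : ∀ k ∈ idx σ.t, ∀ k' ∈ idx σ.t, ∀ x, Vtx 𝓛 x → Reg (σ.ch rho0 k).T x →
      Reg (σ.ch rho0 k').T x → F k x = F k' x) : ∃ f, Pot φ σ f := by
  classical
  refine ⟨fun x => if hx : ∃ k ∈ idx σ.t, Reg (σ.ch rho0 k).T x then F hx.choose x else 0,
    fun L hL i j => ?_⟩
  obtain ⟨k, hk, h3⟩ := (leafOf_go rho0 ht L).1 hL
  have key : ∀ i, (if hx : ∃ k ∈ idx σ.t, Reg (σ.ch rho0 k).T (L i) then F hx.choose (L i)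
      else 0) = F k (L i) := fun i => by
    have h4 := (h.ok.ch (ρ := rho0) hk).reg_leaf_vertex h3 i
    have h5 : ∃ k ∈ idx σ.t, Reg (σ.ch rho0 k).T (L i) := ⟨k, hk, h4⟩
    rw [dif_pos h5]
    exact h2 _ h5.choose_spec.1 k hk _ ⟨L, h.mem L hL, i, rfl⟩ h5.choose_spec.2 h4
  simp only [key]
  exact h1 k hk L h3 i j

lemma exists_pot (hS : Sys 𝓛)
    (hφ : ∀ L ∈ 𝓛, ∀ i j k, φ (L i) (L j) + φ (L j) (L k) = φ (L i) (L k)) (σ : Nd E) :
    Cap 𝓛 σ → ∃ f, Pot φ σ f := by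
  induction σ using @Nd.ind E _ _ rho0 with
  | _ σ ih =>
    intro h
    have hc := fun k hk => h.ch (ρ := rho0) (k := k) hk
    have h0 : ∀ k, ∃ f, k ∈ idx σ.t → Pot φ (σ.ch rho0 k) f := fun k => by
      by_cases hk : k ∈ idx σ.t
      · obtain ⟨f, hf⟩ := ih k hk (hc k hk)
        exact ⟨f, fun _ => hf⟩
      · exact ⟨0, fun h => absurd h hk⟩
    choose F hF using h0
    have hb : ∀ k x, bcf (σ.ch rho0 k).T x = chB k (bcf σ.T x) := bcf_chN h.ok.1
    have hr : ∀ k x, Reg (σ.ch rho0 k).T x ↔ NN (chB k (bcf σ.T x)) := fun k x => by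
      unfold Reg; rw [hb]
    have hsum := bcf_sum h.ok.1
    obtain ⟨t, a, T, g⟩ := σ
    cases t with
    | leaf =>
      refine ⟨φ (T 0), fun L hL i j => ?_⟩
      obtain rfl : L = T := hL
      rw [← hφ L (h.mem L rfl) 0 i j]; abel
    | tri c =>
      refine glue h (by simp) (fun k x => F k x + -F k (ctr T)) (fun k hk => (hF k hk).shift _) ?_
      intro k hk k' hk' x hv hx hx'
      obtain ⟨i, rfl⟩ := (mem_idx_tri c k).1 hk
      obtain ⟨i', rfl⟩ := (mem_idx_tri c k').1 hk'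
      by_cases hne : i = i'
      · rw [hne]
      obtain ⟨p, p', q, l, e1, e2, e3, e4, e5, e6⟩ := tri_pos (E := E) i i' hne
      obtain ⟨m, hm, rfl⟩ := exists_pt hS (hc _ hk) e1 e2 e3 hv hx (by
        rw [hb]
        change updB i _ p' = 0
        rw [e6, (sep_tri hne ((hr _ _).1 hx) ((hr _ _).1 hx')).1, sub_self])
      exact ((hF _ hk).shift _).side ((hF _ hk').shift _) (hc _ hk).ok (hc _ hk').ok e1 e4 rfl rfl
        ((e5 T _).2.trans (e5 T _).1.symm) ((add_neg_cancel _).trans (add_neg_cancel _).symm) hm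
    | quad c =>
      have h3 : ∀ j : Fin 3, ∃ y z : Fin 3, y ≠ z ∧ y ≠ j ∧ z ≠ j := by decide
      choose y z hyz hy hz using h3
      have e1 : ∀ j y z : Fin 3, y ≠ z → y ≠ j → z ≠ j → quadT none T z = quadT (some j) T y := by
        intro j y z h1 h2 h3
        simp only [quadT, sum3 T h1 h2 h3]; module
      let G : Ix → E → M := fun k x => match k with
        | .inr (some j) => F k x + (F (.inr none) (quadT (some j) T (y j)) -
            F k (quadT (some j) T (y j)))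
        | _ => F k x
      have hG : ∀ k ∈ idx (.quad c), Pot φ (Nd.ch rho0 ⟨.quad c, a, T, g⟩ k) (G k) := by
        intro k hk
        obtain ⟨i, rfl⟩ := (mem_idx_quad c k).1 hk
        rcases i with _ | j
        · exact hF _ hk
        · exact (hF _ hk).shift _
      have key : ∀ i x, Vtx 𝓛 x → Reg (Nd.ch rho0 ⟨.quad c, a, T, g⟩ (.inr i)).T x →
          Reg (Nd.ch rho0 ⟨.quad c, a, T, g⟩ (.inr none)).T x → G (.inr i) x = G (.inr none) x := by
        intro i x hv hx hx'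
        rcases i with _ | j
        · rfl
        have hk : .inr (some j) ∈ idx (.quad c) := by simp
        have hk' : .inr none ∈ idx (.quad c) := by simp
        obtain ⟨m, hm, rfl⟩ := exists_pt hS (hc _ hk) (hyz j) (hy j) (hz j) hv hx (by
          rw [hb]; exact (quad_two j ((hr _ _).1 hx') ((hr _ _).1 hx)).2)
        exact (hG _ hk).side (hG _ hk') (hc _ hk).ok (hc _ hk').ok (hyz j) (hyz j).symm rfl
          (e1 j _ _ (hyz j) (hy j) (hz j)) (e1 j _ _ (hyz j).symm (hz j) (hy j))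
          (add_sub_cancel _ _) hm
      refine glue h (by simp) G hG ?_
      intro k hk k' hk' x hv hx hx'
      obtain ⟨i, rfl⟩ := (mem_idx_quad c k).1 hk
      obtain ⟨i', rfl⟩ := (mem_idx_quad c k').1 hk'
      by_cases hne : i = i'
      · rw [hne]
      have h4 : Reg (Nd.ch rho0 ⟨.quad c, a, T, g⟩ (.inr none)).T x := by
        rcases i with _ | j
        · exact hx
        rcases i' with _ | j'
        · exact hx'
        rw [hr] at hx hx' ⊢
        exact (quad_in (hsum x) j hx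
          (quad_three (hsum x) (fun e => hne (by rw [e])) hx' hx)).1
      rw [key i x hv hx h4, key i' x hv hx' h4]

lemma Pot.bdy (hS : Sys 𝓛) {σ : Nd E} (h : Cap 𝓛 σ) {f : E → M} (hf : Pot φ σ f)
    (h0 : ∀ x y, ¬ Int σ.T x → ¬ Int σ.T y → φ x y = 0) {x : E} (hv : Vtx 𝓛 x) (hx : Reg σ.T x)
    (hn : ¬ Int σ.T x) : f x = f (σ.T 0) := by
  have h1 : ∀ X Y : Fin 3, X ≠ Y → ∀ m ≤ 2 ^ σ.a, f (pt σ.a (σ.T X) (σ.T Y) m) = f (σ.T X) := by
    intro X Y hne m hm
    obtain ⟨Z, hZ, hZ'⟩ := third X Y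
    have h2 : ∀ m, ¬ Int σ.T (pt σ.a (σ.T X) (σ.T Y) m) := fun m =>
      not_int_of_zero (z := Z) (by rw [bcf_pt h.ok.1]; simp [hZ, hZ'])
    induction m with
    | zero => rw [pt_zero]
    | succ m ih => rw [hf.step h.ok hne (by omega), ih (by omega), h0 _ _ (h2 _) (h2 _), add_zero]
  have h2 : ∀ X, f (σ.T X) = f (σ.T 0) := fun X => by
    by_cases hX : 0 = X
    · rw [hX]
    · rw [← h1 0 X hX _ le_rfl, pt_top]
  obtain ⟨Z, hz⟩ : ∃ z, bcf σ.T x z = 0 := by
    by_contra h3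
    push Not at h3
    exact hn fun j => lt_of_le_of_ne (hx j) (h3 j).symm
  obtain ⟨X, hX, -⟩ := third Z Z
  obtain ⟨Y, hY, hY'⟩ := third X Z
  obtain ⟨m, hm, rfl⟩ := exists_pt hS h hY.symm hX hY' hv hx hz
  rw [h1 X Y hY.symm m hm, h2]

/-- finitely supported cocycles on triangles are coboundaries of finitely supported functions -/
def Fill {V : Type*} (G : SimpleGraph V) (M : Type*) [AddCommGroup M] : Prop :=
  ∀ (φ : V → V → M) (A : Set V), A.Finite →
    (∀ x y z, (x = y ∨ G.Adj x y) → (y = z ∨ G.Adj y z) → (x = z ∨ G.Adj x z) →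
      φ x y + φ y z = φ x z) → (∀ x y, x ∉ A → y ∉ A → φ x y = 0) →
    ∃ f : V → M, (Function.support f).Finite ∧ ∀ x y, G.Adj x y → φ x y = f y - f x

lemma World.fill {lv : ℕ → ℕ} {B : ℕ → Tr} {N : ℕ → Nd E} (h : World lv B N) :
    Fill (Gr (allL N)) M := by
  classical
  intro φ A hA h1 h2
  have hS := seq_sys h.up
  choose n hn using fun v : VV (allL N) => seq_vtx h.up v.2
  obtain ⟨b, hb⟩ := (hA.image n).bddAbove
  have hC := seq_cap h.up (b + 1)
  have hI : ∀ w ∈ A, Int (N (b + 1)).T w.1 := fun w hw =>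
    seq_int h.up (Nat.lt_succ_of_le (hb ⟨w, hw, rfl⟩)) (hn w)
  let ψ : E → E → M := fun x y =>
    if e : Vtx (allL N) x ∧ Vtx (allL N) y then φ ⟨x, e.1⟩ ⟨y, e.2⟩ else 0
  have hψ : ∀ x y : VV (allL N), ψ x.1 y.1 = φ x y := fun x y => dif_pos ⟨x.2, y.2⟩
  obtain ⟨f, hf⟩ := exists_pot (φ := ψ) hS (fun L hL i j k => by
    have h3 : ∀ i j, (⟨L i, L, hL, i, rfl⟩ : VV (allL N)) = ⟨L j, L, hL, j, rfl⟩ ∨
        (Gr (allL N)).Adj ⟨L i, L, hL, i, rfl⟩ ⟨L j, L, hL, j, rfl⟩ := fun i j =>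
      (em _).imp id fun e => ⟨e, L, hL, ⟨i, rfl⟩, j, rfl⟩
    have h4 := h1 _ _ _ (h3 i j) (h3 j k) (h3 i k)
    rwa [← hψ, ← hψ, ← hψ] at h4) _ hC
  have h3 : ∀ x y, ¬ Int (N (b + 1)).T x → ¬ Int (N (b + 1)).T y → ψ x y = 0 := by
    intro x y hx hy
    by_cases e : Vtx (allL N) x ∧ Vtx (allL N) y
    · exact (dif_pos e).trans (h2 _ _ (fun h => hx (hI _ h)) fun h => hy (hI _ h))
    · exact dif_neg e
  have h4 : ∀ x : VV (allL N), Reg (N (b + 1)).T x.1 →
      (if Int (N (b + 1)).T x.1 then f x.1 - f ((N (b + 1)).T 0) else 0) =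
        f x.1 - f ((N (b + 1)).T 0) := fun x hx => by
    split_ifs with e
    · rfl
    · rw [hf.bdy hS hC h3 x.2 hx e, sub_self]
  refine ⟨fun x => if Int (N (b + 1)).T x.1 then f x.1 - f ((N (b + 1)).T 0) else 0,
    (finite_reg hS hC).subset fun x hx => ?_, fun x y hxy => ?_⟩
  · by_contra e
    exact hx (if_neg fun e' => e e'.reg)
  have h5 : ∀ L, LeafOf (N (b + 1)).t (N (b + 1)).T L → (∃ j, L j = x.1) → (∃ j, L j = y.1) →
      φ x y = (if Int (N (b + 1)).T y.1 then f y.1 - f ((N (b + 1)).T 0) else 0) -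
        if Int (N (b + 1)).T x.1 then f x.1 - f ((N (b + 1)).T 0) else 0 := by
    rintro L hL ⟨i, hi⟩ ⟨j, hj⟩
    rw [h4 x (hi ▸ hC.ok.reg_leaf_vertex hL i), h4 y (hj ▸ hC.ok.reg_leaf_vertex hL j), ← hψ,
      ← hi, ← hj, hf L hL]
    abel
  by_cases hx : Int (N (b + 1)).T x.1
  · obtain ⟨L, hL, e1, e2⟩ := hC.co_leaf hS hxy.2 hx
    exact h5 L hL e1 e2
  by_cases hy : Int (N (b + 1)).T y.1
  · obtain ⟨L, hL, e1, e2⟩ := hC.co_leaf hS hxy.2.symm hy
    exact h5 L hL e2 e1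
  simp only [if_neg hx, if_neg hy, sub_self]
  rw [← hψ, h3 _ _ hx hy]

end Pool.Agent.MP_295da9_pr.Th

end

section

/-! The Peierls argument. -/

namespace Pool.Agent.MP_295da9_pr.Th

open MeasureTheory ProbabilityTheory Relation
open scoped ENNReal

variable {V : Type*} {G : SimpleGraph V}

/-- adjacency inside `S` -/
def AdjIn (G : SimpleGraph V) (S : Set V) (a b : V) : Prop := G.Adj a b ∧ a ∈ S ∧ b ∈ S

/-- the component of `y` inside `S` -/
def comp (G : SimpleGraph V) (S : Set V) (y : V) : Set V := {z | ReflTransGen (AdjIn G S) y z}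

lemma reach_symm {S : Set V} {y z : V} (h : ReflTransGen (AdjIn G S) y z) :
    ReflTransGen (AdjIn G S) z y := by
  induction h with
  | refl => exact .refl
  | tail _ h ih => exact .head ⟨h.1.symm, h.2.2, h.2.1⟩ ih

lemma comp_eq {S : Set V} {y z : V} (h : z ∈ comp G S y) : comp G S y = comp G S z :=
  Set.ext fun _ => ⟨(reach_symm h).trans, ReflTransGen.trans h⟩

lemma comp_sub {S : Set V} {y : V} (hy : y ∈ S) : comp G S y ⊆ S := by
  intro z hz
  induction hz with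
  | refl => exact hy
  | tail _ h _ => exact h.2.2

lemma zero_of (hc : G.Connected) [Infinite V] (g : V → ℤ) (h1 : (Function.support g).Finite)
    (h2 : ∀ x y, G.Adj x y → g x = g y) (v : V) : g v = 0 := by
  obtain ⟨w, hw⟩ := h1.infinite_compl.nonempty
  obtain ⟨q⟩ := hc v w
  induction q with
  | nil => simpa using hw
  | cons h _ ih => rw [h2 _ _ h, ih hw]

/-- a finite set is cut off by one component of its outer boundary -/
lemma one_comp (hF : Fill G (Set V →₀ ℤ)) (hc : G.Connected) [Infinite V] {A : Set V}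
    (hA : A.Finite) {v : V} (hv : v ∈ A) {S : Set V} (hS : S = {y | y ∉ A ∧ ∃ x ∈ A, G.Adj x y}) :
    ∃ y ∈ S, ∃ A' : Set V, A'.Finite ∧ v ∈ A' ∧ (∀ x ∈ A', x ∉ comp G S y) ∧
      ∀ x ∈ A', ∀ w, G.Adj x w → w ∉ comp G S y → w ∈ A' := by
  classical
  let c : V → V → Set V →₀ ℤ := fun x y =>
    if x ∈ A ∧ y ∉ A then Finsupp.single (comp G S y) 1 else 0
  have h0 : ∀ {x y}, x ∈ A → y ∉ A → (x = y ∨ G.Adj x y) → y ∈ S := fun hx hy h =>
    hS ▸ ⟨hy, _, hx, h.resolve_left fun e => hy (e ▸ hx)⟩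
  have key : ∀ {x y z}, x ∈ A → y ∉ A → z ∉ A → (x = y ∨ G.Adj x y) → (x = z ∨ G.Adj x z) →
      (y = z ∨ G.Adj y z) → comp G S y = comp G S z := by
    rintro x y z hx hy hz h1 h2 (rfl | h3)
    · rfl
    · exact comp_eq (ReflTransGen.single ⟨h3, h0 hx hy h1, h0 hx hz h2⟩)
  have sy : ∀ {x y}, (x = y ∨ G.Adj x y) → y = x ∨ G.Adj y x := fun h => h.imp .symm .symm
  obtain ⟨f, h1, h2⟩ := hF (fun x y => c x y - c y x) A hA (fun x y z e1 e2 e3 => by
    by_cases hx : x ∈ A <;> by_cases hy : y ∈ A <;> by_cases hz : z ∈ A <;>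
      simp only [c, hx, hy, hz] <;> simp
    · rw [key hx hy hz e1 e3 e2]
    · rw [key hy hx hz (sy e1) e2 e3, neg_add_cancel]
    · rw [key hz hx hy (sy e3) (sy e2) e1])
    fun x y hx hy => by simp [c, hx, hy]
  have h3 := zero_of hc (fun w => Finsupp.degree (f w) + if w ∈ A then 1 else 0)
    ((h1.union hA).subset fun w hw => by
      by_contra h4
      simp only [Set.mem_union, Function.mem_support, not_or, not_not] at h4
      simp [h4.1, h4.2] at hw)
    (fun x y h => by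
      have h4 := congrArg Finsupp.degree (h2 x y h)
      by_cases hx : x ∈ A <;> by_cases hy : y ∈ A <;> simp [c, hx, hy] at h4 ⊢ <;> linarith) v
  obtain ⟨K, hK⟩ : ∃ K, f v K ≠ 0 := by
    by_contra h4
    push Not at h4
    simp [show f v = 0 from Finsupp.ext h4, hv] at h3
  have h4 : ∀ x y, G.Adj x y → (x ∈ S → comp G S x ≠ K) → (y ∈ S → comp G S y ≠ K) →
      f x K = f y K := fun x y h hx hy => by
    have h5 := congrArg (· K) (h2 x y h)
    by_cases hx' : x ∈ A <;> by_cases hy' : y ∈ A <;> simp [c, hx', hy'] at h5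
    · linarith
    · rw [Finsupp.single_eq_of_ne (hy (h0 hx' hy' (.inr h))).symm] at h5; linarith
    · rw [Finsupp.single_eq_of_ne (hx (h0 hy' hx' (.inr h.symm))).symm] at h5; linarith
    · linarith
  have h5 : (Function.support fun w => f w K).Finite := h1.subset fun w hw e => hw (by simp [e])
  obtain ⟨y, hy, rfl⟩ : ∃ y ∈ S, comp G S y = K := by
    by_contra h6
    push Not at h6
    exact hK (zero_of hc (fun w => f w K) h5 (fun x y h => h4 x y h (h6 x) (h6 y)) v)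
  refine ⟨y, hy, {w | f w (comp G S y) ≠ 0 ∧ w ∉ comp G S y}, h5.subset fun w hw => hw.1,
    ⟨hK, fun h => (hS ▸ comp_sub hy h).1 hv⟩, fun x hx => hx.2, fun x hx w h hw => ⟨?_, hw⟩⟩
  rw [← h4 x w h (fun _ e => hx.2 (e ▸ ReflTransGen.refl)) fun _ e => hw (e ▸ ReflTransGen.refl)]
  exact hx.1

lemma exists_tour [DecidableEq V] {S : Set V} {y s : V} {K : Finset V}
    (hK : (K : Set V) = comp G S y) (hs : s ∈ K) (n : ℕ) (hn : n + 1 ≤ K.card) :
    ∃ p : G.Walk s s, p.length = 2 * n ∧ p.support.toFinset ⊆ K ∧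
      p.support.toFinset.card = n + 1 := by
  induction n with
  | zero => exact ⟨.nil, rfl, by simpa using hs, by simp⟩
  | succ n ih =>
    obtain ⟨p, h1, h2, h3⟩ := ih (by omega)
    obtain ⟨z, hz, hz'⟩ := Finset.exists_mem_notMem_of_card_lt_card (s := p.support.toFinset)
      (t := K) (by omega)
    have h4 : (K : Set V) = comp G S s := hK.trans (comp_eq (hK ▸ hs))
    have h5 : z ∈ comp G S s := h4 ▸ hz
    obtain ⟨a, ha, b, hb, hb', hab⟩ : ∃ a ∈ p.support, ∃ b ∈ K, b ∉ p.support ∧ G.Adj a b := by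
      rw [List.mem_toFinset] at hz'
      clear hz
      induction h5 with
      | refl => exact absurd p.start_mem_support hz'
      | @tail b c h6 h7 ih =>
        by_cases hb : b ∈ p.support
        · exact ⟨b, hb, c, by rw [← Finset.mem_coe, h4]; exact h6.tail h7, hz', h7.1⟩
        · exact ih hb
    have e := p.take_spec ha
    have e1 : ((p.takeUntil a ha).append (.cons hab (.cons hab.symm (p.dropUntil a ha)))
        ).support.toFinset = insert b p.support.toFinset := by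
      ext t
      have e2 := (p.takeUntil a ha).mem_support_append_iff (t := t) (p.dropUntil a ha)
      have e3 := (p.dropUntil a ha).start_mem_support
      rw [e] at e2
      simp only [List.mem_toFinset, SimpleGraph.Walk.mem_support_append_iff,
        SimpleGraph.Walk.support_cons, List.mem_cons, Finset.mem_insert, e2]
      constructor
      · rintro (h | rfl | h | h) <;> tauto
      · tauto
    refine ⟨_, ?_, e1 ▸ Finset.insert_subset hb h2, ?_⟩
    · have e2 := congrArg SimpleGraph.Walk.length e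
      simp only [SimpleGraph.Walk.length_append, SimpleGraph.Walk.length_cons] at e2 ⊢
      omega
    · rw [e1, Finset.card_insert_of_notMem (by simpa using hb'), h3]

lemma card_walks [DecidableEq V] [G.LocallyFinite] {D : ℕ} (h : ∀ v, G.degree v ≤ D) (n : ℕ)
    (u v : V) : (G.finsetWalkLength n u v).card ≤ D ^ n := by
  induction n generalizing u with
  | zero =>
    unfold SimpleGraph.finsetWalkLength
    split_ifs with e
    · subst e; simp
    · simp
  | succ n ih =>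
    unfold SimpleGraph.finsetWalkLength
    refine (Finset.card_biUnion_le_card_mul _ _ (D ^ n) fun w _ => by
      rw [Finset.card_map]; exact ih w).trans ?_
    rw [Finset.card_univ, G.card_neighborSet_eq_degree, pow_succ']
    exact Nat.mul_le_mul_right _ (h u)

theorem peierls (hF : Fill G (Set V →₀ ℤ)) (hc : G.Connected) [Infinite V] {D : ℕ} (hD : 1 ≤ D)
    (hdeg : ∀ v, (G.neighborSet v).Finite ∧ (G.neighborSet v).ncard ≤ D) (v : V)
    (B : ℕ → Finset V) (hB : ∀ n, (B n).card ≤ D ^ (n + 1))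
    (hcl : ∀ (A : Set V) (S : Finset V) (n : ℕ), A.Finite → v ∈ A → S.card = n + 1 →
      (∀ x ∈ A, x ∉ S) → (∀ x ∈ A, ∀ w, G.Adj x w → w ∉ S → w ∈ A) → ∃ s ∈ S, s ∈ B n)
    (p : unitInterval) (hp : 4 * (D : ℝ) ^ 3 * (1 - p) ≤ 1) : 0 < setBernoulli Set.univ p
      {ω : Set V | {w | ∃ q : G.Walk v w, ∀ x ∈ q.support, x ∈ ω}.Infinite} := by
  classical
  have : G.LocallyFinite := fun v => (hdeg v).1.fintype
  have hd : ∀ v, G.degree v ≤ D := fun v => by
    rw [← G.card_neighborSet_eq_degree, ← Nat.card_eq_fintype_card]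
    exact (hdeg v).2
  set r : ℝ≥0∞ := (unitInterval.toNNReal (unitInterval.symm p) : ℝ≥0∞) with hr
  have r1 : (D : ℝ≥0∞) ^ 3 * r ≤ 4⁻¹ := by
    rw [ENNReal.le_inv_iff_mul_le, hr]
    have : (D : NNReal) ^ 3 * unitInterval.toNNReal (unitInterval.symm p) * 4 ≤ 1 := by
      rw [← NNReal.coe_le_coe]
      simp only [NNReal.coe_mul, NNReal.coe_pow, NNReal.coe_natCast, unitInterval.coe_toNNReal,
        unitInterval.coe_symm_eq, NNReal.coe_ofNat, NNReal.coe_one]
      linarith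
    exact_mod_cast this
  have D1 : (1 : ℝ≥0∞) ≤ D := by exact_mod_cast hD
  have r2 : r ≤ 4⁻¹ := le_trans (le_mul_of_one_le_left' (one_le_pow₀ D1)) r1
  let C : ℕ → Set (Set V) := fun n => ⋃ s ∈ B n, ⋃ q ∈ (G.finsetWalkLength (2 * n) s s).filter
    fun q => q.support.toFinset.card = n + 1, {ω | ∀ x ∈ q.support.toFinset, x ∉ ω}
  have h1 : ∀ n, setBernoulli Set.univ p (C n) ≤ 4⁻¹ * 2⁻¹ ^ n := fun n => by
    refine (measure_biUnion_finset_le _ _).trans ((Finset.sum_le_card_nsmul _ _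
      ((D : ℝ≥0∞) ^ (2 * n) * r ^ (n + 1)) fun s _ => ?_).trans ?_)
    · refine (measure_biUnion_finset_le _ _).trans ((Finset.sum_le_card_nsmul _ _
        (r ^ (n + 1)) fun q hq => ?_).trans ?_)
      · rw [setBer_closed, (Finset.mem_filter.1 hq).2]
      · rw [nsmul_eq_mul]
        refine mul_le_mul_left ?_ _
        exact_mod_cast (Finset.card_filter_le _ _).trans (card_walks hd _ s s)
    · rw [nsmul_eq_mul]
      calc _ ≤ (D : ℝ≥0∞) ^ (n + 1) * (D ^ (2 * (n + 1)) * r ^ (n + 1)) :=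
            mul_le_mul' (by exact_mod_cast hB n)
              (mul_le_mul_left (pow_le_pow_right₀ D1 (by omega)) _)
        _ = (D ^ 3 * r) ^ (n + 1) := by ring
        _ ≤ 4⁻¹ * 2⁻¹ ^ n := by
            rw [pow_succ']
            exact mul_le_mul' r1 (pow_le_pow_left' (r1.trans (ENNReal.inv_le_inv.2 (by norm_num))) n)
  have h2 : Set.univ ⊆ {ω : Set V | {w | ∃ q : G.Walk v w, ∀ x ∈ q.support, x ∈ ω}.Infinite} ∪
      ({ω | ∀ x ∈ ({v} : Finset V), x ∉ ω} ∪ ⋃ n, C n) := by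
    intro ω _
    by_cases hA : {w | ∃ q : G.Walk v w, ∀ x ∈ q.support, x ∈ ω}.Finite
    swap
    · exact .inl hA
    by_cases hv : v ∈ ω
    swap
    · exact .inr (.inl (by simpa using hv))
    obtain ⟨y, hy, A, a1, a2, a3, a4⟩ := one_comp hF hc hA (v := v) ⟨.nil, by simpa using hv⟩ rfl
    have hf := (hA.biUnion fun x _ => (hdeg x).1).subset ((comp_sub (G := G) hy).trans
      fun w ⟨_, x, hx, hw⟩ => Set.mem_biUnion hx hw)
    obtain ⟨n, hn⟩ : ∃ n, hf.toFinset.card = n + 1 := Nat.exists_eq_succ_of_ne_zero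
      (Finset.card_pos.2 ⟨y, hf.mem_toFinset.2 ReflTransGen.refl⟩).ne'
    obtain ⟨s, hs, hs'⟩ := hcl A hf.toFinset n a1 a2 hn (by simpa using a3) (by simpa using a4)
    obtain ⟨q, q1, q2, q3⟩ := exists_tour hf.coe_toFinset hs n hn.ge
    refine .inr (.inr (Set.mem_iUnion.2 ⟨n, Set.mem_biUnion hs' (Set.mem_biUnion
      (Finset.mem_filter.2 ⟨SimpleGraph.mem_finsetWalkLength_iff.2 q1, q3⟩) fun x hx hx' => ?_)⟩))
    obtain ⟨b1, z, ⟨w, hw⟩, b2⟩ := comp_sub hy (hf.mem_toFinset.1 (q2 hx))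
    refine b1 ⟨w.concat b2, fun t ht => ?_⟩
    rw [SimpleGraph.Walk.support_concat, List.mem_append, List.mem_singleton] at ht
    exact ht.elim (hw t) fun e => e ▸ hx'
  refine pos_iff_ne_zero.2 fun h0 => ?_
  have h3 := (measure_mono (μ := setBernoulli Set.univ p) h2).trans ((measure_union_le _ _).trans
    (add_le_add le_rfl ((measure_union_le _ _).trans (add_le_add le_rfl
      ((measure_iUnion_le _).trans (ENNReal.tsum_le_tsum h1))))))
  rw [h0, setBer_closed, ENNReal.tsum_mul_left, ENNReal.tsum_geometric_two, measure_univ,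
    Finset.card_singleton, pow_one, zero_add] at h3
  have h4 := ENNReal.toReal_mono (by finiteness) (h3.trans (add_le_add r2 le_rfl))
  rw [ENNReal.toReal_add (by finiteness) (by finiteness)] at h4
  norm_num at h4

end Pool.Agent.MP_295da9_pr.Th

end

section

/-! Triangulations of cubic growth with critical value close to, but below, one. -/

namespace Pool.Agent.MP_295da9_pr.Th

open MeasureTheory ProbabilityTheory

lemma lvOf_ge {thr : ℕ → ℕ} (h : Slow (lvOf thr)) (hm : Monotone thr) (a : ℕ) :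
    a ≤ lvOf thr (thr a + a) := by
  induction a with
  | zero => exact Nat.zero_le _
  | succ a ih =>
    have h1 := ih.trans (h.mono (Nat.add_le_add_right (hm (Nat.le_succ a)) a))
    rcases Nat.lt_or_eq_of_le h1 with h2 | h2
    · exact le_trans h2 (h.mono (Nat.le_succ _))
    · rw [← add_assoc, lvOf, ← h2, if_pos (Nat.le_add_right _ _)]

/-- exponential thresholds -/
def thr2 (c a : ℕ) : ℕ := c * (3 * (2 ^ a + 1)) + (2 * a + 3)

lemma slow2 (c : ℕ) : Slow (lvOf (thr2 c)) := lvOf_slow fun _ => Nat.le_add_left _ _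

lemma mono2 (c : ℕ) : Monotone (thr2 c) := fun a b h => by
  unfold thr2
  gcongr
  norm_num

lemma perc2 {q : ℝ} {c : ℕ} (hq : (1 / 2 : ℝ) ^ c ≤ q) (M : ℕ) : ∃ k : ℕ, M ≤ k ∧
    (M : ℝ) ≤ 2 ^ (k - lvOf (thr2 c) (k + 1)) * q ^ (3 * (2 ^ lvOf (thr2 c) (k + 1) + 1)) := by
  obtain ⟨k0, h2⟩ := lvOf_unb (slow2 c) (M + 1)
  refine ⟨max k0 M, le_max_right _ _, ?_⟩
  have h3 : M + 1 ≤ lvOf (thr2 c) (max k0 M + 1) :=
    h2.trans ((slow2 c).mono ((le_max_left k0 M).trans (Nat.le_succ _)))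
  have h4 := lvOf_thr (thr2 c) (max k0 M) (by omega)
  generalize lvOf (thr2 c) (max k0 M + 1) = a at *
  unfold thr2 at h4
  generalize max k0 M = k at *
  generalize 3 * (2 ^ a + 1) = r at *
  have h6 : (2 : ℝ) ^ (c * r + a) ≤ 2 ^ (k - a) := pow_le_pow_right₀ (by norm_num) (by omega)
  have h7 : (M : ℝ) ≤ 2 ^ a := by
    have : M ≤ 2 ^ a := by have := Nat.lt_two_pow_self (n := a); omega
    exact_mod_cast this
  calc (M : ℝ) ≤ 2 ^ (c * r + a) * ((1 / 2) ^ c) ^ r := by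
        rw [← pow_mul, pow_add, mul_right_comm, ← mul_pow]
        simpa using h7
    _ ≤ _ := mul_le_mul h6 (pow_le_pow_left₀ (by positivity) hq r) (by positivity) (by positivity)

lemma level2 (c n : ℕ) : ∃ a, n + 1 ≤ 2 ^ a ∧
    ∀ k, lvOf (thr2 c) k ≤ a → k ≤ (15 * c + 12) * (n + 1) := by
  obtain ⟨a, h1, h2⟩ : ∃ a, n + 1 < 2 ^ a ∧ 2 ^ a ≤ 2 * (n + 1) :=
    ⟨Nat.log 2 (n + 1) + 1, Nat.lt_pow_succ_log_self (by norm_num) _, by
      have := Nat.pow_log_le_self 2 (show n + 1 ≠ 0 by omega)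
      rw [pow_succ]; omega⟩
  refine ⟨a, h1.le, fun k hk => ?_⟩
  by_contra h3
  have h4 := Nat.lt_two_pow_self (n := a)
  have h5 : c * (3 * (2 ^ (a + 1) + 1)) ≤ c * (15 * (n + 1)) :=
    Nat.mul_le_mul_left c (by rw [pow_succ]; omega)
  have h6 := (lvOf_ge (slow2 c) (mono2 c) (a + 1)).trans ((slow2 c).mono
    (show thr2 c (a + 1) + (a + 1) ≤ k by unfold thr2; nlinarith))
  omega

lemma World.super {E : Type*} [AddCommGroup E] [Module ℝ E] {c : ℕ} {B : ℕ → Tr} {N : ℕ → Nd E}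
    (h : World (lvOf (thr2 c)) B N) : ∃ p : unitInterval, p < 1 ∧ ∀ v : VV (allL N),
      0 < setBernoulli Set.univ p {ω : Set (VV (allL N)) |
        {w | ∃ q : (Gr (allL N)).Walk v w, ∀ x ∈ q.support, x ∈ ω}.Infinite} := by
  obtain ⟨D, hD⟩ : ∃ D : ℕ, D = 700000000 * 54 ^ 3 * (2 ^ (15 * c + 12)) ^ 3 := ⟨_, rfl⟩
  have h0 : 1 ≤ (2 ^ (15 * c + 12)) ^ 3 := Nat.one_le_pow _ _ (by positivity)
  have h1 : (1 : ℝ) ≤ (D : ℝ) ^ 3 := one_le_pow₀ (by exact_mod_cast (by omega : 1 ≤ D))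
  have h2 : (0 : ℝ) < 1 / (4 * (D : ℝ) ^ 3) := by positivity
  have h3 : 1 / (4 * (D : ℝ) ^ 3) ≤ 1 := by rw [div_le_one (by positivity)]; linarith
  refine ⟨⟨1 - 1 / (4 * (D : ℝ) ^ 3), by linarith, by linarith⟩,
    show 1 - 1 / (4 * (D : ℝ) ^ 3) < 1 by linarith, fun v => ?_⟩
  have := h.infinite
  have h4 := fun n : ℕ => h.upper v (n := 52 * 2 ^ ((15 * c + 12) * (n + 1)) + 2) (by omega)
  refine peierls h.fill (seq_conn h.up) (D := D) (by omega) (fun w => ⟨h.locFin w, ?_⟩) v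
    (fun n => (h4 n).1.toFinset) (fun n => ?_) (fun A S n a1 a2 a3 a4 a5 => ?_) _ ?_
  · have h5 := h.upper w le_rfl
    exact (Set.ncard_le_ncard (fun _ hw => Co.near hw.2) h5.1).trans (h5.2.trans (by omega))
  · rw [← Set.ncard_eq_toFinset_card _ (h4 n).1]
    refine (h4 n).2.trans ?_
    have h5 : 1 ≤ 2 ^ ((15 * c + 12) * (n + 1)) := Nat.one_le_two_pow
    calc _ ≤ 700000000 * (54 * 2 ^ ((15 * c + 12) * (n + 1))) ^ 3 := by gcongr; omega
      _ = (700000000 * 54 ^ 3) ^ 1 * ((2 ^ (15 * c + 12)) ^ 3) ^ (n + 1) := by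
          rw [pow_mul, mul_pow, pow_right_comm, pow_one, mul_assoc]
      _ ≤ _ := by
          rw [hD, mul_pow _ _ (n + 1)]
          exact Nat.mul_le_mul_right _ (Nat.pow_le_pow_right (by norm_num) (by omega))
  · obtain ⟨a, b1, b2⟩ := level2 c n
    obtain ⟨s, hs, h5⟩ := h.close b2 a1 (a3.trans_le b1) a4 a5 a2
    exact ⟨s, hs, (h4 n).1.mem_toFinset.2 h5.symm⟩
  · simp only [sub_sub_cancel]
    rw [mul_one_div_cancel (by positivity)]

theorem main2 (p0 : unitInterval) (hp0 : p0 < 1) : ∃ (V : Type) (G : SimpleGraph V)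
    (pos : V → EuclideanSpace ℝ (Fin 2))
    (K : Geometry.SimplicialComplex ℝ (EuclideanSpace ℝ (Fin 2))),
    G.Connected ∧ Infinite V ∧ (∀ v, (G.neighborSet v).Finite) ∧
    Function.Injective pos ∧ Set.range pos = K.vertices ∧
    (∀ u v, G.Adj u v ↔ u ≠ v ∧ ∃ s ∈ K.faces,
      (s : Set (EuclideanSpace ℝ (Fin 2))) = {pos u, pos v}) ∧
    K.space = Set.univ ∧ (∀ s ∈ K.faces, ∃ t ∈ K.faces, s ⊆ t ∧ t.card = 3) ∧
    (∀ R : ℝ, {s ∈ K.faces |
      (convexHull ℝ (s : Set (EuclideanSpace ℝ (Fin 2))) ∩ Metric.ball 0 R).Nonempty}.Finite) ∧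
    (∃ c C : ℝ, 0 < c ∧ c < C ∧ ∀ n : ℕ, 1 ≤ n → ∀ v : V,
      c * (n : ℝ) ^ 3 < ({w | G.dist v w ≤ n}.ncard : ℝ) ∧
        ({w | G.dist v w ≤ n}.ncard : ℝ) < C * (n : ℝ) ^ 3) ∧
    (∀ p : unitInterval, p ≤ p0 → ∀ v : V, setBernoulli Set.univ p
      {ω : Set V | {w | ∃ q : G.Walk v w, ∀ x ∈ q.support, x ∈ ω}.Infinite} = 0) ∧
    ∃ p : unitInterval, p < 1 ∧ ∀ v : V, 0 < setBernoulli Set.univ p
      {ω : Set V | {w | ∃ q : G.Walk v w, ∀ x ∈ q.support, x ∈ ω}.Infinite} := by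
  obtain ⟨c, hc⟩ := exists_pow_lt_of_lt_one (sub_pos.2 (show (p0 : ℝ) < 1 from hp0))
    (show (1 / 2 : ℝ) < 1 by norm_num)
  obtain ⟨B, N, h, h0⟩ := exists_world (slow2 c) (lvOf_unb (slow2 c)) good_T0
  exact ⟨VV (allL N), Gr (allL N), fun u => u.1, cx (seq_sys h.up), seq_conn h.up, h.infinite,
    h.locFin, Subtype.val_injective, range_val _, adj_iff _, h.space h0, cx_pure _, h.faces h0,
    h.growth, fun p hp => h.perc p
      (perc2 (hc.le.trans (sub_le_sub_left (show (p : ℝ) ≤ p0 from hp) 1))), h.super⟩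

end Pool.Agent.MP_295da9_pr.Th

end
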